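import Mathlib
import Pool.Agent.Work.MP_086a47_lc.Defs

/-! Bundle of small proof modules (one section per former module). -/

section

/-!
# Freeze-Tag in the plane: the service calculus

`Serve x S p t`: one awake robot standing at `p` (time `0`) can wake up all the sleeping robots
with indices in the finite set `S` (robot `i` sleeps at `x i`) such that every robot of `S` is
reached at time at most `t`, by a binary tree of moves: the robot goes to some robot `i` of `S`,
and then the two robots standing at `x i` share the rest of `S`.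
-/

namespace FreezeTag

/-- one awake robot at `p` can wake up all robots in `S` within time `t` -/
inductive Serve {I : Type*} [DecidableEq I] (x : I → ℂ) : Finset I → ℂ → ℝ → Prop
  | nil (p : ℂ) (t : ℝ) : Serve x ∅ p t
  | step (p : ℂ) (t : ℝ) (i : I) (A B : Finset I) (hi : i ∉ A ∪ B) (hd : Disjoint A B)
      (hA : Serve x A (x i) (t - dist p (x i)))
      (hB : Serve x B (x i) (t - dist p (x i)))
      (ht : dist p (x i) ≤ t) :
      Serve x (insert i (A ∪ B)) p t

/-- two awake robots at `p` can wake up all robots in `S` within time `t` -/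
def Serve2 {I : Type*} [DecidableEq I] (x : I → ℂ) (S : Finset I) (p : ℂ) (t : ℝ) : Prop :=
  ∃ A B : Finset I, Disjoint A B ∧ A ∪ B = S ∧ Serve x A p t ∧ Serve x B p t

variable {I : Type*} [DecidableEq I] {x : I → ℂ}

theorem Serve.mono {S : Finset I} {p : ℂ} {t : ℝ} (h : Serve x S p t) :
    ∀ {t' : ℝ}, t ≤ t' → Serve x S p t' := by
  induction h with
  | nil p t => intro t' _; exact Serve.nil p t'
  | step p t i A B hi hd _ _ ht ihA ihB =>
    intro t' htt
    exact Serve.step p t' i A B hi hd (ihA (by linarith)) (ihB (by linarith)) (by linarith)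

theorem Serve2.mono {S : Finset I} {p : ℂ} {t t' : ℝ} (h : Serve2 x S p t) (htt : t ≤ t') :
    Serve2 x S p t' := by
  obtain ⟨A, B, hd, hu, hA, hB⟩ := h
  exact ⟨A, B, hd, hu, hA.mono htt, hB.mono htt⟩

theorem Serve2.empty (p : ℂ) (t : ℝ) : Serve2 x (∅ : Finset I) p t :=
  ⟨∅, ∅, Finset.disjoint_empty_left _, by simp, Serve.nil p t, Serve.nil p t⟩

/-- the basic move: go to `i ∈ S`, then two robots at `x i` serve the rest -/
theorem Serve.of_step {S : Finset I} {p : ℂ} {t : ℝ} {i : I} (hi : i ∈ S)
    (ht : dist p (x i) ≤ t) (h : Serve2 x (S.erase i) (x i) (t - dist p (x i))) :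
    Serve x S p t := by
  obtain ⟨A, B, hd, hu, hA, hB⟩ := h
  have h1 : i ∉ A ∪ B := by rw [hu]; exact Finset.notMem_erase i S
  have h2 := Serve.step p t i A B h1 hd hA hB ht
  rwa [hu, Finset.insert_erase hi] at h2

/-- a partition of `S` by a predicate -/
theorem Serve2.of_filter {S : Finset I} {p : ℂ} {t : ℝ} (P : I → Prop) [DecidablePred P]
    (hA : Serve x (S.filter P) p t) (hB : Serve x (S.filter (fun i => ¬ P i)) p t) :
    Serve2 x S p t :=
  ⟨S.filter P, S.filter (fun i => ¬ P i), Finset.disjoint_filter_filter_not S S P,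
    Finset.filter_union_filter_not_eq P S, hA, hB⟩

/-- one of the two robots does nothing -/
theorem Serve.two {S : Finset I} {p : ℂ} {t : ℝ} (h : Serve x S p t) : Serve2 x S p t :=
  ⟨S, ∅, Finset.disjoint_empty_right _, by simp, h, Serve.nil p t⟩

/-- one robot goes to robot `i`, the other one serves the rest -/
theorem Serve2.of_single {S : Finset I} {p : ℂ} {t : ℝ} {i : I} (hi : i ∈ S)
    (ht : dist p (x i) ≤ t) (h : Serve x (S.erase i) p t) : Serve2 x S p t := by
  refine ⟨{i}, S.erase i, ?_, ?_, ?_, h⟩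
  · rw [Finset.disjoint_singleton_left]; exact Finset.notMem_erase i S
  · ext j
    simp only [Finset.mem_union, Finset.mem_singleton, Finset.mem_erase]
    constructor
    · rintro (rfl | ⟨_, h⟩)
      · exact hi
      · exact h
    · intro h
      by_cases hj : j = i
      · exact Or.inl hj
      · exact Or.inr ⟨hj, h⟩
  · refine Serve.of_step (Finset.mem_singleton_self i) ht ?_
    simpa using Serve2.empty (x := x) (x i) (t - dist p (x i))

theorem Serve.of_singleton {p : ℂ} {t : ℝ} {i : I} (ht : dist p (x i) ≤ t) :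
    Serve x {i} p t := by
  refine Serve.of_step (Finset.mem_singleton_self i) ht ?_
  simpa using Serve2.empty (x := x) (x i) (t - dist p (x i))

/-- the service relation depends only on the positions of the robots of `S` -/
theorem Serve.congr {S : Finset I} {p : ℂ} {t : ℝ} (h : Serve x S p t) :
    ∀ {y : I → ℂ}, (∀ i ∈ S, x i = y i) → Serve y S p t := by
  induction h with
  | nil p t => intro y _; exact Serve.nil p t
  | step p t i A B hi hd _ _ ht ihA ihB =>
    intro y hy
    have hxi : x i = y i := hy i (Finset.mem_insert_self _ _)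
    have hA' := ihA (y := y) (fun j hj => hy j (Finset.mem_insert_of_mem (Finset.mem_union_left _ hj)))
    have hB' := ihB (y := y) (fun j hj => hy j (Finset.mem_insert_of_mem (Finset.mem_union_right _ hj)))
    rw [hxi] at hA' hB' ht
    exact Serve.step p t i A B hi hd hA' hB' ht

/-- isometries preserve the service relation -/
theorem Serve.map_isometry {S : Finset I} {p : ℂ} {t : ℝ} (h : Serve x S p t)
    (f : ℂ → ℂ) (hf : Isometry f) : Serve (fun i => f (x i)) S (f p) t := by
  induction h with
  | nil p t => exact Serve.nil _ t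
  | step p t i A B hi hd _ _ ht ihA ihB =>
    have hd' : dist (f p) (f (x i)) = dist p (x i) := hf.dist_eq _ _
    refine Serve.step (f p) t i A B hi hd ?_ ?_ ?_
    · simpa only [hd'] using ihA
    · simpa only [hd'] using ihB
    · simpa only [hd'] using ht

theorem Serve2.map_isometry {S : Finset I} {p : ℂ} {t : ℝ} (h : Serve2 x S p t)
    (f : ℂ → ℂ) (hf : Isometry f) : Serve2 (fun i => f (x i)) S (f p) t := by
  obtain ⟨A, B, hd, hu, hA, hB⟩ := h
  exact ⟨A, B, hd, hu, hA.map_isometry f hf, hB.map_isometry f hf⟩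

/-- scaling -/
theorem Serve.scale {S : Finset I} {p : ℂ} {t : ℝ} (h : Serve x S p t) (c : ℝ) (hc : 0 ≤ c) :
    Serve (fun i => (c : ℂ) * x i) S ((c : ℂ) * p) (c * t) := by
  induction h with
  | nil p t => exact Serve.nil _ _
  | step p t i A B hi hd _ _ ht ihA ihB =>
    have hd' : dist ((c : ℂ) * p) ((c : ℂ) * x i) = c * dist p (x i) := by
      rw [dist_eq_norm, dist_eq_norm, ← mul_sub, norm_mul, Complex.norm_real, Real.norm_eq_abs,
        abs_of_nonneg hc]
    refine Serve.step _ (c * t) i A B hi hd ?_ ?_ ?_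
    · simp only [hd']; rw [← mul_sub]; exact ihA
    · simp only [hd']; rw [← mul_sub]; exact ihB
    · simp only [hd']; exact mul_le_mul_of_nonneg_left ht hc

end FreezeTag

end

section

/-!
# Freeze-Tag, flat leaf lemma: the certificate checker

Two robots on the left side of a rectangle `a × b` can wake up every finite set of robots of the
rectangle within time `a + κ b`.  The induction step is an elimination certificate on a grid,
checked by the functions of this file (all times are natural numbers in a common unit).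
-/

namespace FreezeTag

namespace FK

/-- a grid with integer data: `m` columns of width `h`, `l` rows of height `k`, `hK ≥ κ h`,
`kK ≥ κ k`, distance table `tab` (16 bits per entry), `rep` the mask of the bottom row;
`far`: there is one more column, unbounded to the right, and `A0` is a lower bound of `a` -/
structure Lane where
  m : ℕ
  l : ℕ
  h : ℕ
  k : ℕ
  hK : ℕ
  kK : ℕ
  tab : ℕ
  rep : ℕ
  far : Bool
  A0 : ℕ

/-- position (a rectangle of grid points) and remaining times at its four corners -/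
structure St where
  i0 : ℕ
  i1 : ℕ
  j0 : ℕ
  j1 : ℕ
  t0 : ℕ
  t1 : ℕ
  t2 : ℕ
  t3 : ℕ

def ad (a b : ℕ) : ℕ := (a - b) + (b - a)

def dd (L : Lane) (i a j b : ℕ) : ℕ :=
  (L.tab >>> (16 * (ad i a * (L.l + 1) + ad j b))) % 65536

def four (L : Lane) (s : St) (a b c e : ℕ) : Bool :=
  Nat.ble (dd L s.i0 a s.j0 b + c) (s.t0 + e) && Nat.ble (dd L s.i1 a s.j0 b + c) (s.t1 + e) &&
  Nat.ble (dd L s.i0 a s.j1 b + c) (s.t2 + e) && Nat.ble (dd L s.i1 a s.j1 b + c) (s.t3 + e)

/-- mask of the rows below `y` -/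
def rowLt (L : Lane) (y : ℕ) : ℕ := (2 ^ y - 1) * L.rep

def inBox (L : Lane) (S x0 x1 y0 y1 : ℕ) : Bool :=
  Nat.ble x0 x1 && Nat.ble y0 y1 && Nat.ble y1 L.l && Nat.blt S (2 ^ (x1 * L.l)) &&
  Nat.beq (S % 2 ^ (x0 * L.l)) 0 && Nat.beq (S &&& rowLt L y0) 0 && Nat.beq (S &&& rowLt L y1) S

/-- the four sweeping directions -/
def leafD (L : Lane) (s : St) (dir x0 x1 y0 y1 : ℕ) : Bool :=
  match dir with
  | 0 => four L s x0 y0 ((x1 - x0) * L.h + (y1 - y0) * L.kK) 0 &&
         four L s x0 y1 ((x1 - x0) * L.h + (y1 - y0) * L.kK) 0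
  | 1 => four L s x1 y0 ((x1 - x0) * L.h + (y1 - y0) * L.kK) 0 &&
         four L s x1 y1 ((x1 - x0) * L.h + (y1 - y0) * L.kK) 0
  | 2 => four L s x0 y0 ((y1 - y0) * L.k + (x1 - x0) * L.hK) 0 &&
         four L s x1 y0 ((y1 - y0) * L.k + (x1 - x0) * L.hK) 0
  | _ => four L s x0 y1 ((y1 - y0) * L.k + (x1 - x0) * L.hK) 0 &&
         four L s x1 y1 ((y1 - y0) * L.k + (x1 - x0) * L.hK) 0

def leafB (L : Lane) (s : St) (S dir x0 x1 y0 y1 : ℕ) : Bool :=
  inBox L S x0 x1 y0 y1 &&
  bif Nat.ble x1 L.m then leafD L s dir x0 x1 y0 y1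
  else L.far && Nat.ble x0 L.m &&
    four L s x0 y0 ((y1 - y0) * L.kK + L.A0) (x0 * L.h) &&
    four L s x0 y1 ((y1 - y0) * L.kK + L.A0) (x0 * L.h)

def mn (a b : ℕ) : ℕ := a - (a - b)

def nt (L : Lane) (s : St) (a b : ℕ) : ℕ :=
  mn (mn (s.t0 - dd L s.i0 a s.j0 b) (s.t1 - dd L s.i1 a s.j0 b))
    (mn (s.t2 - dd L s.i0 a s.j1 b) (s.t3 - dd L s.i1 a s.j1 b))

def mkS (L : Lane) (s : St) (cx cy : ℕ) : St :=
  ⟨cx, cx + 1, cy, cy + 1, nt L s cx cy, nt L s (cx + 1) cy, nt L s cx (cy + 1),
    nt L s (cx + 1) (cy + 1)⟩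

/-- the cell is a near cell and all remaining times are positive -/
def okS (L : Lane) (s : St) (cx cy : ℕ) : Bool :=
  Nat.blt cx L.m && Nat.blt cy L.l && Nat.blt 0 (nt L s cx cy) && Nat.blt 0 (nt L s (cx + 1) cy) &&
  Nat.blt 0 (nt L s cx (cy + 1)) && Nat.blt 0 (nt L s (cx + 1) (cy + 1))

/-- mask of a cut: type 0: rows below `pos`, otherwise columns below `pos` -/
def cutM (L : Lane) (ty pos : ℕ) : ℕ :=
  match ty with
  | 0 => rowLt L pos
  | _ => 2 ^ (pos * L.l) - 1

/-- remove a cell from the mask -/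
def clr (L : Lane) (S cx cy : ℕ) : ℕ := S ^^^ (S &&& (2 ^ (cx * L.l + cy)))

/-- the checker for one robot: reads the certificate `c`, returns its unread part -/
def run (L : Lane) : ℕ → St → ℕ → ℕ → Option ℕ
  | 0, _, _, _ => none
  | n + 1, s, S, c =>
    bif Nat.beq S 0 then some c else
    bif Nat.beq (c % 2) 0 then
      bif leafB L s S (c / 2 % 4) (c / 8 % 64) (c / 512 % 64) (c / 32768 % 64) (c / 2097152 % 64)
      then some (c / 134217728) else none
    else
      bif okS L s (c / 2 % 64) (c / 128 % 64) then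
        match run L n (mkS L s (c / 2 % 64) (c / 128 % 64))
            (S &&& cutM L (c / 8192 % 2) (c / 16384 % 64)) (c / 1048576) with
        | none => none
        | some c1 =>
          match run L n (mkS L s (c / 2 % 64) (c / 128 % 64))
              (S ^^^ (S &&& cutM L (c / 8192 % 2) (c / 16384 % 64))) c1 with
          | none => none
          | some c2 => run L n s (clr L S (c / 2 % 64) (c / 128 % 64)) c2
      else none

/-- mask of the share of the second robot -/
def shM (L : Lane) (ty pos S : ℕ) : ℕ :=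
  match ty with
  | 0 => S &&& rowLt L pos
  | 1 => S ^^^ (S &&& rowLt L pos)
  | 2 => S &&& (2 ^ (pos * L.l) - 1)
  | _ => S ^^^ (S &&& (2 ^ (pos * L.l) - 1))

/-- the checker for two robots on the left side; `C` is the share of the second one -/
def top (L : Lane) (s : St) (pb pt : Bool) (fuel : ℕ) : List ℕ → ℕ → ℕ → Bool
  | [], _, _ => false
  | c :: cs, S, C =>
    match c % 4 with
    | 0 =>
      match run L fuel s (shM L (c / 4 % 4) (c / 16 % 64) S) (c / 1024) with
      | none => false
      | some _ => top L s pb pt fuel cs S (shM L (c / 4 % 4) (c / 16 % 64) S)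
    | 1 =>
      bif okS L s (c / 4 % 64) (c / 256 % 64) then
        match run L fuel (mkS L s (c / 4 % 64) (c / 256 % 64))
            ((S ^^^ (S &&& C)) &&& cutM L (c / 16384 % 2) (c / 32768 % 64)) (c / 2097152) with
        | none => false
        | some c1 =>
          match run L fuel (mkS L s (c / 4 % 64) (c / 256 % 64))
            ((S ^^^ (S &&& C)) ^^^ ((S ^^^ (S &&& C)) &&& cutM L (c / 16384 % 2) (c / 32768 % 64)))
              c1 with
          | none => false
          | some _ => top L s pb pt fuel cs (clr L S (c / 4 % 64) (c / 256 % 64)) C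
      else false
    | 2 =>
      match run L fuel s (S &&& cutM L (c / 4 % 2) (c / 8 % 64)) (c / 512) with
      | none => false
      | some c1 =>
        match run L fuel s (S ^^^ (S &&& cutM L (c / 4 % 2) (c / 8 % 64))) c1 with
        | none => false
        | some _ => true
    | _ => Nat.beq S 0 || (!L.far && Nat.blt S (2 ^ ((L.m - 1) * L.l))) ||
        (!pt && Nat.beq (S &&& rowLt L (L.l - 1)) S) || (!pb && Nat.beq (S &&& rowLt L 1) 0)

/-- bounded conjunction -/
def allN (f : ℕ → Bool) : ℕ → Bool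
  | 0 => true
  | n + 1 => f n && allN f n

/-- validity of the distance table -/
def tabOK (L : Lane) : Bool :=
  allN (fun i => allN (fun j => Nat.ble ((i * L.h) * (i * L.h) + (j * L.k) * (j * L.k))
    (dd L i 0 j 0 * dd L i 0 j 0)) (L.l + 1)) (L.m + 1)

/-- validity of the row masks -/
def repOK (L : Lane) : Bool :=
  allN (fun y => allN (fun c => allN (fun r => (rowLt L y).testBit (c * L.l + r) == Nat.blt r y)
    L.l) (L.m + 1)) (L.l + 1)

end FK

end FreezeTag

end

section

/-!
# Freeze-Tag: soundness of the elimination certificate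

`Claim v t R`: the awake robot stands at a point `∑ w a • v a` of the convex hull of the finitely
many points `v a`; then it can wake up every finite set of robots contained in `R` within time
`∑ w a * t a`.
-/

namespace FreezeTag

/-- Convex weights. -/
def Wt {α : Type} [Fintype α] (w : α → ℝ) : Prop := (∀ a, 0 ≤ w a) ∧ ∑ a, w a = 1

/-- See the header. -/
def Claim {α : Type} [Fintype α] (v : α → ℂ) (t : α → ℝ) (R : Set ℂ) : Prop :=
  ∀ (I : Type) [DecidableEq I] (x : I → ℂ) (S : Finset I), (∀ i ∈ S, x i ∈ R) →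
    ∀ w : α → ℝ, Wt w → Serve x S (∑ a, (w a : ℂ) * v a) (∑ a, w a * t a)

variable {α β : Type} [Fintype α] [Fintype β]

theorem Claim.mono {v : α → ℂ} {t t' : α → ℝ} {R R' : Set ℂ} (h : Claim v t R)
    (ht : ∀ a, t a ≤ t' a) (hR : R' ⊆ R) : Claim v t' R' := by
  intro I _ x S hS w hw
  refine (h I x S (fun i hi => hR (hS i hi)) w hw).mono ?_
  exact Finset.sum_le_sum fun a _ => mul_le_mul_of_nonneg_left (ht a) (hw.1 a)

theorem dist_comb_le (v : α → ℂ) (u : β → ℂ) (w : α → ℝ) (m : β → ℝ) (hw : Wt w) (hm : Wt m) :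
    dist (∑ a, (w a : ℂ) * v a) (∑ b, (m b : ℂ) * u b) ≤
      ∑ a, ∑ b, w a * m b * dist (v a) (u b) := by
  have h1 : (∑ a, (w a : ℂ) * v a) = ∑ a, ∑ b, (w a : ℂ) * (m b : ℂ) * v a := by
    refine Finset.sum_congr rfl fun a _ => ?_
    have : (∑ b, (m b : ℂ)) = 1 := by exact_mod_cast hm.2
    calc (w a : ℂ) * v a = (∑ b, (m b : ℂ)) * ((w a : ℂ) * v a) := by rw [this, one_mul]
      _ = ∑ b, (w a : ℂ) * (m b : ℂ) * v a := by
        rw [Finset.sum_mul]; exact Finset.sum_congr rfl fun b _ => by ring
  have h2 : (∑ b, (m b : ℂ) * u b) = ∑ a, ∑ b, (w a : ℂ) * (m b : ℂ) * u b := by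
    have : (∑ a, (w a : ℂ)) = 1 := by exact_mod_cast hw.2
    calc (∑ b, (m b : ℂ) * u b) = (∑ a, (w a : ℂ)) * ∑ b, (m b : ℂ) * u b := by
          rw [this, one_mul]
      _ = ∑ a, ∑ b, (w a : ℂ) * (m b : ℂ) * u b := by
        rw [Finset.sum_mul]
        refine Finset.sum_congr rfl fun a _ => ?_
        rw [Finset.mul_sum]; exact Finset.sum_congr rfl fun b _ => by ring
  rw [dist_eq_norm, h1, h2, ← Finset.sum_sub_distrib]
  refine (norm_sum_le _ _).trans (Finset.sum_le_sum fun a _ => ?_)
  rw [← Finset.sum_sub_distrib]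
  refine (norm_sum_le _ _).trans (Finset.sum_le_sum fun b _ => ?_)
  rw [← mul_sub, norm_mul, dist_eq_norm, norm_mul, Complex.norm_real, Complex.norm_real,
    Real.norm_eq_abs, Real.norm_eq_abs, abs_of_nonneg (hw.1 a), abs_of_nonneg (hm.1 b)]

/-- Time left after the move from `∑ w v` to `∑ m u`. -/
theorem time_left (v : α → ℂ) (t : α → ℝ) (u : β → ℂ) (s : β → ℝ) (w : α → ℝ) (m : β → ℝ)
    (hw : Wt w) (hm : Wt m) (h : ∀ a b, s b + dist (v a) (u b) ≤ t a) :
    (∑ b, m b * s b) + dist (∑ a, (w a : ℂ) * v a) (∑ b, (m b : ℂ) * u b) ≤ ∑ a, w a * t a := by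
  have h0 := dist_comb_le v u w m hw hm
  have h1 : (∑ b, m b * s b) = ∑ a, ∑ b, w a * m b * s b := by
    calc (∑ b, m b * s b) = (∑ a, w a) * ∑ b, m b * s b := by rw [hw.2, one_mul]
      _ = ∑ a, ∑ b, w a * m b * s b := by
        rw [Finset.sum_mul]
        refine Finset.sum_congr rfl fun a _ => ?_
        rw [Finset.mul_sum]; exact Finset.sum_congr rfl fun b _ => by ring
  have h2 : (∑ a, w a * t a) = ∑ a, ∑ b, w a * m b * t a := by
    refine Finset.sum_congr rfl fun a _ => ?_
    calc w a * t a = (∑ b, m b) * (w a * t a) := by rw [hm.2, one_mul]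
      _ = ∑ b, w a * m b * t a := by
        rw [Finset.sum_mul]; exact Finset.sum_congr rfl fun b _ => by ring
  have h3 : (∑ a, ∑ b, w a * m b * s b) + ∑ a, ∑ b, w a * m b * dist (v a) (u b) ≤
      ∑ a, ∑ b, w a * m b * t a := by
    rw [← Finset.sum_add_distrib]
    refine Finset.sum_le_sum fun a _ => ?_
    rw [← Finset.sum_add_distrib]
    refine Finset.sum_le_sum fun b _ => ?_
    rw [← mul_add]
    exact mul_le_mul_of_nonneg_left (h a b) (mul_nonneg (hw.1 a) (hm.1 b))
  linarith

/-- `Q` is contained in the convex hull of the points `u b`. -/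
def InHull (Q : Set ℂ) (u : β → ℂ) : Prop :=
  ∀ q ∈ Q, ∃ m : β → ℝ, Wt m ∧ q = ∑ b, (m b : ℂ) * u b

/-- One elimination step: either no robot is in `Q`, or the awake robot goes to a robot of `Q` and
the two robots there share the rest, one serves `A`, the other one `B`. -/
theorem Claim.elim {v : α → ℂ} {t : α → ℝ} {R R' Q A B : Set ℂ} {u : β → ℂ} {s : β → ℝ}
    (hQ : InHull Q u) (hR' : R ⊆ Q ∪ R') (hAB : R ⊆ A ∪ B) (hs : ∀ b, 0 ≤ s b)
    (h : ∀ a b, s b + dist (v a) (u b) ≤ t a)
    (hA : Claim u s A) (hB : Claim u s B) (hrest : Claim v t R') : Claim v t R := by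
  classical
  intro I _ x S hS w hw
  by_cases hex : ∃ i ∈ S, x i ∈ Q
  · obtain ⟨i, hi, hiQ⟩ := hex
    obtain ⟨m, hm, hq⟩ := hQ (x i) hiQ
    have htl := time_left v t u s w m hw hm h
    rw [← hq] at htl
    have hpos : 0 ≤ ∑ b, m b * s b := Finset.sum_nonneg fun b _ => mul_nonneg (hm.1 b) (hs b)
    refine Serve.of_step hi (by linarith) ?_
    refine Serve2.of_filter (fun j => x j ∈ A) ?_ ?_
    · have h1 := hA I x ((S.erase i).filter fun j => x j ∈ A)
        (fun j hj => (Finset.mem_filter.1 hj).2) m hm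
      rw [← hq] at h1
      exact h1.mono (by linarith)
    · have h1 := hB I x ((S.erase i).filter fun j => ¬ x j ∈ A) (fun j hj => by
        have hj1 := Finset.mem_filter.1 hj
        rcases hAB (hS j (Finset.mem_of_mem_erase hj1.1)) with h2 | h2
        · exact absurd h2 hj1.2
        · exact h2) m hm
      rw [← hq] at h1
      exact h1.mono (by linarith)
  · push_neg at hex
    refine hrest I x S (fun i hi => ?_) w hw
    rcases hR' (hS i hi) with h1 | h1
    · exact absurd h1 (hex i hi)
    · exact h1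

/-- Nothing to serve. -/
theorem Claim.empty {v : α → ℂ} {t : α → ℝ} : Claim v t ∅ := by
  intro I _ x S hS w hw
  have : S = ∅ := by
    rcases S.eq_empty_or_nonempty with h | ⟨i, hi⟩
    · exact h
    · exact absurd (hS i hi) (by simp)
  rw [this]; exact Serve.nil _ _

end FreezeTag

end

section

/-!
# Freeze-Tag, flat leaf lemma, `κ = 5/4`: certificates for `a ≥ 4/5`
-/

namespace FreezeTag

namespace FK

/-- 30 columns of width 1/25, 20 rows of height 1/20 -/
def laneF : Lane :=
  ⟨30, 20, 400, 500, 500, 625, 0x3d053bca3a98397238573747364535503469339132c83211316a30d430522fe22f862f3e2f0a2eeb2ee03bd43a92395a382d370c35f634ed33f1330432263158309b2fef2f552ece2e5b2dfc2db12d7c2d5b2d503aa7395f382136ed35c434a83398329631a230be2fea2f272e752dd72d4b2cd42c722c242bed2bcc2bc0397f383036eb35b03481335d3247313e30432f582e7e2db42cfd2c592bc92b4e2ae82a982a5f2a3c2a30385c370635ba34783341321730f92fe92ee72df52d142c442b872ade2a4929c9295f290c28d028ad28a0373f35e2348e3345320730d42faf2e972d8e2c952bad2ad62a13296328c9284427d72780274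2271d2710362734c23368321730d12f972e6a2d4a2c392b382a49296b28a027eb274a26c1264f25f525b4258e2580351533a9324730ee2fa02e5e2d292c012ae829df28e728022730267425cd253e24c7246a242723fe23f034093296312c2fcb2e752d2b2bed2abd299b288a278a269c25c324ff245223bd234122df2299226f22603304318a30172eaf2d502bfd2ab7297e285327392630253a2458238c22d8223d21bb2155210c20df20d0320730842f0a2d992c322ad629872844271025ed24da23db22f1221d216120be20371fcc1f7f1f501f4031112f862e042c8b2b1b29b6285d271125d324a6238a2281218d20b01feb1f411eb31e431df21dc11db030232e912d062b842a0b289d273a25e4249d2365223e212b202d1f461e781dc61d311cbb1c661c321c202f3d2da32c112a862904278c262024bf236d222a20f91fdb1ed21de01d091c4d1bb11b341ada1aa31a902e612cbf2b24299128052684250d23a2224520f71fba1e901d7c1c7f1b9d1ad71a3219ae194e191419002d8e2be52a4128a5271025852404228e21261fcc1e831d4c1c2c1b231a35196418b5182917c3178517702cc62b14296827c3262624912305218420101eaa1d541c111ae219cc18d117f5173b16a6163915f715e02c082a4f289b26ed254623a7221120851f041d921c2e1add19a1187d1774168a15c4152514b0146814502b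55299427d82622247222c921281f911e041c841b1419b418691735161d1525145013a5132812da12c02aae28e62722256423ab21f8204d1eaa1d111b841a051896173b15f714ce13c512e2122911a1114d11302a132844267924b322f121341f7f1dd11c2c1a9119041785161914c41388126d117910b1101c0fc00fa0298527b025de240f224520801ec01d071b5619ae181216831506139d124f111f10170f3c0e990e330e10290427292550237b21a91fdb1e111c4d1a9018dc173115921403128711230fdd0ebe0dcf0d190ca70c80289126b124d222f6211c1f461d741ba619de181c166314b41313118310080eaa0d710c690b9e0b1d0af0282c26472463228120a11ec31ce81b11193f177115ab13ec123910940f020d8a0c350b0f0a280994096027d725ed2404221d20371e531c711a9118b516dd150a133d11790fc00e160c820b0d09c408bd080e07d0279025a223b621ca1fdf1df51c0d1a2718421661148212a810d50f090d480b990a020892075f068d064027582568237821891f9a1dac1bbf19d217e715fe1416123210510e740ca00ad6091d0781061b051404b02730253e234c215a1f681d771b86199617a615b613c811db0ff00e070c210a41086b06a4050103b00320271825252331213e1f4a1d571b641971177e158b139811a60fb40dc30bd309e407f806110436028101902710251c232821341f401d4c1b5819641770157c138811940fa00dac0bb809c407d005dc03e801f40000,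 0x1000010000100001000010000100001000010000100001000010000100001000010000100001000010000100001000010000100001000010000100001000010000100001000010000100001, true, 8000⟩

/-- heights `0 ≤ t ≤ 1/5` -/
def certF0 : List ℕ := [
  0x580f800b0,
  0x288be0044b7c0088201,
  0x288be0044b7c0088301,
  0x288be0044b7c0088401,
  0x288be0044b7c0088501,
  0x288be0044b7c0088601,
  0x288be0044b7c0088701,
  0x288be0044b7c0088801,
  0x288be0044b7c0088901,
  0x288be0044b7c0088a01,
  0x288be0044b7c0088b01,
  0x288be0044b7c0088c01,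
  0x288be0044b7c0088d01,
  0x285be7050b380874105,
  0x285be7850b3c087c205,
  0x288be0044b7c0088305,
  0x288be0044b7c0088405,
  0x288be0044b7c0088505,
  0x288be0044b7c0088605,
  0x288be0044b7c0088705,
  0x288be0044b7c0088805,
  0x288be0044b7c0088905,
  0x288be0044b7c0088a05,
  0x288be0044b7c0088b05,
  0x288be0044b7c0088c05,
  0x288be0044b7c0088d05,
  0x285be7050b380874109,
  0x285be7850b3c087c209,
  0x285be7850b3c087c309,
  0x285be7050b380874409,
  0x285be7050b380874509,
  0x285be7050b380874609,
  0x285be6850b34086c709,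
  0x285be6850b34086c809,
  0x285be6850b34086c909,
  0x285be6050b300864a09,
  0x285be7850b3c087c20d,
  0x285be7850b3c087c30d,
  0x285be7850b3c087c40d,
  0x285be7050b38087450d,
  0x285be7050b38087460d,
  0x285be7050b38087470d,
  0x285be6850b34086c80d,
  0x285be6850b34086c90d,
  0x285be6050b300864a0d,
  0x285be6050b300864b0d,
  0x285be7850b3c087c211,
  0x285be7850b3c087c311,
  0x285be7850b3c087c411,
  0x285be7850b3c087c511,
  0x285be7050b380874611,
  0x285be7050b380874711,
  0x285be7050b380874811,
  0x285be6850b34086c911,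
  0x285be6850b34086ca11,
  0x285be6050b300864b11,
  0x285be5850b2c085cc11,
  0x285be7850b3c087c215,
  0x285be7850b3c087c315,
  0x285be7850b3c087c415,
  0x285be7850b3c087c515,
  0x285be7050b380874615,
  0x285be7050b380874715,
  0x285be7050b380874815,
  0x285be6850b34086c915,
  0x285be6850b34086ca15,
  0x285be6050b300864b15,
  0x285be6050b300864c15,
  0x285be5850b2c085cd15,
  0x285be7850b3c087c219,
  0x285be7850b3c087c319,
  0x285be7850b3c087c419,
  0x285be7850b3c087c519,
  0x285be7850b3c087c619,
  0x285be7050b380874719,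
  0x285be7050b380874819,
  0x285be7050b380874919,
  0x285be6850b34086ca19,
  0x285be6850b34086cb19,
  0x285be5850b2c085cc19,
  0x285be5050b280454d19,
  0x285be5050b280454e19,
  0x285be7050b38087431d,
  0x285be7050b38087441d,
  0x285be7850b3c087c51d,
  0x285be7050b38087461d,
  0x285be7050b38087471d,
  0x285be7050b38087481d,
  0x285be6850b34086c91d,
  0x285be6050b300864a1d,
  0x285be5850b2c085cb1d,
  0x285be5050b280454d1d,
  0x285be5050b280454e1d,
  0x285be6850b34086c521,
  0x285be6850b34086c621,
  0x285be6850b34086c721,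
  0x285be6850b34086c821,
  0x285be6050b300864921,
  0x285be5850b2c085ca21,
  0x287be105127c1091efa412260d449f04247be90489035127c0091efa412260543df442890c024682550f7d10a24300919e9543df442890c024692350f7d10a2430091a28d43df442890c024682350f7d10a24300919e8d43df402890c02429a150f7d10a2488091a48543df402890c02428a150f7d00a2430090a08543df402890c02427a150f7cf0a243008fa67d43df4028920024291f50f7d00a2280090a27d43df3c2890c023e81f50f7cf0a243008f9e7d43df3c2891e023e99d50f7cf0a247808fa47543df3c2889e023e89d50f7cf0a207808fa07543df382890c003a79d50f7ce0a247008ea66d43df382891c023a91b50f7ce0a227008ea26d43df382881c023a81b50f7cd0a243000d9e6d43df342891a023699950f7cd0a246808da46543df342889a023689950f7ce0a1e7008ea06543df382879c023a79950f7cc0a246008ca65d43df3028918023291750f7cd0a1e6808da25d43df382879c023a81750f7ce0a1e7008e9e5d43df2c28916022e99550f7cc0a1e6008ca45543df342879a023689550f7ce0a1e7008ea05543df382879c023a79550f7ca0a245000aa64d43df3028798023291350f7cd0a1e6808da24d43df382879c023a81350f7ce0a1e7008e9e4d43df2828794022a99150f7cb0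a1e5808ba44543df342879a023689150f7cd0a1e6808da04543df382879c023a79150f7ca0a1e5008aa63d43df2c28796022e90f50f7cc0a1e6008ca23d43df342879a023680f50f7cd0a1e6808d9e3d43df2828794022a98d50f7cb0a1e5808ba43543df3028798023288d50f7cd0a1e6800da03543df342879a003678d50f7cb0a1e5800ba42d43df342879a003688b50f7ce0a1e7000ea02d43df382879c003a78b50f7cc0a1e6000ca42543df382879c003a8895127c0091ef88122025449f00247be204878950f7cc0a1e6000ca41d449f00247be18488875137c0099ef8213201d44df00267be084c7875127c0091ef86122415449f00247be10488855137c0099ef8213201544df00267be084c7855127c0091ef8212220d44df00267be084c8035137c0099ef82131e0d445f00227be08449015127c0091ef8012220544df00267be004c8015137c0099ef80131e04f4,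
  0x1e53e002807c0050101,
  0x28118045013088a1640108825d400c1e2858e041e0175003098a16481098a55400c262859204262155003098a16481098655400c262859204261155003098a16481098255400c2228590042201550c30086006058c0e4d430c0218018123031350c30086006048c0a4d434c021a018143421350e30087006050e064d438c021c01814381135003098a1648109824d400c2628592042601350e30087006050e0845438c021c018143819150e30087006050e0445438c021c01814380915003088a16401088045438c021c018143810f50f30087806010f023d43cc021e018043c00f5103000800601100235440c0220018044000d512300090060112022d444c0022018044400b5123000900601120225444c00220180444009511300088060111021d444c002201804440075103000800601100015440c0020018044000350f30007806010f0004c8,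
  0x286be603407cc06810d,
  0x286be603407cc068111,
  0x286be603407cc06821d,
  0x286be603407cc068321,
  0x286be603407cc068421,
  0x286be603407cc068425,
  0x286be603407cc068525,
  0x286be603407cc068625,
  0x2863e603007cc060725,
  0x286be603407cc068529,
  0x286be603407cc068629,
  0x600f900c19f080c03e581858530a7c20500f960a0c6cc29f081403e582839930a7c20500f960a0c64c29f081403e582829930a7c20500f960a0864c29f081403e582819930a7c20500f960a0464c25f081203e582441730a7c20500f960a0e5cc29f081403e582831730b7c20580f920b0a5cc2df081603e482c21730b7c20580f920b065cc29f081403e582811730a7c20500f960a025cc21f081003e58204953097c20480f94091054c29f081403e502839530b7c20580f920b0854c2df081603e482c19530b7c20580f920b0454c29f081403e502809530a7c20500f940a0054c21f081003e50204933087c20400f9408104cc2df081603e482c19330b7c20580f920b044cc29f081403e482809330a7c20500f920a004cc2df081603e402c11130a7c20500f900a0244c29f081403e402801130a7c20500f8e0a023cc29f081403e382800f30a7c20500f8c0a0234c29f081403e302800d30a7c20500f8a0a022cc29f081403e282800b30a7c20500f880a0024c25f081203e18240073097c20480f84090014c25f081203e08240033097c20480f80090004c0,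
  0x288be0044c7c0088e01,
  0x288be0044c7c0088e05,
  0x288be0044c7c0088b09,
  0x288be0044c7c0088c09,
  0x288be0044c7c0088d09,
  0x2863e6050c300064e09,
  0x288be0044c7c0088c0d,
  0x288be0044c7c0088d0d,
  0x2863e6050c300064e0d,
  0x2863e5850c2c005cf0d,
  0x2863e5850c2c005cd11,
  0x2863e5850c2c005ce11,
  0x2863e5850c2c005cf11,
  0x2863e7050c380874115,
  0x2863e5850c2c085ce15,
  0x2863e5050c280054f15,
  0x2863e7050c380874119,
  0x2863e5050c280454f19,
  0x2863e6050c300864c1d,
  0x2863e5850c2c045cf1d,
  0x2863e5850c2c085cb21,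
  0x2863e5850c2c045cc21,
  0x2863e5850c2c045cd21,
  0x2863e5850c2c045ce21,
  0x2863e5850c2c045cf21,
  0x2863e6050c300864825,
  0x2863e5850c2c085c925,
  0x2863e5850c2c085ca25,
  0x2863e5050c280454b25,
  0x2863e5050c280454c25,
  0x2863e5050d280454d25,
  0x2863e5850c2c045ce25,
  0x2863e5850c2c045cf25,
  0x2863e5050f280454c29,
  0x2863e5850d2c045cd29,
  0x2863e5850e2c045ce29,
  0x2863e5850f2c045cf29,
  0x2863e5850f2c045cb2d,
  0x2863e5850f2c045cc2d,
  0x2863e5850f2c045cd2d,
  0x2863e6050e300464e2d,
  0x2863e6050f300464f2d,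
  0x2863e6050f30046502d,
  0x2863e6050f300464a31,
  0x2863e6050f300464b31,
  0x2863e6050f300464c31,
  0x2863e6050f300464d31,
  0x2863e6050f300464e31,
  0x2863e6850f34046cf31,
  0x2863e6850f34046d031,
  0x2863e6050f300464c35,
  0x2863e6850f34046cd35,
  0x2863e6850f34046ce35,
  0x2863e6850f34046cf35,
  0x2863e7050f380475035,
  0xa1ef841449f04247be90489835127c1091efa412240d449f00247be904898150f7d10a2428091a09543df442890a02467a550f7d10a2428091a48d43df442890a02468a350f7d10a2428091a08d43df442890a02467a350f7d00a2428090a68543df4428922024692150f7d00a2428090a28543df402890a024282150f7d00a24280909e8543df3c2890a023e99f50f7d00a2480090a47d43df40288a0024289f50f7cf0a242800fa07d43df3c2890a003e79f50f7cf0a247808fa67543df3c2891e023e91d50f7cf0a227808fa27543df3c2881e023e81d50f7ce0a242800e9e7543df382891c023a99b50f7ce0a247008ea46d43df382889c023a89b50f7ce0a227008ea66543df382889c023a91950f7ce0a227008ea26543df382889c023a99750f7ce0a227008ea45d43df382889c023a89750f7ce0a227008ea65543df382889c023a91550f7ce0a227008ea25543df382881c023a8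1550f7cc0a206008ca64d43df342881a023691350f7ce0a207008ea24d43df382881c023a81350f7cc0a206008ca64543df342881a023691150f7ce0a207008ea24543df382881c023a81150f7cb0a205808ba63d43df342881a023690f50f7ce0a207008ea23d43df382881c023a80f50f7cb0a205808ba63543df3028818003290d50f7ce0a207000ea23543df382881c003a80d50f7cb0a205800ba62d43df342881a003690b50f7ce0a207000ea22d43df382881c003a80b50f7ce0a207000ea42543df382881c003a8895127c0091ef8812202543df382881c003a9075127c0091ef8612221d44df00267be084c8075127c0091ef86122415449f00247be10488855137c0099ef8213201544df00267be084c7855127c0091ef8212220d44df00267be084c8035137c0099ef82131e0d445f00227be08449015127c0091ef8012220544df00267be004c8015137c0099ef80131e04f4,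
  0x1e4be502407c0048001,
  0x1e4be502407c1048005,
  0x1e4be502407c2048009,
  0x1e4be502407c304800d,
  0x1e53e502807c4050011,
  0x1e53e502807c5050015,
  0x1e53e502807c6050019,
  0x1e53e502807c705001d,
  0x1e53e502807c705011d,
  0x1e53e502807c8050021,
  0x1e53e502807c8050121,
  0x1e5be502c07c8058221,
  0x1e53e502807c9050025,
  0x1e53e502807c9050125,
  0x1e5be502c07c9058225,
  0x1e5be502c07c9058325,
  0x1e53e502807ca050029,
  0x1e53e502807ca050129,
  0x1e5be502c07ca058229,
  0x1e5be502c07ca058329,
  0x1e63e703007ca060429,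
  0x1e53e502807ca050729,
  0x1e4be502407ca048829,
  0x1e43e502007cb040929,
  0x1e33e501807cb030a29,
  0x1e53e502807cb05002d,
  0x1e53e502807cb05012d,
  0x1e5be502c07cb05822d,
  0x1e5be502c07cb05832d,
  0x1e5be502c07cb05842d,
  0x1e5be502c07cb05852d,
  0x1e5be502c07cb05862d,
  0x1e53e502807cb05072d,
  0x1e4be502407cb04882d,
  0x1e43e502007cc04092d,
  0x1e3be501c07cc038a2d,
  0x1e53e502807cc050031,
  0x1e53e502807cc050131,
  0x1e5be502c07cc058231,
  0x1e5be502c07cc058331,
  0x1e5be502c07cc058431,
  0x1e5be502c07cc058531,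
  0x1e5be502c07cc058631,
  0x1e53e502807cc050731,
  0x1e4be502407cc048831,
  0x1e43e502007cd040931,
  0x1e5be502c07cd058135,
  0x1e5be502c07cd058235,
  0x1e5be502c07cd058335,
  0x1e5be502c07cd058435,
  0x1e5be502c07cd058535,
  0x1e5be502c07cd058635,
  0x1e53e502807cd050735,
  0x1e4be502407cd048835,
  0x1e43e502007cd040935,
  0x1e33e501807cd030a35,
  0x1e5be502c07cd058239,
  0x1e5be502c07cd058339,
  0x1e5be502c07cd058439,
  0x1e5be502c07cd058539,
  0x1e5be502c07cd058639,
  0x1e53e502807cd050739,
  0x1e4be502407cd048839,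
  0x1e3be501c07cd038939,
  0x1e5be502c07cd05833d,
  0x1e5be502c07cd05843d,
  0x1e5be502c07cd05853d,
  0x1e53e502807cd05063d,
  0x1e4be502407cd04873d,
  0x1e43e502007cd04083d,
  0x1e53e502807cd050441,
  0x1e53e502807cd050541,
  0x1e4be502407cd048641,
  0x1c03e683867ca0300f9a061654e0,
  0x2893e0048e7c0090f01,
  0x288be0044e7c0089001,
  0x2893e0048e7c0090f05,
  0x288be0044e7c1089005,
  0x288be0044e7c2089105,
  0x2893e0048e7c0090f09,
  0x288be0044e7c2089009,
  0x2873e70510380075109,
  0x2873e7051038007500d,
  0x2873e7051038007510d,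
  0x2873e70510380075011,
  0x2873e70510380075111,
  0x2873e70510380075015,
  0x2873e70510380075115,
  0x2873e6851034006d215,
  0x2873e70510380075019,
  0x2873e70510380075119,
  0x2873e60510300065219,
  0x2873e7051038047501d,
  0x2873e7051038047511d,
  0x2873e6851034046d21d,
  0x2873e70510380475021,
  0x2873e70510380475121,
  0x2873e6851034046d221,
  0x2873e70510380475025,
  0x2873e70510380475125,
  0x2873e6851034046d225,
  0x2873e70510380474b29,
  0x2873e70510380475029,
  0x2873e70511380475129,
  0x2873e70511380475229,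
  0x2873e70511380475329,
  0x2873e7051138047512d,
  0x2873e7051138047522d,
  0x2873e7051138047532d,
  0x2873e70511380475131,
  0x2873e70511380475231,
  0x2873e70511380475331,
  0x2873e70511380474b35,
  0x2873e70511380475135,
  0x2873e70511380475235,
  0x2873e70511380474a39,
  0x2873e70511380474b39,
  0x2873e70511380474c39,
  0x2873e70511380474d39,
  0x2873e70511380474e39,
  0x2873e70511380474f39,
  0x2873e785103c047d039,
  0x2873e785113c047d139,
  0x2873e785113c047d239,
  0x2873e6851128046c93d,
  0x2873e6851128046ca3d,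
  0x2873e70511380474b3d,
  0x2873e70511380474c3d,
  0x2873e70511380474d3d,
  0x2873e785113c047ce3d,
  0x2873e785113c047cf3d,
  0x2873e785113c047d03d,
  0x2873e8051140048513d,
  0x2873e785113c047d23d,
  0x2873e6851128046c941,
  0x2873e6851128046ca41,
  0x2873e6851128046cb41,
  0x2873e6851128046cc41,
  0x2873e6851128046cd41,
  0x2873e70511380474e41,
  0x2873e70511380474f41,
  0x2873e70511380475041,
  0x2873e785113c047d141,
  0x2873e6851128046cc45,
  0x2873e6851128046cd45,
  0x2873e6851128046ce45,
  0x2873e6851128046cf45,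
  0x287be105127c1091efa212260d449f04247be88489035127c0091efa2122605449f00247be88489015127c0091ef80122204f4,
  0x1e53e882807cd050035,
  0x1e53e882807ce050039,
  0x1e5be882c07ce058139,
  0x1e53e882807cf05003d,
  0x1e5be882c07cf05813d,
  0x1e5be882c07cf05823d,
  0x1e53e882807d0050041,
  0x1e5be882c07d0058141,
  0x1e5be882c07d0058241,
  0x1e5be882c07d0058341,
  0x1e5be882c07d0058741,
  0x1e4be882407d0048841,
  0x1e53e882807d1050045,
  0x1e5be882c07d1058145,
  0x1e5be882c07d1058245,
  0x1e5be882c07d1058345,
  0x1e63e903007d1060445,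
  0x1e63e903007d1060545,
  0x1e63e903007d1060645,
  0x1e5be882c07d1058745,
  0x1e53e882807d1050845,
  0x1e4be882407d2048945,
  0x1e43e882007d2040a45,
  0x1e33e881807d2030b45,
  0x1e53e902807d2050049,
  0x1e5be902c07d2058149,
  0x1e5be902c07d2058249,
  0x1e5be902c07d2058349,
  0x1e63e903007d2060449,
  0x1e63e903007d2060549,
  0x1e63e903007d2060649,
  0x1e5be902c07d2058749,
  0x1e53e902807d2050849,
  0x1e4be902407d3048949,
  0x1e43e902007d3040a49,
  0x1e3be901c07d3038b49,
  0x1e53e902807d305004d,
  0x1e5be902c07d305814d,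
  0x1e5be902c07d305824d,
  0x1e5be902c07d305834d,
  0x1e63e903007d306044d,
  0x1e63e903007d306054d,
  0x1e63e903007d306064d,
  0x1e5be902c07d305874d,
  0x1e53e902807d305084d,
  0x1e4be902407d404894d,
  0x1e43e902007d4040a4d,
  0x1e3be901c07d4038b4d,
  0x1e53e902807d4050051,
  0x1e5be902c07d4058151,
  0x1e5be902c07d4058251,
  0x1e5be902c07d4058351,
  0x1e63e903007d4060451,
  0x1e63e903007d4060551,
  0x1e63e903007d4060651,
  0x1e5be902c07d4058751,
  0x1e53e902807d4050851,
  0x1e4be902407d5048951,
  0x1e43e902007d5040a51,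
  0x1e3be901c07d5038b51,
  0x1e5be902c07d5058155,
  0x1e5be902c07d5058255,
  0x1e5be902c07d5058355,
  0x1e63e903007d5060455,
  0x1e63e903007d5060555,
  0x1e63e903007d5060655,
  0x1e5be902c07d5058755,
  0x1e53e902807d5050855,
  0x1e4be902407d5048955,
  0x1e43e902007d5040a55,
  0x1e33e901807d5030b55,
  0x1e5be902c07d5058259,
  0x1e5be902c07d5058359,
  0x1e5be902c07d5058459,
  0x1e63e903007d5060559,
  0x1e5be902c07d5058659,
  0x1e53e902807d5050759,
  0x1e4be902407d5048859,
  0x1e43e902007d5040959,
  0x1e3be901c07d5038a59,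
  0x1e5be902c07d505835d,
  0x1e5be902c07d505845d,
  0x1e5be902c07d505855d,
  0x1e5be902c07d505865d,
  0x1e53e902807d505075d,
  0x1e4be902407d504885d,
  0x1e3be901c07d503895d,
  0x1e53e902807d5050461,
  0x1e5be902c07d5058561,
  0x1e53e902807d5050661,
  0x1e4be902407d5048761,
  0x1e43e902007d5040861,
  0x700fa40e0,
  0x288be0044e7d1089101,
  0x2893e0048e7d1091201,
  0x2893e0048e7d1091205,
  0x2893e0048e7d1091209,
  0x2873e8851244008d211,
  0x2873e70512380475321,
  0x2873e785123c047d325,
  0x2873e80512400485335,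
  0x2873e80512400485339,
  0x2873e8851244048d241,
  0x2873e7851220047d045,
  0x2873e80512400485145,
  0x2873e7851220047d245,
  0x2873e7851220047cc49,
  0x2873e7851220047cd49,
  0x2873e7851220047ce49,
  0x2873e7851220047cf49,
  0xa1ef841449f04247be90489835127c0091efa4122604f4,
  0x1e33e981807d5030c4d,
  0x1e33e981807d5030c51,
  0x1e53e982807d5050055,
  0x1e5be982c07d6058159,
  0x1e33e981807d6030b59,
  0x1e5be982c07d605825d,
  0x1e3be981c07d6038a5d,
  0x1e5be982c07d6058361,
  0x1e3be981c07d6038961,
  0x1e53e982807d6050465,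
  0x1e5be982c07d6058565,
  0x1e53e982807d6050665,
  0x1e4be982407d6048765,
  0x1e43e982007d6040865,
  0x287be105127c1091efa412260d449f00247be90489813c07d307a]

/-- heights `1/5 ≤ t ≤ 1/2` -/
def certF1 : List ℕ := [
  0x2863e105127c10918fa612260d449f042463e98489035117c00898fa6112605449f002463e984890150c7d20a2490092a49d431f4828924024a8a750c7d10a2488091a09d431f402892002427a750c7d00a24800909c9d431f3c2891e023e6a750c7d30a2498093a495431f4828924024a8a550c7d20a2490092a095431f4828924024a7a550c7d10a24880919c95431f442892202466a550c7d00a24800909895431f4828924024a92350c7d20a2290092a28d431f4428922024682350c7d10a24880919e8d431f4428922024672350c7d10a24880919a8d431f4428922024662350c7d10a2488091a485431f44288a202468a150c7d10a2088091a085431f402892002427a150c7d00a24800909c85431f402892002426a150c7d00a24800909885431f4028920024291f50c7d00a2280090a27d431f4028820024281f50c7d00a1e800909e7d431f3c2891e023e71f50c7cf0a247808f9a7d431f3c2891e023e61f50c7cf0a247808fa475431f3c2889e023e89d50c7cf0a207808fa075431f3c2879e023e79d50c7ce0a247008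e9c75431f382891c023a69d50c7ce0a247008e9875431f382891c023a91b50c7ce0a227008ea26d431f382881c023a81b50c7ce0a1e7008e9e6d431f382871c023a71b50c7cd0a246800d9a6d431f342891a003661b50c7cd0a246808da465431f342889a023689950c7cd0a206808da065431f342879a023679950c7cd0a1c6808d9c65431f342869a023669950c7cc0a246000c9865431f3028898003289750c7cc0a206000ca05d431f342861a023679750c7cd0a186808d9c5d431f342861a023669750c7cd0a186808d985d431f2c28896002e89550c7cc0a186008ca055431f382861c023a79550c7ce0a187008e9c55431f342861a023669550c7cd0a186808d9855431f2c28616022e89350c7cc0a186008ca04d431f382861c023a79350c7ce0a187008e9c4d431f382861c023a69350c7cd0a186808d984d431f2c28616022e89150c7cc0a186008ca045449f002463e40487915127c00918f90121c45449f002463e40486915127c00918f90121845449f002463e384888f5127c00918f8e12203d449f002463e384878f5127c00918f8e121c3d449f002463e384868f5127c00918f8e12183d449f002463e384890d5127c00918f8c122235449f002463e304880d5127c00918f8c121e35449f002463e304870d5127c00918f8c121a35449f002463e304860d5117c00898f8c11242d449f002463e2848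88b5127c00918f8a12202d449f002463e284878b5127c00918f8a121c2d449f002463e284868b5127c00918f8a12182d445f002263e28449095127c00918f88122225449f002463e20488095127c00918f88121e25449f002463e20487095127c00918f88121a25449f002463e20486095107c00818f8810241d445f002263e20448875127c00918f8612201d449f002463e18487875127c00918f86121c1d449f002463e18486875127c00918f8612181d441f002063e18409055117c00898f86112215449f002463e10488055127c00918f84121e1544df002663e004c7055137c00998f80131a1544df002663e004c6055117c00898f8411220d449f002463e08488035127c00918f82121e0d44df002663e004c7035137c00998f80131a0d44df002663e004c6035107c00818f82102205445f002263e00448015137c00998f80131e0544df002663e004c7015137c00998f80131a0544df002663e004c6013007c0062]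

set_option maxRecDepth 100000 in
theorem tabF : tabOK laneF = true := by decide +kernel

set_option maxRecDepth 100000 in
theorem repF : repOK laneF = true := by decide +kernel

set_option maxRecDepth 100000 in
theorem chkF0 : top laneF ⟨0, 0, 0, 4, 20500, 20500, 20500, 20500⟩ true false 1000 certF0
    (2 ^ ((laneF.m + 1) * laneF.l) - 1) 0 = true := by decide +kernel

set_option maxRecDepth 100000 in
theorem chkF1 : top laneF ⟨0, 0, 4, 10, 20500, 20500, 20500, 20500⟩ false false 1000 certF1
    (2 ^ ((laneF.m + 1) * laneF.l) - 1) 0 = true := by decide +kernel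

end FK

end FreezeTag

end

section

/-!
# Freeze-Tag, flat leaf lemma, `κ = 5/4`: certificates for `1/5 ≤ a ≤ 4/5`
-/

namespace FreezeTag

namespace FK

/-- 12 columns, `a = 1/5` -/
def laneB1 : Lane :=
  ⟨12, 16, 160, 600, 200, 750, 0x263f23f321a91f611d1c1ada189c16641432120b0ff00dea0c020a4808d907dc0780262023d321871f3d1cf41aaf186d163013f911ca0fa80d970ba109d60853074406e0260523b621681f1b1cd01a881842160113c4118f0f640d480b45096907d006ad064025ec239b214b1efc1caf1a64181b15d5139411580f260d000aef09020753061805a025d5238321311ee11c911a4317f815ae136811270eed0cbe0aa008a106db0586050025c2236e211b1ec81c771a2717d8158b134110fb0ebb0c830a590848066a04f7046025b0235c21071eb31c601a0e17bd156d132010d50e8e0c4e0a1907f80601046d03c025a2234c20f71ea11c4d19f917a61553130310b40e680c2109e207b205a303e803202596233f20e91e931c3d19e71793153e12eb10990e490bfc09b407770550036e0280258c233520de1e871c3019da1784152e12d810840e300bdf09900747050d030101e02586232e20d71e7f1c2819d01779152212cb10750e1f0bca0976072504da02a801402582232a20d21e7a1c2219ca1773151b12c3106c0e140bbd0966071004bb026d00a02580232820d01e781c2019c81770151812c010680e100bb80960070804b002580000,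 0x1000100010001000100010001000100010001000100010001, false, 0⟩

/-- 12 columns, `a = 4/5` -/
def laneB2 : Lane :=
  ⟨12, 16, 640, 600, 800, 750, 0x30062e382c762ac32920278f261224ad23612232212220361f6f1ed11e5e1e181e002e812ca32ad0290c275625b2242222a9214920061ee41de51d0e1c631be61b9a1b802d122b242941276a25a223ea224520b61f401de81cb01b9d1ab419f91970191d19002bbc29be27ca25e124052238207e1ed81d4a1bd91a89195f1860179316fc16a016802a802873266e2473228320a21ed01d121b6b19df1873172f16171534148b14241400296227462530232421201f291d411b6919a617fd1674151013db12dd121e11a8118028642639241521f61fe01dd41bd419e31803163b1490130911b110910fb80f2f0f0027882550231d20ef1ec81ca71a901885168914a112d111230fa00e580d5a0cb80c8026d0248e224e20121dda1ba8197c17591540133711420f680db60c3a0b0c0a460a00263f23f321a91f611d1c1ada189c16641432120b0ff00dea0c020a4808d907dc078025d5238321311ee11c911a4317f815ae136811270eed0cbe0aa008a106db058605002596233f20e91e931c3d19e71793153e12eb10990e490bfc09b407770550036e02802580232820d01e781c2019c81770151812c010680e100bb80960070804b002580000,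 0x1000100010001000100010001000100010001000100010001, false, 0⟩

/-- heights `0 ≤ t ≤ 1/8` -/
def certB0 : List ℕ := [
  0x50060b0a20c100a01856204892883040280615881024a1cc100a018501c389287303028061587121ca1cc0c0a018561c4072873030280614070e1ca1cc080a018561c4852873020280615871014a1cc080a018501c385287301028061587120ca1cc040a018561c4032873010280614070e0ca1cc000a018561c4812873000280615871004a00c2b14390022a41728030ac50e4008a8e5ca00c2b14390022a31728030ac50e4008a8a5ca00c2b14390022a49528030ac50e4008a9054a00c2b14390022a39528030ac50e4008a8c54a00c2b14390022a29528030a850e4008a8854a00c2a14390022a19528030ac50e5008a924ca00c2b14394022a41328030ac50e5008a8e4ca00c2b14314022a313280309c50e400898a4ca00c26143900226213280309850e40089864ca00c26143900226113280309850e40089824ca00c1e1438e021e013280309c50e480899244a00c27143920226411280309c50e480898e44a00c27143120226311280309c50a480898a44a00c22143900222211280308850e400888644a00c22143900222111280308850e400888244a00c22143900222011280308c50e40088903ca00c2314390002238f280308c50e400088e34a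00c2314310002230d280308c50a400888a34a00c2214210022220d280308c508400888e2ca00c2314210002230b280308c508400088a2ca00c2214210002220b280308850640088862ca10c00080182810381280308c506400888c3ca00c2314190022228f280308850640088883ca00c1e1418e021e18f280306850630086843ca00c1a1418c041a08f280305850e28005803ca00c1e1418e021e18d2803068506300868434a00c1a1418c021a08d2803068506301068034a00c1a1410c021a10b280307850038107822ca00c1e1400e041e00b286300030060b860c24a1cc000e018201c2892873000380608070824a1cc000e018201c1892873000380608070424a1cc000e018201c0892803088500401088024a14c000a01820143072863000300606060a1ca1cc000e018181c207287300038060607061ca1cc000e018181c107287300038060607021ca1cc000e018181c0072853000280606050c14a18c000c01810182852873000380604070814a1cc000e018101c1852873000380604070414a1cc000e018101c0852873000380604070014a14c000a01810143032863000300602060a0ca1cc000e018081c203288300040060008060ca20c00100180020103288300040060008020ca1cc000e018081c0032853000280602050c04a18c000c01800182812873000380600070804a20c001001800201812883000400600080404a20c001001800200812873000380600070004a0,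
  0x205184440a200844001,
  0x207180038a300070101,
  0x207180038a300070201,
  0x207180038a300070301,
  0x207180038a300070401,
  0x207180038a300070501,
  0x207180038a300070601,
  0x207180038a300070701,
  0x207180038a300070801,
  0x207180038a300070901,
  0x207180038a300070a01,
  0x207180038a300070b01,
  0x206980034a300068c01,
  0x205184440a200844005,
  0x205184c40a24084c105,
  0x205184c40a24084c205,
  0x207180038a300070305,
  0x207180038a300070405,
  0x207180038a300070505,
  0x207180038a300070605,
  0x207180038a300070705,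
  0x207180038a300070805,
  0x207180038a300070905,
  0x207180038a300070a05,
  0x205184440a200844009,
  0x205184c40a24084c109,
  0x205184c40a24084c209,
  0x205184c40a24084c309,
  0x205184c40a24084c409,
  0x205184440a200844509,
  0x205184440a200844609,
  0x205184440a200844709,
  0x205184440a200844809,
  0x205184440a20084400d,
  0x205184440a20084410d,
  0x205184c40a24084c20d,
  0x205184c40a24084c30d,
  0x205184c40a24084c40d,
  0x205184c40a24084c50d,
  0x205184c40a24084c60d,
  0x205184440a20084470d,
  0x205184440a20084480d,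
  0x205184440a20084490d,
  0x205183c40a1c083c011,
  0x205184440a200844111,
  0x205184440a200844211,
  0x205184440a200844311,
  0x205184c40a24084c411,
  0x205184c40a24084c511,
  0x205184440a200844611,
  0x205184440a200844711,
  0x205184440a200844811,
  0x205183c40a1c083c911,
  0x205183440a180834015,
  0x205183440a180834115,
  0x205183c40a1c083c215,
  0x205183c40a1c083c315,
  0x205183c40a1c083c415,
  0x205183c40a1c083c515,
  0x205183c40a1c083c615,
  0x205183c40a1c083c715,
  0x205183440a180834815,
  0x205183440a180834915,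
  0x205183440a180834219,
  0x205183440a180834319,
  0x205183440a180834419,
  0x205183440a180834519,
  0x205183440a180834619,
  0x205183440a180834719,
  0x205182c40a14082c31d,
  0x205182c40a14082c41d,
  0x205182c40a14082c51d,
  0x205182c40a14082c61d,
  0x802381100071220588041200d40a1c0850038d8a141d0287021400e362850540a1c085003858a121478,
  0x206983c340307868019,
  0x206183c300307860119,
  0x204183c200307c40819,
  0x206983c34030786801d,
  0x206183c30030786011d,
  0x205983c2c030785821d,
  0x204983c240307c4871d,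
  0x204983c240307c4881d,
  0x204983c240308c4891d,
  0x2001854400287854021,
  0x206183c300307860121,
  0x205983c2c0307858221,
  0x205183c280308850321,
  0x205183c280308850421,
  0x205183c280308c50521,
  0x205183c280308c50621,
  0x205183c280308c50721,
  0x205183c280308c50821,
  0x205183c280308c50921,
  0x205183c280309850225,
  0x205183c280309850325,
  0x205183c280309850425,
  0x205183c280309c50525,
  0x205183c280309c50625,
  0x205183c280309c50725,
  0x205183c280309c50825,
  0x205183c280309c50925,
  0x205183c280309850429,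
  0x205183c280309c50529,
  0x205183c280309c50629,
  0x205183c280309c50729,
  0x205183c280309c50829,
  0x205183c280309c50929,
  0x200984c40030b88165930b805d028c26140185e2851540b30985806150b0655034c261a0184c3411540d30986806130d0255038c261c0184c38015409309848061589144d03cc241e0184c3c09340f30907806130f004c9c,
  0x2069200349241068b05,
  0x2071200389240070909,
  0x2071200389240070a09,
  0x2069200349241068b09,
  0x2069200349241068a0d,
  0x2069200349241068b0d,
  0x2069202349241068a11,
  0x2069202349241068b11,
  0x2069202349241068a15,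
  0x2069202349241468b15,
  0x2069202349241468919,
  0x207120238a240470a19,
  0x207120238a240470b19,
  0x206920234a241468c19,
  0x205123e40c1c043cd19,
  0x207120238a240470a1d,
  0x207120238a240470b1d,
  0x206920234a241468c1d,
  0x205123e40c1c043cd1d,
  0x207120238a240470a21,
  0x207120238b240470b21,
  0x20792023cc240478c21,
  0x20792023cc240478d21,
  0x207120238c180470e21,
  0x20792023cc200478a25,
  0x20792023cc200478b25,
  0x20792023cc200478c25,
  0x207120238c180470d25,
  0x207120238c180470e25,
  0x206980040c30a081e1808a985d030c2a20786022a71540c30bc81c5800b9c0d030c2820706022a69540c30ac81c2800a9e25030c2b2070a002a78740c30ac81c2800a9c1d030c272070a022679340c309c81c380899e35030c272070e022678b40c309c81c380099c25030c2b20714002a70540e30007186140e1c05030c242070e022661540c309c81c480899e45030c2720712022678f40c309c81c480899c3d030c2720712022670d40c309c81c480899c2d030c2020690022268b40c307081838087982d030c1c2060e021e68940c3070818380879825030c1c2060e001e68740c307081838007981d030c1c2060e001e68540c3070818380079815038c001c618083868340f30007986000f180d038c001c6180038681300309862]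

/-- heights `1/8 ≤ t ≤ 1/2` -/
def certB1 : List ℕ := [
  0x480600090,
  0x2069800349300068401,
  0x2071800389300070501,
  0x2071800389300070601,
  0x2071800389300070701,
  0x2071800389300070801,
  0x2071800389300070901,
  0x2071800389300070a01,
  0x2071800389300070b01,
  0x2061800309301060c01,
  0x2049844409200844305,
  0x2049844409200844405,
  0x2071800389300070505,
  0x2071800389300070605,
  0x2071800389300070705,
  0x2071800389300070805,
  0x2071800389300070905,
  0x2071800389300070a05,
  0x2069800349301068b05,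
  0x2069800349301068c05,
  0x204983c4091c083c209,
  0x2049844409200844309,
  0x204984c40924084c409,
  0x2069800349302068509,
  0x2071800389300070609,
  0x2071800389300070709,
  0x2071800389300070809,
  0x2071800389300070909,
  0x2069800349302068a09,
  0x2069800349302068b09,
  0x2069800349302068c09,
  0x204983c4091c083c20d,
  0x204984440920084430d,
  0x204984c40924084c40d,
  0x204984c40924084c50d,
  0x204984c40924084c60d,
  0x204984c40924084c70d,
  0x204984440920084480d,
  0x204984440920084490d,
  0x204983c4091c083c311,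
  0x2049844409200844411,
  0x204984c40924084c511,
  0x204984c40924084c611,
  0x204984c40924084c711,
  0x2049844409200844811,
  0x2049844409200844911,
  0x204983c4091c083ca11,
  0x2049834409180834315,
  0x204983c4091c083c415,
  0x2049844409200844515,
  0x2049844409200844615,
  0x204983c4091c083c715,
  0x204983c4091c083c815,
  0x2049834409180834915,
  0x204983440a180834419,
  0x204983440a180834519,
  0x204983440a180834619,
  0x204983440a180834719,
  0x204983440a180834819,
  0x204983440a180834919,
  0x204982c40a14082c41d,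
  0x204982c40a14082c51d,
  0x204982c40a14082c61d,
  0x204982c40a14082c71d,
  0x204982c40a14082c81d,
  0x204982c40a14042c91d,
  0x206180040b30a081c2808a965d028c282070a022a51740a30ac81c2808a9c55028c2b20714022a79340a309c81c380899e35028c272070e002678b40a30ac81c5000a9c25028c272068e002668940a30ac81a5000a9a1d028c2f20696002e70540d30006946160d1c0d034c001a518583470140a309c81a380899a55028c242068e022661540a309081a380899655028c242068e022651540a309c81a380899c4d028c2a20694022a69340a309081a38089984d028c242068e022659340a309081a38089944d028c232068e022279140a309c81a480899c45028c2720692022669140a308c81a400889e3d028c2720692022670f40a309c81a480899a3d028c2720692022670d40a309c81a480899a35028c2720692022670b40a309c81a480899a2d028c2420612022660b40a308081640088962d028c2020590022261140a3070816380879645028c1e2058e021e51140a308081640088983d028c2020590022258f40a307081638087943d028c1c2058e021e60d40a3070816380879635028c1a2058c021a50d40a306881430106942d028c182050c021a60940a3070814381079625038c001c518183860740e30007146060e161d038c001c518183850740d30006946060d1a15034c001a518183468340d30006946060d1a04a4,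
  0x1429844140300028001,
  0x1431840180300030101,
  0x14398401c0300038201,
  0x14398401c0300038301,
  0x1429844140301028005,
  0x1431840180301030105,
  0x14398401c0301038205,
  0x1429844140302028009,
  0x1431840180302030109,
  0x142984414030302800d,
  0x143184018030303010d,
  0x1429844140304028011,
  0x1431840180304030111,
  0x14398401c0304038211,
  0x1431844180305830015,
  0x14398401c0305838115,
  0x14398401c0305038215,
  0x1421846100306c20a15,
  0x1441840200306840019,
  0x1441840200306840119,
  0x1449840240306848219,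
  0x1449840240306848319,
  0x1441840200307c40a19,
  0x144984024030784801d,
  0x28030785011d,
  0x28030785021d,
  0x28030785031d,
  0x280308c50a1d,
  0x280308850021,
  0x280308850121,
  0x280308850221,
  0x280308850321,
  0x280308850421,
  0x280308850521,
  0x280308c50621,
  0x280308c50721,
  0x280308c50821,
  0x280308c50921,
  0x280309c50a21,
  0x140185e2802c9c5cb21,
  0x280309850025,
  0x280309850125,
  0x280309850225,
  0x280309850325,
  0x280309850425,
  0x280309850525,
  0x280309c50625,
  0x280309c50725,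
  0x280309c50825,
  0x280309c50925,
  0x28030ac50a25,
  0x28030ac50b25,
  0x28030a850029,
  0x28030a850129,
  0x28030a850229,
  0x28030a850329,
  0x28030a850429,
  0x28030a850529,
  0x28030ac50629,
  0x28030ac50729,
  0x28030ac50829,
  0x28030ac50929,
  0x28030bc50a29,
  0x28030bc50b29,
  0x28030b85002d,
  0x28130b85012d,
  0x28230b85022d,
  0x28330b05032d,
  0x28430b05042d,
  0x28530b05052d,
  0x28630b05062d,
  0x28730b05072d,
  0x28830b05082d,
  0x28930b05092d,
  0xa2d,
  0xb2d,
  0xc2d,
  0xd2d,
  0xe2d,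
  0xf2d,
  0x8165801038b001c516183850740d2c006945860d1a15034b001a516183468340d2c006945860d1a04c8,
  0xd01,
  0xe01,
  0xf01,
  0xd05,
  0xe05,
  0xf05,
  0xd09,
  0xe09,
  0xf09,
  0xa0d,
  0xb0d,
  0xc0d,
  0xd0d,
  0xe0d,
  0xf0d,
  0xb11,
  0xc11,
  0xd11,
  0xe11,
  0xf11,
  0xb15,
  0xc15,
  0xd15,
  0xe15,
  0xf15,
  0xb19,
  0xc19,
  0xd19,
  0xe19,
  0xf19,
  0xb1d,
  0xc1d,
  0xd1d,
  0xe1d,
  0xf1d,
  0xc21,
  0xd21,
  0xe21,
  0xf21,
  0xc25,
  0xd25,
  0xe25,
  0xf25,
  0xc29,
  0xd29,
  0xe29,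
  0xf29,
  0x3]

set_option maxRecDepth 100000 in
theorem tabB1 : tabOK laneB1 = true := by decide +kernel

set_option maxRecDepth 100000 in
theorem repB1 : repOK laneB1 = true := by decide +kernel

set_option maxRecDepth 100000 in
theorem chkB01 : top laneB1 ⟨0, 0, 0, 2, 13920, 13920, 13920, 13920⟩ true false 1000 certB0
    (2 ^ (laneB1.m * laneB1.l) - 1) 0 = true := by decide +kernel

set_option maxRecDepth 100000 in
theorem chkB11 : top laneB1 ⟨0, 0, 2, 8, 13920, 13920, 13920, 13920⟩ false false 1000 certB1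
    (2 ^ (laneB1.m * laneB1.l) - 1) 0 = true := by decide +kernel

set_option maxRecDepth 100000 in
theorem tabB2 : tabOK laneB2 = true := by decide +kernel

set_option maxRecDepth 100000 in
theorem repB2 : repOK laneB2 = true := by decide +kernel

set_option maxRecDepth 100000 in
theorem chkB02 : top laneB2 ⟨0, 0, 0, 2, 19680, 19680, 19680, 19680⟩ true false 1000 certB0
    (2 ^ (laneB1.m * laneB1.l) - 1) 0 = true := by decide +kernel

set_option maxRecDepth 100000 in
theorem chkB12 : top laneB2 ⟨0, 0, 2, 8, 19680, 19680, 19680, 19680⟩ false false 1000 certB1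
    (2 ^ (laneB1.m * laneB1.l) - 1) 0 = true := by decide +kernel


end FK

end FreezeTag

end

section

/-!
# Freeze-Tag, part B: plane geometry in polar coordinates
-/

namespace FreezeTag

open Complex

/-- the point with polar coordinates `ρ, θ` -/
noncomputable def pol (ρ θ : ℝ) : ℂ := (ρ : ℂ) * Complex.exp ((θ : ℂ) * Complex.I)

theorem pol_re (ρ θ : ℝ) : (pol ρ θ).re = ρ * Real.cos θ := by
  unfold pol
  rw [Complex.re_ofReal_mul, Complex.exp_ofReal_mul_I_re]

theorem pol_im (ρ θ : ℝ) : (pol ρ θ).im = ρ * Real.sin θ := by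
  unfold pol
  rw [Complex.im_ofReal_mul, Complex.exp_ofReal_mul_I_im]

theorem dist_sq_eq (z w : ℂ) : dist z w ^ 2 = (z.re - w.re) ^ 2 + (z.im - w.im) ^ 2 := by
  rw [Complex.dist_eq_re_im, Real.sq_sqrt (by positivity)]

theorem dist_pol_sq (ρ ρ' α β : ℝ) :
    dist (pol ρ α) (pol ρ' β) ^ 2
      = (ρ - ρ') ^ 2 + ρ * ρ' * (2 - 2 * Real.cos (α - β)) := by
  rw [dist_sq_eq, pol_re, pol_re, pol_im, pol_im, Real.cos_sub]
  have h1 := Real.sin_sq_add_cos_sq α
  have h2 := Real.sin_sq_add_cos_sq β
  linear_combination ρ ^ 2 * h1 + ρ' ^ 2 * h2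

theorem chordX_nonneg (t : ℝ) : 0 ≤ 2 - 2 * Real.cos t := by
  have := Real.cos_le_one t
  linarith

/-- convexity in the two radii -/
theorem radial_bound {r ρ ρ' X C : ℝ} (hr : 0 ≤ r) (h1 : r ≤ ρ) (h2 : ρ ≤ 1) (h3 : r ≤ ρ')
    (h4 : ρ' ≤ 1) (hX : 0 ≤ X) (hC1 : X ≤ C) (hC2 : (1 - r) ^ 2 + r * X ≤ C) :
    (ρ - ρ') ^ 2 + ρ * ρ' * X ≤ C := by
  have hr1 : r ≤ 1 := le_trans h1 h2
  -- value at the corners
  have c11 : (1 - 1 : ℝ) ^ 2 + 1 * 1 * X ≤ C := by linarith
  have c1r : (1 - r) ^ 2 + 1 * r * X ≤ C := by linarith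
  have crr : (r - r) ^ 2 + r * r * X ≤ C := by
    have : r * r * X ≤ 1 * X := by
      apply mul_le_mul_of_nonneg_right _ hX
      nlinarith
    linarith
  -- convexity in `ρ'` for `ρ = 1` and `ρ = r`
  have conv : ∀ a b : ℝ, (a - b) ^ 2 + a * b * X = (a - b) ^ 2 + a * b * X := fun _ _ => rfl
  rcases eq_or_lt_of_le hr1 with h | h
  · have e1 : ρ = 1 := le_antisymm h2 (by linarith)
    have e2 : ρ' = 1 := le_antisymm h4 (by linarith)
    subst e1; subst e2; simpa using c11
  · have hpos : 0 < 1 - r := by linarith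
    -- weights
    set u := (ρ - r) / (1 - r) with hu
    set v := (ρ' - r) / (1 - r) with hv
    have hu0 : 0 ≤ u := div_nonneg (by linarith) hpos.le
    have hv0 : 0 ≤ v := div_nonneg (by linarith) hpos.le
    have hu1 : u ≤ 1 := by rw [hu, div_le_one hpos]; linarith
    have hv1 : v ≤ 1 := by rw [hv, div_le_one hpos]; linarith
    have eρ : ρ = r + u * (1 - r) := by rw [hu]; field_simp; ring
    have eρ' : ρ' = r + v * (1 - r) := by rw [hv]; field_simp; ring
    have key : (ρ - ρ') ^ 2 + ρ * ρ' * X ≤
        u * v * (1 * 1 * X) + (u * (1 - v) + (1 - u) * v) * ((1 - r) ^ 2 + r * X)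
          + (1 - u) * (1 - v) * (r * r * X) := by
      rw [eρ, eρ']
      nlinarith [mul_nonneg hu0 (sub_nonneg.2 hu1), mul_nonneg hv0 (sub_nonneg.2 hv1),
        mul_nonneg (mul_nonneg hu0 (sub_nonneg.2 hu1)) (sq_nonneg (1 - r)),
        mul_nonneg (mul_nonneg hv0 (sub_nonneg.2 hv1)) (sq_nonneg (1 - r))]
    have b1 : u * v * (1 * 1 * X) ≤ u * v * C :=
      mul_le_mul_of_nonneg_left (by linarith) (mul_nonneg hu0 hv0)
    have b2 : (u * (1 - v) + (1 - u) * v) * ((1 - r) ^ 2 + r * X)
        ≤ (u * (1 - v) + (1 - u) * v) * C :=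
      mul_le_mul_of_nonneg_left (by linarith)
        (add_nonneg (mul_nonneg hu0 (by linarith)) (mul_nonneg (by linarith) hv0))
    have b3 : (1 - u) * (1 - v) * (r * r * X) ≤ (1 - u) * (1 - v) * C :=
      mul_le_mul_of_nonneg_left (by linarith) (mul_nonneg (by linarith) (by linarith))
    nlinarith [key, b1, b2, b3]

/-- distance bound for two points of the annulus `[r,1]` -/
theorem dist_pol_le {r ρ ρ' α β c : ℝ} (hr : 0 ≤ r) (h1 : r ≤ ρ) (h2 : ρ ≤ 1) (h3 : r ≤ ρ')
    (h4 : ρ' ≤ 1) (hc : 0 ≤ c) (hc1 : 2 - 2 * Real.cos (α - β) ≤ c ^ 2)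
    (hc2 : (1 - r) ^ 2 + r * (2 - 2 * Real.cos (α - β)) ≤ c ^ 2) :
    dist (pol ρ α) (pol ρ' β) ≤ c := by
  have h := radial_bound hr h1 h2 h3 h4 (chordX_nonneg (α - β)) hc1 hc2
  rw [← dist_pol_sq] at h
  exact abs_le_of_sq_le_sq' h hc |>.2

/-- far points of a thin annulus: the chord bound -/
theorem dist_pol_sq_le_chord {r ρ ρ' α β : ℝ} (hr : 0 ≤ r) (h1 : r ≤ ρ) (h2 : ρ ≤ 1)
    (h3 : r ≤ ρ') (h4 : ρ' ≤ 1) (hX : 1 - r ≤ 2 - 2 * Real.cos (α - β)) :
    dist (pol ρ α) (pol ρ' β) ^ 2 ≤ 2 - 2 * Real.cos (α - β) := by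
  rw [dist_pol_sq]
  refine radial_bound hr h1 h2 h3 h4 (chordX_nonneg (α - β)) le_rfl ?_
  have : 0 ≤ 1 - r := by linarith
  nlinarith

theorem chordX_le_sq (t : ℝ) : 2 - 2 * Real.cos t ≤ t ^ 2 := by
  have := Real.one_sub_sq_div_two_le_cos (x := t)
  linarith

/-- radial displacement plus arc -/
theorem dist_pol_le_arc {ρ ρ' α β : ℝ} (h1 : 0 ≤ ρ) (h2 : ρ ≤ 1) (h3 : 0 ≤ ρ') (h4 : ρ' ≤ 1) :
    dist (pol ρ α) (pol ρ' β) ≤ |ρ - ρ'| + |α - β| := by
  have hnn : 0 ≤ |ρ - ρ'| + |α - β| := add_nonneg (abs_nonneg _) (abs_nonneg _)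
  refine abs_le_of_sq_le_sq' ?_ hnn |>.2
  rw [dist_pol_sq]
  have hX := chordX_le_sq (α - β)
  have hX0 := chordX_nonneg (α - β)
  have hm : ρ * ρ' * (2 - 2 * Real.cos (α - β)) ≤ 1 * (α - β) ^ 2 := by
    have hle : ρ * ρ' ≤ 1 := by nlinarith
    have h0 : 0 ≤ ρ * ρ' := mul_nonneg h1 h3
    nlinarith
  have e1 : |ρ - ρ'| ^ 2 = (ρ - ρ') ^ 2 := sq_abs _
  have e2 : |α - β| ^ 2 = (α - β) ^ 2 := sq_abs _
  nlinarith [mul_nonneg (abs_nonneg (ρ - ρ')) (abs_nonneg (α - β))]

/-- two chords of total angle at most `π` -/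
theorem two_chords {a b u v : ℝ} (ha : 0 ≤ a) (hb : 0 ≤ b) (hab : a + b ≤ Real.pi)
    (hu : u ^ 2 ≤ 2 - 2 * Real.cos a) (hv : v ^ 2 ≤ 2 - 2 * Real.cos b) :
    u + v ≤ 2 * Real.sqrt 2 := by
  have hcos : 0 ≤ Real.cos a + Real.cos b := by
    rw [Real.cos_add_cos]
    have h1 : 0 ≤ Real.cos ((a + b) / 2) :=
      Real.cos_nonneg_of_mem_Icc ⟨by linarith [Real.pi_pos], by linarith⟩
    have h2 : 0 ≤ Real.cos ((a - b) / 2) :=
      Real.cos_nonneg_of_mem_Icc ⟨by linarith [Real.pi_pos], by linarith [Real.pi_pos]⟩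
    positivity
  have hsq : (u + v) ^ 2 ≤ (2 * Real.sqrt 2) ^ 2 := by
    rw [mul_pow, Real.sq_sqrt (by norm_num : (0:ℝ) ≤ 2)]
    nlinarith [sq_nonneg (u - v)]
  exact abs_le_of_sq_le_sq' hsq (by positivity) |>.2

end FreezeTag

end

section

namespace FreezeTag

variable {I : Type} [DecidableEq I] {X : Type} [MetricSpace X]

omit [DecidableEq I] in
theorem makespan_nonneg (x : I → X) : ∀ (t : WTree I) (p : X), 0 ≤ makespan x p t
  | .leaf i, p => dist_nonneg
  | .one i t, p => by
      have := makespan_nonneg x t (x i)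
      have h : (0:ℝ) ≤ dist p (x i) := dist_nonneg
      simp only [makespan]; linarith
  | .two i t s, p => by
      have := makespan_nonneg x t (x i)
      have h : (0:ℝ) ≤ dist p (x i) := dist_nonneg
      have h2 := le_max_left (makespan x (x i) t) (makespan x (x i) s)
      simp only [makespan]; linarith

/-- From the relation `Serve` (for a nonempty set) to a wake-up tree. -/
theorem Serve.exists_tree {x : I → ℂ} {S : Finset I} {p : ℂ} {t : ℝ} (h : Serve x S p t) :
    S.Nonempty → ∃ T : WTree I, T.labels.Nodup ∧ (∀ i, i ∈ T.labels ↔ i ∈ S) ∧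
      makespan x p T ≤ t := by
  induction h with
  | nil p t => intro h; exact absurd h (by simp)
  | step p t i A B hi hd hA hB ht ihA ihB =>
    intro _
    rw [Finset.mem_union, not_or] at hi
    rcases A.eq_empty_or_nonempty with hA0 | hA0
    · rcases B.eq_empty_or_nonempty with hB0 | hB0
      · subst hA0; subst hB0
        exact ⟨.leaf i, by simp [WTree.labels], by intro j; simp [WTree.labels], by simpa [makespan] using ht⟩
      · obtain ⟨T, hn, hm, hl⟩ := ihB hB0
        subst hA0
        refine ⟨.one i T, ?_, ?_, ?_⟩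
        · simp only [WTree.labels, List.nodup_cons]
          exact ⟨fun h => hi.2 ((hm i).1 h), hn⟩
        · intro j; simp [WTree.labels, hm]
        · simp only [makespan]; linarith
    · obtain ⟨T, hn, hm, hl⟩ := ihA hA0
      rcases B.eq_empty_or_nonempty with hB0 | hB0
      · subst hB0
        refine ⟨.one i T, ?_, ?_, ?_⟩
        · simp only [WTree.labels, List.nodup_cons]
          exact ⟨fun h => hi.1 ((hm i).1 h), hn⟩
        · intro j; simp [WTree.labels, hm]
        · simp only [makespan]; linarith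
      · obtain ⟨T', hn', hm', hl'⟩ := ihB hB0
        refine ⟨.two i T T', ?_, ?_, ?_⟩
        · simp only [WTree.labels, List.nodup_cons, List.mem_append, List.nodup_append]
          refine ⟨fun h => ?_, hn, hn', ?_⟩
          · rcases h with h | h
            · exact hi.1 ((hm i).1 h)
            · exact hi.2 ((hm' i).1 h)
          · intro a ha b hb hab
            subst hab
            exact Finset.disjoint_left.1 hd ((hm a).1 ha) ((hm' a).1 hb)
        · intro j; simp [WTree.labels, hm, hm']
        · have := max_le hl hl'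
          simp only [makespan]; linarith

/-- From a wake-up tree to the relation `Serve`. -/
theorem serve_of_tree (x : I → ℂ) : ∀ (T : WTree I) (p : ℂ) (t : ℝ), T.labels.Nodup →
    makespan x p T ≤ t → Serve x T.labels.toFinset p t
  | .leaf i, p, t, _, h => by
      have h' : dist p (x i) ≤ t := by simpa [makespan] using h
      have := Serve.step (x := x) p t i ∅ ∅ (by simp) (by simp) (Serve.nil _ _) (Serve.nil _ _) h'
      simpa [WTree.labels] using this
  | .one i T, p, t, hn, h => by
      simp only [WTree.labels, List.nodup_cons] at hn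
      simp only [makespan] at h
      have h0 := makespan_nonneg x T (x i)
      have ih := serve_of_tree x T (x i) (t - dist p (x i)) hn.2 (by linarith)
      have := Serve.step (x := x) p t i T.labels.toFinset ∅ (by simpa using hn.1) (by simp)
        ih (Serve.nil _ _) (by linarith)
      simpa [WTree.labels] using this
  | .two i T T', p, t, hn, h => by
      simp only [WTree.labels, List.nodup_cons, List.mem_append, List.nodup_append] at hn
      simp only [makespan] at h
      have h0 := makespan_nonneg x T (x i)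
      have h1 := le_max_left (makespan x (x i) T) (makespan x (x i) T')
      have h2 := le_max_right (makespan x (x i) T) (makespan x (x i) T')
      have ih := serve_of_tree x T (x i) (t - dist p (x i)) hn.2.1 (by linarith)
      have ih' := serve_of_tree x T' (x i) (t - dist p (x i)) hn.2.2.1 (by linarith)
      have := Serve.step (x := x) p t i T.labels.toFinset T'.labels.toFinset
        (by simpa using hn.1)
        (by
          rw [Finset.disjoint_left]
          intro a ha hb
          simp only [List.mem_toFinset] at ha hb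
          exact hn.2.2.2 a ha a hb rfl)
        ih ih' (by linarith)
      simpa [WTree.labels] using this

omit [DecidableEq I] in
theorem makespan_comp_isometry {Y : Type} [MetricSpace Y] (f : X → Y) (hf : Isometry f)
    (x : I → X) : ∀ (T : WTree I) (p : X), makespan (fun i => f (x i)) (f p) T = makespan x p T
  | .leaf i, p => by simp [makespan, hf.dist_eq]
  | .one i T, p => by
      simp only [makespan, hf.dist_eq, makespan_comp_isometry f hf x T (x i)]
  | .two i T T', p => by
      simp only [makespan, hf.dist_eq, makespan_comp_isometry f hf x T (x i),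
        makespan_comp_isometry f hf x T' (x i)]

end FreezeTag

end

section

/-!
# Freeze-Tag: the closed form leaf (sweeping a strip with two robots, golden cut)

The robots carry two coordinates `A` (progress) and `B` (thickness) with
`dist (x i) (x j) ≤ |A i - A j| + |B i - B j|`.  Two robots standing together at the beginning of
the strip `A0 ≤ A ≤ w`, `b1 ≤ B ≤ b2` serve it in time `(w - A0) + 13/8 (b2 - b1)`.
-/

namespace FreezeTag

theorem sweep2 {I : Type*} [DecidableEq I] (x : I → ℂ) (A B : I → ℝ) :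
    ∀ (n : ℕ) (S : Finset I), S.card = n → ∀ (p : ℂ) (A0 B0 w b1 b2 : ℝ),
      (∀ i ∈ S, ∀ j ∈ S, dist (x i) (x j) ≤ |A i - A j| + |B i - B j|) →
      (∀ i ∈ S, dist p (x i) ≤ |A0 - A i| + |B0 - B i|) →
      b1 ≤ B0 → B0 ≤ b2 → (∀ i ∈ S, A0 ≤ A i) → (∀ i ∈ S, A i ≤ w) →
      (∀ i ∈ S, b1 ≤ B i) → (∀ i ∈ S, B i ≤ b2) →
      Serve2 x S p ((w - A0) + 13 / 8 * (b2 - b1)) := by
  intro n
  induction n using Nat.strong_induction_on with
  | _ n ih =>
    intro S hS p A0 B0 w b1 b2 hd hp hb1 hb2 hA1 hA2 hB1 hB2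
    -- one part `[a', b']` of the thickness
    have main : ∀ (T : Finset I) (a' b' : ℝ), T ⊆ S →
        (∀ i ∈ T, a' ≤ B i) → (∀ i ∈ T, B i ≤ b') →
        B0 - a' + 13 / 8 * (b' - a') ≤ 13 / 8 * (b2 - b1) →
        b' - B0 + 13 / 8 * (b' - a') ≤ 13 / 8 * (b2 - b1) →
        Serve x T p ((w - A0) + 13 / 8 * (b2 - b1)) := by
      intro T a' b' hTS hT1 hT2 h1 h2
      rcases T.eq_empty_or_nonempty with rfl | hne
      · exact Serve.nil _ _
      obtain ⟨i, hi, hmin⟩ := T.exists_min_image A hne
      have hiS := hTS hi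
      have hAi := hA1 i hiS
      have hAw := hA2 i hiS
      have hBa := hT1 i hi
      have hBb := hT2 i hi
      have hdi : dist p (x i) ≤ (A i - A0) + |B0 - B i| := by
        have h3 := hp i hiS
        rwa [abs_sub_comm A0 (A i), abs_of_nonneg (sub_nonneg.2 hAi)] at h3
      have habs : |B0 - B i| + 13 / 8 * (b' - a') ≤ 13 / 8 * (b2 - b1) := by
        rcases abs_cases (B0 - B i) with ⟨h3, _⟩ | ⟨h3, _⟩ <;> rw [h3] <;> linarith
      refine Serve.of_step hi (by linarith) ?_
      have hlt : (T.erase i).card < n := by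
        have h3 : (T.erase i).card < T.card := Finset.card_erase_lt_of_mem hi
        have h4 : T.card ≤ S.card := Finset.card_le_card hTS
        omega
      have key := ih _ hlt (T.erase i) rfl (x i) (A i) (B i) w a' b'
        (fun j hj k hk => hd j (hTS (Finset.mem_of_mem_erase hj)) k
          (hTS (Finset.mem_of_mem_erase hk)))
        (fun j hj => hd i hiS j (hTS (Finset.mem_of_mem_erase hj)))
        hBa hBb
        (fun j hj => hmin j (Finset.mem_of_mem_erase hj))
        (fun j hj => hA2 j (hTS (Finset.mem_of_mem_erase hj)))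
        (fun j hj => hT1 j (Finset.mem_of_mem_erase hj))
        (fun j hj => hT2 j (Finset.mem_of_mem_erase hj))
      exact key.mono (by linarith)
    classical
    rcases le_total (B0 - b1) (b2 - B0) with h | h
    · -- cut at distance `8/13 (b2 - B0)` from `b1`
      have h3 := main (S.filter fun i => B i ≤ b1 + 8 / 13 * (b2 - B0)) b1
        (b1 + 8 / 13 * (b2 - B0)) (Finset.filter_subset _ _)
        (fun i hi => hB1 i (Finset.mem_of_mem_filter i hi))
        (fun i hi => (Finset.mem_filter.1 hi).2) (by linarith) (by linarith)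
      have h4 := main (S.filter fun i => ¬ B i ≤ b1 + 8 / 13 * (b2 - B0))
        (b1 + 8 / 13 * (b2 - B0)) b2 (Finset.filter_subset _ _)
        (fun i hi => le_of_lt (not_le.1 (Finset.mem_filter.1 hi).2))
        (fun i hi => hB2 i (Finset.mem_of_mem_filter i hi)) (by linarith) (by linarith)
      exact Serve2.of_filter _ h3 h4
    · have h3 := main (S.filter fun i => B i ≤ b2 - 8 / 13 * (B0 - b1)) b1
        (b2 - 8 / 13 * (B0 - b1)) (Finset.filter_subset _ _)
        (fun i hi => hB1 i (Finset.mem_of_mem_filter i hi))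
        (fun i hi => (Finset.mem_filter.1 hi).2) (by linarith) (by linarith)
      have h4 := main (S.filter fun i => ¬ B i ≤ b2 - 8 / 13 * (B0 - b1))
        (b2 - 8 / 13 * (B0 - b1)) b2 (Finset.filter_subset _ _)
        (fun i hi => le_of_lt (not_le.1 (Finset.mem_filter.1 hi).2))
        (fun i hi => hB2 i (Finset.mem_of_mem_filter i hi)) (by linarith) (by linarith)
      exact Serve2.of_filter _ h3 h4

/-- One robot anywhere: go to the first robot of the strip, then sweep. -/
theorem sweep1 {I : Type*} [DecidableEq I] (x : I → ℂ) (A B : I → ℝ) (S : Finset I) (p : ℂ)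
    (w b1 b2 T : ℝ)
    (hd : ∀ i ∈ S, ∀ j ∈ S, dist (x i) (x j) ≤ |A i - A j| + |B i - B j|)
    (hA2 : ∀ i ∈ S, A i ≤ w) (hB1 : ∀ i ∈ S, b1 ≤ B i) (hB2 : ∀ i ∈ S, B i ≤ b2)
    (hT : ∀ i ∈ S, dist p (x i) + (w - A i) + 13 / 8 * (b2 - b1) ≤ T) :
    Serve x S p T := by
  rcases S.eq_empty_or_nonempty with rfl | hne
  · exact Serve.nil _ _
  obtain ⟨i, hi, hmin⟩ := S.exists_min_image A hne
  have h1 := hT i hi
  have h2 := hA2 i hi
  have h3 := hB1 i hi
  have h4 := hB2 i hi
  refine Serve.of_step hi (by linarith) ?_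
  have key := sweep2 x A B _ (S.erase i) rfl (x i) (A i) (B i) w b1 b2
    (fun j hj k hk => hd j (Finset.mem_of_mem_erase hj) k (Finset.mem_of_mem_erase hk))
    (fun j hj => hd i hi j (Finset.mem_of_mem_erase hj)) h3 h4
    (fun j hj => hmin j (Finset.mem_of_mem_erase hj))
    (fun j hj => hA2 j (Finset.mem_of_mem_erase hj))
    (fun j hj => hB1 j (Finset.mem_of_mem_erase hj))
    (fun j hj => hB2 j (Finset.mem_of_mem_erase hj))
  exact key.mono (by linarith)

/-- radial displacement plus arc, radii at most `R` -/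
theorem dist_pol_le_arcR {R ρ ρ' α β : ℝ} (h1 : 0 ≤ ρ) (h2 : ρ ≤ R) (h3 : 0 ≤ ρ') (h4 : ρ' ≤ R) :
    dist (pol ρ α) (pol ρ' β) ≤ |ρ - ρ'| + R * |α - β| := by
  have hR : 0 ≤ R := h1.trans h2
  have hnn : 0 ≤ |ρ - ρ'| + R * |α - β| :=
    add_nonneg (abs_nonneg _) (mul_nonneg hR (abs_nonneg _))
  refine abs_le_of_sq_le_sq' ?_ hnn |>.2
  rw [dist_pol_sq]
  have hX := chordX_le_sq (α - β)
  have hX0 := chordX_nonneg (α - β)
  have hm : ρ * ρ' * (2 - 2 * Real.cos (α - β)) ≤ R ^ 2 * (α - β) ^ 2 := by
    have hle : ρ * ρ' ≤ R ^ 2 := by nlinarith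
    have h0 : 0 ≤ ρ * ρ' := mul_nonneg h1 h3
    calc ρ * ρ' * (2 - 2 * Real.cos (α - β)) ≤ ρ * ρ' * (α - β) ^ 2 :=
          mul_le_mul_of_nonneg_left hX h0
      _ ≤ R ^ 2 * (α - β) ^ 2 := mul_le_mul_of_nonneg_right hle (sq_nonneg _)
  have e1 : |ρ - ρ'| ^ 2 = (ρ - ρ') ^ 2 := sq_abs _
  have e2 : |α - β| ^ 2 = (α - β) ^ 2 := sq_abs _
  nlinarith [mul_nonneg (mul_nonneg hR (abs_nonneg (ρ - ρ'))) (abs_nonneg (α - β))]

/-- The polar rectangle. -/
def PR (r1 r2 α β : ℝ) : Set ℂ :=
  {z | ∃ ρ θ : ℝ, r1 ≤ ρ ∧ ρ ≤ r2 ∧ α ≤ θ ∧ θ ≤ β ∧ z = pol ρ θ}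

theorem pol_sub (ρ ρ' θ : ℝ) : dist (pol ρ θ) (pol ρ' θ) = |ρ - ρ'| := by
  have h := dist_pol_sq ρ ρ' θ θ
  rw [sub_self, Real.cos_zero] at h
  have h2 : dist (pol ρ θ) (pol ρ' θ) ^ 2 = |ρ - ρ'| ^ 2 := by rw [h, sq_abs]; ring
  exact (sq_eq_sq₀ dist_nonneg (abs_nonneg _)).1 h2

/-- distance to a point of a segment of a ray -/
theorem dist_seg_le (p : ℂ) {r1 r2 ρ θ D : ℝ} (h1 : r1 ≤ ρ) (h2 : ρ ≤ r2)
    (hD1 : dist p (pol r1 θ) ≤ D) (hD2 : dist p (pol r2 θ) ≤ D) : dist p (pol ρ θ) ≤ D := by
  rcases eq_or_lt_of_le (h1.trans h2) with h | h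
  · have : ρ = r1 := le_antisymm (by linarith) h1
    rw [this]; exact hD1
  · have hpos : 0 < r2 - r1 := sub_pos.2 h
    set m := (ρ - r1) / (r2 - r1) with hm
    have hm0 : 0 ≤ m := div_nonneg (by linarith) hpos.le
    have hm1 : m ≤ 1 := by rw [hm, div_le_one hpos]; linarith
    have hρ : ρ = (1 - m) * r1 + m * r2 := by rw [hm]; field_simp; ring
    have e : p - pol ρ θ = ((1 - m : ℝ) : ℂ) * (p - pol r1 θ) + (m : ℂ) * (p - pol r2 θ) := by
      unfold pol
      rw [hρ]; push_cast; ring
    rw [dist_eq_norm] at hD1 hD2 ⊢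
    rw [e]
    refine (norm_add_le _ _).trans ?_
    rw [norm_mul, norm_mul, Complex.norm_real, Complex.norm_real, Real.norm_eq_abs,
      Real.norm_eq_abs, abs_of_nonneg (by linarith : (0:ℝ) ≤ 1 - m), abs_of_nonneg hm0]
    nlinarith [mul_le_mul_of_nonneg_left hD1 (by linarith : (0:ℝ) ≤ 1 - m),
      mul_le_mul_of_nonneg_left hD2 hm0]

variable {α' : Type} [Fintype α']

/-- Leaf, sweep by increasing angle. -/
theorem Claim.leafUp {v : α' → ℂ} {t : α' → ℝ} {r1 r2 α β : ℝ} (hr : 0 ≤ r1)
    (h1 : ∀ a, dist (v a) (pol r1 α) + r2 * (β - α) + 13 / 8 * (r2 - r1) ≤ t a)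
    (h2 : ∀ a, dist (v a) (pol r2 α) + r2 * (β - α) + 13 / 8 * (r2 - r1) ≤ t a) :
    Claim v t (PR r1 r2 α β) := by
  intro I _ x S hS w hw
  choose! ρ s hρ1 hρ2 hs1 hs2 hx using hS
  set p := ∑ a, (w a : ℂ) * v a with hp
  set T := ∑ a, w a * t a with hT
  have hconv : ∀ q : ℂ, dist p q ≤ ∑ a, w a * dist (v a) q := by
    intro q
    have h := dist_comb_le v (fun _ : Unit => q) w (fun _ => 1) hw ⟨by simp, by simp⟩
    simpa using h
  have hsum : ∀ (q : ℂ) (c : ℝ), (∀ a, dist (v a) q + c ≤ t a) → dist p q + c ≤ T := by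
    intro q c hq
    have h3 : ∑ a, w a * (dist (v a) q + c) ≤ ∑ a, w a * t a :=
      Finset.sum_le_sum fun a _ => mul_le_mul_of_nonneg_left (hq a) (hw.1 a)
    have h4 : ∑ a, w a * (dist (v a) q + c) = (∑ a, w a * dist (v a) q) + c := by
      simp only [mul_add, Finset.sum_add_distrib, ← Finset.sum_mul, hw.2, one_mul]
    have := hconv q
    linarith
  have e1 := hsum (pol r1 α) (r2 * (β - α) + 13 / 8 * (r2 - r1)) (fun a => by
    have := h1 a; linarith)
  have e2 := hsum (pol r2 α) (r2 * (β - α) + 13 / 8 * (r2 - r1)) (fun a => by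
    have := h2 a; linarith)
  refine sweep1 x (fun i => r2 * s i) ρ S p (r2 * β) r1 r2 T ?_ ?_ hρ1 hρ2 ?_
  · intro i hi j hj
    have h3 : |r2 * s i - r2 * s j| = r2 * |s i - s j| := by
      rw [← mul_sub, abs_mul, abs_of_nonneg (by linarith [hρ1 i hi, hρ2 i hi] : (0:ℝ) ≤ r2)]
    rw [hx i hi, hx j hj, h3, add_comm]
    exact dist_pol_le_arcR (hr.trans (hρ1 i hi)) (hρ2 i hi) (hr.trans (hρ1 j hj)) (hρ2 j hj)
  · intro i hi
    exact mul_le_mul_of_nonneg_left (hs2 i hi) (by linarith [hρ1 i hi, hρ2 i hi])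
  · intro i hi
    have hr2 : 0 ≤ r2 := by linarith [hρ1 i hi, hρ2 i hi]
    have hd1 : dist (pol (ρ i) α) (x i) ≤ r2 * (s i - α) := by
      rw [hx i hi]
      have h3 := dist_pol_le_arcR (R := r2) (α := α) (β := s i) (hr.trans (hρ1 i hi)) (hρ2 i hi)
        (hr.trans (hρ1 i hi)) (hρ2 i hi)
      rw [sub_self, abs_zero, zero_add, abs_sub_comm, abs_of_nonneg (by linarith [hs1 i hi])] at h3
      exact h3
    have hd2 : dist p (pol (ρ i) α) ≤ T - (r2 * (β - α) + 13 / 8 * (r2 - r1)) :=
      dist_seg_le p (hρ1 i hi) (hρ2 i hi) (by linarith) (by linarith)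
    have hd3 := dist_triangle p (pol (ρ i) α) (x i)
    linarith

/-- Leaf, sweep by decreasing angle. -/
theorem Claim.leafDown {v : α' → ℂ} {t : α' → ℝ} {r1 r2 α β : ℝ} (hr : 0 ≤ r1)
    (h1 : ∀ a, dist (v a) (pol r1 β) + r2 * (β - α) + 13 / 8 * (r2 - r1) ≤ t a)
    (h2 : ∀ a, dist (v a) (pol r2 β) + r2 * (β - α) + 13 / 8 * (r2 - r1) ≤ t a) :
    Claim v t (PR r1 r2 α β) := by
  intro I _ x S hS w hw
  choose! ρ s hρ1 hρ2 hs1 hs2 hx using hS
  set p := ∑ a, (w a : ℂ) * v a with hp
  set T := ∑ a, w a * t a with hT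
  have hconv : ∀ q : ℂ, dist p q ≤ ∑ a, w a * dist (v a) q := by
    intro q
    have h := dist_comb_le v (fun _ : Unit => q) w (fun _ => 1) hw ⟨by simp, by simp⟩
    simpa using h
  have hsum : ∀ (q : ℂ) (c : ℝ), (∀ a, dist (v a) q + c ≤ t a) → dist p q + c ≤ T := by
    intro q c hq
    have h3 : ∑ a, w a * (dist (v a) q + c) ≤ ∑ a, w a * t a :=
      Finset.sum_le_sum fun a _ => mul_le_mul_of_nonneg_left (hq a) (hw.1 a)
    have h4 : ∑ a, w a * (dist (v a) q + c) = (∑ a, w a * dist (v a) q) + c := by
      simp only [mul_add, Finset.sum_add_distrib, ← Finset.sum_mul, hw.2, one_mul]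
    have := hconv q
    linarith
  have e1 := hsum (pol r1 β) (r2 * (β - α) + 13 / 8 * (r2 - r1)) (fun a => by
    have := h1 a; linarith)
  have e2 := hsum (pol r2 β) (r2 * (β - α) + 13 / 8 * (r2 - r1)) (fun a => by
    have := h2 a; linarith)
  refine sweep1 x (fun i => - (r2 * s i)) ρ S p (- (r2 * α)) r1 r2 T ?_ ?_ hρ1 hρ2 ?_
  · intro i hi j hj
    have h3 : |-(r2 * s i) - -(r2 * s j)| = r2 * |s i - s j| := by
      rw [show -(r2 * s i) - -(r2 * s j) = -(r2 * (s i - s j)) by ring, abs_neg, abs_mul,
        abs_of_nonneg (by linarith [hρ1 i hi, hρ2 i hi] : (0:ℝ) ≤ r2)]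
    rw [hx i hi, hx j hj, h3, add_comm]
    exact dist_pol_le_arcR (hr.trans (hρ1 i hi)) (hρ2 i hi) (hr.trans (hρ1 j hj)) (hρ2 j hj)
  · intro i hi
    have := mul_le_mul_of_nonneg_left (hs1 i hi)
      (by linarith [hρ1 i hi, hρ2 i hi] : (0:ℝ) ≤ r2)
    linarith
  · intro i hi
    have hr2 : 0 ≤ r2 := by linarith [hρ1 i hi, hρ2 i hi]
    have hd1 : dist (pol (ρ i) β) (x i) ≤ r2 * (β - s i) := by
      rw [hx i hi]
      have h3 := dist_pol_le_arcR (R := r2) (α := β) (β := s i) (hr.trans (hρ1 i hi)) (hρ2 i hi)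
        (hr.trans (hρ1 i hi)) (hρ2 i hi)
      rw [sub_self, abs_zero, zero_add, abs_of_nonneg (by linarith [hs2 i hi])] at h3
      exact h3
    have hd2 : dist p (pol (ρ i) β) ≤ T - (r2 * (β - α) + 13 / 8 * (r2 - r1)) :=
      dist_seg_le p (hρ1 i hi) (hρ2 i hi) (by linarith) (by linarith)
    have hd3 := dist_triangle p (pol (ρ i) β) (x i)
    linarith

/-- Leaf, sweep outwards: `D a` bounds the distance from `v a` to the inner arc. -/
theorem Claim.leafOut {v : α' → ℂ} {t : α' → ℝ} {D : α' → ℝ} {r1 r2 α β : ℝ} (hr : 0 ≤ r1)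
    (hD : ∀ a θ, α ≤ θ → θ ≤ β → dist (v a) (pol r1 θ) ≤ D a)
    (h1 : ∀ a, D a + (r2 - r1) + 13 / 8 * (r2 * (β - α)) ≤ t a) :
    Claim v t (PR r1 r2 α β) := by
  intro I _ x S hS w hw
  choose! ρ s hρ1 hρ2 hs1 hs2 hx using hS
  set p := ∑ a, (w a : ℂ) * v a with hp
  set T := ∑ a, w a * t a with hT
  have hconv : ∀ q : ℂ, dist p q ≤ ∑ a, w a * dist (v a) q := by
    intro q
    have h := dist_comb_le v (fun _ : Unit => q) w (fun _ => 1) hw ⟨by simp, by simp⟩
    simpa using h
  have hsum : ∀ (q : ℂ) (c : ℝ), (∀ a, dist (v a) q + c ≤ t a) → dist p q + c ≤ T := by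
    intro q c hq
    have h3 : ∑ a, w a * (dist (v a) q + c) ≤ ∑ a, w a * t a :=
      Finset.sum_le_sum fun a _ => mul_le_mul_of_nonneg_left (hq a) (hw.1 a)
    have h4 : ∑ a, w a * (dist (v a) q + c) = (∑ a, w a * dist (v a) q) + c := by
      simp only [mul_add, Finset.sum_add_distrib, ← Finset.sum_mul, hw.2, one_mul]
    have := hconv q
    linarith
  refine sweep1 x ρ (fun i => r2 * s i) S p r2 (r2 * α) (r2 * β) T ?_ hρ2 ?_ ?_ ?_
  · intro i hi j hj
    have h3 : |r2 * s i - r2 * s j| = r2 * |s i - s j| := by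
      rw [← mul_sub, abs_mul, abs_of_nonneg (by linarith [hρ1 i hi, hρ2 i hi] : (0:ℝ) ≤ r2)]
    rw [hx i hi, hx j hj, h3]
    exact dist_pol_le_arcR (hr.trans (hρ1 i hi)) (hρ2 i hi) (hr.trans (hρ1 j hj)) (hρ2 j hj)
  · intro i hi
    exact mul_le_mul_of_nonneg_left (hs1 i hi) (by linarith [hρ1 i hi, hρ2 i hi])
  · intro i hi
    exact mul_le_mul_of_nonneg_left (hs2 i hi) (by linarith [hρ1 i hi, hρ2 i hi])
  · intro i hi
    have e1 := hsum (pol r1 (s i)) ((r2 - r1) + 13 / 8 * (r2 * (β - α))) (fun a => by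
      have h3 := hD a (s i) (hs1 i hi) (hs2 i hi)
      have h4 := h1 a
      linarith)
    have hd1 : dist (pol r1 (s i)) (x i) = ρ i - r1 := by
      rw [hx i hi, pol_sub, abs_sub_comm, abs_of_nonneg (by linarith [hρ1 i hi])]
    have hd3 := dist_triangle p (pol r1 (s i)) (x i)
    have e3 : r2 * β - r2 * α = r2 * (β - α) := by ring
    rw [e3]
    linarith

/-- Leaf, sweep inwards: `D a` bounds the distance from `v a` to the outer arc. -/
theorem Claim.leafIn {v : α' → ℂ} {t : α' → ℝ} {D : α' → ℝ} {r1 r2 α β : ℝ} (hr : 0 ≤ r1)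
    (hD : ∀ a θ, α ≤ θ → θ ≤ β → dist (v a) (pol r2 θ) ≤ D a)
    (h1 : ∀ a, D a + (r2 - r1) + 13 / 8 * (r2 * (β - α)) ≤ t a) :
    Claim v t (PR r1 r2 α β) := by
  intro I _ x S hS w hw
  choose! ρ s hρ1 hρ2 hs1 hs2 hx using hS
  set p := ∑ a, (w a : ℂ) * v a with hp
  set T := ∑ a, w a * t a with hT
  have hconv : ∀ q : ℂ, dist p q ≤ ∑ a, w a * dist (v a) q := by
    intro q
    have h := dist_comb_le v (fun _ : Unit => q) w (fun _ => 1) hw ⟨by simp, by simp⟩
    simpa using h
  have hsum : ∀ (q : ℂ) (c : ℝ), (∀ a, dist (v a) q + c ≤ t a) → dist p q + c ≤ T := by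
    intro q c hq
    have h3 : ∑ a, w a * (dist (v a) q + c) ≤ ∑ a, w a * t a :=
      Finset.sum_le_sum fun a _ => mul_le_mul_of_nonneg_left (hq a) (hw.1 a)
    have h4 : ∑ a, w a * (dist (v a) q + c) = (∑ a, w a * dist (v a) q) + c := by
      simp only [mul_add, Finset.sum_add_distrib, ← Finset.sum_mul, hw.2, one_mul]
    have := hconv q
    linarith
  refine sweep1 x (fun i => - ρ i) (fun i => r2 * s i) S p (- r1) (r2 * α) (r2 * β) T ?_ ?_ ?_ ?_ ?_
  · intro i hi j hj
    have h3 : |r2 * s i - r2 * s j| = r2 * |s i - s j| := by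
      rw [← mul_sub, abs_mul, abs_of_nonneg (by linarith [hρ1 i hi, hρ2 i hi] : (0:ℝ) ≤ r2)]
    have h4 : |-ρ i - -ρ j| = |ρ i - ρ j| := by rw [← abs_neg]; congr 1; ring
    rw [hx i hi, hx j hj, h3, h4]
    exact dist_pol_le_arcR (hr.trans (hρ1 i hi)) (hρ2 i hi) (hr.trans (hρ1 j hj)) (hρ2 j hj)
  · intro i hi; linarith [hρ1 i hi]
  · intro i hi
    exact mul_le_mul_of_nonneg_left (hs1 i hi) (by linarith [hρ1 i hi, hρ2 i hi])
  · intro i hi
    exact mul_le_mul_of_nonneg_left (hs2 i hi) (by linarith [hρ1 i hi, hρ2 i hi])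
  · intro i hi
    have e1 := hsum (pol r2 (s i)) ((r2 - r1) + 13 / 8 * (r2 * (β - α))) (fun a => by
      have h3 := hD a (s i) (hs1 i hi) (hs2 i hi)
      have h4 := h1 a
      linarith)
    have hd1 : dist (pol r2 (s i)) (x i) = r2 - ρ i := by
      rw [hx i hi, pol_sub, abs_of_nonneg (by linarith [hρ2 i hi])]
    have hd3 := dist_triangle p (pol r2 (s i)) (x i)
    have e3 : r2 * β - r2 * α = r2 * (β - α) := by ring
    rw [e3]
    linarith

end FreezeTag

end

section

/-!
# Freeze-Tag, part B1: well separated robots near the circle (elementary, exact)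
-/

namespace FreezeTag

open Complex

variable {I : Type*} [DecidableEq I] {x : I → ℂ}

/-- one robot walks through all the robots of an arc, in their angular order -/
theorem walk {r γ : ℝ} (hr : 0 ≤ r) (hγ0 : 0 < γ) (hX : 1 - r ≤ 2 - 2 * Real.cos γ)
    (ρ s : I → ℝ) :
    ∀ (n : ℕ) (S : Finset I), S.card = n → ∀ (α ρ0 w : ℝ), r ≤ ρ0 → ρ0 ≤ 1 →
      (∀ i ∈ S, x i = pol (ρ i) (s i)) → (∀ i ∈ S, r ≤ ρ i) → (∀ i ∈ S, ρ i ≤ 1) →
      (∀ i ∈ S, α + γ ≤ s i) → (∀ i ∈ S, s i ≤ w) → w ≤ α + Real.pi →
      (∀ i ∈ S, ∀ j ∈ S, i ≠ j → γ ≤ |s i - s j|) →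
      Serve x S (pol ρ0 α) (w - α) := by
  intro n
  induction n with
  | zero =>
    intro S hS α ρ0 w _ _ _ _ _ _ _ _ _
    rw [Finset.card_eq_zero] at hS
    subst hS
    exact Serve.nil _ _
  | succ n ih =>
    intro S hS α ρ0 w h1 h2 hx hρ1 hρ2 hs1 hs2 hw hsep
    have hne : S.Nonempty := by
      rw [← Finset.card_pos, hS]; exact Nat.succ_pos n
    obtain ⟨i, hi, hmin⟩ := S.exists_min_image s hne
    have hsi : α + γ ≤ s i := hs1 i hi
    have hsiw : s i ≤ w := hs2 i hi
    have hcos : 1 - r ≤ 2 - 2 * Real.cos (α - s i) := by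
      have : Real.cos (α - s i) ≤ Real.cos γ := by
        rw [← Real.cos_abs (α - s i), abs_of_nonpos (by linarith)]
        exact Real.cos_le_cos_of_nonneg_of_le_pi hγ0.le (by linarith) (by linarith)
      linarith
    have hd : dist (pol ρ0 α) (x i) ≤ s i - α := by
      rw [hx i hi]
      have h := dist_pol_sq_le_chord (α := α) (β := s i) hr h1 h2 (hρ1 i hi) (hρ2 i hi) hcos
      have h' := chordX_le_sq (α - s i)
      have h'' : dist (pol ρ0 α) (pol (ρ i) (s i)) ^ 2 ≤ (s i - α) ^ 2 := by
        calc _ ≤ _ := h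
          _ ≤ (α - s i) ^ 2 := h'
          _ = (s i - α) ^ 2 := by ring
      exact abs_le_of_sq_le_sq' h'' (by linarith) |>.2
    refine Serve.of_step hi (le_trans hd (by linarith)) ?_
    apply Serve.two
    have hcard : (S.erase i).card = n := by rw [Finset.card_erase_of_mem hi, hS]; rfl
    have key := ih (S.erase i) hcard (s i) (ρ i) w (hρ1 i hi) (hρ2 i hi)
      (fun j hj => hx j (Finset.mem_of_mem_erase hj))
      (fun j hj => hρ1 j (Finset.mem_of_mem_erase hj))
      (fun j hj => hρ2 j (Finset.mem_of_mem_erase hj))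
      (fun j hj => by
        have hj' := Finset.mem_of_mem_erase hj
        have hji := Finset.ne_of_mem_erase hj
        have h3 := hsep j hj' i hi hji
        have h4 := hmin j hj'
        rw [abs_of_nonneg (by linarith)] at h3
        linarith)
      (fun j hj => hs2 j (Finset.mem_of_mem_erase hj)) (by linarith)
      (fun j hj k hk hjk => hsep j (Finset.mem_of_mem_erase hj) k (Finset.mem_of_mem_erase hk) hjk)
    rw [← hx i hi] at key
    exact key.mono (by linarith)

/-- one robot serves one side (angles in `[γ, π]`, gaps at least `γ`) -/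
theorem side {r γ : ℝ} (hr : 0 ≤ r) (hγ0 : 0 < γ) (hX : 1 - r ≤ 2 - 2 * Real.cos γ)
    (hγ : Real.pi - γ ≤ 2 * Real.sqrt 2)
    (ρ s : I → ℝ) (S : Finset I) (ρ0 : ℝ) (h1 : r ≤ ρ0) (h2 : ρ0 ≤ 1)
    (hx : ∀ i ∈ S, x i = pol (ρ i) (s i)) (hρ1 : ∀ i ∈ S, r ≤ ρ i) (hρ2 : ∀ i ∈ S, ρ i ≤ 1)
    (hs1 : ∀ i ∈ S, γ ≤ s i) (hs2 : ∀ i ∈ S, s i ≤ Real.pi)
    (hsep : ∀ i ∈ S, ∀ j ∈ S, i ≠ j → γ ≤ |s i - s j|) :
    Serve x S (pol ρ0 0) (2 * Real.sqrt 2) := by
  rcases S.eq_empty_or_nonempty with rfl | hne
  · exact Serve.nil _ _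
  obtain ⟨i, hi, hmin⟩ := S.exists_min_image s hne
  have cosle : ∀ t : ℝ, γ ≤ t → t ≤ Real.pi → 1 - r ≤ 2 - 2 * Real.cos (-t) := by
    intro t ht1 ht2
    have : Real.cos (-t) ≤ Real.cos γ := by
      rw [Real.cos_neg]
      exact Real.cos_le_cos_of_nonneg_of_le_pi hγ0.le ht2 ht1
    linarith
  -- first move
  have hd1 : dist (pol ρ0 0) (x i) ^ 2 ≤ 2 - 2 * Real.cos (s i) := by
    rw [hx i hi]
    have h := dist_pol_sq_le_chord (α := 0) (β := s i) hr h1 h2 (hρ1 i hi) (hρ2 i hi)
      (by simpa using cosle (s i) (hs1 i hi) (hs2 i hi))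
    simpa using h
  have hd1' : dist (pol ρ0 0) (x i) ≤ s i := by
    have h0 : 0 ≤ s i := le_trans hγ0.le (hs1 i hi)
    exact abs_le_of_sq_le_sq' (le_trans hd1 (chordX_le_sq (s i))) h0 |>.2
  have hone : dist (pol ρ0 0) (x i) ≤ 2 * Real.sqrt 2 := by
    have := two_chords (a := s i) (b := 0) (u := dist (pol ρ0 0) (x i)) (v := 0)
      (le_trans hγ0.le (hs1 i hi)) le_rfl (by simpa using hs2 i hi) hd1 (by simp)
    simpa using this
  refine Serve.of_step hi hone ?_
  rcases (S.erase i).eq_empty_or_nonempty with he | hne2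
  · rw [he]; exact Serve2.empty _ _
  obtain ⟨k, hk, hmax⟩ := (S.erase i).exists_max_image s hne2
  have hkS : k ∈ S := Finset.mem_of_mem_erase hk
  have hki : k ≠ i := Finset.ne_of_mem_erase hk
  have hsk : s i + γ ≤ s k := by
    have h3 := hsep k hkS i hi hki
    have h4 := hmin k hkS
    rw [abs_of_nonneg (by linarith)] at h3
    linarith
  -- second move: the farthest robot
  have hd2 : dist (x i) (x k) ^ 2 ≤ 2 - 2 * Real.cos (s k - s i) := by
    rw [hx i hi, hx k hkS]
    have h := dist_pol_sq_le_chord (α := s i) (β := s k) hr (hρ1 i hi) (hρ2 i hi) (hρ1 k hkS)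
      (hρ2 k hkS) (by
        have := cosle (s k - s i) (by linarith) (by linarith [hs2 k hkS, hs1 i hi])
        rw [neg_sub] at this
        exact this)
    rw [← Real.cos_neg (s k - s i), neg_sub]
    exact h
  have htwo : dist (pol ρ0 0) (x i) + dist (x i) (x k) ≤ 2 * Real.sqrt 2 := by
    refine two_chords (a := s i) (b := s k - s i) (le_trans hγ0.le (hs1 i hi)) (by linarith)
      (by linarith [hs2 k hkS]) hd1 hd2
  refine Serve2.of_single hk (by linarith) ?_
  -- the other robot walks
  have hlast : ∀ j ∈ (S.erase i).erase k, s j ≤ s k - γ := by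
    intro j hj
    have hj1 := Finset.mem_of_mem_erase hj
    have hj2 := Finset.mem_of_mem_erase hj1
    have hjk := Finset.ne_of_mem_erase hj
    have h3 := hsep j hj2 k hkS hjk
    have h4 := hmax j hj1
    rw [abs_of_nonpos (by linarith)] at h3
    linarith
  have key := walk (x := x) hr hγ0 hX ρ s _ ((S.erase i).erase k) rfl (s i) (ρ i) (s k - γ)
    (hρ1 i hi) (hρ2 i hi)
    (fun j hj => hx j (Finset.mem_of_mem_erase (Finset.mem_of_mem_erase hj)))
    (fun j hj => hρ1 j (Finset.mem_of_mem_erase (Finset.mem_of_mem_erase hj)))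
    (fun j hj => hρ2 j (Finset.mem_of_mem_erase (Finset.mem_of_mem_erase hj)))
    (fun j hj => by
      have hj1 := Finset.mem_of_mem_erase hj
      have hj' := Finset.mem_of_mem_erase hj1
      have hji := Finset.ne_of_mem_erase hj1
      have h3 := hsep j hj' i hi hji
      have h4 := hmin j hj'
      rw [abs_of_nonneg (by linarith)] at h3
      linarith)
    hlast (by linarith [hs2 k hkS, hs1 i hi])
    (fun j hj l hl hjl => hsep j (Finset.mem_of_mem_erase (Finset.mem_of_mem_erase hj)) l
      (Finset.mem_of_mem_erase (Finset.mem_of_mem_erase hl)) hjl)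
  rw [← hx i hi] at key
  exact key.mono (by linarith [hs2 k hkS])

end FreezeTag

end

section

/-!
# Freeze-Tag: two robots on the left side of a polar rectangle (golden cut)
-/

namespace FreezeTag

open Complex

variable {I : Type*} [DecidableEq I] {x : I → ℂ}

/-- flat base, golden cut: two robots on the left side of a polar rectangle -/
theorem base2g {κ c : ℝ} (hc0 : 1 / 2 ≤ c) (hc1 : c ≤ 1) (hκ1 : c + κ * c ≤ κ)
    (hκ2 : 1 + κ * (1 - c) ≤ κ) (hκ0 : 0 ≤ κ) (ρ s : I → ℝ) :
    ∀ (n : ℕ) (S : Finset I), S.card = n → ∀ (α a b ρ0 w : ℝ), 0 ≤ a → b ≤ 1 →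
      a ≤ ρ0 → ρ0 ≤ b → (∀ i ∈ S, x i = pol (ρ i) (s i)) → (∀ i ∈ S, a ≤ ρ i) →
      (∀ i ∈ S, ρ i ≤ b) → (∀ i ∈ S, α ≤ s i) → (∀ i ∈ S, s i ≤ w) →
      Serve2 x S (pol ρ0 α) ((w - α) + κ * (b - a)) := by
  intro n
  induction n using Nat.strong_induction_on with
  | _ n ih =>
    intro S hS α a b ρ0 w ha hb h1 h2 hx hρ1 hρ2 hs1 hs2
    have hab0 : a ≤ b := le_trans h1 h2
    -- one part `[a',b']` of the radial range, all of it at radial distance at most `e`
    have main : ∀ (T : Finset I) (a' b' e : ℝ), T ⊆ S → a ≤ a' → b' ≤ b →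
        e + κ * (b' - a') ≤ κ * (b - a) → (∀ i ∈ T, a' ≤ ρ i) → (∀ i ∈ T, ρ i ≤ b') →
        (∀ i ∈ T, |ρ0 - ρ i| ≤ e) →
        Serve x T (pol ρ0 α) ((w - α) + κ * (b - a)) := by
      intro T a' b' e hTS haa hbb hab hT1 hT2 hTe
      rcases T.eq_empty_or_nonempty with rfl | hne
      · exact Serve.nil _ _
      obtain ⟨i, hi, hmin⟩ := T.exists_min_image s hne
      have hiS := hTS hi
      have hsi := hs1 i hiS
      have hsw := hs2 i hiS
      have hr1 := hρ1 i hiS
      have hr2 := hρ2 i hiS
      have hab' : a' ≤ b' := le_trans (hT1 i hi) (hT2 i hi)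
      have hd : dist (pol ρ0 α) (x i) ≤ e + (s i - α) := by
        rw [hx i hiS]
        refine le_trans (dist_pol_le_arc (by linarith) (by linarith) (by linarith)
          (by linarith)) ?_
        have e2 : |α - s i| = s i - α := by rw [abs_of_nonpos (by linarith)]; ring
        rw [e2]
        linarith [hTe i hi]
      have hκb : 0 ≤ κ * (b' - a') := mul_nonneg hκ0 (by linarith)
      refine Serve.of_step hi (by linarith) ?_
      have hlt : (T.erase i).card < n := by
        have h3 : (T.erase i).card < T.card := Finset.card_erase_lt_of_mem hi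
        have h4 : T.card ≤ S.card := Finset.card_le_card hTS
        omega
      have key := ih _ hlt (T.erase i) rfl (s i) a' b' (ρ i) w (le_trans ha haa)
        (le_trans hbb hb) (hT1 i hi) (hT2 i hi)
        (fun j hj => hx j (hTS (Finset.mem_of_mem_erase hj)))
        (fun j hj => hT1 j (Finset.mem_of_mem_erase hj))
        (fun j hj => hT2 j (Finset.mem_of_mem_erase hj))
        (fun j hj => hmin j (Finset.mem_of_mem_erase hj))
        (fun j hj => hs2 j (hTS (Finset.mem_of_mem_erase hj)))
      rw [← hx i hiS] at key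
      exact key.mono (by linarith)
    have hba : 0 ≤ b - a := by linarith
    have k1 : c * (b - a) + κ * (c * (b - a)) ≤ κ * (b - a) := by
      have := mul_le_mul_of_nonneg_right hκ1 hba
      linarith
    have k2 : (b - a) + κ * ((1 - c) * (b - a)) ≤ κ * (b - a) := by
      have := mul_le_mul_of_nonneg_right hκ2 hba
      linarith
    have hcb : c * (b - a) ≤ b - a := by nlinarith
    have hcb2 : (b - a) / 2 ≤ c * (b - a) := by nlinarith
    classical
    rcases le_total (ρ0 - a) ((b - a) / 2) with hlow | hhigh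
    · refine Serve2.of_filter (fun i => ρ i ≤ a + c * (b - a)) ?_ ?_
      · refine main _ a (a + c * (b - a)) (c * (b - a)) (Finset.filter_subset _ _) le_rfl
          (by linarith) (by have e : a + c * (b - a) - a = c * (b - a) := by ring
                            rw [e]; exact k1)
          (fun i hi => hρ1 i (Finset.mem_of_mem_filter i hi))
          (fun i hi => (Finset.mem_filter.1 hi).2) (fun i hi => ?_)
        have h3 := (Finset.mem_filter.1 hi).2
        have h4 := hρ1 i (Finset.mem_of_mem_filter i hi)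
        rw [abs_le]
        constructor <;> linarith
      · refine main _ (a + c * (b - a)) b (b - a) (Finset.filter_subset _ _) (by nlinarith)
          le_rfl (by have e : b - (a + c * (b - a)) = (1 - c) * (b - a) := by ring
                     rw [e]; exact k2)
          (fun i hi => le_of_lt (not_le.1 (Finset.mem_filter.1 hi).2))
          (fun i hi => hρ2 i (Finset.mem_of_mem_filter i hi)) (fun i hi => ?_)
        have h4 := hρ1 i (Finset.mem_of_mem_filter i hi)
        have h5 := hρ2 i (Finset.mem_of_mem_filter i hi)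
        rw [abs_le]
        constructor <;> linarith
    · refine Serve2.of_filter (fun i => b - c * (b - a) ≤ ρ i) ?_ ?_
      · refine main _ (b - c * (b - a)) b (c * (b - a)) (Finset.filter_subset _ _)
          (by linarith) le_rfl (by have e : b - (b - c * (b - a)) = c * (b - a) := by ring
                                   rw [e]; exact k1)
          (fun i hi => (Finset.mem_filter.1 hi).2)
          (fun i hi => hρ2 i (Finset.mem_of_mem_filter i hi)) (fun i hi => ?_)
        have h3 := (Finset.mem_filter.1 hi).2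
        have h4 := hρ2 i (Finset.mem_of_mem_filter i hi)
        rw [abs_le]
        constructor <;> linarith
      · refine main _ a (b - c * (b - a)) (b - a) (Finset.filter_subset _ _) le_rfl
          (by nlinarith) (by have e : b - c * (b - a) - a = (1 - c) * (b - a) := by ring
                             rw [e]; exact k2)
          (fun i hi => hρ1 i (Finset.mem_of_mem_filter i hi))
          (fun i hi => le_of_lt (not_le.1 (Finset.mem_filter.1 hi).2)) (fun i hi => ?_)
        have h4 := hρ1 i (Finset.mem_of_mem_filter i hi)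
        have h5 := hρ2 i (Finset.mem_of_mem_filter i hi)
        rw [abs_le]
        constructor <;> linarith

/-- the golden constant, rational -/
theorem base2k (ρ s : I → ℝ) (S : Finset I) (α a b ρ0 w : ℝ) (ha : 0 ≤ a) (hb : b ≤ 1)
    (h1 : a ≤ ρ0) (h2 : ρ0 ≤ b) (hx : ∀ i ∈ S, x i = pol (ρ i) (s i)) (hρ1 : ∀ i ∈ S, a ≤ ρ i)
    (hρ2 : ∀ i ∈ S, ρ i ≤ b) (hs1 : ∀ i ∈ S, α ≤ s i) (hs2 : ∀ i ∈ S, s i ≤ w) :
    Serve2 x S (pol ρ0 α) ((w - α) + 16181 / 10000 * (b - a)) :=
  base2g (κ := 16181 / 10000) (c := 61802 / 100000) (by norm_num) (by norm_num) (by norm_num)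
    (by norm_num) (by norm_num) ρ s _ S rfl α a b ρ0 w ha hb h1 h2 hx hρ1 hρ2 hs1 hs2

end FreezeTag

end
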