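import Mathlib
import Pool.Agent.Work.MP_086a47_lc.Lower
import Pool.Agent.Work.MP_086a47_lc.Bd.B01

/-! Bundle of small proof modules (one section per former module). -/

section

namespace FreezeTag

/-- The isometry `ℂ → Plane`. -/
noncomputable def toC : Plane ≃ₗᵢ[ℝ] ℂ := Complex.orthonormalBasisOneI.repr.symm

/-- The statement to be proved in the complex plane. -/
def Upper : Prop := ∀ (n : ℕ) (x : Fin n → ℂ), (∀ i, ‖x i‖ ≤ 1) →
  Serve x Finset.univ 0 (1 + 2 * Real.sqrt 2)

theorem exists_tree_of_upper (H : Upper) {n : ℕ} (hn : 1 ≤ n) (x : Fin n → Plane)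
    (hx : ∀ i, ‖x i‖ ≤ 1) :
    ∃ t : WTree (Fin n), t.Spanning ∧ makespan x 0 t ≤ 1 + 2 * Real.sqrt 2 := by
  have h := H n (fun i => toC (x i)) (fun i => by rw [LinearIsometryEquiv.norm_map]; exact hx i)
  have hne : (Finset.univ : Finset (Fin n)).Nonempty := ⟨⟨0, hn⟩, Finset.mem_univ _⟩
  obtain ⟨t, h1, h2, h3⟩ := h.exists_tree hne
  refine ⟨t, ⟨h1, fun i => (h2 i).2 (Finset.mem_univ i)⟩, ?_⟩
  have h4 := makespan_comp_isometry (fun z => toC z) toC.isometry x t 0
  simp only [map_zero] at h4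
  rw [← h4]; exact h3

theorem opt_le_of_tree {n : ℕ} (x : Fin n → Plane) (t : WTree (Fin n)) (ht : t.Spanning) :
    opt x ≤ makespan x 0 t :=
  csInf_le ⟨0, by rintro m ⟨s, _, rfl⟩; exact makespan_nonneg x s 0⟩ ⟨t, ht, rfl⟩

theorem opt_le_of_upper (H : Upper) {n : ℕ} (hn : 1 ≤ n) (x : Fin n → Plane)
    (hx : ∀ i, ‖x i‖ ≤ 1) : opt x ≤ 1 + 2 * Real.sqrt 2 := by
  obtain ⟨t, ht, h⟩ := exists_tree_of_upper H hn x hx
  exact (opt_le_of_tree x t ht).trans h

theorem le_opt_square (H : Upper) : 1 + 2 * Real.sqrt 2 ≤ opt square := by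
  obtain ⟨t, ht, -⟩ := exists_tree_of_upper H (by norm_num) square (fun i => (square_norm i).le)
  refine le_csInf ⟨_, t, ht, rfl⟩ ?_
  rintro m ⟨s, hs, rfl⟩
  exact square_lower s hs

theorem gammaN_le (H : Upper) {n : ℕ} (hn : 1 ≤ n) : gammaN n ≤ 1 + 2 * Real.sqrt 2 := by
  refine csSup_le ⟨_, fun _ => 0, fun i => by simp, rfl⟩ ?_
  rintro m ⟨x, hx, rfl⟩
  exact opt_le_of_upper H hn x hx

theorem le_gammaN (H : Upper) {n : ℕ} (hn : 1 ≤ n) (x : Fin n → Plane) (hx : ∀ i, ‖x i‖ ≤ 1) :
    opt x ≤ gammaN n := by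
  refine le_csSup ⟨1 + 2 * Real.sqrt 2, ?_⟩ ⟨x, hx, rfl⟩
  rintro m ⟨y, hy, rfl⟩
  exact opt_le_of_upper H hn y hy

theorem gamma_eq (H : Upper) : gamma = 1 + 2 * Real.sqrt 2 := by
  apply le_antisymm
  · refine csSup_le ⟨_, 1, le_refl 1, rfl⟩ ?_
    rintro m ⟨n, hn, rfl⟩
    exact gammaN_le H hn
  · refine le_trans (le_opt_square H) (le_trans (le_gammaN H (by norm_num) square
      (fun i => (square_norm i).le)) ?_)
    refine le_csSup ⟨1 + 2 * Real.sqrt 2, ?_⟩ ⟨4, by norm_num, rfl⟩
    rintro m ⟨n, hn, rfl⟩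
    exact gammaN_le H hn

/-- The final statement. -/
def Main : Prop :=
  (∀ (n : ℕ) (x : Fin n → Plane), 1 ≤ n → (∀ i, ‖x i‖ ≤ 1) →
    ∃ t : WTree (Fin n), t.Spanning ∧ makespan x 0 t ≤ 1 + 2 * Real.sqrt 2) ∧
  (∀ t : WTree (Fin 4), t.Spanning → 1 + 2 * Real.sqrt 2 ≤ makespan square 0 t) ∧
  (∀ n : ℕ, 1 ≤ n → gammaN n ≤ 1 + 2 * Real.sqrt 2) ∧
  gamma = 1 + 2 * Real.sqrt 2

theorem main_of_upper (H : Upper) : Main :=
  ⟨fun _ x hn hx => exists_tree_of_upper H hn x hx, square_lower, fun _ hn => gammaN_le H hn,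
    gamma_eq H⟩

end FreezeTag

end

section

/-!
# Freeze-Tag: parametric claims

`GClaim P τ R`: for every parameter `w` and every finite set of robots inside `R w`, one awake
robot standing at `P w` can wake them up within `τ w`.  The parameter space is arbitrary, so the
region may be attached to the position of the robot.
-/

namespace FreezeTag

/-- See the header. -/
def GClaim {W : Type*} (P : W → ℂ) (τ : W → ℝ) (R : W → Set ℂ) : Prop :=
  ∀ (I : Type) [DecidableEq I] (x : I → ℂ) (S : Finset I) (w : W), (∀ i ∈ S, x i ∈ R w) →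
    Serve x S (P w) (τ w)

/-- The same with two awake robots at `P w`. -/
def GClaim2 {W : Type*} (P : W → ℂ) (τ : W → ℝ) (R : W → Set ℂ) : Prop :=
  ∀ (I : Type) [DecidableEq I] (x : I → ℂ) (S : Finset I) (w : W), (∀ i ∈ S, x i ∈ R w) →
    Serve2 x S (P w) (τ w)

variable {W M N : Type*}

/-- change of parameters -/
theorem GClaim.comap {P : M → ℂ} {τ : M → ℝ} {R : M → Set ℂ} (h : GClaim P τ R)
    {P' : W → ℂ} {τ' : W → ℝ} {R' : W → Set ℂ}
    (hw : ∀ w, ∃ m, P m = P' w ∧ τ m ≤ τ' w ∧ R' w ⊆ R m) : GClaim P' τ' R' := by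
  intro I _ x S w hS
  obtain ⟨m, h1, h2, h3⟩ := hw w
  have h4 := h I x S m (fun i hi => h3 (hS i hi))
  rw [h1] at h4
  exact h4.mono h2

theorem GClaim.mono {P : W → ℂ} {τ τ' : W → ℝ} {R R' : W → Set ℂ} (h : GClaim P τ R)
    (ht : ∀ w, τ w ≤ τ' w) (hR : ∀ w, R' w ⊆ R w) : GClaim P τ' R' :=
  h.comap fun w => ⟨w, rfl, ht w, hR w⟩

/-- `GClaim2` from two claims, cut depending on the parameter. -/
theorem GClaim2.of_cut {P : W → ℂ} {τ : W → ℝ} {R A B : W → Set ℂ}
    (hA : GClaim P τ A) (hB : GClaim P τ B) (hR : ∀ w, R w ⊆ A w ∪ B w) : GClaim2 P τ R := by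
  classical
  intro I _ x S w hS
  refine Serve2.of_filter (fun j => x j ∈ A w) ?_ ?_
  · exact hA I x _ w fun j hj => (Finset.mem_filter.1 hj).2
  · refine hB I x _ w fun j hj => ?_
    have hj1 := Finset.mem_filter.1 hj
    rcases hR w (hS j hj1.1) with h2 | h2
    · exact absurd h2 hj1.2
    · exact h2

/-- **Elimination, parametric form.**  If a robot of `Q w` exists the awake robot goes there and
the two robots share the rest; the shares and the times may depend on the robot reached.
Otherwise continue with the smaller region `R'`. -/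
theorem GClaim.elim {P : W → ℂ} {τ : W → ℝ} {R R' Q : W → Set ℂ}
    {PA : M → ℂ} {τA : M → ℝ} {A : M → Set ℂ} {PB : N → ℂ} {τB : N → ℝ} {B : N → Set ℂ}
    (hR' : ∀ w, R w ⊆ Q w ∪ R' w)
    (hQ : ∀ w, ∀ z ∈ Q w, z ∈ R w → ∃ a b, PA a = z ∧ PB b = z ∧ dist (P w) z ≤ τ w ∧
      dist (P w) z + τA a ≤ τ w ∧ dist (P w) z + τB b ≤ τ w ∧ R w ⊆ A a ∪ B b)
    (hA : GClaim PA τA A) (hB : GClaim PB τB B) (hrest : GClaim P τ R') : GClaim P τ R := by
  classical
  intro I _ x S w hS
  by_cases hex : ∃ i ∈ S, x i ∈ Q w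
  · obtain ⟨i, hi, hiQ⟩ := hex
    obtain ⟨a, b, h1, h2, h3, h4, h5, h6⟩ := hQ w (x i) hiQ (hS i hi)
    refine Serve.of_step hi h3 ?_
    refine Serve2.of_filter (fun j => x j ∈ A a) ?_ ?_
    · have h := hA I x ((S.erase i).filter fun j => x j ∈ A a) a
        (fun j hj => (Finset.mem_filter.1 hj).2)
      rw [h1] at h
      exact h.mono (by linarith)
    · have h := hB I x ((S.erase i).filter fun j => ¬ x j ∈ A a) b (fun j hj => by
        have hj1 := Finset.mem_filter.1 hj
        rcases h6 (hS j (Finset.mem_of_mem_erase hj1.1)) with h2 | h2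
        · exact absurd h2 hj1.2
        · exact h2)
      rw [h2] at h
      exact h.mono (by linarith)
  · push_neg at hex
    refine hrest I x S w (fun i hi => ?_)
    rcases hR' w (hS i hi) with h1 | h1
    · exact absurd h1 (hex i hi)
    · exact h1

/-- **First robot in some order, parametric form.**  `f w` is the order (for instance the angle);
`z` is the first robot, so the other ones lie in `{y ∈ R w | f w z ≤ f w y}`. -/
theorem GClaim.first {P : W → ℂ} {τ : W → ℝ} {R : W → Set ℂ} (f : W → ℂ → ℝ)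
    {PA : M → ℂ} {τA : M → ℝ} {A : M → Set ℂ} {PB : N → ℂ} {τB : N → ℝ} {B : N → Set ℂ}
    (hQ : ∀ w, ∀ z ∈ R w, ∃ a b, PA a = z ∧ PB b = z ∧ dist (P w) z ≤ τ w ∧
      dist (P w) z + τA a ≤ τ w ∧ dist (P w) z + τB b ≤ τ w ∧
      (∀ y ∈ R w, f w z ≤ f w y → y ∈ A a ∨ y ∈ B b))
    (hA : GClaim PA τA A) (hB : GClaim PB τB B) : GClaim P τ R := by
  classical
  intro I _ x S w hS
  rcases S.eq_empty_or_nonempty with rfl | hne
  · exact (Serve.nil (x := x) (P w) (τ w))
  obtain ⟨i, hi, hmin⟩ := S.exists_min_image (fun j => f w (x j)) hne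
  obtain ⟨a, b, h1, h2, h3, h4, h5, h6⟩ := hQ w (x i) (hS i hi)
  refine Serve.of_step hi h3 ?_
  refine Serve2.of_filter (fun j => x j ∈ A a) ?_ ?_
  · have h := hA I x ((S.erase i).filter fun j => x j ∈ A a) a
      (fun j hj => (Finset.mem_filter.1 hj).2)
    rw [h1] at h
    exact h.mono (by linarith)
  · have h := hB I x ((S.erase i).filter fun j => ¬ x j ∈ A a) b (fun j hj => by
      have hj1 := Finset.mem_filter.1 hj
      rcases h6 (x j) (hS j (Finset.mem_of_mem_erase hj1.1))
        (hmin j (Finset.mem_of_mem_erase hj1.1)) with h2 | h2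
      · exact absurd h2 hj1.2
      · exact h2)
    rw [h2] at h
    exact h.mono (by linarith)

/-- Nothing to serve. -/
theorem GClaim.empty {P : W → ℂ} {τ : W → ℝ} : GClaim P τ fun _ => ∅ := by
  intro I _ x S w hS
  have : S = ∅ := by
    rcases S.eq_empty_or_nonempty with h | ⟨i, hi⟩
    · exact h
    · exact absurd (hS i hi) (by simp)
  rw [this]; exact Serve.nil _ _

/-- hull claims are parametric claims -/
theorem Claim.toG {α : Type} [Fintype α] {v : α → ℂ} {t : α → ℝ} {R : Set ℂ} (h : Claim v t R) :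
    GClaim (W := {w : α → ℝ // Wt w}) (fun w => ∑ a, (w.1 a : ℂ) * v a)
      (fun w => ∑ a, w.1 a * t a) fun _ => R :=
  fun I _ x S w hS => h I x S hS w.1 w.2

theorem GClaim.toClaim {α : Type} [Fintype α] {v : α → ℂ} {t : α → ℝ} {R : Set ℂ}
    (h : GClaim (W := {w : α → ℝ // Wt w}) (fun w => ∑ a, (w.1 a : ℂ) * v a)
      (fun w => ∑ a, w.1 a * t a) fun _ => R) : Claim v t R :=
  fun I _ x S hS w hw => h I x S ⟨w, hw⟩ hS

/-- **Contraction.**  If all distances become shorter the same schedule works. -/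
theorem Serve.contract {I : Type*} [DecidableEq I] {x y : I → ℂ} {S : Finset I} {p p' : ℂ}
    {t : ℝ} (h : Serve y S p' t) (hd : ∀ i ∈ S, ∀ j ∈ S, dist (x i) (x j) ≤ dist (y i) (y j))
    (hp : ∀ i ∈ S, dist p (x i) ≤ dist p' (y i)) : Serve x S p t := by
  induction h generalizing p with
  | nil q t => exact Serve.nil _ _
  | step q t i A B hi hdis hA hB ht ihA ihB =>
    have hpi := hp i (Finset.mem_insert_self _ _)
    refine Serve.step p t i A B hi hdis ?_ ?_ (hpi.trans ht)
    · refine (ihA (p := x i) ?_ ?_).mono (by linarith)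
      · intro a ha b hb
        exact hd a (Finset.mem_insert_of_mem (Finset.mem_union_left _ ha)) b
          (Finset.mem_insert_of_mem (Finset.mem_union_left _ hb))
      · intro a ha
        exact hd i (Finset.mem_insert_self _ _) a
          (Finset.mem_insert_of_mem (Finset.mem_union_left _ ha))
    · refine (ihB (p := x i) ?_ ?_).mono (by linarith)
      · intro a ha b hb
        exact hd a (Finset.mem_insert_of_mem (Finset.mem_union_right _ ha)) b
          (Finset.mem_insert_of_mem (Finset.mem_union_right _ hb))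
      · intro a ha
        exact hd i (Finset.mem_insert_self _ _) a
          (Finset.mem_insert_of_mem (Finset.mem_union_right _ ha))

theorem Serve2.contract {I : Type*} [DecidableEq I] {x y : I → ℂ} {S : Finset I} {p p' : ℂ}
    {t : ℝ} (h : Serve2 y S p' t) (hd : ∀ i ∈ S, ∀ j ∈ S, dist (x i) (x j) ≤ dist (y i) (y j))
    (hp : ∀ i ∈ S, dist p (x i) ≤ dist p' (y i)) : Serve2 x S p t := by
  obtain ⟨A, B, h1, h2, h3, h4⟩ := h
  subst h2
  refine ⟨A, B, h1, rfl, ?_, ?_⟩
  · refine h3.contract ?_ ?_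
    · intro a ha b hb
      exact hd a (Finset.mem_union_left _ ha) b (Finset.mem_union_left _ hb)
    · intro a ha
      exact hp a (Finset.mem_union_left _ ha)
  · refine h4.contract ?_ ?_
    · intro a ha b hb
      exact hd a (Finset.mem_union_right _ ha) b (Finset.mem_union_right _ hb)
    · intro a ha
      exact hp a (Finset.mem_union_right _ ha)

end FreezeTag

end

section

/-!
# Freeze-Tag: the closed form leaf with a general constant `κ`

`FlatK κ` is the flat statement: two robots standing together on the left side of a strip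
`A0 ≤ A ≤ w`, `b1 ≤ B ≤ b2` (Euclidean coordinates, or coordinates which do not increase the
distances) wake up every finite set of robots in the strip within time `(w - A0) + κ (b2 - b1)`.
The polar leaves of `Leaf.lean` hold with `13/8` replaced by `κ`.
-/

namespace FreezeTag

/-- The flat lemma with constant `κ`. -/
def FlatK (κ : ℝ) : Prop :=
  ∀ (I : Type) [DecidableEq I] (x : I → ℂ) (A B : I → ℝ) (S : Finset I) (p : ℂ)
    (A0 B0 w b1 b2 : ℝ),
    (∀ i ∈ S, ∀ j ∈ S, dist (x i) (x j) ^ 2 ≤ (A i - A j) ^ 2 + (B i - B j) ^ 2) →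
    (∀ i ∈ S, dist p (x i) ^ 2 ≤ (A0 - A i) ^ 2 + (B0 - B i) ^ 2) →
    b1 ≤ B0 → B0 ≤ b2 → (∀ i ∈ S, A0 ≤ A i) → (∀ i ∈ S, A i ≤ w) →
    (∀ i ∈ S, b1 ≤ B i) → (∀ i ∈ S, B i ≤ b2) →
    Serve2 x S p ((w - A0) + κ * (b2 - b1))

/-- One robot anywhere: go to the first robot of the strip, then sweep. -/
theorem sweep1K {κ : ℝ} (hκ : 0 ≤ κ) (hK : FlatK κ) {I : Type} [DecidableEq I] (x : I → ℂ)
    (A B : I → ℝ) (S : Finset I) (p : ℂ) (w b1 b2 T : ℝ)
    (hd : ∀ i ∈ S, ∀ j ∈ S, dist (x i) (x j) ^ 2 ≤ (A i - A j) ^ 2 + (B i - B j) ^ 2)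
    (hA2 : ∀ i ∈ S, A i ≤ w) (hB1 : ∀ i ∈ S, b1 ≤ B i) (hB2 : ∀ i ∈ S, B i ≤ b2)
    (hT : ∀ i ∈ S, dist p (x i) + (w - A i) + κ * (b2 - b1) ≤ T) :
    Serve x S p T := by
  rcases S.eq_empty_or_nonempty with rfl | hne
  · exact Serve.nil _ _
  obtain ⟨i, hi, hmin⟩ := S.exists_min_image A hne
  have h1 := hT i hi
  have h2 := hA2 i hi
  have h3 := hB1 i hi
  have h4 := hB2 i hi
  have h5 : 0 ≤ κ * (b2 - b1) := mul_nonneg hκ (by linarith)
  refine Serve.of_step hi (by linarith) ?_
  have key := hK I x A B (S.erase i) (x i) (A i) (B i) w b1 b2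
    (fun j hj k hk => hd j (Finset.mem_of_mem_erase hj) k (Finset.mem_of_mem_erase hk))
    (fun j hj => hd i hi j (Finset.mem_of_mem_erase hj)) h3 h4
    (fun j hj => hmin j (Finset.mem_of_mem_erase hj))
    (fun j hj => hA2 j (Finset.mem_of_mem_erase hj))
    (fun j hj => hB1 j (Finset.mem_of_mem_erase hj))
    (fun j hj => hB2 j (Finset.mem_of_mem_erase hj))
  exact key.mono (by linarith)

/-- polar distances are at most flat distances (radii at most `R`) -/
theorem dist_pol_sq_le_flat {R ρ ρ' α β : ℝ} (h1 : 0 ≤ ρ) (h2 : ρ ≤ R) (h3 : 0 ≤ ρ')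
    (h4 : ρ' ≤ R) :
    dist (pol ρ α) (pol ρ' β) ^ 2 ≤ (R * α - R * β) ^ 2 + (ρ - ρ') ^ 2 := by
  rw [dist_pol_sq]
  have hX := chordX_le_sq (α - β)
  have hX0 := chordX_nonneg (α - β)
  have hR : 0 ≤ R := h1.trans h2
  have hm : ρ * ρ' * (2 - 2 * Real.cos (α - β)) ≤ R ^ 2 * (α - β) ^ 2 := by
    have hle : ρ * ρ' ≤ R ^ 2 := by nlinarith
    have h0 : 0 ≤ ρ * ρ' := mul_nonneg h1 h3
    calc ρ * ρ' * (2 - 2 * Real.cos (α - β)) ≤ ρ * ρ' * (α - β) ^ 2 :=
          mul_le_mul_of_nonneg_left hX h0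
      _ ≤ R ^ 2 * (α - β) ^ 2 := mul_le_mul_of_nonneg_right hle (sq_nonneg _)
  nlinarith

/-- distance to a point of an arc: the maximum is attained at an end of the arc -/
theorem dist_arc_le {ρ σ r α β θ D : ℝ} (hρ : 0 ≤ ρ) (hr : 0 ≤ r) (h1 : α ≤ θ) (h2 : θ ≤ β)
    (hπ1 : |σ - α| ≤ Real.pi) (hπ2 : |σ - β| ≤ Real.pi)
    (hD1 : dist (pol ρ σ) (pol r α) ≤ D) (hD2 : dist (pol ρ σ) (pol r β) ≤ D) :
    dist (pol ρ σ) (pol r θ) ≤ D := by
  have hD0 : 0 ≤ D := dist_nonneg.trans hD1
  have key : ∀ γ : ℝ, |σ - θ| ≤ |σ - γ| → |σ - γ| ≤ Real.pi →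
      dist (pol ρ σ) (pol r γ) ≤ D → dist (pol ρ σ) (pol r θ) ≤ D := by
    intro γ hγ hγπ hDγ
    refine le_trans ?_ hDγ
    refine abs_le_of_sq_le_sq' ?_ dist_nonneg |>.2
    rw [dist_pol_sq, dist_pol_sq]
    have hcos : Real.cos (σ - γ) ≤ Real.cos (σ - θ) := by
      rw [← Real.cos_abs (σ - γ), ← Real.cos_abs (σ - θ)]
      exact Real.cos_le_cos_of_nonneg_of_le_pi (abs_nonneg _) hγπ hγ
    have h0 : 0 ≤ ρ * r := mul_nonneg hρ hr
    nlinarith [mul_le_mul_of_nonneg_left hcos h0]
  rcases le_total σ θ with h | h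
  · refine key β ?_ hπ2 hD2
    rw [abs_sub_comm σ θ, abs_sub_comm σ β, abs_of_nonneg (by linarith : (0:ℝ) ≤ θ - σ),
      abs_of_nonneg (by linarith : (0:ℝ) ≤ β - σ)]
    linarith
  · refine key α ?_ hπ1 hD1
    rw [abs_of_nonneg (by linarith : (0:ℝ) ≤ σ - θ), abs_of_nonneg (by linarith : (0:ℝ) ≤ σ - α)]
    linarith

variable {α' : Type} [Fintype α']

/-- Convexity of the distance in the robot position, in the form used by the leaves. -/
theorem comb_dist_le (v : α' → ℂ) (t w : α' → ℝ) (hw : Wt w) (q : ℂ) (c : ℝ)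
    (hq : ∀ a, dist (v a) q + c ≤ t a) :
    dist (∑ a, (w a : ℂ) * v a) q + c ≤ ∑ a, w a * t a := by
  have h := dist_comb_le v (fun _ : Unit => q) w (fun _ => 1) hw ⟨by simp, by simp⟩
  have h' : dist (∑ a, (w a : ℂ) * v a) q ≤ ∑ a, w a * dist (v a) q := by simpa using h
  have h3 : ∑ a, w a * (dist (v a) q + c) ≤ ∑ a, w a * t a :=
    Finset.sum_le_sum fun a _ => mul_le_mul_of_nonneg_left (hq a) (hw.1 a)
  have h4 : ∑ a, w a * (dist (v a) q + c) = (∑ a, w a * dist (v a) q) + c := by
    simp only [mul_add, Finset.sum_add_distrib, ← Finset.sum_mul, hw.2, one_mul]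
  linarith

/-- Leaf, sweep by increasing angle. -/
theorem Claim.leafUpK {κ : ℝ} (hκ : 0 ≤ κ) (hK : FlatK κ) {v : α' → ℂ} {t : α' → ℝ}
    {r1 r2 α β : ℝ} (hr : 0 ≤ r1)
    (h1 : ∀ a, dist (v a) (pol r1 α) + r2 * (β - α) + κ * (r2 - r1) ≤ t a)
    (h2 : ∀ a, dist (v a) (pol r2 α) + r2 * (β - α) + κ * (r2 - r1) ≤ t a) :
    Claim v t (PR r1 r2 α β) := by
  intro I _ x S hS w hw
  choose! ρ s hρ1 hρ2 hs1 hs2 hx using hS
  set p := ∑ a, (w a : ℂ) * v a with hp
  set T := ∑ a, w a * t a with hT
  have e1 : dist p (pol r1 α) + (r2 * (β - α) + κ * (r2 - r1)) ≤ T :=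
    comb_dist_le v t w hw _ _ (fun a => by have := h1 a; linarith)
  have e2 : dist p (pol r2 α) + (r2 * (β - α) + κ * (r2 - r1)) ≤ T :=
    comb_dist_le v t w hw _ _ (fun a => by have := h2 a; linarith)
  refine sweep1K hκ hK x (fun i => r2 * s i) ρ S p (r2 * β) r1 r2 T ?_ ?_ hρ1 hρ2 ?_
  · intro i hi j hj
    rw [hx i hi, hx j hj]
    exact dist_pol_sq_le_flat (hr.trans (hρ1 i hi)) (hρ2 i hi) (hr.trans (hρ1 j hj)) (hρ2 j hj)
  · intro i hi
    exact mul_le_mul_of_nonneg_left (hs2 i hi) (by linarith [hρ1 i hi, hρ2 i hi])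
  · intro i hi
    have hr2 : 0 ≤ r2 := by linarith [hρ1 i hi, hρ2 i hi]
    have hd1 : dist (pol (ρ i) α) (x i) ≤ r2 * (s i - α) := by
      rw [hx i hi]
      have h3 := dist_pol_le_arcR (R := r2) (α := α) (β := s i) (hr.trans (hρ1 i hi)) (hρ2 i hi)
        (hr.trans (hρ1 i hi)) (hρ2 i hi)
      rw [sub_self, abs_zero, zero_add, abs_sub_comm, abs_of_nonneg (by linarith [hs1 i hi])] at h3
      exact h3
    have hd2 : dist p (pol (ρ i) α) ≤ T - (r2 * (β - α) + κ * (r2 - r1)) :=
      dist_seg_le p (hρ1 i hi) (hρ2 i hi) (by linarith) (by linarith)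
    have hd3 := dist_triangle p (pol (ρ i) α) (x i)
    linarith

/-- Leaf, sweep by decreasing angle. -/
theorem Claim.leafDownK {κ : ℝ} (hκ : 0 ≤ κ) (hK : FlatK κ) {v : α' → ℂ} {t : α' → ℝ}
    {r1 r2 α β : ℝ} (hr : 0 ≤ r1)
    (h1 : ∀ a, dist (v a) (pol r1 β) + r2 * (β - α) + κ * (r2 - r1) ≤ t a)
    (h2 : ∀ a, dist (v a) (pol r2 β) + r2 * (β - α) + κ * (r2 - r1) ≤ t a) :
    Claim v t (PR r1 r2 α β) := by
  intro I _ x S hS w hw
  choose! ρ s hρ1 hρ2 hs1 hs2 hx using hS
  set p := ∑ a, (w a : ℂ) * v a with hp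
  set T := ∑ a, w a * t a with hT
  have e1 : dist p (pol r1 β) + (r2 * (β - α) + κ * (r2 - r1)) ≤ T :=
    comb_dist_le v t w hw _ _ (fun a => by have := h1 a; linarith)
  have e2 : dist p (pol r2 β) + (r2 * (β - α) + κ * (r2 - r1)) ≤ T :=
    comb_dist_le v t w hw _ _ (fun a => by have := h2 a; linarith)
  refine sweep1K hκ hK x (fun i => - (r2 * s i)) ρ S p (- (r2 * α)) r1 r2 T ?_ ?_ hρ1 hρ2 ?_
  · intro i hi j hj
    rw [hx i hi, hx j hj]
    have h3 := dist_pol_sq_le_flat (R := r2) (α := s i) (β := s j) (hr.trans (hρ1 i hi))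
      (hρ2 i hi) (hr.trans (hρ1 j hj)) (hρ2 j hj)
    have e : (-(r2 * s i) - -(r2 * s j)) ^ 2 = (r2 * s i - r2 * s j) ^ 2 := by ring
    rw [e]; exact h3
  · intro i hi
    have := mul_le_mul_of_nonneg_left (hs1 i hi)
      (by linarith [hρ1 i hi, hρ2 i hi] : (0:ℝ) ≤ r2)
    linarith
  · intro i hi
    have hr2 : 0 ≤ r2 := by linarith [hρ1 i hi, hρ2 i hi]
    have hd1 : dist (pol (ρ i) β) (x i) ≤ r2 * (β - s i) := by
      rw [hx i hi]
      have h3 := dist_pol_le_arcR (R := r2) (α := β) (β := s i) (hr.trans (hρ1 i hi)) (hρ2 i hi)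
        (hr.trans (hρ1 i hi)) (hρ2 i hi)
      rw [sub_self, abs_zero, zero_add, abs_of_nonneg (by linarith [hs2 i hi])] at h3
      exact h3
    have hd2 : dist p (pol (ρ i) β) ≤ T - (r2 * (β - α) + κ * (r2 - r1)) :=
      dist_seg_le p (hρ1 i hi) (hρ2 i hi) (by linarith) (by linarith)
    have hd3 := dist_triangle p (pol (ρ i) β) (x i)
    linarith

/-- Leaf, sweep outwards: `D a` bounds the distance from `v a` to the inner arc. -/
theorem Claim.leafOutK {κ : ℝ} (hκ : 0 ≤ κ) (hK : FlatK κ) {v : α' → ℂ} {t : α' → ℝ}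
    {D : α' → ℝ} {r1 r2 α β : ℝ} (hr : 0 ≤ r1)
    (hD : ∀ a θ, α ≤ θ → θ ≤ β → dist (v a) (pol r1 θ) ≤ D a)
    (h1 : ∀ a, D a + (r2 - r1) + κ * (r2 * (β - α)) ≤ t a) :
    Claim v t (PR r1 r2 α β) := by
  intro I _ x S hS w hw
  choose! ρ s hρ1 hρ2 hs1 hs2 hx using hS
  set p := ∑ a, (w a : ℂ) * v a with hp
  set T := ∑ a, w a * t a with hT
  refine sweep1K hκ hK x ρ (fun i => r2 * s i) S p r2 (r2 * α) (r2 * β) T ?_ hρ2 ?_ ?_ ?_
  · intro i hi j hj
    rw [hx i hi, hx j hj, add_comm]
    exact dist_pol_sq_le_flat (hr.trans (hρ1 i hi)) (hρ2 i hi) (hr.trans (hρ1 j hj)) (hρ2 j hj)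
  · intro i hi
    exact mul_le_mul_of_nonneg_left (hs1 i hi) (by linarith [hρ1 i hi, hρ2 i hi])
  · intro i hi
    exact mul_le_mul_of_nonneg_left (hs2 i hi) (by linarith [hρ1 i hi, hρ2 i hi])
  · intro i hi
    have e1 : dist p (pol r1 (s i)) + ((r2 - r1) + κ * (r2 * (β - α))) ≤ T :=
      comb_dist_le v t w hw _ _ (fun a => by
        have h3 := hD a (s i) (hs1 i hi) (hs2 i hi)
        have h4 := h1 a
        linarith)
    have hd1 : dist (pol r1 (s i)) (x i) = ρ i - r1 := by
      rw [hx i hi, pol_sub, abs_sub_comm, abs_of_nonneg (by linarith [hρ1 i hi])]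
    have hd3 := dist_triangle p (pol r1 (s i)) (x i)
    have e3 : r2 * β - r2 * α = r2 * (β - α) := by ring
    rw [e3]
    linarith

/-- Leaf, sweep inwards: `D a` bounds the distance from `v a` to the outer arc. -/
theorem Claim.leafInK {κ : ℝ} (hκ : 0 ≤ κ) (hK : FlatK κ) {v : α' → ℂ} {t : α' → ℝ}
    {D : α' → ℝ} {r1 r2 α β : ℝ} (hr : 0 ≤ r1)
    (hD : ∀ a θ, α ≤ θ → θ ≤ β → dist (v a) (pol r2 θ) ≤ D a)
    (h1 : ∀ a, D a + (r2 - r1) + κ * (r2 * (β - α)) ≤ t a) :
    Claim v t (PR r1 r2 α β) := by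
  intro I _ x S hS w hw
  choose! ρ s hρ1 hρ2 hs1 hs2 hx using hS
  set p := ∑ a, (w a : ℂ) * v a with hp
  set T := ∑ a, w a * t a with hT
  refine sweep1K hκ hK x (fun i => - ρ i) (fun i => r2 * s i) S p (- r1) (r2 * α) (r2 * β) T
    ?_ ?_ ?_ ?_ ?_
  · intro i hi j hj
    rw [hx i hi, hx j hj]
    have h3 := dist_pol_sq_le_flat (R := r2) (α := s i) (β := s j) (hr.trans (hρ1 i hi))
      (hρ2 i hi) (hr.trans (hρ1 j hj)) (hρ2 j hj)
    have e : (-ρ i - -ρ j) ^ 2 = (ρ i - ρ j) ^ 2 := by ring
    rw [e, add_comm]; exact h3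
  · intro i hi; linarith [hρ1 i hi]
  · intro i hi
    exact mul_le_mul_of_nonneg_left (hs1 i hi) (by linarith [hρ1 i hi, hρ2 i hi])
  · intro i hi
    exact mul_le_mul_of_nonneg_left (hs2 i hi) (by linarith [hρ1 i hi, hρ2 i hi])
  · intro i hi
    have e1 : dist p (pol r2 (s i)) + ((r2 - r1) + κ * (r2 * (β - α))) ≤ T :=
      comb_dist_le v t w hw _ _ (fun a => by
        have h3 := hD a (s i) (hs1 i hi) (hs2 i hi)
        have h4 := h1 a
        linarith)
    have hd1 : dist (pol r2 (s i)) (x i) = r2 - ρ i := by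
      rw [hx i hi, pol_sub, abs_of_nonneg (by linarith [hρ2 i hi])]
    have hd3 := dist_triangle p (pol r2 (s i)) (x i)
    have e3 : r2 * β - r2 * α = r2 * (β - α) := by ring
    rw [e3]
    linarith

end FreezeTag

end

section

/-!
# Freeze-Tag, part B2: the one-variable recursion for arcs of a thin annulus
-/

namespace FreezeTag

open Complex

variable {I : Type*} [DecidableEq I] {x : I → ℂ}

/-- `G2 x r δ j k T`: two robots at the left end of an arc of `k` cells of size `δ` in the annulus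
`[r,1]`, all angular gaps larger than `j δ` (no condition if `j = 0`), serve in time `T` -/
def G2 (x : I → ℂ) (r δ : ℝ) (j k : ℕ) (T : ℝ) : Prop :=
  ∀ (ρ s : I → ℝ) (S : Finset I) (α ρ0 : ℝ), r ≤ ρ0 → ρ0 ≤ 1 →
    (∀ i ∈ S, x i = pol (ρ i) (s i)) → (∀ i ∈ S, r ≤ ρ i) → (∀ i ∈ S, ρ i ≤ 1) →
    (∀ i ∈ S, α ≤ s i) → (∀ i ∈ S, s i ≤ α + k * δ) →
    (∀ i ∈ S, j = 0 ∨ (j : ℝ) * δ < s i - α) →
    (∀ i ∈ S, ∀ l ∈ S, i ≠ l → j = 0 ∨ (j : ℝ) * δ < |s i - s l|) →
    Serve2 x S (pol ρ0 α) T

/-- the cell of a positive offset -/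
noncomputable def cell (δ t : ℝ) : ℕ := ⌈t / δ⌉₊ - 1

theorem le_cell_succ {δ t : ℝ} (hδ : 0 < δ) : t ≤ ((cell δ t + 1 : ℕ) : ℝ) * δ := by
  have h1 : t / δ ≤ (⌈t / δ⌉₊ : ℝ) := Nat.le_ceil _
  have h2 : ⌈t / δ⌉₊ ≤ cell δ t + 1 := by unfold cell; omega
  have h3 : (⌈t / δ⌉₊ : ℝ) ≤ ((cell δ t + 1 : ℕ) : ℝ) := by exact_mod_cast h2
  calc t = t / δ * δ := by field_simp
    _ ≤ ((cell δ t + 1 : ℕ) : ℝ) * δ := mul_le_mul_of_nonneg_right (h1.trans h3) hδ.le

theorem cell_mul_le {δ t : ℝ} (hδ : 0 < δ) (ht : 0 ≤ t) : (cell δ t : ℝ) * δ ≤ t := by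
  rcases Nat.eq_zero_or_pos ⌈t / δ⌉₊ with h | h
  · have : cell δ t = 0 := by unfold cell; omega
    rw [this]; simpa using ht
  · have h1 : cell δ t < ⌈t / δ⌉₊ := by unfold cell; omega
    have h2 : (cell δ t : ℝ) < t / δ := Nat.lt_ceil.1 h1
    rw [lt_div_iff₀ hδ] at h2
    exact h2.le

theorem cell_lt {δ t : ℝ} {k : ℕ} (hδ : 0 < δ) (hk : 1 ≤ k) (ht : t ≤ k * δ) :
    cell δ t < k := by
  have h1 : t / δ ≤ k := by rw [div_le_iff₀ hδ]; exact ht
  have h2 : ⌈t / δ⌉₊ ≤ k := Nat.ceil_le.2 h1
  unfold cell; omega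

theorem le_cell {δ t : ℝ} {p : ℕ} (hδ : 0 < δ) (ht : p = 0 ∨ (p : ℝ) * δ < t) :
    p ≤ cell δ t := by
  rcases ht with rfl | ht
  · exact Nat.zero_le _
  · have h1 : (p : ℝ) < t / δ := by rw [lt_div_iff₀ hδ]; exact ht
    have h2 : p < ⌈t / δ⌉₊ := Nat.lt_ceil.2 h1
    unfold cell; omega

/-- `c m` bounds the distance of two points of the annulus at angular distance at most `m δ` -/
def CBound (r δ : ℝ) (c : ℕ → ℝ) : Prop :=
  ∀ (m : ℕ) (t : ℝ), 0 ≤ t → t ≤ m * δ →
    0 ≤ c m ∧ 2 - 2 * Real.cos t ≤ c m ^ 2 ∧ (1 - r) ^ 2 + r * (2 - 2 * Real.cos t) ≤ c m ^ 2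

/-- one robot, first robot of the arc in a cell `a ≥ lo` -/
theorem v1rule {r δ : ℝ} {c V : ℕ → ℝ} (hr : 0 ≤ r) (hδ : 0 < δ) (hc : CBound r δ c)
    {j lo k : ℕ} {T : ℝ} (hk : 1 ≤ k)
    (hV : ∀ a, lo ≤ a → a < k → G2 x r δ j (k - a) (V (k - a)))
    (hVn : ∀ a, lo ≤ a → a < k → 0 ≤ V (k - a))
    (hT : ∀ a, lo ≤ a → a < k → c (a + 1) + V (k - a) ≤ T)
    (ρ s : I → ℝ) (S : Finset I) (α ρ0 : ℝ) (h1 : r ≤ ρ0) (h2 : ρ0 ≤ 1)
    (hx : ∀ i ∈ S, x i = pol (ρ i) (s i)) (hρ1 : ∀ i ∈ S, r ≤ ρ i) (hρ2 : ∀ i ∈ S, ρ i ≤ 1)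
    (hs1 : ∀ i ∈ S, α ≤ s i) (hs2 : ∀ i ∈ S, s i ≤ α + k * δ)
    (hs3 : ∀ i ∈ S, lo ≤ cell δ (s i - α))
    (hsep : ∀ i ∈ S, ∀ l ∈ S, i ≠ l → j = 0 ∨ (j : ℝ) * δ < |s i - s l|) :
    Serve x S (pol ρ0 α) T := by
  rcases S.eq_empty_or_nonempty with rfl | hne
  · exact Serve.nil _ _
  obtain ⟨i, hi, hmin⟩ := S.exists_min_image s hne
  set t := s i - α with ht
  have ht0 : 0 ≤ t := by have := hs1 i hi; linarith
  have htk : t ≤ k * δ := by have := hs2 i hi; linarith
  have ha1 : lo ≤ cell δ t := hs3 i hi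
  have ha2 : cell δ t < k := cell_lt hδ hk htk
  have ha3 := cell_mul_le hδ ht0
  have ha4 := le_cell_succ (t := t) hδ
  set a := cell δ t with ha
  obtain ⟨hc0, hc1, hc2⟩ := hc (a + 1) t ht0 ha4
  have hcos : Real.cos (α - s i) = Real.cos t := by
    rw [ht, ← Real.cos_neg, neg_sub]
  have hd : dist (pol ρ0 α) (x i) ≤ c (a + 1) := by
    rw [hx i hi]
    exact dist_pol_le hr h1 h2 (hρ1 i hi) (hρ2 i hi) hc0 (by rw [hcos]; exact hc1)
      (by rw [hcos]; exact hc2)
  have hTa := hT a ha1 ha2
  have hVa := hVn a ha1 ha2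
  refine Serve.of_step hi (by linarith) ?_
  have key := hV a ha1 ha2 ρ s (S.erase i) (s i) (ρ i) (hρ1 i hi) (hρ2 i hi)
    (fun l hl => hx l (Finset.mem_of_mem_erase hl))
    (fun l hl => hρ1 l (Finset.mem_of_mem_erase hl))
    (fun l hl => hρ2 l (Finset.mem_of_mem_erase hl))
    (fun l hl => hmin l (Finset.mem_of_mem_erase hl))
    (fun l hl => by
      have h5 := hs2 l (Finset.mem_of_mem_erase hl)
      have h6 : ((k - a : ℕ) : ℝ) = (k : ℝ) - a := by
        rw [Nat.cast_sub ha2.le]
      rw [h6]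
      have h7 : ((k : ℝ) - a) * δ = k * δ - a * δ := by ring
      rw [h7]
      linarith)
    (fun l hl => by
      have h5 := hsep l (Finset.mem_of_mem_erase hl) i hi (Finset.ne_of_mem_erase hl)
      have h6 := hmin l (Finset.mem_of_mem_erase hl)
      rwa [abs_of_nonneg (by linarith)] at h5)
    (fun l hl m hm hlm => hsep l (Finset.mem_of_mem_erase hl) m (Finset.mem_of_mem_erase hm) hlm)
  rw [← hx i hi] at key
  exact key.mono (by linarith)

/-- the condition checked by the certificate for the entry `k` -/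
def Cond (r δ : ℝ) (c V : ℕ → ℝ) (j k : ℕ) : Prop :=
  0 ≤ V k ∧ ((1 ≤ j ∧ k ≤ j) ∨ (k : ℝ) * δ + 16181 / 10000 * (1 - r) ≤ V k ∨
    ∃ p, 1 ≤ p ∧ p < k ∧ (∀ a, j ≤ a → a < p → c (a + 1) + V (p - a) ≤ V k) ∧
      (∀ a, p ≤ a → a < k → c (a + 1) + V (k - a) ≤ V k))

theorem G2_all {r δ : ℝ} {c V : ℕ → ℝ} (hr : 0 ≤ r) (hδ : 0 < δ) (hc : CBound r δ c)
    {j K : ℕ} (hcond : ∀ k, 1 ≤ k → k ≤ K → Cond r δ c V j k) :
    ∀ k, 1 ≤ k → k ≤ K → G2 x r δ j k (V k) := by
  intro k
  induction k using Nat.strong_induction_on with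
  | _ k ih =>
    intro hk1 hkK ρ s S α ρ0 h1 h2 hx hρ1 hρ2 hs1 hs2 hs3 hsep
    obtain ⟨hVk, hcase⟩ := hcond k hk1 hkK
    rcases hcase with ⟨hj1, hkj⟩ | hbase | ⟨p, hp1, hpk, hnear, hfar⟩
    · -- empty region
      have : S = ∅ := by
        rw [Finset.eq_empty_iff_forall_notMem]
        intro i hi
        rcases hs3 i hi with h | h
        · omega
        · have h3 := hs2 i hi
          have h4 : (k : ℝ) ≤ j := by exact_mod_cast hkj
          nlinarith
      rw [this]; exact Serve2.empty _ _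
    · have key := base2k (x := x) ρ s S α r 1 ρ0 (α + k * δ) hr le_rfl h1 h2 hx hρ1 hρ2
        hs1 hs2
      exact key.mono (by linarith)
    · classical
      refine Serve2.of_filter (fun i => s i ≤ α + p * δ) ?_ ?_
      · refine v1rule (x := x) (V := V) hr hδ hc (lo := j) (k := p) hp1
          (fun a ha1 ha2 => ih (p - a) (by omega) (by omega) (by omega))
          (fun a ha1 ha2 => (hcond (p - a) (by omega) (by omega)).1) hnear ρ s _ α ρ0 h1 h2
          (fun i hi => hx i (Finset.mem_of_mem_filter i hi))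
          (fun i hi => hρ1 i (Finset.mem_of_mem_filter i hi))
          (fun i hi => hρ2 i (Finset.mem_of_mem_filter i hi))
          (fun i hi => hs1 i (Finset.mem_of_mem_filter i hi))
          (fun i hi => (Finset.mem_filter.1 hi).2)
          (fun i hi => le_cell hδ (hs3 i (Finset.mem_of_mem_filter i hi)))
          (fun i hi l hl hil => hsep i (Finset.mem_of_mem_filter i hi) l
            (Finset.mem_of_mem_filter l hl) hil)
      · refine v1rule (x := x) (V := V) hr hδ hc (lo := p) (k := k) (j := j) hk1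
          (fun a ha1 ha2 => ih (k - a) (by omega) (by omega) (by omega))
          (fun a ha1 ha2 => (hcond (k - a) (by omega) (by omega)).1) hfar ρ s _ α ρ0 h1 h2
          (fun i hi => hx i (Finset.mem_of_mem_filter i hi))
          (fun i hi => hρ1 i (Finset.mem_of_mem_filter i hi))
          (fun i hi => hρ2 i (Finset.mem_of_mem_filter i hi))
          (fun i hi => hs1 i (Finset.mem_of_mem_filter i hi))
          (fun i hi => hs2 i (Finset.mem_of_mem_filter i hi))
          (fun i hi => le_cell hδ (Or.inr (by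
            have := (Finset.mem_filter.1 hi).2
            rw [not_le] at this
            linarith)))
          (fun i hi l hl hil => hsep i (Finset.mem_of_mem_filter i hi) l
            (Finset.mem_of_mem_filter l hl) hil)

end FreezeTag

end

section

/-!
# Freeze-Tag, flat leaf lemma: claims with bounded number of robots
-/

namespace FreezeTag

namespace FK

/-- two robots on the left side of a rectangle `a × b`, at most `n` sleeping robots -/
def Flat (I : Type*) [DecidableEq I] (κ : ℝ) (n : ℕ) : Prop :=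
  ∀ (x : I → ℂ) (S : Finset I), S.card ≤ n → ∀ a b t : ℝ, 0 ≤ t → t ≤ b →
    (∀ i ∈ S, 0 ≤ (x i).re ∧ (x i).re ≤ a ∧ 0 ≤ (x i).im ∧ (x i).im ≤ b) →
    Serve2 x S ⟨0, t⟩ (a + κ * b)

variable {I : Type*} [DecidableEq I]

/-- one robot: go to the first robot in the `A` direction, then sweep -/
theorem leafA {κ : ℝ} {n : ℕ} (hF : Flat I κ n) (hκ : 0 ≤ κ) (x : I → ℂ) (A B : I → ℝ)
    (S : Finset I) (hc : S.card ≤ n + 1) (p : ℂ) (w b1 b2 T : ℝ)
    (hd : ∀ i ∈ S, ∀ j ∈ S, dist (x i) (x j) ≤ dist (⟨A i, B i⟩ : ℂ) ⟨A j, B j⟩)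
    (hA : ∀ i ∈ S, A i ≤ w) (hB1 : ∀ i ∈ S, b1 ≤ B i) (hB2 : ∀ i ∈ S, B i ≤ b2)
    (hT : ∀ i ∈ S, dist p (x i) + (w - A i) + κ * (b2 - b1) ≤ T) : Serve x S p T := by
  rcases S.eq_empty_or_nonempty with rfl | hne
  · exact Serve.nil _ _
  obtain ⟨i, hi, hmin⟩ := S.exists_min_image A hne
  have h1 := hT i hi
  have h2 := hA i hi
  have h3 := hB1 i hi
  have h4 := hB2 i hi
  have h5 : 0 ≤ κ * (b2 - b1) := mul_nonneg hκ (by linarith)
  refine Serve.of_step hi (by linarith) ?_
  have key := hF (fun j => (⟨A j - A i, B j - b1⟩ : ℂ)) (S.erase i)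
    (by rw [Finset.card_erase_of_mem hi]; omega) (w - A i) (b2 - b1) (B i - b1)
    (by linarith) (by linarith) (fun j hj => by
      have hjS := Finset.mem_of_mem_erase hj
      have e1 := hmin j hjS
      have e2 := hA j hjS
      have e3 := hB1 j hjS
      have e4 := hB2 j hjS
      refine ⟨?_, ?_, ?_, ?_⟩ <;> simp <;> linarith)
  have key2 := key.contract (x := x) (p := x i) (fun j hj k hk => by
      refine (hd j (Finset.mem_of_mem_erase hj) k (Finset.mem_of_mem_erase hk)).trans ?_
      rw [Complex.dist_eq_re_im, Complex.dist_eq_re_im]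
      apply le_of_eq; congr 2 <;> simp) (fun j hj => by
      refine (hd i hi j (Finset.mem_of_mem_erase hj)).trans ?_
      rw [Complex.dist_eq_re_im, Complex.dist_eq_re_im]
      apply le_of_eq; congr 2 <;> simp)
  exact key2.mono (by linarith)

/-- hull claims for at most `n` robots -/
def FC (x : I → ℂ) (n : ℕ) {α : Type} [Fintype α] (v : α → ℂ) (t : α → ℝ) (R : Set ℂ) : Prop :=
  ∀ S : Finset I, S.card ≤ n → (∀ i ∈ S, x i ∈ R) →
    ∀ w : α → ℝ, Wt w → Serve x S (∑ a, (w a : ℂ) * v a) (∑ a, w a * t a)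

variable {α β : Type} [Fintype α] [Fintype β] {x : I → ℂ}

theorem FC.mono {n : ℕ} {v : α → ℂ} {t t' : α → ℝ} {R R' : Set ℂ} (h : FC x n v t R)
    (ht : ∀ a, t a ≤ t' a) (hR : R' ⊆ R) : FC x n v t' R' := by
  intro S hc hS w hw
  refine (h S hc (fun i hi => hR (hS i hi)) w hw).mono ?_
  exact Finset.sum_le_sum fun a _ => mul_le_mul_of_nonneg_left (ht a) (hw.1 a)

theorem FC.empty {n : ℕ} {v : α → ℂ} {t : α → ℝ} : FC x n v t ∅ := by
  intro S _ hS w hw
  have : S = ∅ := by
    rcases S.eq_empty_or_nonempty with h | ⟨i, hi⟩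
    · exact h
    · exact absurd (hS i hi) (by simp)
  rw [this]; exact Serve.nil _ _

/-- two robots at a point of `Q` reached from the hull of `v`, sharing the rest -/
theorem two_of_FC {n : ℕ} {v : α → ℂ} {t : α → ℝ} {Q A B : Set ℂ} {u : β → ℂ} {s : β → ℝ}
    (hQ : InHull Q u) (h : ∀ a b, s b + dist (v a) (u b) ≤ t a) (hs : ∀ b, 0 ≤ s b)
    (hA : FC x n u s A) (hB : FC x n u s B) (S : Finset I) (hc : S.card ≤ n) (i : I) (hi : i ∈ S)
    (hiQ : x i ∈ Q) (hS : ∀ j ∈ S, j ≠ i → x j ∈ A ∪ B) (w : α → ℝ) (hw : Wt w) :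
    Serve x S (∑ a, (w a : ℂ) * v a) (∑ a, w a * t a) := by
  classical
  obtain ⟨m, hm, hq⟩ := hQ (x i) hiQ
  have htl := time_left v t u s w m hw hm h
  rw [← hq] at htl
  have hpos : 0 ≤ ∑ b, m b * s b := Finset.sum_nonneg fun b _ => mul_nonneg (hm.1 b) (hs b)
  have hce : (S.erase i).card ≤ n := (Finset.card_erase_le).trans hc
  refine Serve.of_step hi (by linarith) ?_
  refine Serve2.of_filter (fun j => x j ∈ A) ?_ ?_
  · have h1 := hA ((S.erase i).filter fun j => x j ∈ A)
      ((Finset.card_filter_le _ _).trans hce) (fun j hj => (Finset.mem_filter.1 hj).2) m hm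
    rw [← hq] at h1
    exact h1.mono (by linarith)
  · have h1 := hB ((S.erase i).filter fun j => ¬ x j ∈ A)
      ((Finset.card_filter_le _ _).trans hce) (fun j hj => by
      have hj1 := Finset.mem_filter.1 hj
      have hj2 := Finset.mem_erase.1 hj1.1
      rcases hS j hj2.2 hj2.1 with h2 | h2
      · exact absurd h2 hj1.2
      · exact h2) m hm
    rw [← hq] at h1
    exact h1.mono (by linarith)

theorem FC.elim {n : ℕ} {v : α → ℂ} {t : α → ℝ} {R R' Q A B : Set ℂ} {u : β → ℂ} {s : β → ℝ}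
    (hQ : InHull Q u) (hR' : R ⊆ Q ∪ R') (hAB : R ⊆ A ∪ B) (hs : ∀ b, 0 ≤ s b)
    (h : ∀ a b, s b + dist (v a) (u b) ≤ t a)
    (hA : FC x n u s A) (hB : FC x n u s B) (hrest : FC x n v t R') : FC x n v t R := by
  classical
  intro S hc hS w hw
  by_cases hex : ∃ i ∈ S, x i ∈ Q
  · obtain ⟨i, hi, hiQ⟩ := hex
    exact two_of_FC hQ h hs hA hB S hc i hi hiQ (fun j hj _ => hAB (hS j hj)) w hw
  · push Not at hex
    refine hrest S hc (fun i hi => ?_) w hw
    rcases hR' (hS i hi) with h1 | h1
    · exact absurd h1 (hex i hi)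
    · exact h1

/-- leaf: sweep of a strip in the `A` direction -/
theorem FC.leafG {κ : ℝ} {n : ℕ} (hF : Flat I κ n) (hκ : 0 ≤ κ) {v : α → ℂ} {t : α → ℝ}
    {R : Set ℂ} (A B : ℂ → ℝ)
    (hAB : ∀ z w : ℂ, dist z w ≤ dist (⟨A z, B z⟩ : ℂ) ⟨A w, B w⟩)
    {A0 A1 B0 B1 : ℝ} {P0 P1 : ℂ} (hR1 : ∀ z ∈ R, A z ≤ A1) (hR2 : ∀ z ∈ R, B0 ≤ B z)
    (hR3 : ∀ z ∈ R, B z ≤ B1)
    (hfoot : ∀ z ∈ R, ∃ q ∈ segment ℝ P0 P1, dist q z ≤ A z - A0)
    (h0 : ∀ a, dist (v a) P0 + (A1 - A0) + κ * (B1 - B0) ≤ t a)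
    (h1 : ∀ a, dist (v a) P1 + (A1 - A0) + κ * (B1 - B0) ≤ t a) : FC x (n + 1) v t R := by
  intro S hc hS w hw
  set p := ∑ a, (w a : ℂ) * v a with hp
  set T := ∑ a, w a * t a with hT
  have hconv : ∀ q : ℂ, dist p q ≤ ∑ a, w a * dist (v a) q := by
    intro q
    have h := dist_comb_le v (fun _ : Unit => q) w (fun _ => 1) hw ⟨by simp, by simp⟩
    simpa using h
  have hsum : ∀ (q : ℂ) (c : ℝ), (∀ a, dist (v a) q + c ≤ t a) → dist p q + c ≤ T := by
    intro q c hq
    have h3 : ∑ a, w a * (dist (v a) q + c) ≤ ∑ a, w a * t a :=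
      Finset.sum_le_sum fun a _ => mul_le_mul_of_nonneg_left (hq a) (hw.1 a)
    have h4 : ∑ a, w a * (dist (v a) q + c) = (∑ a, w a * dist (v a) q) + c := by
      simp only [mul_add, Finset.sum_add_distrib, ← Finset.sum_mul, hw.2, one_mul]
    have := hconv q
    linarith
  have e0 := hsum P0 ((A1 - A0) + κ * (B1 - B0)) (fun a => by linarith [h0 a])
  have e1 := hsum P1 ((A1 - A0) + κ * (B1 - B0)) (fun a => by linarith [h1 a])
  refine leafA hF hκ x (fun i => A (x i)) (fun i => B (x i)) S hc p A1 B0 B1 T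
    (fun i _ j _ => hAB _ _) (fun i hi => hR1 _ (hS i hi)) (fun i hi => hR2 _ (hS i hi))
    (fun i hi => hR3 _ (hS i hi)) ?_
  intro i hi
  obtain ⟨q, hq, hqz⟩ := hfoot _ (hS i hi)
  have h2 : dist q p ≤ max (dist P0 p) (dist P1 p) :=
    (convexOn_dist p convex_univ).le_max_of_mem_segment (Set.mem_univ _) (Set.mem_univ _) hq
  rw [dist_comm q p, dist_comm P0 p, dist_comm P1 p] at h2
  have h3 : dist p q ≤ T - ((A1 - A0) + κ * (B1 - B0)) :=
    h2.trans (max_le (by linarith) (by linarith))
  have h4 := dist_triangle p q (x i)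
  show dist p (x i) + (A1 - A (x i)) + κ * (B1 - B0) ≤ T
  linarith

theorem seg_v {X y Y0 Y1 : ℝ} (h0 : Y0 ≤ y) (h1 : y ≤ Y1) :
    (⟨X, y⟩ : ℂ) ∈ segment ℝ (⟨X, Y0⟩ : ℂ) ⟨X, Y1⟩ := by
  have h : y ∈ segment ℝ Y0 Y1 := by
    rw [segment_eq_Icc (h0.trans h1)]; exact ⟨h0, h1⟩
  obtain ⟨s, r, hs, hr, hsr, e⟩ := h
  refine ⟨s, r, hs, hr, hsr, ?_⟩
  apply Complex.ext
  · simp only [Complex.add_re, Complex.real_smul, Complex.mul_re, Complex.ofReal_re,
      Complex.ofReal_im, zero_mul, sub_zero]
    rw [← add_mul, hsr, one_mul]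
  · simp only [Complex.add_im, Complex.real_smul, Complex.mul_im, Complex.ofReal_re,
      Complex.ofReal_im, zero_mul, add_zero]
    exact e

theorem seg_h {Y x X0 X1 : ℝ} (h0 : X0 ≤ x) (h1 : x ≤ X1) :
    (⟨x, Y⟩ : ℂ) ∈ segment ℝ (⟨X0, Y⟩ : ℂ) ⟨X1, Y⟩ := by
  have h : x ∈ segment ℝ X0 X1 := by
    rw [segment_eq_Icc (h0.trans h1)]; exact ⟨h0, h1⟩
  obtain ⟨s, r, hs, hr, hsr, e⟩ := h
  refine ⟨s, r, hs, hr, hsr, ?_⟩
  apply Complex.ext
  · simp only [Complex.add_re, Complex.real_smul, Complex.mul_re, Complex.ofReal_re,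
      Complex.ofReal_im, zero_mul, sub_zero]
    exact e
  · simp only [Complex.add_im, Complex.real_smul, Complex.mul_im, Complex.ofReal_re,
      Complex.ofReal_im, zero_mul, add_zero]
    rw [← add_mul, hsr, one_mul]

theorem dist_hor {x x' y : ℝ} (h : x ≤ x') : dist (⟨x, y⟩ : ℂ) ⟨x', y⟩ = x' - x := by
  rw [Complex.dist_eq_re_im]
  simp only [sub_self, ne_eq, OfNat.ofNat_ne_zero, not_false_eq_true, zero_pow, add_zero]
  rw [show (x - x') ^ 2 = (x' - x) ^ 2 by ring, Real.sqrt_sq (by linarith)]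

theorem dist_ver {x y y' : ℝ} (h : y ≤ y') : dist (⟨x, y⟩ : ℂ) ⟨x, y'⟩ = y' - y := by
  rw [Complex.dist_eq_re_im]
  simp only [sub_self, ne_eq, OfNat.ofNat_ne_zero, not_false_eq_true, zero_pow, zero_add]
  rw [show (y - y') ^ 2 = (y' - y) ^ 2 by ring, Real.sqrt_sq (by linarith)]

theorem hor_leaf {κ : ℝ} {n : ℕ} (hF : Flat I κ n) (hκ : 0 ≤ κ) {v : α → ℂ} {t : α → ℝ}
    {R : Set ℂ} {X0 X1 Y0 Y1 : ℝ} (hx0 : ∀ z ∈ R, X0 ≤ z.re) (hx1 : ∀ z ∈ R, z.re ≤ X1)
    (hy0 : ∀ z ∈ R, Y0 ≤ z.im) (hy1 : ∀ z ∈ R, z.im ≤ Y1)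
    (h0 : ∀ a, dist (v a) ⟨X0, Y0⟩ + (X1 - X0) + κ * (Y1 - Y0) ≤ t a)
    (h1 : ∀ a, dist (v a) ⟨X0, Y1⟩ + (X1 - X0) + κ * (Y1 - Y0) ≤ t a) : FC x (n + 1) v t R :=
  FC.leafG hF hκ (fun z => z.re) (fun z => z.im) (fun z w => le_rfl) hx1 hy0 hy1
    (fun z hz => ⟨⟨X0, z.im⟩, seg_v (hy0 z hz) (hy1 z hz), by
      have := dist_hor (y := z.im) (hx0 z hz)
      exact this.le⟩) h0 h1

theorem hor_leaf' {κ : ℝ} {n : ℕ} (hF : Flat I κ n) (hκ : 0 ≤ κ) {v : α → ℂ} {t : α → ℝ}
    {R : Set ℂ} {X0 X1 Y0 Y1 : ℝ} (hx0 : ∀ z ∈ R, X0 ≤ z.re) (hx1 : ∀ z ∈ R, z.re ≤ X1)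
    (hy0 : ∀ z ∈ R, Y0 ≤ z.im) (hy1 : ∀ z ∈ R, z.im ≤ Y1)
    (h0 : ∀ a, dist (v a) ⟨X1, Y0⟩ + (X1 - X0) + κ * (Y1 - Y0) ≤ t a)
    (h1 : ∀ a, dist (v a) ⟨X1, Y1⟩ + (X1 - X0) + κ * (Y1 - Y0) ≤ t a) : FC x (n + 1) v t R :=
  FC.leafG hF hκ (A0 := -X1) (A1 := -X0) (B0 := Y0) (B1 := Y1) (fun z => -z.re) (fun z => z.im)
    (fun z w => by
      rw [Complex.dist_eq_re_im, Complex.dist_eq_re_im]
      apply le_of_eq; congr 2; simp; ring)
    (fun z hz => neg_le_neg (hx0 z hz)) hy0 hy1
    (fun z hz => ⟨⟨X1, z.im⟩, seg_v (hy0 z hz) (hy1 z hz), by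
      have := dist_hor (y := z.im) (hx1 z hz)
      rw [dist_comm]
      have e : dist z (⟨X1, z.im⟩ : ℂ) = X1 - z.re := this
      rw [e]; linarith⟩)
    (fun a => by linarith [h0 a]) (fun a => by linarith [h1 a])

theorem ver_leaf {κ : ℝ} {n : ℕ} (hF : Flat I κ n) (hκ : 0 ≤ κ) {v : α → ℂ} {t : α → ℝ}
    {R : Set ℂ} {X0 X1 Y0 Y1 : ℝ} (hx0 : ∀ z ∈ R, X0 ≤ z.re) (hx1 : ∀ z ∈ R, z.re ≤ X1)
    (hy0 : ∀ z ∈ R, Y0 ≤ z.im) (hy1 : ∀ z ∈ R, z.im ≤ Y1)
    (h0 : ∀ a, dist (v a) ⟨X0, Y0⟩ + (Y1 - Y0) + κ * (X1 - X0) ≤ t a)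
    (h1 : ∀ a, dist (v a) ⟨X1, Y0⟩ + (Y1 - Y0) + κ * (X1 - X0) ≤ t a) : FC x (n + 1) v t R :=
  FC.leafG hF hκ (fun z => z.im) (fun z => z.re)
    (fun z w => by
      rw [Complex.dist_eq_re_im, Complex.dist_eq_re_im]
      apply le_of_eq; congr 1; simp; ring)
    hy1 hx0 hx1
    (fun z hz => ⟨⟨z.re, Y0⟩, seg_h (hx0 z hz) (hx1 z hz), by
      have := dist_ver (x := z.re) (hy0 z hz)
      exact this.le⟩) h0 h1

theorem ver_leaf' {κ : ℝ} {n : ℕ} (hF : Flat I κ n) (hκ : 0 ≤ κ) {v : α → ℂ} {t : α → ℝ}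
    {R : Set ℂ} {X0 X1 Y0 Y1 : ℝ} (hx0 : ∀ z ∈ R, X0 ≤ z.re) (hx1 : ∀ z ∈ R, z.re ≤ X1)
    (hy0 : ∀ z ∈ R, Y0 ≤ z.im) (hy1 : ∀ z ∈ R, z.im ≤ Y1)
    (h0 : ∀ a, dist (v a) ⟨X0, Y1⟩ + (Y1 - Y0) + κ * (X1 - X0) ≤ t a)
    (h1 : ∀ a, dist (v a) ⟨X1, Y1⟩ + (Y1 - Y0) + κ * (X1 - X0) ≤ t a) : FC x (n + 1) v t R :=
  FC.leafG hF hκ (A0 := -Y1) (A1 := -Y0) (B0 := X0) (B1 := X1) (fun z => -z.im) (fun z => z.re)
    (fun z w => by
      rw [Complex.dist_eq_re_im, Complex.dist_eq_re_im]
      apply le_of_eq; congr 1; simp; ring)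
    (fun z hz => neg_le_neg (hy0 z hz)) hx0 hx1
    (fun z hz => ⟨⟨z.re, Y1⟩, seg_h (hx0 z hz) (hx1 z hz), by
      have := dist_ver (x := z.re) (hy1 z hz)
      rw [dist_comm]
      have e : dist z (⟨z.re, Y1⟩ : ℂ) = Y1 - z.im := this
      rw [e]; linarith⟩)
    (fun a => by linarith [h0 a]) (fun a => by linarith [h1 a])

end FK

end FreezeTag

end

section

/-!
# Freeze-Tag, part B2: three robots next to each other
-/

namespace FreezeTag

open Complex

variable {I : Type*} [DecidableEq I] {x : I → ℂ}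

theorem conj_pol (ρ θ : ℝ) : (starRingEnd ℂ) (pol ρ θ) = pol ρ (-θ) := by
  apply Complex.ext
  · rw [Complex.conj_re, pol_re, pol_re, Real.cos_neg]
  · rw [Complex.conj_im, pol_im, pol_im, Real.sin_neg]; ring

theorem pol_add_two_pi (ρ θ : ℝ) : pol ρ (θ + 2 * Real.pi) = pol ρ θ := by
  apply Complex.ext
  · rw [pol_re, pol_re, Real.cos_add_two_pi]
  · rw [pol_im, pol_im, Real.sin_add_two_pi]

theorem isometry_conj : Isometry (starRingEnd ℂ) := by
  refine Isometry.of_dist_eq (fun z w => ?_)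
  exact Complex.dist_conj_conj z w

/-- the final check of a bin: `k` cells for the pair, `m` cells for the third robot -/
def Final (δ B : ℝ) (c V : ℕ → ℝ) (N K j : ℕ) : Prop :=
  ∃ k m, 1 ≤ k ∧ 1 ≤ m ∧ k ≤ K ∧ m ≤ K ∧ m + j + k = 2 * N ∧ ((j + 1 : ℕ) : ℝ) * δ + V k ≤ B ∧
    (∀ a, j ≤ a → a < m → c (a + 1) + V (m - a) ≤ B)

/-- three robots next to each other: the robot `i0` at `(ρ0,0)` and the robot `j0` at
angle `g` -/
theorem three {r δ B : ℝ} {c V : ℕ → ℝ} (hr : 0 ≤ r) (hδ : 0 < δ) (hc : CBound r δ c)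
    {j N K : ℕ} (hN : (N : ℝ) * δ = Real.pi)
    (hcond : ∀ k, 1 ≤ k → k ≤ K → Cond r δ c V j k) (hfin : Final δ B c V N K j)
    (ρ s : I → ℝ) (S : Finset I) (j0 : I) (ρ0 ρ1 g : ℝ)
    (h1 : r ≤ ρ0) (h01 : ρ0 ≤ ρ1) (h2 : ρ1 ≤ 1)
    (hg0 : 0 ≤ g) (hg1 : j = 0 ∨ (j : ℝ) * δ < g) (hg2 : g ≤ ((j + 1 : ℕ) : ℝ) * δ)
    (hxj : x j0 = pol ρ1 g)
    (hx : ∀ i ∈ S, x i = pol (ρ i) (s i)) (hρ1 : ∀ i ∈ S, r ≤ ρ i) (hρ2 : ∀ i ∈ S, ρ i ≤ 1)
    (hs1 : ∀ i ∈ S, 2 * g ≤ s i) (hs2 : ∀ i ∈ S, s i ≤ 2 * Real.pi - g)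
    (hsep : ∀ i ∈ S, ∀ l ∈ S, i ≠ l → g ≤ |s i - s l|) :
    Serve2 x (insert j0 S) (pol ρ0 0) (B + 1 - ρ0) := by
  obtain ⟨k, m, hk1, hm1, hkK, hmK, hkm, hB1, hB2⟩ := hfin
  have hG := G2_all (x := x) hr hδ hc hcond
  have hjg : (j : ℝ) * δ ≤ g := by
    rcases hg1 with rfl | h
    · simpa using hg0
    · exact h.le
  have hsep' : ∀ i ∈ S, ∀ l ∈ S, i ≠ l → j = 0 ∨ (j : ℝ) * δ < |s i - s l| := by
    intro i hi l hl hil
    rcases hg1 with h | h
    · exact Or.inl h
    · exact Or.inr (lt_of_lt_of_le h (hsep i hi l hl hil))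
  classical
  set P : I → Prop := fun i => i = j0 ∨ s i ≤ g + k * δ with hP
  have hVk : 0 ≤ V k := (hcond k hk1 (by omega)).1
  refine Serve2.of_filter P ?_ ?_
  · -- the robot going to `j0`
    have hmem : j0 ∈ (insert j0 S).filter P :=
      Finset.mem_filter.2 ⟨Finset.mem_insert_self _ _, Or.inl rfl⟩
    have hd : dist (pol ρ0 0) (x j0) ≤ (ρ1 - ρ0) + g := by
      rw [hxj]
      refine le_trans (dist_pol_le_arc (by linarith) (by linarith) (by linarith) h2) ?_
      rw [zero_sub, abs_neg, abs_of_nonneg hg0, abs_of_nonpos (by linarith)]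
      linarith
    refine Serve.of_step hmem (by linarith) ?_
    have hsub : ∀ i ∈ ((insert j0 S).filter P).erase j0, i ∈ S ∧ s i ≤ g + k * δ := by
      intro i hi
      have hij := Finset.ne_of_mem_erase hi
      have h3 := Finset.mem_filter.1 (Finset.mem_of_mem_erase hi)
      refine ⟨(Finset.mem_insert.1 h3.1).resolve_left hij, h3.2.resolve_left hij⟩
    have key := hG k hk1 (by omega) ρ s (((insert j0 S).filter P).erase j0) g ρ1
      (by linarith) h2
      (fun i hi => hx i (hsub i hi).1) (fun i hi => hρ1 i (hsub i hi).1)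
      (fun i hi => hρ2 i (hsub i hi).1) (fun i hi => by have := hs1 i (hsub i hi).1; linarith)
      (fun i hi => (hsub i hi).2)
      (fun i hi => by
        rcases hg1 with h | h
        · exact Or.inl h
        · right; have := hs1 i (hsub i hi).1; linarith)
      (fun i hi l hl hil => hsep' i (hsub i hi).1 l (hsub l hl).1 hil)
    rw [← hxj] at key
    exact key.mono (by linarith)
  · -- the third robot, in the mirror image
    have hsub : ∀ i ∈ (insert j0 S).filter (fun i => ¬ P i), i ∈ S ∧ g + k * δ < s i := by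
      intro i hi
      have h3 := Finset.mem_filter.1 hi
      have h4 : ¬ (i = j0) ∧ ¬ (s i ≤ g + k * δ) := not_or.1 h3.2
      exact ⟨(Finset.mem_insert.1 h3.1).resolve_left h4.1, not_le.1 h4.2⟩
    have hmπ : 2 * Real.pi = m * δ + j * δ + k * δ := by
      have : ((m + j + k : ℕ) : ℝ) = ((2 * N : ℕ) : ℝ) := by rw [hkm]
      push_cast at this
      have h5 : 2 * Real.pi = (2 * (N : ℝ)) * δ := by rw [← hN]; ring
      rw [h5, ← this]; ring
    have key := v1rule (x := fun i => (starRingEnd ℂ) (x i)) (V := V) hr hδ hc (lo := j)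
      (k := m) (j := j) (T := B) hm1
      (fun a ha1 ha2 => G2_all hr hδ hc hcond (m - a) (by omega) (by omega))
      (fun a ha1 ha2 => (hcond (m - a) (by omega) (by omega)).1) hB2
      ρ (fun i => 2 * Real.pi - s i) ((insert j0 S).filter (fun i => ¬ P i)) 0 ρ0 h1
      (by linarith)
      (fun i hi => by
        show (starRingEnd ℂ) (x i) = _
        rw [hx i (hsub i hi).1, conj_pol, ← pol_add_two_pi]
        congr 1; ring)
      (fun i hi => hρ1 i (hsub i hi).1) (fun i hi => hρ2 i (hsub i hi).1)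
      (fun i hi => by have := hs2 i (hsub i hi).1; linarith)
      (fun i hi => by have := (hsub i hi).2; linarith)
      (fun i hi => le_cell hδ (by
        rcases hg1 with h | h
        · exact Or.inl h
        · right; have := hs2 i (hsub i hi).1; linarith))
      (fun i hi l hl hil => by
        rcases hsep' i (hsub i hi).1 l (hsub l hl).1 hil with h | h
        · exact Or.inl h
        · right
          have : (2 * Real.pi - s i) - (2 * Real.pi - s l) = -(s i - s l) := by ring
          rw [this, abs_neg]; exact h)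
    have key2 := key.map_isometry _ isometry_conj
    have e1 : (starRingEnd ℂ) (pol ρ0 0) = pol ρ0 0 := by rw [conj_pol, neg_zero]
    rw [e1] at key2
    have e2 : (fun i => (starRingEnd ℂ) ((starRingEnd ℂ) (x i))) = x := by
      funext i; exact Complex.conj_conj (x i)
    rw [e2] at key2
    exact key2.mono (by linarith)

end FreezeTag

end

section

/-!
# Freeze-Tag: reduction to a half annulus (nearest robot first) and to the thin annulus
-/

namespace FreezeTag

/-- Half annulus with the awake robot at `(r,0)`. -/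
def PartA (r0 : ℝ) : Prop := ∀ r : ℝ, 0 ≤ r → r ≤ r0 → ∀ (I : Type) [DecidableEq I] (x : I → ℂ)
  (S : Finset I), (∀ i ∈ S, r ≤ ‖x i‖ ∧ ‖x i‖ ≤ 1 ∧ 0 ≤ (x i).im) →
  Serve x S (r : ℂ) (1 + 2 * Real.sqrt 2 - r)

/-- Thin annulus. -/
def PartB (r0 : ℝ) : Prop := ∀ (I : Type) [DecidableEq I] (x : I → ℂ)
  (S : Finset I), (∀ i ∈ S, r0 ≤ ‖x i‖ ∧ ‖x i‖ ≤ 1) → Serve x S 0 (1 + 2 * Real.sqrt 2)

theorem isometry_mul (u : ℂ) (hu : ‖u‖ = 1) : Isometry (fun z : ℂ => u * z) := by
  refine Isometry.of_dist_eq fun a b => ?_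
  rw [dist_eq_norm, dist_eq_norm, ← mul_sub, norm_mul, hu, one_mul]

/-- The remaining robots are split by the line through `0` and the nearest robot. -/
theorem serve_nearest {r0 : ℝ} (hA : PartA r0) {I : Type} [DecidableEq I] (x : I → ℂ)
    (S : Finset I) (i : I) (hi : i ∈ S) (hr : ‖x i‖ ≤ r0) (hmin : ∀ j ∈ S, ‖x i‖ ≤ ‖x j‖)
    (h1 : ∀ j ∈ S, ‖x j‖ ≤ 1) (hr1 : r0 ≤ 1) : Serve x S 0 (1 + 2 * Real.sqrt 2) := by
  have hs2 : (0 : ℝ) ≤ Real.sqrt 2 := Real.sqrt_nonneg 2
  set r : ℝ := ‖x i‖ with hrdef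
  have hr0 : 0 ≤ r := norm_nonneg _
  -- a unit vector `u` with `x i = r u`
  obtain ⟨u, hu, hxu⟩ : ∃ u : ℂ, ‖u‖ = 1 ∧ x i = r * u := by
    by_cases h : x i = 0
    · refine ⟨1, by simp, ?_⟩
      rw [h, hrdef, h]; simp
    · refine ⟨x i / ‖x i‖, ?_, ?_⟩
      · rw [norm_div]; simp [h]
      · rw [hrdef]
        have : (‖x i‖ : ℂ) ≠ 0 := by simpa using h
        field_simp
  have hu0 : u ≠ 0 := by intro h; rw [h] at hu; simp at hu
  have hconj : (starRingEnd ℂ) u * u = 1 := by
    rw [mul_comm, Complex.mul_conj, Complex.normSq_eq_norm_sq, hu]; simp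
  -- rotated positions
  set y : I → ℂ := fun j => (starRingEnd ℂ) u * x j with hy
  have hyn : ∀ j, ‖y j‖ = ‖x j‖ := by
    intro j; simp only [hy, norm_mul, RCLike.norm_conj, hu, one_mul]
  have hback : ∀ j, u * y j = x j := by
    intro j; simp only [hy]; rw [← mul_assoc, mul_comm u, hconj, one_mul]
  have hyi : u * (r : ℂ) = x i := by rw [hxu]; ring
  refine Serve.of_step hi ?_ ?_
  · rw [dist_zero_left]; linarith
  rw [dist_zero_left, ← hrdef]
  refine Serve2.of_filter (fun j => 0 ≤ (y j).im) ?_ ?_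
  · have h := hA r hr0 hr I y ((S.erase i).filter (fun j => 0 ≤ (y j).im)) (by
      intro j hj
      rw [Finset.mem_filter] at hj
      have hj' := Finset.mem_of_mem_erase hj.1
      exact ⟨by rw [hyn]; exact hmin j hj', by rw [hyn]; exact h1 j hj', hj.2⟩)
    have h2 := h.map_isometry (fun z => u * z) (isometry_mul u hu)
    simp only [hback, hyi] at h2
    exact h2
  · have h := hA r hr0 hr I (fun j => (starRingEnd ℂ) (y j))
      ((S.erase i).filter (fun j => ¬ 0 ≤ (y j).im)) (by
      intro j hj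
      rw [Finset.mem_filter] at hj
      have hj' := Finset.mem_of_mem_erase hj.1
      refine ⟨by rw [RCLike.norm_conj, hyn]; exact hmin j hj',
        by rw [RCLike.norm_conj, hyn]; exact h1 j hj', ?_⟩
      rw [Complex.conj_im]; linarith [not_le.1 hj.2])
    have h2 := h.map_isometry (fun z => (starRingEnd ℂ) z) Complex.conjLIE.isometry
    have h3 := h2.map_isometry (fun z => u * z) (isometry_mul u hu)
    simp only [Complex.conj_conj, hback, Complex.conj_ofReal, hyi] at h3
    exact h3

theorem upper_of_parts {r0 : ℝ} (hr1 : r0 ≤ 1) (hA : PartA r0) (hB : PartB r0) : Upper := by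
  intro n x hx
  rcases (Finset.univ : Finset (Fin n)).eq_empty_or_nonempty with h | hne
  · rw [h]; exact Serve.nil _ _
  obtain ⟨i, hi, hmin⟩ := Finset.exists_min_image Finset.univ (fun j => ‖x j‖) hne
  rcases le_total ‖x i‖ r0 with h | h
  · exact serve_nearest hA x _ i hi h hmin (fun j _ => hx j) hr1
  · exact hB (Fin n) x _ (fun j hj => ⟨le_trans h (hmin j hj), hx j⟩)

theorem main_of_parts {r0 : ℝ} (hr1 : r0 ≤ 1) (hA : PartA r0) (hB : PartB r0) : Main :=
  main_of_upper (upper_of_parts hr1 hA hB)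

end FreezeTag

end

section

/-!
# Freeze-Tag, flat leaf lemma: soundness of the checker for one robot
-/

namespace FreezeTag

namespace FK

theorem allN_sound {f : ℕ → Bool} {n : ℕ} (h : allN f n = true) : ∀ i, i < n → f i = true := by
  induction n with
  | zero => intro i hi; exact absurd hi (Nat.not_lt_zero i)
  | succ n ih =>
    unfold allN at h
    rw [Bool.and_eq_true] at h
    intro i hi
    rcases Nat.lt_succ_iff_lt_or_eq.1 hi with h' | h'
    · exact ih h.2 i h'
    · rw [h']; exact h.1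

/-! ### regions -/

/-- grid point -/
noncomputable def gp (η : ℝ) (l i j : ℕ) : ℂ := ⟨i * η, (j : ℝ) / l⟩

/-- grid cell; the columns `c ≥ m` are unbounded to the right -/
def cell (η : ℝ) (l m c r : ℕ) : Set ℂ :=
  {z | (c : ℝ) * η ≤ z.re ∧ (c < m → z.re ≤ ((c : ℝ) + 1) * η) ∧ (r : ℝ) / l ≤ z.im ∧
    z.im ≤ ((r : ℝ) + 1) / l}

/-- union of the cells of a mask, up to abscissa `a` -/
def reg (η a : ℝ) (l m nc S : ℕ) : Set ℂ :=
  {z | z.re ≤ a ∧ ∃ c r, c < nc ∧ r < l ∧ S.testBit (c * l + r) = true ∧ z ∈ cell η l m c r}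

theorem reg_split (η a : ℝ) (l m nc S M : ℕ) :
    reg η a l m nc S ⊆ reg η a l m nc (S &&& M) ∪ reg η a l m nc (S ^^^ (S &&& M)) := by
  rintro z ⟨hz, c, r, hc, hr, hb, hcell⟩
  by_cases h : M.testBit (c * l + r) = true
  · left
    exact ⟨hz, c, r, hc, hr, by rw [Nat.testBit_and, hb, h]; rfl, hcell⟩
  · right
    exact ⟨hz, c, r, hc, hr, by
      rw [Nat.testBit_xor, Nat.testBit_and, hb]; simp [h], hcell⟩

theorem reg_mono_and (η a : ℝ) (l m nc S M : ℕ) :
    reg η a l m nc (S &&& M) ⊆ reg η a l m nc S := by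
  rintro z ⟨hz, c, r, hc, hr, hb, hcell⟩
  rw [Nat.testBit_and, Bool.and_eq_true] at hb
  exact ⟨hz, c, r, hc, hr, hb.1, hcell⟩

theorem reg_zero (η a : ℝ) (l m nc : ℕ) : reg η a l m nc 0 = ∅ := by
  ext z
  simp only [reg, Set.mem_ofPred_eq, Set.mem_empty_iff_false, iff_false]
  rintro ⟨_, c, r, _, _, hb, _⟩
  rw [Nat.zero_testBit] at hb
  exact Bool.false_ne_true hb

theorem idx_inj {l c r c' r' : ℕ} (hr : r < l) (hr' : r' < l) (h : c * l + r = c' * l + r') :
    c = c' ∧ r = r' := by
  have h1 : (c * l + r) % l = r := by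
    rw [add_comm, Nat.add_mul_mod_self_right, Nat.mod_eq_of_lt hr]
  have h2 : (c' * l + r') % l = r' := by
    rw [add_comm, Nat.add_mul_mod_self_right, Nat.mod_eq_of_lt hr']
  have h3 : r = r' := by rw [← h1, ← h2, h]
  refine ⟨?_, h3⟩
  have h4 : c * l = c' * l := by omega
  exact Nat.eq_of_mul_eq_mul_right (by omega) h4

theorem reg_clr (η a : ℝ) (l m nc S cx cy : ℕ) (hcy : cy < l) :
    reg η a l m nc S ⊆ cell η l m cx cy ∪
      reg η a l m nc (S ^^^ (S &&& (2 ^ (cx * l + cy)))) := by
  rintro z ⟨hz, c, r, hc, hr, hb, hcell⟩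
  by_cases h : cx * l + cy = c * l + r
  · left
    obtain ⟨h1, h2⟩ := idx_inj hcy hr h
    rw [h1, h2]; exact hcell
  · right
    exact ⟨hz, c, r, hc, hr, by
      rw [Nat.testBit_xor, Nat.testBit_and, hb, Nat.testBit_two_pow]; simp [h], hcell⟩

/-- the box of a mask -/
theorem inBox_sound {L : Lane} {S x0 x1 y0 y1 : ℕ} (hrep : repOK L = true)
    (h : inBox L S x0 x1 y0 y1 = true) :
    x0 ≤ x1 ∧ y0 ≤ y1 ∧ y1 ≤ L.l ∧ ∀ c r, c < L.m + 1 → r < L.l →
      S.testBit (c * L.l + r) = true → x0 ≤ c ∧ c < x1 ∧ y0 ≤ r ∧ r < y1 := by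
  unfold inBox at h
  simp only [Bool.and_eq_true] at h
  obtain ⟨⟨⟨⟨⟨⟨h1, h2⟩, h3⟩, h4⟩, h5⟩, h6⟩, h7⟩ := h
  have h1 := Nat.le_of_ble_eq_true h1
  have h2 := Nat.le_of_ble_eq_true h2
  have h3 := Nat.le_of_ble_eq_true h3
  have h4 : S < 2 ^ (x1 * L.l) := Nat.le_of_ble_eq_true h4
  have h5 := Nat.eq_of_beq_eq_true h5
  have h6 := Nat.eq_of_beq_eq_true h6
  have h7 := Nat.eq_of_beq_eq_true h7
  have hrow : ∀ y c r, y ≤ L.l → c < L.m + 1 → r < L.l →
      (rowLt L y).testBit (c * L.l + r) = decide (r < y) := by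
    intro y c r hy hc hr
    have e1 := allN_sound hrep y (by omega)
    have e2 := allN_sound e1 c hc
    have e3 := allN_sound e2 r hr
    rw [beq_iff_eq] at e3
    rw [e3]
    by_cases hry : r < y
    · rw [decide_eq_true hry]; exact Nat.ble_eq_true_of_le hry
    · rw [decide_eq_false hry]
      by_contra hne
      rw [Bool.not_eq_false] at hne
      exact hry (Nat.le_of_ble_eq_true hne)
  refine ⟨h1, h2, h3, ?_⟩
  intro c r hc hr hb
  refine ⟨?_, ?_, ?_, ?_⟩
  · by_contra hlt
    have hlt : c + 1 ≤ x0 := by omega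
    have e1 : (c + 1) * L.l ≤ x0 * L.l := Nat.mul_le_mul_right _ hlt
    have e2 : c * L.l + r < x0 * L.l := by
      have : (c + 1) * L.l = c * L.l + L.l := by ring
      omega
    have e3 : (S % 2 ^ (x0 * L.l)).testBit (c * L.l + r) = true := by
      rw [Nat.testBit_mod_two_pow, hb, decide_eq_true e2]; rfl
    rw [h5, Nat.zero_testBit] at e3
    exact Bool.false_ne_true e3
  · by_contra hlt
    have hlt : x1 ≤ c := by omega
    have e1 : x1 * L.l ≤ c * L.l := Nat.mul_le_mul_right _ hlt
    have e2 : S < 2 ^ (c * L.l + r) :=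
      lt_of_lt_of_le h4 (Nat.pow_le_pow_right (by norm_num) (by omega))
    rw [Nat.testBit_lt_two_pow e2] at hb
    exact Bool.false_ne_true hb
  · by_contra hlt
    have hlt : r < y0 := by omega
    have e1 : (S &&& rowLt L y0).testBit (c * L.l + r) = true := by
      rw [Nat.testBit_and, hb, hrow y0 c r (by omega) hc hr, decide_eq_true hlt]; rfl
    rw [h6, Nat.zero_testBit] at e1
    exact Bool.false_ne_true e1
  · by_contra hlt
    have e1 : (S &&& rowLt L y1).testBit (c * L.l + r) = false := by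
      rw [Nat.testBit_and, hrow y1 c r (by omega) hc hr, decide_eq_false hlt, Bool.and_false]
    rw [h7, hb] at e1
    exact Bool.false_ne_true e1.symm

/-! ### mixtures of lanes -/

/-- mixture of lanes: the real geometry has column width `η`, rows of height `1 / l` -/
structure Mix {ι : Type} [Fintype ι] (L : ι → Lane) (σ : ι → ℝ) (κ η a z U : ℝ)
    (m l nc rep : ℕ) (far : Bool) : Prop where
  wt : Wt σ
  hm : ∀ q, (L q).m = m
  hl : ∀ q, (L q).l = l
  hfar : ∀ q, (L q).far = far
  hrep : ∀ q, (L q).rep = rep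
  lpos : 0 < l
  Upos : 0 < U
  hk : ∀ q, ((L q).k : ℝ) * l = U
  heta : η * U = ∑ q, σ q * (L q).h
  etapos : 0 < η
  hκ : 0 ≤ κ
  hhK : ∀ q, κ * (L q).h ≤ (L q).hK
  hkK : ∀ q, κ * (L q).k ≤ (L q).kK
  tab : ∀ q, tabOK (L q) = true
  repok : ∀ q, repOK (L q) = true
  zpos : 0 ≤ z
  hnc : nc ≤ m + 1
  nf : far = false → nc = m
  fa : far = true → a * U = (∑ q, σ q * (L q).A0) + z * U

/-- evaluation of a family of integers -/
noncomputable def ev {ι : Type} [Fintype ι] (σ : ι → ℝ) (U : ℝ) (f : ι → ℝ) : ℝ :=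
  (∑ q, σ q * f q) / U

variable {ι : Type} [Fintype ι] {L : ι → Lane} {σ : ι → ℝ} {κ η a z U : ℝ}
  {m l nc rep : ℕ} {far : Bool}

theorem ev_le (hσ : Wt σ) (hU : 0 < U) {f g : ι → ℝ} (h : ∀ q, f q ≤ g q) :
    ev σ U f ≤ ev σ U g := by
  unfold ev
  exact div_le_div_of_nonneg_right
    (Finset.sum_le_sum fun q _ => mul_le_mul_of_nonneg_left (h q) (hσ.1 q)) hU.le

theorem ev_add (f g : ι → ℝ) : ev σ U (fun q => f q + g q) = ev σ U f + ev σ U g := by
  unfold ev
  rw [← add_div, ← Finset.sum_add_distrib]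
  congr 1
  exact Finset.sum_congr rfl fun q _ => by ring

theorem ev_const (hσ : Wt σ) (c : ℝ) : ev σ U (fun _ => c) = c / U := by
  unfold ev
  rw [← Finset.sum_mul, hσ.2, one_mul]

theorem ev_mul (c : ℝ) (f : ι → ℝ) : ev σ U (fun q => c * f q) = c * ev σ U f := by
  unfold ev
  rw [mul_div_assoc', Finset.mul_sum]
  congr 1
  exact Finset.sum_congr rfl fun q _ => by ring

theorem ad_sq (i a : ℕ) : ((ad i a : ℕ) : ℝ) ^ 2 = ((i : ℝ) - a) ^ 2 := by
  unfold ad
  rcases le_total i a with h | h
  · rw [Nat.sub_eq_zero_of_le h, zero_add, Nat.cast_sub h]; ring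
  · rw [Nat.sub_eq_zero_of_le h, add_zero, Nat.cast_sub h]

theorem ad_le {i a m : ℕ} (hi : i ≤ m) (ha : a ≤ m) : ad i a ≤ m := by
  unfold ad; omega

theorem Mix.eta_ev (M : Mix L σ κ η a z U m l nc rep far) :
    ev σ U (fun q => ((L q).h : ℝ)) = η := by
  unfold ev
  rw [← M.heta, mul_div_assoc, div_self M.Upos.ne', mul_one]

theorem Mix.k_ev (M : Mix L σ κ η a z U m l nc rep far) :
    ev σ U (fun q => ((L q).k : ℝ)) = 1 / l := by
  have hl : (0 : ℝ) < l := by exact_mod_cast M.lpos
  have e : ∀ q, ((L q).k : ℝ) = U / l := by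
    intro q; rw [eq_div_iff hl.ne']; exact M.hk q
  simp only [e]
  rw [ev_const M.wt, div_div, mul_comm, ← div_div, div_self M.Upos.ne']

/-- distances of grid points -/
theorem Mix.dist_gp (M : Mix L σ κ η a z U m l nc rep far) {i a' j b : ℕ} (hi : i ≤ m)
    (ha : a' ≤ m) (hj : j ≤ l) (hb : b ≤ l) :
    dist (gp η l i j) (gp η l a' b) ≤ ev σ U (fun q => (dd (L q) i a' j b : ℝ)) := by
  have hl : (0 : ℝ) < l := by exact_mod_cast M.lpos
  have key : ∀ q, ‖(⟨((i : ℝ) - a') * (L q).h, ((j : ℝ) - b) * (L q).k⟩ : ℂ)‖ ≤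
      (dd (L q) i a' j b : ℝ) := by
    intro q
    have h1 := M.tab q
    have h2 := allN_sound h1 (ad i a') (by rw [M.hm q]; have := ad_le hi ha; omega)
    have h3 := allN_sound h2 (ad j b) (by rw [M.hl q]; have := ad_le hj hb; omega)
    have h4 := Nat.le_of_ble_eq_true h3
    have e0 : dd (L q) (ad i a') 0 (ad j b) 0 = dd (L q) i a' j b := by
      unfold dd
      have e1 : ad (ad i a') 0 = ad i a' := by simp [ad]
      have e2 : ad (ad j b) 0 = ad j b := by simp [ad]
      rw [e1, e2]
    rw [e0] at h4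
    have h5 : (((ad i a' : ℕ) : ℝ) * (L q).h) * (((ad i a' : ℕ) : ℝ) * (L q).h) +
        (((ad j b : ℕ) : ℝ) * (L q).k) * (((ad j b : ℕ) : ℝ) * (L q).k) ≤
        (dd (L q) i a' j b : ℝ) * (dd (L q) i a' j b : ℝ) := by exact_mod_cast h4
    have h6 : ‖(⟨((i : ℝ) - a') * (L q).h, ((j : ℝ) - b) * (L q).k⟩ : ℂ)‖ ^ 2 ≤
        (dd (L q) i a' j b : ℝ) ^ 2 := by
      rw [Complex.sq_norm, Complex.normSq_mk]
      have e3 := ad_sq i a'
      have e4 := ad_sq j b
      calc ((i : ℝ) - a') * (L q).h * (((i : ℝ) - a') * (L q).h) +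
            ((j : ℝ) - b) * (L q).k * (((j : ℝ) - b) * (L q).k)
          = ((i : ℝ) - a') ^ 2 * (L q).h ^ 2 + ((j : ℝ) - b) ^ 2 * (L q).k ^ 2 := by ring
        _ = ((ad i a' : ℕ) : ℝ) ^ 2 * (L q).h ^ 2 + ((ad j b : ℕ) : ℝ) ^ 2 * (L q).k ^ 2 := by
            rw [e3, e4]
        _ ≤ _ := by linarith
    exact (abs_le_of_sq_le_sq' h6 (Nat.cast_nonneg _)).2
  have e : gp η l i j - gp η l a' b = ∑ q, ((σ q / U : ℝ) : ℂ) *
      (⟨((i : ℝ) - a') * (L q).h, ((j : ℝ) - b) * (L q).k⟩ : ℂ) := by
    apply Complex.ext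
    · rw [Complex.re_sum]
      simp only [gp, Complex.sub_re, Complex.mul_re, Complex.ofReal_re, Complex.ofReal_im,
        zero_mul, sub_zero]
      have : ∑ q, σ q / U * (((i : ℝ) - a') * (L q).h) =
          ((i : ℝ) - a') * ev σ U (fun q => ((L q).h : ℝ)) := by
        unfold ev
        rw [mul_div_assoc', Finset.mul_sum, Finset.sum_div]
        exact Finset.sum_congr rfl fun q _ => by ring
      rw [this, M.eta_ev]; ring
    · rw [Complex.im_sum]
      simp only [gp, Complex.sub_im, Complex.mul_im, Complex.ofReal_re, Complex.ofReal_im,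
        zero_mul, add_zero]
      have : ∑ q, σ q / U * (((j : ℝ) - b) * (L q).k) =
          ((j : ℝ) - b) * ev σ U (fun q => ((L q).k : ℝ)) := by
        unfold ev
        rw [mul_div_assoc', Finset.mul_sum, Finset.sum_div]
        exact Finset.sum_congr rfl fun q _ => by ring
      rw [this, M.k_ev]; ring
  rw [dist_eq_norm, e]
  refine (norm_sum_le _ _).trans ?_
  unfold ev
  rw [Finset.sum_div]
  refine Finset.sum_le_sum fun q _ => ?_
  have hσq : 0 ≤ σ q / U := div_nonneg (M.wt.1 q) M.Upos.le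
  rw [norm_mul, Complex.norm_real, Real.norm_eq_abs, abs_of_nonneg hσq,
    show σ q * (dd (L q) i a' j b : ℝ) / U = σ q / U * (dd (L q) i a' j b : ℝ) by ring]
  exact mul_le_mul_of_nonneg_left (key q) hσq

/-- corners of the position rectangle -/
noncomputable def vt (η : ℝ) (l i0 i1 j0 j1 : ℕ) : Fin 4 → ℂ :=
  ![gp η l i0 j0, gp η l i1 j0, gp η l i0 j1, gp η l i1 j1]

/-- remaining times at the corners -/
def tv (s : St) : Fin 4 → ℕ := ![s.t0, s.t1, s.t2, s.t3]

noncomputable def tt (σ : ι → ℝ) (U z : ℝ) (st : ι → St) : Fin 4 → ℝ :=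
  fun b => z + ev σ U (fun q => (tv (st q) b : ℝ))

/-- all lanes stand at the same rectangle -/
structure Pos (st : ι → St) (m l i0 i1 j0 j1 : ℕ) : Prop where
  e0 : ∀ q, (st q).i0 = i0
  e1 : ∀ q, (st q).i1 = i1
  f0 : ∀ q, (st q).j0 = j0
  f1 : ∀ q, (st q).j1 = j1
  b0 : i0 ≤ m
  b1 : i1 ≤ m
  c0 : j0 ≤ l
  c1 : j1 ≤ l

theorem four_sound (M : Mix L σ κ η a z U m l nc rep far) {st : ι → St} {i0 i1 j0 j1 : ℕ}
    (P : Pos st m l i0 i1 j0 j1) {a' b : ℕ} {c e : ι → ℕ} (ha : a' ≤ m) (hb : b ≤ l)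
    (h : ∀ q, four (L q) (st q) a' b (c q) (e q) = true) (v : Fin 4) :
    dist (vt η l i0 i1 j0 j1 v) (gp η l a' b) + ev σ U (fun q => (c q : ℝ)) ≤
      ev σ U (fun q => (tv (st q) v : ℝ)) + ev σ U (fun q => (e q : ℝ)) := by
  have h' : ∀ q, dd (L q) i0 a' j0 b + c q ≤ (st q).t0 + e q ∧
      dd (L q) i1 a' j0 b + c q ≤ (st q).t1 + e q ∧
      dd (L q) i0 a' j1 b + c q ≤ (st q).t2 + e q ∧
      dd (L q) i1 a' j1 b + c q ≤ (st q).t3 + e q := by
    intro q
    have h1 := h q
    unfold four at h1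
    simp only [Bool.and_eq_true] at h1
    obtain ⟨⟨⟨h2, h3⟩, h4⟩, h5⟩ := h1
    have h2 := Nat.le_of_ble_eq_true h2
    have h3 := Nat.le_of_ble_eq_true h3
    have h4 := Nat.le_of_ble_eq_true h4
    have h5 := Nat.le_of_ble_eq_true h5
    rw [P.e0, P.f0] at h2
    rw [P.e1, P.f0] at h3
    rw [P.e0, P.f1] at h4
    rw [P.e1, P.f1] at h5
    exact ⟨h2, h3, h4, h5⟩
  have gen : ∀ (i j : ℕ) (t : ι → ℕ), i ≤ m → j ≤ l →
      (∀ q, dd (L q) i a' j b + c q ≤ t q + e q) →
      dist (gp η l i j) (gp η l a' b) + ev σ U (fun q => (c q : ℝ)) ≤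
        ev σ U (fun q => (t q : ℝ)) + ev σ U (fun q => (e q : ℝ)) := by
    intro i j t hi hj ht
    have h1 := M.dist_gp hi ha hj hb
    have h2 : ev σ U (fun q => (dd (L q) i a' j b : ℝ) + (c q : ℝ)) ≤
        ev σ U (fun q => (t q : ℝ) + (e q : ℝ)) :=
      ev_le M.wt M.Upos fun q => by exact_mod_cast ht q
    rw [ev_add, ev_add] at h2
    linarith
  fin_cases v
  · exact gen i0 j0 _ P.b0 P.c0 fun q => (h' q).1
  · exact gen i1 j0 _ P.b1 P.c0 fun q => (h' q).2.1
  · exact gen i0 j1 _ P.b0 P.c1 fun q => (h' q).2.2.1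
  · exact gen i1 j1 _ P.b1 P.c1 fun q => (h' q).2.2.2

theorem exists_lane (hσ : Wt σ) : Nonempty ι := by
  by_contra h
  rw [not_nonempty_iff] at h
  have := hσ.2
  simp at this

variable {I : Type*} [DecidableEq I] {x : I → ℂ} {n : ℕ}

theorem leaf_sound (M : Mix L σ κ η a z U m l nc rep far) (hF : Flat I κ n) {st : ι → St}
    {i0 i1 j0 j1 : ℕ} (P : Pos st m l i0 i1 j0 j1) {S dir x0 x1 y0 y1 : ℕ}
    (h : ∀ q, leafB (L q) (st q) S dir x0 x1 y0 y1 = true) :
    FC x (n + 1) (vt η l i0 i1 j0 j1) (tt σ U z st) (reg η a l m nc S) := by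
  obtain ⟨q0⟩ := exists_lane M.wt
  have hl : (0 : ℝ) < l := by exact_mod_cast M.lpos
  have hη := M.etapos
  have hbox : x0 ≤ x1 ∧ y0 ≤ y1 ∧ y1 ≤ l ∧ ∀ c r, c < m + 1 → r < l →
      S.testBit (c * l + r) = true → x0 ≤ c ∧ c < x1 ∧ y0 ≤ r ∧ r < y1 := by
    have h1 := h q0
    unfold leafB at h1
    rw [Bool.and_eq_true] at h1
    have h2 := inBox_sound (M.repok q0) h1.1
    rw [M.hl, M.hm] at h2
    exact h2
  obtain ⟨hx01, hy01, hy1, hbits⟩ := hbox
  have hrest : ∀ q, (bif Nat.ble x1 m then leafD (L q) (st q) dir x0 x1 y0 y1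
    else far && Nat.ble x0 m &&
    four (L q) (st q) x0 y0 ((y1 - y0) * (L q).kK + (L q).A0) (x0 * (L q).h) &&
    four (L q) (st q) x0 y1 ((y1 - y0) * (L q).kK + (L q).A0) (x0 * (L q).h)) = true := by
    intro q
    have h1 := h q
    unfold leafB at h1
    rw [Bool.and_eq_true] at h1
    have h2 := h1.2
    rw [M.hm, M.hfar] at h2
    exact h2
  have hy0' : ∀ w ∈ reg η a l m nc S, (y0 : ℝ) / l ≤ w.im := by
    rintro w ⟨_, c, r, hc, hr, hb, hcell⟩
    have h1 := hbits c r (lt_of_lt_of_le hc M.hnc) hr hb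
    refine le_trans ?_ hcell.2.2.1
    exact div_le_div_of_nonneg_right (by exact_mod_cast h1.2.2.1) hl.le
  have hy1' : ∀ w ∈ reg η a l m nc S, w.im ≤ (y1 : ℝ) / l := by
    rintro w ⟨_, c, r, hc, hr, hb, hcell⟩
    have h1 := hbits c r (lt_of_lt_of_le hc M.hnc) hr hb
    refine le_trans hcell.2.2.2 ?_
    exact div_le_div_of_nonneg_right (by exact_mod_cast h1.2.2.2) hl.le
  have hx0' : ∀ w ∈ reg η a l m nc S, (x0 : ℝ) * η ≤ w.re := by
    rintro w ⟨_, c, r, hc, hr, hb, hcell⟩
    have h1 := hbits c r (lt_of_lt_of_le hc M.hnc) hr hb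
    refine le_trans ?_ hcell.1
    exact mul_le_mul_of_nonneg_right (by exact_mod_cast h1.1) hη.le
  -- lower bounds of the costs
  have dx : ((x1 - x0 : ℕ) : ℝ) = (x1 : ℝ) - x0 := Nat.cast_sub hx01
  have dy : ((y1 - y0 : ℕ) : ℝ) = (y1 : ℝ) - y0 := Nat.cast_sub hy01
  have dx0 : (0 : ℝ) ≤ (x1 : ℝ) - x0 := by rw [← dx]; exact Nat.cast_nonneg _
  have dy0 : (0 : ℝ) ≤ (y1 : ℝ) - y0 := by rw [← dy]; exact Nat.cast_nonneg _
  have hevh := M.eta_ev
  have hevk := M.k_ev
  by_cases hx1 : x1 ≤ m
  · have hb1 : Nat.ble x1 m = true := Nat.ble_eq_true_of_le hx1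
    have hx0m : x0 ≤ m := hx01.trans hx1
    simp only [hb1, cond_true] at hrest
    have hx1' : ∀ w ∈ reg η a l m nc S, w.re ≤ (x1 : ℝ) * η := by
      rintro w ⟨_, c, r, hc, hr, hb, hcell⟩
      have h1 := hbits c r (lt_of_lt_of_le hc M.hnc) hr hb
      refine le_trans (hcell.2.1 (by omega)) ?_
      exact mul_le_mul_of_nonneg_right (by exact_mod_cast h1.2.1) hη.le
    have cH : ((x1 : ℝ) * η - x0 * η) + κ * ((y1 : ℝ) / l - (y0 : ℝ) / l) ≤
        ev σ U (fun q => (((x1 - x0) * (L q).h + (y1 - y0) * (L q).kK : ℕ) : ℝ)) := by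
      have e1 : ev σ U (fun q => ((x1 : ℝ) - x0) * ((L q).h : ℝ) +
          (((y1 : ℝ) - y0) * κ) * ((L q).k : ℝ)) =
          ((x1 : ℝ) * η - x0 * η) + κ * ((y1 : ℝ) / l - (y0 : ℝ) / l) := by
        rw [ev_add, ev_mul, ev_mul, hevh, hevk]; ring
      rw [← e1]
      refine ev_le M.wt M.Upos fun q => ?_
      push_cast
      rw [dx, dy]
      have := mul_le_mul_of_nonneg_left (M.hkK q) dy0
      linarith
    have cV : ((y1 : ℝ) / l - (y0 : ℝ) / l) + κ * ((x1 : ℝ) * η - x0 * η) ≤
        ev σ U (fun q => (((y1 - y0) * (L q).k + (x1 - x0) * (L q).hK : ℕ) : ℝ)) := by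
      have e1 : ev σ U (fun q => ((y1 : ℝ) - y0) * ((L q).k : ℝ) +
          (((x1 : ℝ) - x0) * κ) * ((L q).h : ℝ)) =
          ((y1 : ℝ) / l - (y0 : ℝ) / l) + κ * ((x1 : ℝ) * η - x0 * η) := by
        rw [ev_add, ev_mul, ev_mul, hevh, hevk]; ring
      rw [← e1]
      refine ev_le M.wt M.Upos fun q => ?_
      push_cast
      rw [dx, dy]
      have := mul_le_mul_of_nonneg_left (M.hhK q) dx0
      linarith
    have z0 : ev σ U (fun _ : ι => ((0 : ℕ) : ℝ)) = 0 := by
      rw [Nat.cast_zero, ev_const M.wt, zero_div]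
    have fin : ∀ (a' b : ℕ) (c : ι → ℕ) (C : ℝ), a' ≤ m → b ≤ l →
        (∀ q, four (L q) (st q) a' b (c q) 0 = true) → C ≤ ev σ U (fun q => (c q : ℝ)) →
        ∀ v, dist (vt η l i0 i1 j0 j1 v) (gp η l a' b) + C ≤ tt σ U z st v := by
      intro a' b c C ha hb h1 h2 v
      have h3 := four_sound M P (e := fun _ => 0) ha hb h1 v
      rw [z0] at h3
      have := M.zpos
      unfold tt
      linarith
    have hy0l : y0 ≤ l := hy01.trans hy1
    rcases dir with _ | _ | _ | dir
    · have r : ∀ q, four (L q) (st q) x0 y0 ((x1 - x0) * (L q).h + (y1 - y0) * (L q).kK) 0 = true ∧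
          four (L q) (st q) x0 y1 ((x1 - x0) * (L q).h + (y1 - y0) * (L q).kK) 0 = true :=
        fun q => (Bool.and_eq_true _ _).mp (hrest q)
      refine hor_leaf hF M.hκ hx0' hx1' hy0' hy1' (fun v => ?_) (fun v => ?_)
      · have := fin x0 y0 _ _ hx0m hy0l (fun q => (r q).1) cH v
        rw [← add_assoc] at this; exact this
      · have := fin x0 y1 _ _ hx0m hy1 (fun q => (r q).2) cH v
        rw [← add_assoc] at this; exact this
    · have r : ∀ q, four (L q) (st q) x1 y0 ((x1 - x0) * (L q).h + (y1 - y0) * (L q).kK) 0 = true ∧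
          four (L q) (st q) x1 y1 ((x1 - x0) * (L q).h + (y1 - y0) * (L q).kK) 0 = true :=
        fun q => (Bool.and_eq_true _ _).mp (hrest q)
      refine hor_leaf' hF M.hκ hx0' hx1' hy0' hy1' (fun v => ?_) (fun v => ?_)
      · have := fin x1 y0 _ _ hx1 hy0l (fun q => (r q).1) cH v
        rw [← add_assoc] at this; exact this
      · have := fin x1 y1 _ _ hx1 hy1 (fun q => (r q).2) cH v
        rw [← add_assoc] at this; exact this
    · have r : ∀ q, four (L q) (st q) x0 y0 ((y1 - y0) * (L q).k + (x1 - x0) * (L q).hK) 0 = true ∧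
          four (L q) (st q) x1 y0 ((y1 - y0) * (L q).k + (x1 - x0) * (L q).hK) 0 = true :=
        fun q => (Bool.and_eq_true _ _).mp (hrest q)
      refine ver_leaf hF M.hκ hx0' hx1' hy0' hy1' (fun v => ?_) (fun v => ?_)
      · have := fin x0 y0 _ _ hx0m hy0l (fun q => (r q).1) cV v
        rw [← add_assoc] at this; exact this
      · have := fin x1 y0 _ _ hx1 hy0l (fun q => (r q).2) cV v
        rw [← add_assoc] at this; exact this
    · have r : ∀ q, four (L q) (st q) x0 y1 ((y1 - y0) * (L q).k + (x1 - x0) * (L q).hK) 0 = true ∧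
          four (L q) (st q) x1 y1 ((y1 - y0) * (L q).k + (x1 - x0) * (L q).hK) 0 = true :=
        fun q => (Bool.and_eq_true _ _).mp (hrest q)
      refine ver_leaf' hF M.hκ hx0' hx1' hy0' hy1' (fun v => ?_) (fun v => ?_)
      · have := fin x0 y1 _ _ hx0m hy1 (fun q => (r q).1) cV v
        rw [← add_assoc] at this; exact this
      · have := fin x1 y1 _ _ hx1 hy1 (fun q => (r q).2) cV v
        rw [← add_assoc] at this; exact this
  · have hb1 : Nat.ble x1 m = false := by
      by_contra hne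
      rw [Bool.not_eq_false] at hne
      exact hx1 (Nat.le_of_ble_eq_true hne)
    simp only [hb1, cond_false, Bool.and_eq_true] at hrest
    have hfar : far = true := (hrest q0).1.1.1
    have hx0m : x0 ≤ m := Nat.le_of_ble_eq_true (hrest q0).1.1.2
    have hy0l : y0 ≤ l := hy01.trans hy1
    have hxa : ∀ w ∈ reg η a l m nc S, w.re ≤ a := fun w hw => hw.1
    have fin : ∀ b : ℕ, b ≤ l → (∀ q, four (L q) (st q) x0 b ((y1 - y0) * (L q).kK + (L q).A0)
        (x0 * (L q).h) = true) → ∀ v, dist (vt η l i0 i1 j0 j1 v) (gp η l x0 b) +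
        (a - (x0 : ℝ) * η) + κ * ((y1 : ℝ) / l - (y0 : ℝ) / l) ≤ tt σ U z st v := by
      intro b hb h1 v
      have h3 := four_sound M P (c := fun q => (y1 - y0) * (L q).kK + (L q).A0)
        (e := fun q => x0 * (L q).h) hx0m hb h1 v
      have e1 : ev σ U (fun q => ((x0 * (L q).h : ℕ) : ℝ)) = x0 * η := by
        push_cast
        rw [ev_mul, hevh]
      have e2 : ev σ U (fun q => ((L q).A0 : ℝ)) = a - z := by
        unfold ev
        rw [div_eq_iff M.Upos.ne', sub_mul, M.fa hfar]; ring
      have e3 : κ * ((y1 : ℝ) / l - (y0 : ℝ) / l) + (a - z) ≤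
          ev σ U (fun q => (((y1 - y0) * (L q).kK + (L q).A0 : ℕ) : ℝ)) := by
        have e4 : ev σ U (fun q => (((y1 : ℝ) - y0) * κ) * ((L q).k : ℝ) + ((L q).A0 : ℝ)) =
            κ * ((y1 : ℝ) / l - (y0 : ℝ) / l) + (a - z) := by
          rw [ev_add, ev_mul, hevk, e2]; ring
        rw [← e4]
        refine ev_le M.wt M.Upos fun q => ?_
        push_cast
        rw [dy]
        have := mul_le_mul_of_nonneg_left (M.hkK q) dy0
        linarith
      rw [e1] at h3
      unfold tt
      linarith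
    refine hor_leaf hF M.hκ hx0' hxa hy0' hy1' (fun v => ?_) (fun v => ?_)
    · exact fin y0 hy0l (fun q => (hrest q).1.2) v
    · exact fin y1 hy1 (fun q => (hrest q).2) v

end FK

end FreezeTag

end

section

/-!
# Freeze-Tag, part B2: the certificate (one-variable tables), checked by the kernel

All numbers are in units of 1/10000; mesh 180 cells = 180 degrees.
-/

namespace FreezeTag


/-- distance bound of `m` cells (mesh `N`, table `c`) -/
def Cf (c N m : ℕ) : ℕ := bif Nat.ble m N then (c >>> (16 * m)) % 65536 else 20000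

/-- value of `k` cells -/
def Vf (T k : ℕ) : ℕ := (T >>> (16 * k)) % 65536

/-- bounded conjunction -/
def allTo (f : ℕ → Bool) : ℕ → Bool
  | 0 => true
  | n + 1 => f n && allTo f n

/-- first robot in cell `lo + i`, region of `k` cells -/
def v1B (c N T lo k v : ℕ) : Bool :=
  allTo (fun i => Nat.ble (Cf c N (lo + i + 1) + Vf T (k - (lo + i))) v) (k - lo)

/-- the check of one entry -/
def condB (c N st bs sc T P j k : ℕ) : Bool :=
  (Nat.ble 1 j && Nat.ble k j) || Nat.ble (k * st + bs) (Vf T k * sc) ||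
    (Nat.ble 1 (Vf P k) && Nat.blt (Vf P k) k && v1B c N T j (Vf P k) (Vf T k) &&
      v1B c N T (Vf P k) k (Vf T k))

/-- the check of one bin: all entries up to `K`, and the final inequality -/
def binB (c N K st bs sc T P j k m : ℕ) : Bool :=
  allTo (fun i => condB c N st bs sc T P j (i + 1)) K &&
    (Nat.ble 1 k && Nat.ble 1 m && Nat.ble k K && Nat.ble m K && Nat.beq (m + j + k) (2 * N) &&
      Nat.ble ((j + 1) * st + Vf T k * sc) (28284 * sc) && v1B c N T j m 28284)


/-- distance bounds, mesh 180 -/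
def ctab180 : ℕ := 0x4e214e204e1d4e1a4e144e0d4e054dfb4df04de34dd44dc44db34da04d8b4d754d5e4d454d2a4d0e4cf14cd24cb14c8f4c6b4c464c204bf84bce4ba34b774b494b1a4ae94ab74a834a4e4a1749df49a5496a492e48f048b14870482e47eb47a6475f471846cf4684463845eb459d454d44fb44a94455440043a9435142f8429d424141e44186412640c5406340003f9b3f353ece3e653dfc3d913d253cb73c493bd93b693af73a843a0f399a392438ac383337ba373f36c3364635c8354834c8344733c5334232bd323831b2312b30a3301a2f902f052e792dec2d5f2cd02c412bb02b1f2a8d29fb296728d2283d27a72711267925e1254824ae2413237822dc224021a3210520661fc71f281e871de61d451ca31c001b5d1ab91a15197018cb1825177f16d81631158914e11439139012e7123d119410e9103f0f940ee90e3d0d920ce70c4e0bb70b200a8a09f6096308d3084507bb073506b4063905c7055e050304b6047d04590514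

/-- values, bin 2 of mesh 180 -/
def vt180_2 : ℕ := 0x713870f2708c70656fde6fcf6f476f1d6eb66e696e256db36d936d016ce46c6d6c296bd86b6b6b436aad6a8f6a1769cc697f690768e6684e681d67b4675267196685665f65e2658f654664bd6492640b63bd636c62e662b7622e61dc6190610160cd60625fed5fb65f325ed45e9a5e065db45d705cda5c8f5c445bac5b635b145a7c5a3359e65957591058ba583f57f6578e572556d9565e55c655735523549a543b53e9536e530152ac524051cb51735110508150264fca4f464edf4e814e124d974d364cd44c4e4beb4b864b0a4a6e49d2493648a1483a47d1476846fd4691462345b5454544d5446343f0437b4306426541c4412340823fe13f403e9f3e073d6f3cd63c3f3baa3b153a7f39e9395138b93820378936f4365f35c93533349b3403336a32d3323e31a93113307d2fe52f4d2eb42e1d2d882cf32c5d2bc72b2f2a9729fe296428c9282e279226f6265925bb251c247d23de233d229c21fb215920b620131f6f1ecb1e261d811cdb1c351b8e1ae71a3f199718ef1846179d16f3164a159f14f5144a139f12f3124811b1112710a10fd60f400eac0e220d890cfb0c710beb0a7d0a1409b9096c05c7055e050304b6000000000000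

/-- cuts -/
def pt180_2 : ℕ := 0xac00ac00ab00ab00aa00a900a900a800a800a700a700a600a600a500a400a400a300a300a200a200a100a000a0009f009f009e009d009d009c009c009b009b009a00990099009800980097009600960095009500940093009300920092009100900090008f008e008e008d008c008c008b008b008a008900890088008700870086008500850084008300830082008100810080007f007f007e007d007c007c007b007a007a00790078007800770076007600750074007300730072007100710070006f006e006e006d006c006c006b006a0069006800670066006500640063006200610060005f005e005d005c005b005e005d005c005b005a0059005800570056005500540053005200510050004f004e004d004c004b004a0049004800470046004500440043004200410040003f003e003d003c003b003a0039003800370036003500340033003200310030002f002e002d002c002b002a0029002800270026002500240023002200210020001f001e001d001c001b001a0019001800170016001500140013001200110010000f000e000d000c000b000a0009000800070006000500080007000600050004000300020001000000000000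

theorem bin180_2 : binB ctab180 180 220 174533 1779910 1000 vt180_2 pt180_2 2 196 162 = true := by decide +kernel

/-- values, bin 3 of mesh 180 -/
def vt180_3 : ℕ := 0x704d6fca6fa16f366ef36ea16e436e0c6d906d766ce06ccb6c486c136bb06b596b176a9d6a7d69f869c76973690568e96867682567e0675e673d66d16673664965c06582653764b3648b642363b8638d630d62b7628161f561b1616860db60a3604e5fc55f905f325eae5e765e145d915d565cf45c6e5c305bd25b465b055aaf5a1d59d5598b58f9589a585357d25789573c56a7565b560e557d552a54da545153f453a2532552bb526651f5515d50c5502c4f934ef94e5f4dc44d5e4cfd4c8e4c1a4bb74b524ad74a714a0a49a1493b48d4486b48024797472b46bd464f45cf4530449143f2435342b24211417040cf402e3f8d3eeb3e493daf3d363cbd3c423bc63b493acb3a4b39cb394a38c8384537c0373b36b5362e35a6351d34933408337c32ef326231d3314430b330222f902efe2e6a2dd52d402caa2c142b7c2ae42a4b29b12916287b27df274326a62608256924ca242b238a22e9224821a6210320601fbc1f181e731dce1d281c821bdb1b341a8c19e4193c189317ea1740169715ec1542149713ec1340129511ea113b10ba10230f8d0ef90e660c380bb70b3c0aca0a610a06073506b4063905c7055e05030000000000000000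

/-- cuts -/
def pt180_3 : ℕ := 0xad00ad00ac00ac00ab00ab00aa00aa00a900a900a800a700a700a600a600a500a500a400a400a300a200a200a100a000a0009f009f009e009d009d009c009c009b009a009a009900980098009700960096009500950094009300930092009100910090008f008f008e008d008d008c008b008b008a008900890088008700870086008500850084008300820082008100810080007f007e007e007d007c007c007b007a007a00790078007800770076007500740073007200710070006f006f006e006d006c006c006b006a00690068006700660064006300620060005f00640063006200610060005f005e005d005c005b005a0059005800570056005500540053005200510050004f004e004d004c004b004a0049004800470046004500440043004200410040003f003e003d003c003b003a0039003800370036003500340033003200310030002f002e002d002c002b002a0029002800270026002500240023002200210020001f001e001d001c001b001a0019001800170016001500140013001200110010000f000e000d0012000b000a000900080007000c000b000a0009000800070006000500040003000200010000000000000000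

theorem bin180_3 : binB ctab180 180 220 174533 1779910 1000 vt180_3 pt180_3 3 193 164 = true := by decide +kernel

/-- values, bin 4 of mesh 180 -/
def vt180_4 : ℕ := 0x6f146eee6e986e6d6e246dec6d6a6ce86c656bfe6be26b5d6b486ad86aa86a536a0b69ce6971694868db68bf684d683067c767a8672c66a4661b659265336508647f645763f363a3636862f262c66250621761c3616d613660ca6098602f5ffb5f8d5efe5e6f5de05d4f5cf95cbd5c2f5bf15b9c5b285ae75a785a1f59dc595b591658c05854580d579b57525700569e565255d2553a54a65411537c52e65286523151b8514c50f4508750114fb64f544ed44e774e194d984d384cd74c5c4bfa4b974b254ac04a5a49f1498a4921488c47eb474946a64603455f44bb443c43ca435742d7425441df416940ef40673fee3f753efa3e823e0a3d913d183c9d3c213ba43b263aa63a2639a5392338a0381b3796371036893601357834ee346333d7334a32bd322e319f310e307d2feb2f592e652dd72d4d2cc72c462bcb2b3f2aa62907287927ef276926e8266d25fb259223a9231b2291220b218a210f209d20341e4b1dbd1d331cad1c2c1bb11b3f1ad618ed185f17d5174f16ce165315e11578138f1301127711f1117010f51083101a0e310da30d190c930c120b970b250abc08d3084507bb073506b4063905c7055e00000000000000000000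

/-- cuts -/
def pt180_4 : ℕ := 0xad00ad00ac00ac00ab00ab00aa00a900a800a700a700a600a500a500a400a400a300a300a200a200a100a000a0009f009f009e009e009d009c009b009a009a00990098009800970097009600950095009400940093009300920091009100900090008f008e008d008c008b008a008a0089008900880087008700860085008500840084008300820082008100810080007f007f007e007d007c007b007a00790078007800770076007600750074007400730072007100710070006f006f006e006d006d006c006b006b0069006800690068006700660065006400630062006100600060005f005e005d005d005c005b005a00590058005700550054005200510050004f004e004d004c004b004a0049004800470046004500440043004200410040003f003e003d003c003b003a00390040003f003e003d003c003b00320031003800370036003500340033003200310030002f002e002d002c002b002a0029002800270026002500240023002200210020001f001e001d001c001b001a0019001800170016001500140013001200110010000f000e000d000c000b000a00090008000700060005000400030002000100000000000000000000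

theorem bin180_4 : binB ctab180 180 220 174533 1779910 1000 vt180_4 pt180_4 4 193 163 = true := by decide +kernel

/-- values, bin 5 of mesh 180 -/
def vt180_5 : ℕ := 0x6df06db76d646d0b6cd76c5b6c4a6bbb6b996b2c6ae56a9b6a2e6a0a6978695e68e668a2685267e367bd672867066692664265fc657c655a64cc6490643363c5639962fe62d0626361ff61c8612c61006090602a5ff35f555f225eb65e475e135d785d355cd75c545c1c5b955b395af45a535a1759b2592f58f05870580457c2572d56d4568b55e9559c554654aa546154005380533452ce5266521851a4514d50fb508950374fe34f4e4eb84e334ddb4d824cf24c934c374bc24b474ae94a8949f94998493648c1484547e0477a46f04689462045b7453144c6445a43e3436b42fd428d421241a2413040be404b3fd63f613eeb3e503daf3d0e3c6d3bcc3b2b3a8a39e8394638a33800375d36ba3616357234ce342a338532e0323b319630f030542fc22f2e2e992e042d6e2cd82c412bb02b1f2a8d29fb296728d2283d27a72711267925e1254824ae2413237822dc224021a3210520661fc71f281e871de61d451ca31c001b5d1ab91a15197018cb1825177f16d81631158914e11439139012e7123d119410e9103f0f940ee90e3d0d920cfc0c7b0c000b8e0a8a09f6096308d3084507bb073506b4063905c7000000000000000000000000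

/-- cuts -/
def pt180_5 : ℕ := 0xac00ab00ab00aa00aa00a900a900a800a700a700a600a600a500a500a400a300a300a200a200a100a100a0009f009f009e009e009d009c009c009b009b009a009a0099009800980097009700960095009500940094009300920092009100900090008f008f008e008d008d008c008c008b008a008a008900880088008700860086008500850084008300830082008100810080007f007f007e007d007d007c007b007b007a00790079007800770076007500750074007300730072007100700070006f006e006e006d006c006b006b006a0069006800680067006600660065006400630063006200610060005f005e005c005b005d005c005b005a0059005800570056005500540053005200510050004f004e004d004c004b004a0049004800470046004500440043004200410040003f003e003d003c003b003a0039003800370036003500340033003200310030002f002e002d002c002b002a0029002800270026002500240023002200210020001f001e001d001c001b001a0019001800170016001500140013001200110010000f000e000d000c000b000a000900080007000600050004000300020001000000000000000000000000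

theorem bin180_5 : binB ctab180 180 220 174533 1779910 1000 vt180_5 pt180_5 5 192 163 = true := by decide +kernel

/-- values, bin 6 of mesh 180 -/
def vt180_6 : ℕ := 0x6dc26d8d6d186cfe6c6e6c5b6bdd6baa6b4c6af86aba6a436a286994697568ff68bb686a67fe67d4673f672366a66661660e659d657564db64b4644063ea63a5631e62f8626d622961d06157612c609360585ff45f825f535eb65e795e175d9e5d6a5cd75c8b5c365bab5b735af45a8e5a5359b2596d59115884584557f15760571756cf563e55e3559c551a54aa546153f6536b531f52ce523951eb519b510f50b250604fe44f754f204eb84e334ddb4d824cf24c934c374bc24b474ae94a8949f94998493648c1484547e0477a46f04689462045b7453144c6445a43e3436b42fd428d421241a2413040bd402d3f8e3eef3e503daf3d0e3c6d3bcc3b2b3a8a39e8394638a33800375d36ba3616357234ce342a338532e0323b31b2312b30a3301a2f902f052e792dec2d5f2cd02c412bb02b1f2a8d29fb296728d2283d27a72711267925e1254824ae2413237822dc224021a3210520661fc71f281e871de61d451ca31c001b5d1ab91a15197018cb1825177f16d81631158914e11439139012e7123d119410e9103f0f940ee90e3d0d920ce70c4e0bb70b200a8a09f6096308d3084507bb073506b406390000000000000000000000000000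

/-- cuts -/
def pt180_6 : ℕ := 0xac00ac00ab00ab00aa00a900a900a800a800a700a700a600a600a500a400a400a300a300a200a200a100a000a0009f009f009e009e009d009c009c009b009b009a00990099009800980097009600960095009500940093009300920092009100900090008f008f008e008d008d008c008b008b008a008a00890088008800870086008600850084008300830082008100810080007f007f007e007d007c007c007b007a007a00790078007800770076007500750074007300730072007100700070006f006e006e006d006c006b006b006a00690068006800670066006600650064006300630062006100600060005f005e005d005c005b005a0059005800570056005500540053005200510050004f004e004d004c004b004a0049004800470046004500440043004200410040003f003e003d003c003b003a0039003800370036003500340033003200310030002f002e002d002c002b002a0029002800270026002500240023002200210020001f001e001d001c001b001a0019001800170016001500140013001200110010000f000e000d000c000b000a0009000800070006000500040003000200010000000000000000000000000000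

theorem bin180_6 : binB ctab180 180 220 174533 1779910 1000 vt180_6 pt180_6 6 190 164 = true := by decide +kernel

/-- values, bin 7 of mesh 180 -/
def vt180_7 : ℕ := 0x6dba6d296d186c976c6a6c056bba6b716b096adc6a566a4369b1698b691b68d26883681767eb675a673f66b8667e661d65bc658264f764d6644a640e63ad6343630f6277625161d16181613260af60845ff45fb05f555ed95eaa5e175dd05d7e5cf45cc05c655be25bab5b4b5ac85a8e5a2f59a9596d59115884584557f15760571756cf563e55e3559c551a54aa546153f6536b531f52ce523951eb519b510f50b250604fe44f754f204eb84e334ddb4d824cf24c934c374bc24b474ae94a8949f94998493648c1484547e0477a46f04689462045b7453144c6445a43e3436b42fd428d420a416b40cc402d3f8e3eef3e503daf3d0e3c6d3bcc3b2b3a8a39e8394638a33800375d36ba3616357234ce344733c5334232bd323831b2312b30a3301a2f902f052e792dec2d5f2cd02c412bb02b1f2a8d29fb296728d2283d27a72711267925e1254824ae2413237822dc224021a3210520661fc71f281e871de61d451ca31c001b5d1ab91a15197018cb1825177f16d81631158914e11439139012e7123d119410e9103f0f940ee90e3d0d920ce70c4e0bb70b200a8a09f6096308d3084507bb073506b400000000000000000000000000000000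

/-- cuts -/
def pt180_7 : ℕ := 0xad00ac00ab00ab00aa00aa00a900a900a800a800a700a600a600a500a500a400a400a300a300a200a100a100a000a0009f009f009e009d009d009c009c009b009b009a00990099009800980097009600960095009500940093009300920092009100900090008f008e008e008d008c008c008b008a008a00890088008800870086008600850084008300830082008100810080007f007f007e007d007c007c007b007a007a00790078007800770076007500750074007300730072007100700070006f006e006e006d006c006b006b006a0069006800680067006600660065006400630063006200610060005f005e005d005c005b005a0059005800570056005500540053005200510050004f004e004d004c004b004a0049004800470046004500440043004200410040003f003e003d003c003b003a0039003800370036003500340033003200310030002f002e002d002c002b002a0029002800270026002500240023002200210020001f001e001d001c001b001a0019001800170016001500140013001200110010000f000e000d000c000b000a00090008000700060005000400030002000100000000000000000000000000000000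

theorem bin180_7 : binB ctab180 180 220 174533 1779910 1000 vt180_7 pt180_7 7 189 164 = true := by decide +kernel

/-- values, bin 8 of mesh 180 -/
def vt180_8 : ℕ := 0x6d4a6d236cb56c776c206bc96b8a6b196af46a676a5669c469a0692b68e86891682e67f66773675a66bf669a662365d96586651664e96451643063ad6367630f629c627061d161a9614660d960af60345fdc5faa5f205ed95e955e0a5dd05d7e5cf45cc05c655be25bab5b4b5ac85a8e5a2f59a9596d59115884584557f15760571756cf563e55e3559c551a54aa546153f6536b531f52ce523951eb519b510f50b250604fe44f754f204eb84e334ddb4d824cf24c934c374bc24b474ae94a8949f94998493648c1484547e0477a46f04689462045b7453144c6445a43e3434642a8420a416b40cc402d3f8e3eef3e503daf3d0e3c6d3bcc3b2b3a8a39e8394638a33800375d36c3364635c8354834c8344733c5334232bd323831b2312b30a3301a2f902f052e792dec2d5f2cd02c412bb02b1f2a8d29fb296728d2283d27a72711267925e1254824ae2413237822dc224021a3210520661fc71f281e871de61d451ca31c001b5d1ab91a15197018cb1825177f16d81631158914e11439139012e7123d119410e9103f0f940ee90e3d0d920ce70c4e0bb70b200a8a09f6096308d3084507bb0735000000000000000000000000000000000000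

/-- cuts -/
def pt180_8 : ℕ := 0xad00ac00ac00ab00ab00aa00aa00a900a900a800a700a700a600a600a500a500a400a400a300a200a200a100a100a000a0009f009f009e009d009d009c009c009b009b009a0099009900980097009700960096009500940094009300920092009100900090008f008e008e008d008c008c008b008a008a00890088008800870086008600850084008300830082008100810080007f007f007e007d007c007c007b007a007a00790078007800770076007500750074007300730072007100700070006f006e006e006d006c006b006b006a006900680068006700660066006500640063006200610060005f005e005d005c005b005a0059005800570056005500540053005200510050004f004e004d004c004b004a0049004800470046004500440043004200410040003f003e003d003c003b003a0039003800370036003500340033003200310030002f002e002d002c002b002a0029002800270026002500240023002200210020001f001e001d001c001b001a0019001800170016001500140013001200110010000f000e000d000c000b000a000900080007000600050004000300020001000000000000000000000000000000000000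

theorem bin180_8 : binB ctab180 180 220 174533 1779910 1000 vt180_8 pt180_8 8 187 165 = true := by decide +kernel

/-- values, bin 9 of mesh 180 -/
def vt180_9 : ℕ := 0x6d2d6cc86c826c306bd66b986b286aff6a776a6569ca69b3692f68fd6894684467f8678a675c66ce66b5662365f56586653364f56470645163ea6389636462dd629c625661cf61a9614660d960af60345fdc5faa5f205ed95e955e0a5dd05d7e5cf45cc05c655be25bab5b4b5ac85a8e5a2f59a9596d59115884584557f15760571756cf563e55e3559c551a54aa546153f6536b531f52ce523951eb519b510f50b250604fe44f754f204eb84e334ddb4d824cf24c934c374bc24b474ae94a8949f94998493648c1484547e0477a46f04689462045b7451c448043e3434642a8420a416b40cc402d3f8e3eef3e503daf3d0e3c6d3bcc3b2b3a8a39e8394638ac383337ba373f36c3364635c8354834c8344733c5334232bd323831b2312b30a3301a2f902f052e792dec2d5f2cd02c412bb02b1f2a8d29fb296728d2283d27a72711267925e1254824ae2413237822dc224021a3210520661fc71f281e871de61d451ca31c001b5d1ab91a15197018cb1825177f16d81631158914e11439139012e7123d119410e9103f0f940ee90e3d0d920ce70c4e0bb70b200a8a09f6096308d3084507bb0000000000000000000000000000000000000000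

/-- cuts -/
def pt180_9 : ℕ := 0xad00ad00ac00ac00ab00ab00aa00aa00a900a900a800a700a700a600a600a500a500a400a400a300a200a200a100a100a000a0009f009e009e009d009d009c009b009b009a0099009900980097009700960096009500940094009300920092009100900090008f008e008e008d008c008c008b008a008a00890088008800870086008600850084008300830082008100810080007f007f007e007d007c007c007b007a007a00790078007800770076007500750074007300730072007100700070006f006e006e006d006c006b006b006a00690068006800670066006500640063006200610060005f005e005d005c005b005a0059005800570056005500540053005200510050004f004e004d004c004b004a0049004800470046004500440043004200410040003f003e003d003c003b003a0039003800370036003500340033003200310030002f002e002d002c002b002a0029002800270026002500240023002200210020001f001e001d001c001b001a0019001800170016001500140013001200110010000f000e000d000c000b000a0009000800070006000500040003000200010000000000000000000000000000000000000000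

theorem bin180_9 : binB ctab180 180 220 174533 1779910 1000 vt180_9 pt180_9 9 185 166 = true := by decide +kernel

/-- values, bin 10 of mesh 180 -/
def vt180_10 : ℕ := 0x6cd16c8c6c386be16b9e6b356b036a866a6869d469c46930691068946859680c67a0678a670766ce6684661065f5657a653364f56470645163ea6389636462dd629c625661cf61a9614660d960af60345fdc5faa5f205ed95e955e0a5dd05d7e5cf45cc05c655be25bab5b4b5ac85a8e5a2f59a9596d59115884584557f15760571756cf563e55e3559c551a54aa546153f6536b531f52ce523951eb519b510f50b250604fe44f754f204eb84e334ddb4d824cf24c934c374bc24b474ae94a8949f94998493648c1484547e0477a46f0465445b8451c448043e3434642a8420a416b40cc402d3f8e3eef3e503daf3d0e3c6d3bcc3b2b3a8a3a0f399a392438ac383337ba373f36c3364635c8354834c8344733c5334232bd323831b2312b30a3301a2f902f052e792dec2d5f2cd02c412bb02b1f2a8d29fb296728d2283d27a72711267925e1254824ae2413237822dc224021a3210520661fc71f281e871de61d451ca31c001b5d1ab91a15197018cb1825177f16d81631158914e11439139012e7123d119410e9103f0f940ee90e3d0d920ce70c4e0bb70b200a8a09f6096308d3084500000000000000000000000000000000000000000000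

/-- cuts -/
def pt180_10 : ℕ := 0xae00ad00ad00ac00ac00ab00ab00aa00aa00a900a800a800a700a700a600a600a500a400a400a300a300a200a100a100a000a0009f009e009e009d009d009c009b009b009a0099009900980097009700960096009500940094009300920092009100900090008f008e008e008d008c008c008b008a008a00890088008800870086008600850084008300830082008100810080007f007f007e007d007c007c007b007a007a00790078007800770076007500750074007300730072007100700070006f006e006e006d006c006b006b006a0069006800670066006500640063006200610060005f005e005d005c005b005a0059005800570056005500540053005200510050004f004e004d004c004b004a0049004800470046004500440043004200410040003f003e003d003c003b003a0039003800370036003500340033003200310030002f002e002d002c002b002a0029002800270026002500240023002200210020001f001e001d001c001b001a0019001800170016001500140013001200110010000f000e000d000c000b000a00090008000700060005000400030002000100000000000000000000000000000000000000000000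

theorem bin180_10 : binB ctab180 180 220 174533 1779910 1000 vt180_10 pt180_10 10 183 167 = true := by decide +kernel

/-- values, bin 11 of mesh 180 -/
def vt180_11 : ℕ := 0x6c946c396beb6b9e6b406b106a936a866a1069d469906921690f688e6859680c67a0678a670766ce6684661065f5657a653364f56470645163ea6389636462dd629c625661cf61a9614660d960af60345fdc5faa5f205ed95e955e0a5dd05d7e5cf45cc05c655be25bab5b4b5ac85a8e5a2f59a9596d59115884584557f15760571756cf563e55e3559c551a54aa546153f6536b531f52ce523951eb519b510f50b250604fe44f754f204eb84e334ddb4d824cf24c934c374bc24b474ae94a8949f94998493648c14826478b46f0465445b8451c448043e3434642a8420a416b40cc402d3f8e3eef3e503daf3d0e3c6d3bd93b693af73a843a0f399a392438ac383337ba373f36c3364635c8354834c8344733c5334232bd323831b2312b30a3301a2f902f052e792dec2d5f2cd02c412bb02b1f2a8d29fb296728d2283d27a72711267925e1254824ae2413237822dc224021a3210520661fc71f281e871de61d451ca31c001b5d1ab91a15197018cb1825177f16d81631158914e11439139012e7123d119410e9103f0f940ee90e3d0d920ce70c4e0bb70b200a8a09f6096308d3000000000000000000000000000000000000000000000000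

/-- cuts -/
def pt180_11 : ℕ := 0xae00ae00ad00ad00ac00ac00ab00aa00aa00a900a900a800a800a700a600a600a500a400a400a300a300a200a100a100a000a0009f009e009e009d009d009c009b009b009a0099009900980097009700960096009500940094009300920092009100900090008f008e008e008d008c008c008b008a008a00890088008800870086008600850084008300830082008100810080007f007f007e007d007c007c007b007a007a00790078007800770076007500750074007300730072007100700070006f006e006e006d006c006b006a0069006800670066006500640063006200610060005f005e005d005c005b005a0059005800570056005500540053005200510050004f004e004d004c004b004a0049004800470046004500440043004200410040003f003e003d003c003b003a0039003800370036003500340033003200310030002f002e002d002c002b002a0029002800270026002500240023002200210020001f001e001d001c001b001a0019001800170016001500140013001200110010000f000e000d000c000b000a000900080007000600050004000300020001000000000000000000000000000000000000000000000000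

theorem bin180_11 : binB ctab180 180 220 174533 1779910 1000 vt180_11 pt180_11 11 182 167 = true := by decide +kernel

/-- values, bin 12 of mesh 180 -/
def vt180_12 : ℕ := 0x6c8c6c0e6beb6b906b406b106a936a866a1069d469906921690f688e6859680c67a0678a670766ce6684661065f5657a653364f56470645163ea6389636462dd629c625661cf61a9614660d960af60345fdc5faa5f205ed95e955e0a5dd05d7e5cf45cc05c655be25bab5b4b5ac85a8e5a2f59a9596d59115884584557f15760571756cf563e55e3559c551a54aa546153f6536b531f52ce523951eb519b510f50b250604fe44f754f204eb84e334ddb4d824cf24c934c374bc24b474ae94a8949f6495c48c14826478b46f0465445b8451c448043e3434642a8420a416b40cc402d3f8e3eef3e503daf3d253cb73c493bd93b693af73a843a0f399a392438ac383337ba373f36c3364635c8354834c8344733c5334232bd323831b2312b30a3301a2f902f052e792dec2d5f2cd02c412bb02b1f2a8d29fb296728d2283d27a72711267925e1254824ae2413237822dc224021a3210520661fc71f281e871de61d451ca31c001b5d1ab91a15197018cb1825177f16d81631158914e11439139012e7123d119410e9103f0f940ee90e3d0d920ce70c4e0bb70b200a8a09f609630000000000000000000000000000000000000000000000000000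

/-- cuts -/
def pt180_12 : ℕ := 0xaf00ae00ad00ad00ac00ac00ab00aa00aa00a900a900a800a800a700a600a600a500a400a400a300a300a200a100a100a000a0009f009e009e009d009d009c009b009b009a0099009900980097009700960096009500940094009300920092009100900090008f008e008e008d008c008c008b008a008a00890088008800870086008600850084008300830082008100810080007f007f007e007d007c007c007b007a007a00790078007800770076007500750074007300730072007100700070006f006e006d006c006b006a0069006800670066006500640063006200610060005f005e005d005c005b005a0059005800570056005500540053005200510050004f004e004d004c004b004a0049004800470046004500440043004200410040003f003e003d003c003b003a0039003800370036003500340033003200310030002f002e002d002c002b002a0029002800270026002500240023002200210020001f001e001d001c001b001a0019001800170016001500140013001200110010000f000e000d000c000b000a0009000800070006000500040003000200010000000000000000000000000000000000000000000000000000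

theorem bin180_12 : binB ctab180 180 220 174533 1779910 1000 vt180_12 pt180_12 12 180 168 = true := by decide +kernel

/-- values, bin 13 of mesh 180 -/
def vt180_13 : ℕ := 0x6c8c6c0e6beb6b906b406b106a936a866a1069d469906921690f688e6859680c67a0678a670766ce6684661065f5657a653364f56470645163ea6389636462dd629c625661cf61a9614660d960af60345fdc5faa5f205ed95e955e0a5dd05d7e5cf45cc05c655be25bab5b4b5ac85a8e5a2f59a9596d59115884584557f15760571756cf563e55e3559c551a54aa546153f6536b531f52ce523951eb519b510f50b250604fe44f754f204eb84e334ddb4d824cf24c934c374bc24b294a9049f6495c48c14826478b46f0465445b8451c448043e3434642a8420a416b40cc402d3f8e3eef3e653dfc3d913d253cb73c493bd93b693af73a843a0f399a392438ac383337ba373f36c3364635c8354834c8344733c5334232bd323831b2312b30a3301a2f902f052e792dec2d5f2cd02c412bb02b1f2a8d29fb296728d2283d27a72711267925e1254824ae2413237822dc224021a3210520661fc71f281e871de61d451ca31c001b5d1ab91a15197018cb1825177f16d81631158914e11439139012e7123d119410e9103f0f940ee90e3d0d920ce70c4e0bb70b200a8a09f600000000000000000000000000000000000000000000000000000000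

/-- cuts -/
def pt180_13 : ℕ := 0xaf00ae00ad00ad00ac00ac00ab00aa00aa00a900a900a800a800a700a600a600a500a400a400a300a300a200a100a100a000a0009f009e009e009d009d009c009b009b009a0099009900980097009700960096009500940094009300920092009100900090008f008e008e008d008c008c008b008a008a00890088008800870086008600850084008300830082008100810080007f007f007e007d007c007c007b007a007a0079007800780077007600750075007400730073007200710070006f006e006d006c006b006a0069006800670066006500640063006200610060005f005e005d005c005b005a0059005800570056005500540053005200510050004f004e004d004c004b004a0049004800470046004500440043004200410040003f003e003d003c003b003a0039003800370036003500340033003200310030002f002e002d002c002b002a0029002800270026002500240023002200210020001f001e001d001c001b001a0019001800170016001500140013001200110010000f000e000d000c000b000a00090008000700060005000400030002000100000000000000000000000000000000000000000000000000000000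

theorem bin180_13 : binB ctab180 180 220 174533 1779910 1000 vt180_13 pt180_13 13 179 168 = true := by decide +kernel

/-- values, bin 14 of mesh 180 -/
def vt180_14 : ℕ := 0x6c8c6c0e6beb6b906b406b106a936a866a1069d469906921690f688e6859680c67a0678a670766ce6684661065f5657a653364f56470645163ea6389636462dd629c625661cf61a9614660d960af60345fdc5faa5f205ed95e955e0a5dd05d7e5cf45cc05c655be25bab5b4b5ac85a8e5a2f59a9596d59115884584557f15760571756cf563e55e3559c551a54aa546153f6536b531f52ce523951eb519b510f50b250604fe44f754f204eb84e334ddb4d824cf24c5a4bc24b294a9049f6495c48c14826478b46f0465445b8451c448043e3434642a8420a416b40cc402d3f9b3f353ece3e653dfc3d913d253cb73c493bd93b693af73a843a0f399a392438ac383337ba373f36c3364635c8354834c8344733c5334232bd323831b2312b30a3301a2f902f052e792dec2d5f2cd02c412bb02b1f2a8d29fb296728d2283d27a72711267925e1254824ae2413237822dc224021a3210520661fc71f281e871de61d451ca31c001b5d1ab91a15197018cb1825177f16d81631158914e11439139012e7123d119410e9103f0f940ee90e3d0d920ce70c4e0bb70b200a8a000000000000000000000000000000000000000000000000000000000000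

/-- cuts -/
def pt180_14 : ℕ := 0xaf00ae00ad00ad00ac00ac00ab00aa00aa00a900a900a800a800a700a600a600a500a400a400a300a300a200a100a100a000a0009f009e009e009d009d009c009b009b009a0099009900980097009700960096009500940094009300920092009100900090008f008e008e008d008c008c008b008a008a00890088008800870086008600850084008300830082008100810080007f007f007e007d007c007c007b007a007a007900780078007700760075007500740073007200710070006f006e006d006c006b006a0069006800670066006500640063006200610060005f005e005d005c005b005a0059005800570056005500540053005200510050004f004e004d004c004b004a0049004800470046004500440043004200410040003f003e003d003c003b003a0039003800370036003500340033003200310030002f002e002d002c002b002a0029002800270026002500240023002200210020001f001e001d001c001b001a0019001800170016001500140013001200110010000f000e000d000c000b000a000900080007000600050004000300020001000000000000000000000000000000000000000000000000000000000000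

theorem bin180_14 : binB ctab180 180 220 174533 1779910 1000 vt180_14 pt180_14 14 178 168 = true := by decide +kernel

/-- values, bin 15 of mesh 180 -/
def vt180_15 : ℕ := 0x6c8c6c0e6beb6b906b406b106a936a866a1069d469906921690f688e6859680c67a0678a670766ce6684661065f5657a653364f56470645163ea6389636462dd629c625661cf61a9614660d960af60345fdc5faa5f205ed95e955e0a5dd05d7e5cf45cc05c655be25bab5b4b5ac85a8e5a2f59a9596d59115884584557f15760571756cf563e55e3559c551a54aa546153f6536b531f52ce523951eb519b510f50b250604fe44f754f204eb84e224d8a4cf24c5a4bc24b294a9049f6495c48c14826478b46f0465445b8451c448043e3434642a8420a416b40cc406340003f9b3f353ece3e653dfc3d913d253cb73c493bd93b693af73a843a0f399a392438ac383337ba373f36c3364635c8354834c8344733c5334232bd323831b2312b30a3301a2f902f052e792dec2d5f2cd02c412bb02b1f2a8d29fb296728d2283d27a72711267925e1254824ae2413237822dc224021a3210520661fc71f281e871de61d451ca31c001b5d1ab91a15197018cb1825177f16d81631158914e11439139012e7123d119410e9103f0f940ee90e3d0d920ce70c4e0bb70b200000000000000000000000000000000000000000000000000000000000000000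

/-- cuts -/
def pt180_15 : ℕ := 0xaf00ae00ad00ad00ac00ac00ab00aa00aa00a900a900a800a800a700a600a600a500a400a400a300a300a200a100a100a000a0009f009e009e009d009d009c009b009b009a0099009900980097009700960096009500940094009300920092009100900090008f008e008e008d008c008c008b008a008a00890088008800870086008600850084008300830082008100810080007f007f007e007d007c007c007b007a007a00790078007800770076007500740073007200710070006f006e006d006c006b006a0069006800670066006500640063006200610060005f005e005d005c005b005a0059005800570056005500540053005200510050004f004e004d004c004b004a0049004800470046004500440043004200410040003f003e003d003c003b003a0039003800370036003500340033003200310030002f002e002d002c002b002a0029002800270026002500240023002200210020001f001e001d001c001b001a0019001800170016001500140013001200110010000f000e000d000c000b000a0009000800070006000500040003000200010000000000000000000000000000000000000000000000000000000000000000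

theorem bin180_15 : binB ctab180 180 220 174533 1779910 1000 vt180_15 pt180_15 15 176 169 = true := by decide +kernel

/-- values, bin 16 of mesh 180 -/
def vt180_16 : ℕ := 0x6c8c6c0e6beb6b906b406b106a936a866a1069d469906921690f688e6859680c67a0678a670766ce6684661065f5657a653364f56470645163ea6389636462dd629c625661cf61a9614660d960af60345fdc5faa5f205ed95e955e0a5dd05d7e5cf45cc05c655be25bab5b4b5ac85a8e5a2f59a9596d59115884584557f15760571756cf563e55e3559c551a54aa546153f6536b531f52ce523951eb519b510f50b250604fe44f4e4eb84e224d8a4cf24c5a4bc24b294a9049f6495c48c14826478b46f0465445b8451c448043e3434642a8420a4186412640c5406340003f9b3f353ece3e653dfc3d913d253cb73c493bd93b693af73a843a0f399a392438ac383337ba373f36c3364635c8354834c8344733c5334232bd323831b2312b30a3301a2f902f052e792dec2d5f2cd02c412bb02b1f2a8d29fb296728d2283d27a72711267925e1254824ae2413237822dc224021a3210520661fc71f281e871de61d451ca31c001b5d1ab91a15197018cb1825177f16d81631158914e11439139012e7123d119410e9103f0f940ee90e3d0d920ce70c4e0bb700000000000000000000000000000000000000000000000000000000000000000000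

/-- cuts -/
def pt180_16 : ℕ := 0xaf00ae00ad00ad00ac00ac00ab00aa00aa00a900a900a800a800a700a600a600a500a400a400a300a300a200a100a100a000a0009f009e009e009d009d009c009b009b009a0099009900980097009700960096009500940094009300920092009100900090008f008e008e008d008c008c008b008a008a00890088008800870086008600850084008300830082008100810080007f007f007e007d007c007c007b007a007a0079007800770076007500740073007200710070006f006e006d006c006b006a0069006800670066006500640063006200610060005f005e005d005c005b005a0059005800570056005500540053005200510050004f004e004d004c004b004a0049004800470046004500440043004200410040003f003e003d003c003b003a0039003800370036003500340033003200310030002f002e002d002c002b002a0029002800270026002500240023002200210020001f001e001d001c001b001a0019001800170016001500140013001200110010000f000e000d000c000b000a00090008000700060005000400030002000100000000000000000000000000000000000000000000000000000000000000000000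

theorem bin180_16 : binB ctab180 180 220 174533 1779910 1000 vt180_16 pt180_16 16 175 169 = true := by decide +kernel

/-- values, bin 17 of mesh 180 -/
def vt180_17 : ℕ := 0x6c8c6c0e6beb6b906b406b106a936a866a1069d469906921690f688e6859680c67a0678a670766ce6684661065f5657a653364f56470645163ea6389636462dd629c625661cf61a9614660d960af60345fdc5faa5f205ed95e955e0a5dd05d7e5cf45cc05c655be25bab5b4b5ac85a8e5a2f59a9596d59115884584557f15760571756cf563e55e3559c551a54aa546153f6536b531f52ce523951eb519b510f507a4fe44f4e4eb84e224d8a4cf24c5a4bc24b294a9049f6495c48c14826478b46f0465445b8451c448043e3434642a8424141e44186412640c5406340003f9b3f353ece3e653dfc3d913d253cb73c493bd93b693af73a843a0f399a392438ac383337ba373f36c3364635c8354834c8344733c5334232bd323831b2312b30a3301a2f902f052e792dec2d5f2cd02c412bb02b1f2a8d29fb296728d2283d27a72711267925e1254824ae2413237822dc224021a3210520661fc71f281e871de61d451ca31c001b5d1ab91a15197018cb1825177f16d81631158914e11439139012e7123d119410e9103f0f940ee90e3d0d920ce70c4e000000000000000000000000000000000000000000000000000000000000000000000000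

/-- cuts -/
def pt180_17 : ℕ := 0xaf00ae00ad00ad00ac00ac00ab00aa00aa00a900a900a800a800a700a600a600a500a400a400a300a300a200a100a100a000a0009f009e009e009d009d009c009b009b009a0099009900980097009700960096009500940094009300920092009100900090008f008e008e008d008c008c008b008a008a00890088008800870086008600850084008300830082008100810080007f007f007e007d007c007c007b007a0079007800770076007500740073007200710070006f006e006d006c006b006a0069006800670066006500640063006200610060005f005e005d005c005b005a0059005800570056005500540053005200510050004f004e004d004c004b004a0049004800470046004500440043004200410040003f003e003d003c003b003a0039003800370036003500340033003200310030002f002e002d002c002b002a0029002800270026002500240023002200210020001f001e001d001c001b001a0019001800170016001500140013001200110010000f000e000d000c000b000a000900080007000600050004000300020001000000000000000000000000000000000000000000000000000000000000000000000000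

theorem bin180_17 : binB ctab180 180 220 174533 1779910 1000 vt180_17 pt180_17 17 173 170 = true := by decide +kernel

/-- values, bin 18 of mesh 180 -/
def vt180_18 : ℕ := 0x6c8c6c0e6beb6b906b406b106a936a866a1069d469906921690f688e6859680c67a0678a670766ce6684661065f5657a653364f56470645163ea6389636462dd629c625661cf61a9614660d960af60345fdc5faa5f205ed95e955e0a5dd05d7e5cf45cc05c655be25bab5b4b5ac85a8e5a2f59a9596d59115884584557f15760571756cf563e55e3559c551a54aa546153f6536b531f52ce523951a4510f507a4fe44f4e4eb84e224d8a4cf24c5a4bc24b294a9049f6495c48c14826478b46f0465445b8451c448043e3435142f8429d424141e44186412640c5406340003f9b3f353ece3e653dfc3d913d253cb73c493bd93b693af73a843a0f399a392438ac383337ba373f36c3364635c8354834c8344733c5334232bd323831b2312b30a3301a2f902f052e792dec2d5f2cd02c412bb02b1f2a8d29fb296728d2283d27a72711267925e1254824ae2413237822dc224021a3210520661fc71f281e871de61d451ca31c001b5d1ab91a15197018cb1825177f16d81631158914e11439139012e7123d119410e9103f0f940ee90e3d0d920ce70000000000000000000000000000000000000000000000000000000000000000000000000000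

/-- cuts -/
def pt180_18 : ℕ := 0xaf00ae00ad00ad00ac00ac00ab00aa00aa00a900a900a800a800a700a600a600a500a400a400a300a300a200a100a100a000a0009f009e009e009d009d009c009b009b009a0099009900980097009700960096009500940094009300920092009100900090008f008e008e008d008c008c008b008a008a00890088008800870086008600850084008300830082008100810080007f007f007e007d007c007b007a0079007800770076007500740073007200710070006f006e006d006c006b006a0069006800670066006500640063006200610060005f005e005d005c005b005a0059005800570056005500540053005200510050004f004e004d004c004b004a0049004800470046004500440043004200410040003f003e003d003c003b003a0039003800370036003500340033003200310030002f002e002d002c002b002a0029002800270026002500240023002200210020001f001e001d001c001b001a0019001800170016001500140013001200110010000f000e000d000c000b000a0009000800070006000500040003000200010000000000000000000000000000000000000000000000000000000000000000000000000000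

theorem bin180_18 : binB ctab180 180 220 174533 1779910 1000 vt180_18 pt180_18 18 172 170 = true := by decide +kernel

/-- values, bin 19 of mesh 180 -/
def vt180_19 : ℕ := 0x6c8c6c0e6beb6b906b406b106a936a866a1069d469906921690f688e6859680c67a0678a670766ce6684661065f5657a653364f56470645163ea6389636462dd629c625661cf61a9614660d960af60345fdc5faa5f205ed95e955e0a5dd05d7e5cf45cc05c655be25bab5b4b5ac85a8e5a2f59a9596d59115884584557f15760571756cf563e55e3559c551a54aa546153f6536252ce523951a4510f507a4fe44f4e4eb84e224d8a4cf24c5a4bc24b294a9049f6495c48c14826478b46f0465445b8451c4480440043a9435142f8429d424141e44186412640c5406340003f9b3f353ece3e653dfc3d913d253cb73c493bd93b693af73a843a0f399a392438ac383337ba373f36c3364635c8354834c8344733c5334232bd323831b2312b30a3301a2f902f052e792dec2d5f2cd02c412bb02b1f2a8d29fb296728d2283d27a72711267925e1254824ae2413237822dc224021a3210520661fc71f281e871de61d451ca31c001b5d1ab91a15197018cb1825177f16d81631158914e11439139012e7123d119410e9103f0f940ee90e3d0d9200000000000000000000000000000000000000000000000000000000000000000000000000000000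

/-- cuts -/
def pt180_19 : ℕ := 0xaf00ae00ad00ad00ac00ac00ab00aa00aa00a900a900a800a800a700a600a600a500a400a400a300a300a200a100a100a000a0009f009e009e009d009d009c009b009b009a0099009900980097009700960096009500940094009300920092009100900090008f008e008e008d008c008c008b008a008a00890088008800870086008600850084008300830082008100810080007f007e007d007c007b007a0079007800770076007500740073007200710070006f006e006d006c006b006a0069006800670066006500640063006200610060005f005e005d005c005b005a0059005800570056005500540053005200510050004f004e004d004c004b004a0049004800470046004500440043004200410040003f003e003d003c003b003a0039003800370036003500340033003200310030002f002e002d002c002b002a0029002800270026002500240023002200210020001f001e001d001c001b001a0019001800170016001500140013001200110010000f000e000d000c000b000a00090008000700060005000400030002000100000000000000000000000000000000000000000000000000000000000000000000000000000000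

theorem bin180_19 : binB ctab180 180 220 174533 1779910 1000 vt180_19 pt180_19 19 171 170 = true := by decide +kernel

end FreezeTag

end

section

/-!
# Freeze-Tag, flat leaf lemma: soundness of the checker for one robot (elimination steps)
-/

namespace FreezeTag

namespace FK

variable {ι : Type} [Fintype ι] {L : ι → Lane} {σ : ι → ℝ} {κ η a z U : ℝ}
  {m l nc rep : ℕ} {far : Bool}

variable {I : Type*} [DecidableEq I] {x : I → ℂ} {n : ℕ}

/-- a near cell is in the hull of its corners -/
theorem cell_hull (hη : 0 < η) (hl : 0 < l) {cx cy : ℕ} (hcx : cx < m) :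
    InHull (cell η l m cx cy) (vt η l cx (cx + 1) cy (cy + 1)) := by
  rintro w ⟨h1, h2, h3, h4⟩
  have h2 := h2 hcx
  have hl' : (0 : ℝ) < l := by exact_mod_cast hl
  set α := w.re / η - cx with hα
  set β := w.im * l - cy with hβ
  have a0 : 0 ≤ α := by
    rw [hα, sub_nonneg, le_div_iff₀ hη]; exact h1
  have a1 : α ≤ 1 := by
    rw [hα, sub_le_iff_le_add, div_le_iff₀ hη]; linarith
  have b0 : 0 ≤ β := by
    rw [hβ, sub_nonneg]
    rwa [div_le_iff₀ hl'] at h3
  have b1 : β ≤ 1 := by
    rw [hβ, sub_le_iff_le_add]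
    rw [le_div_iff₀ hl'] at h4; linarith
  refine ⟨![(1 - α) * (1 - β), α * (1 - β), (1 - α) * β, α * β], ⟨?_, ?_⟩, ?_⟩
  · intro b
    fin_cases b
    · exact mul_nonneg (by linarith) (by linarith)
    · exact mul_nonneg a0 (by linarith)
    · exact mul_nonneg (by linarith) b0
    · exact mul_nonneg a0 b0
  · rw [Fin.sum_univ_four]
    simp; ring
  · have ew : w.re = (cx + α) * η := by
      rw [hα]; field_simp; ring
    have ei : w.im = (cy + β) / l := by
      rw [hβ]; field_simp; ring
    rw [Fin.sum_univ_four]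
    apply Complex.ext
    · simp [vt, gp]
      rw [ew]; ring
    · simp [vt, gp]
      rw [ei]
      field_simp
      ring

theorem mn_pos {a b : ℕ} (h : 0 < mn a b) : mn a b ≤ a ∧ mn a b ≤ b ∧ 0 < a ∧ 0 < b := by
  unfold mn at *; omega

theorem nt_pos {L : Lane} {s : St} {a b : ℕ} (h : 0 < nt L s a b) :
    nt L s a b + dd L s.i0 a s.j0 b ≤ s.t0 ∧ nt L s a b + dd L s.i1 a s.j0 b ≤ s.t1 ∧
    nt L s a b + dd L s.i0 a s.j1 b ≤ s.t2 ∧ nt L s a b + dd L s.i1 a s.j1 b ≤ s.t3 := by
  unfold nt at *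
  obtain ⟨h1, h2, h3, h4⟩ := mn_pos h
  obtain ⟨h5, h6, h7, h8⟩ := mn_pos h3
  obtain ⟨h9, h10, h11, h12⟩ := mn_pos h4
  refine ⟨?_, ?_, ?_, ?_⟩ <;> omega

theorem okS_sound {L : Lane} {s : St} {cx cy : ℕ} (h : okS L s cx cy = true) :
    cx < L.m ∧ cy < L.l ∧ 0 < nt L s cx cy ∧ 0 < nt L s (cx + 1) cy ∧
      0 < nt L s cx (cy + 1) ∧ 0 < nt L s (cx + 1) (cy + 1) := by
  unfold okS at h
  simp only [Bool.and_eq_true] at h
  obtain ⟨⟨⟨⟨⟨h1, h2⟩, h3⟩, h4⟩, h5⟩, h6⟩ := h
  exact ⟨Nat.le_of_ble_eq_true h1, Nat.le_of_ble_eq_true h2, Nat.le_of_ble_eq_true h3,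
    Nat.le_of_ble_eq_true h4, Nat.le_of_ble_eq_true h5, Nat.le_of_ble_eq_true h6⟩

/-- the position after a move -/
theorem mk_pos {st : ι → St} {cx cy : ℕ} (hcx : cx < m) (hcy : cy < l) :
    Pos (fun q => mkS (L q) (st q) cx cy) m l cx (cx + 1) cy (cy + 1) :=
  ⟨fun _ => rfl, fun _ => rfl, fun _ => rfl, fun _ => rfl, hcx.le, hcx, hcy.le, hcy⟩

theorem mk_time (M : Mix L σ κ η a z U m l nc rep far) {st : ι → St} {i0 i1 j0 j1 : ℕ}
    (P : Pos st m l i0 i1 j0 j1) {cx cy : ℕ}
    (h : ∀ q, okS (L q) (st q) cx cy = true) (u v : Fin 4) :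
    tt σ U z (fun q => mkS (L q) (st q) cx cy) v +
      dist (vt η l i0 i1 j0 j1 u) (vt η l cx (cx + 1) cy (cy + 1) v) ≤ tt σ U z st u := by
  obtain ⟨q0⟩ := exists_lane M.wt
  have hcx : cx < m := by have := (okS_sound (h q0)).1; rwa [M.hm] at this
  have hcy : cy < l := by have := (okS_sound (h q0)).2.1; rwa [M.hl] at this
  have gen : ∀ (i j a' b : ℕ) (s t : ι → ℕ), i ≤ m → j ≤ l → a' ≤ m → b ≤ l →
      (∀ q, s q + dd (L q) i a' j b ≤ t q) →
      z + ev σ U (fun q => (s q : ℝ)) + dist (gp η l i j) (gp η l a' b) ≤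
        z + ev σ U (fun q => (t q : ℝ)) := by
    intro i j a' b s t hi hj ha hb ht
    have h1 := M.dist_gp hi ha hj hb
    have h2 : ev σ U (fun q => (s q : ℝ) + (dd (L q) i a' j b : ℝ)) ≤
        ev σ U (fun q => (t q : ℝ)) :=
      ev_le M.wt M.Upos fun q => by exact_mod_cast ht q
    rw [ev_add] at h2
    linarith
  have hq : ∀ q (a' b : ℕ), 0 < nt (L q) (st q) a' b →
      nt (L q) (st q) a' b + dd (L q) i0 a' j0 b ≤ (st q).t0 ∧
      nt (L q) (st q) a' b + dd (L q) i1 a' j0 b ≤ (st q).t1 ∧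
      nt (L q) (st q) a' b + dd (L q) i0 a' j1 b ≤ (st q).t2 ∧
      nt (L q) (st q) a' b + dd (L q) i1 a' j1 b ≤ (st q).t3 := by
    intro q a' b hp
    have := nt_pos hp
    rw [P.e0, P.e1, P.f0, P.f1] at this
    exact this
  have o := fun q => okS_sound (h q)
  have hx0 : cx ≤ m := hcx.le
  have hx1 : cx + 1 ≤ m := hcx
  have hy0 : cy ≤ l := hcy.le
  have hy1 : cy + 1 ≤ l := hcy
  fin_cases u <;> fin_cases v
  · exact gen _ _ _ _ _ _ P.b0 P.c0 hx0 hy0 fun q => (hq q _ _ (o q).2.2.1).1
  · exact gen _ _ _ _ _ _ P.b0 P.c0 hx1 hy0 fun q => (hq q _ _ (o q).2.2.2.1).1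
  · exact gen _ _ _ _ _ _ P.b0 P.c0 hx0 hy1 fun q => (hq q _ _ (o q).2.2.2.2.1).1
  · exact gen _ _ _ _ _ _ P.b0 P.c0 hx1 hy1 fun q => (hq q _ _ (o q).2.2.2.2.2).1
  · exact gen _ _ _ _ _ _ P.b1 P.c0 hx0 hy0 fun q => (hq q _ _ (o q).2.2.1).2.1
  · exact gen _ _ _ _ _ _ P.b1 P.c0 hx1 hy0 fun q => (hq q _ _ (o q).2.2.2.1).2.1
  · exact gen _ _ _ _ _ _ P.b1 P.c0 hx0 hy1 fun q => (hq q _ _ (o q).2.2.2.2.1).2.1
  · exact gen _ _ _ _ _ _ P.b1 P.c0 hx1 hy1 fun q => (hq q _ _ (o q).2.2.2.2.2).2.1
  · exact gen _ _ _ _ _ _ P.b0 P.c1 hx0 hy0 fun q => (hq q _ _ (o q).2.2.1).2.2.1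
  · exact gen _ _ _ _ _ _ P.b0 P.c1 hx1 hy0 fun q => (hq q _ _ (o q).2.2.2.1).2.2.1
  · exact gen _ _ _ _ _ _ P.b0 P.c1 hx0 hy1 fun q => (hq q _ _ (o q).2.2.2.2.1).2.2.1
  · exact gen _ _ _ _ _ _ P.b0 P.c1 hx1 hy1 fun q => (hq q _ _ (o q).2.2.2.2.2).2.2.1
  · exact gen _ _ _ _ _ _ P.b1 P.c1 hx0 hy0 fun q => (hq q _ _ (o q).2.2.1).2.2.2
  · exact gen _ _ _ _ _ _ P.b1 P.c1 hx1 hy0 fun q => (hq q _ _ (o q).2.2.2.1).2.2.2
  · exact gen _ _ _ _ _ _ P.b1 P.c1 hx0 hy1 fun q => (hq q _ _ (o q).2.2.2.2.1).2.2.2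
  · exact gen _ _ _ _ _ _ P.b1 P.c1 hx1 hy1 fun q => (hq q _ _ (o q).2.2.2.2.2).2.2.2

theorem tt_nonneg (M : Mix L σ κ η a z U m l nc rep far) (st : ι → St) (v : Fin 4) :
    0 ≤ tt σ U z st v := by
  unfold tt ev
  exact add_nonneg M.zpos (div_nonneg (Finset.sum_nonneg fun q _ =>
    mul_nonneg (M.wt.1 q) (Nat.cast_nonneg _)) M.Upos.le)

/-- description of a successful run -/
theorem run_some {L : Lane} {f : ℕ} {s : St} {S c c' : ℕ} (h : run L (f + 1) s S c = some c') :
    (S = 0 ∧ c' = c) ∨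
    (S ≠ 0 ∧ c % 2 = 0 ∧ leafB L s S (c / 2 % 4) (c / 8 % 64) (c / 512 % 64) (c / 32768 % 64)
      (c / 2097152 % 64) = true ∧ c' = c / 134217728) ∨
    (S ≠ 0 ∧ c % 2 ≠ 0 ∧ okS L s (c / 2 % 64) (c / 128 % 64) = true ∧ ∃ c1 c2,
      run L f (mkS L s (c / 2 % 64) (c / 128 % 64))
        (S &&& cutM L (c / 8192 % 2) (c / 16384 % 64)) (c / 1048576) = some c1 ∧
      run L f (mkS L s (c / 2 % 64) (c / 128 % 64))
        (S ^^^ (S &&& cutM L (c / 8192 % 2) (c / 16384 % 64))) c1 = some c2 ∧
      run L f s (clr L S (c / 2 % 64) (c / 128 % 64)) c2 = some c') := by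
  rw [run] at h
  cases hS : Nat.beq S 0
  · have hS' : S ≠ 0 := fun e => by rw [e] at hS; exact absurd hS (by decide)
    rw [hS, cond_false] at h
    cases hc : Nat.beq (c % 2) 0
    · have hc' : c % 2 ≠ 0 := fun e => by rw [e] at hc; exact absurd hc (by decide)
      rw [hc, cond_false] at h
      cases ho : okS L s (c / 2 % 64) (c / 128 % 64)
      · rw [ho, cond_false] at h; exact absurd h (by simp)
      · rw [ho, cond_true] at h
        right; right
        refine ⟨hS', hc', rfl, ?_⟩
        cases h1 : run L f (mkS L s (c / 2 % 64) (c / 128 % 64))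
            (S &&& cutM L (c / 8192 % 2) (c / 16384 % 64)) (c / 1048576) with
        | none => rw [h1] at h; exact absurd h (by simp)
        | some c1 =>
          rw [h1] at h
          dsimp only at h
          cases h2 : run L f (mkS L s (c / 2 % 64) (c / 128 % 64))
              (S ^^^ (S &&& cutM L (c / 8192 % 2) (c / 16384 % 64))) c1 with
          | none => rw [h2] at h; exact absurd h (by simp)
          | some c2 =>
            rw [h2] at h
            exact ⟨c1, c2, rfl, h2, h⟩
    · have hc' := Nat.eq_of_beq_eq_true hc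
      rw [hc, cond_true] at h
      right; left
      cases hl : leafB L s S (c / 2 % 4) (c / 8 % 64) (c / 512 % 64) (c / 32768 % 64)
          (c / 2097152 % 64)
      · rw [hl, cond_false] at h; exact absurd h (by simp)
      · rw [hl, cond_true] at h
        exact ⟨hS', hc', rfl, (Option.some.inj h).symm⟩
  · rw [hS, cond_true] at h
    exact Or.inl ⟨Nat.eq_of_beq_eq_true hS, (Option.some.inj h).symm⟩

theorem cutM_congr {L L' : Lane} (hl : L.l = L'.l) (hr : L.rep = L'.rep) (ty pos : ℕ) :
    cutM L ty pos = cutM L' ty pos := by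
  unfold cutM rowLt
  rw [hl, hr]

theorem clr_congr {L L' : Lane} (hl : L.l = L'.l) (S cx cy : ℕ) :
    clr L S cx cy = clr L' S cx cy := by
  unfold clr
  rw [hl]

/-- the unread part of the certificate does not depend on the lane -/
theorem run_det {L L' : Lane} (hl : L.l = L'.l) (hr : L.rep = L'.rep) :
    ∀ (f : ℕ) (s s' : St) (S c c1 c2 : ℕ), run L f s S c = some c1 → run L' f s' S c = some c2 →
      c1 = c2 := by
  intro f
  induction f with
  | zero => intro s s' S c c1 c2 h; exact absurd h (by simp [run])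
  | succ f ih =>
    intro s s' S c c1 c2 h1 h2
    rcases run_some h1 with ⟨a1, a2⟩ | ⟨a1, a2, a3, a4⟩ | ⟨a1, a2, a3, d1, d2, a4, a5, a6⟩ <;>
    rcases run_some h2 with ⟨b1, b2⟩ | ⟨b1, b2, b3, b4⟩ | ⟨b1, b2, b3, e1, e2, b4, b5, b6⟩
    · rw [a2, b2]
    · exact absurd a1 b1
    · exact absurd a1 b1
    · exact absurd b1 a1
    · rw [a4, b4]
    · exact absurd a2 b2
    · exact absurd b1 a1
    · exact absurd b2 a2
    · rw [← cutM_congr hl hr] at b4 b5
      rw [← clr_congr hl] at b6
      have g1 := ih _ _ _ _ _ _ a4 b4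
      rw [← g1] at b5
      have g2 := ih _ _ _ _ _ _ a5 b5
      rw [← g2] at b6
      exact ih _ _ _ _ _ _ a6 b6

/-- soundness of the checker for one robot -/
theorem run_sound (M : Mix L σ κ η a z U m l nc rep far) (hF : Flat I κ n) :
    ∀ (f : ℕ) (st : ι → St) (i0 i1 j0 j1 S c : ℕ), Pos st m l i0 i1 j0 j1 →
      (∀ q, ∃ c', run (L q) f (st q) S c = some c') →
      FC x (n + 1) (vt η l i0 i1 j0 j1) (tt σ U z st) (reg η a l m nc S) := by
  obtain ⟨q0⟩ := exists_lane M.wt
  intro f
  induction f with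
  | zero =>
    intro st i0 i1 j0 j1 S c P h
    obtain ⟨c', h0⟩ := h q0
    exact absurd h0 (by simp [run])
  | succ f ih =>
    intro st i0 i1 j0 j1 S c P h
    by_cases hS : S = 0
    · rw [hS, reg_zero]; exact FC.empty
    by_cases hc : c % 2 = 0
    · refine leaf_sound M hF P (dir := c / 2 % 4) (x0 := c / 8 % 64) (x1 := c / 512 % 64)
        (y0 := c / 32768 % 64) (y1 := c / 2097152 % 64) ?_
      intro q
      obtain ⟨c', h0⟩ := h q
      rcases run_some h0 with ⟨a1, _⟩ | ⟨_, _, a3, _⟩ | ⟨_, a2, _⟩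
      · exact absurd a1 hS
      · exact a3
      · exact absurd hc a2
    · have key : ∀ q, okS (L q) (st q) (c / 2 % 64) (c / 128 % 64) = true ∧ ∃ c1 c2 c',
          run (L q) f (mkS (L q) (st q) (c / 2 % 64) (c / 128 % 64))
            (S &&& cutM (L q0) (c / 8192 % 2) (c / 16384 % 64)) (c / 1048576) = some c1 ∧
          run (L q) f (mkS (L q) (st q) (c / 2 % 64) (c / 128 % 64))
            (S ^^^ (S &&& cutM (L q0) (c / 8192 % 2) (c / 16384 % 64))) c1 = some c2 ∧
          run (L q) f (st q) (clr (L q0) S (c / 2 % 64) (c / 128 % 64)) c2 = some c' := by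
        intro q
        obtain ⟨c', h0⟩ := h q
        have e1 : (L q).l = (L q0).l := by rw [M.hl, M.hl]
        have e2 : (L q).rep = (L q0).rep := by rw [M.hrep, M.hrep]
        rcases run_some h0 with ⟨a1, _⟩ | ⟨_, a2, _, _⟩ | ⟨_, _, a3, c1, c2, a4, a5, a6⟩
        · exact absurd a1 hS
        · exact absurd a2 hc
        · rw [cutM_congr e1 e2] at a4 a5
          rw [clr_congr e1] at a6
          exact ⟨a3, c1, c2, c', a4, a5, a6⟩
      choose hok d1 d2 d3 hA hB hR using key
      have hd1 : ∀ q, d1 q = d1 q0 := fun q =>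
        run_det (by rw [M.hl, M.hl]) (by rw [M.hrep, M.hrep]) _ _ _ _ _ _ _ (hA q) (hA q0)
      have hB' : ∀ q, run (L q) f (mkS (L q) (st q) (c / 2 % 64) (c / 128 % 64))
          (S ^^^ (S &&& cutM (L q0) (c / 8192 % 2) (c / 16384 % 64))) (d1 q0) = some (d2 q) :=
        fun q => by rw [← hd1 q]; exact hB q
      have hd2 : ∀ q, d2 q = d2 q0 := fun q =>
        run_det (by rw [M.hl, M.hl]) (by rw [M.hrep, M.hrep]) _ _ _ _ _ _ _ (hB' q) (hB' q0)
      have hR' : ∀ q, run (L q) f (st q) (clr (L q0) S (c / 2 % 64) (c / 128 % 64)) (d2 q0) =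
          some (d3 q) := fun q => by rw [← hd2 q]; exact hR q
      have hcx : c / 2 % 64 < m := by have := (okS_sound (hok q0)).1; rwa [M.hm] at this
      have hcy : c / 128 % 64 < l := by have := (okS_sound (hok q0)).2.1; rwa [M.hl] at this
      have PQ : Pos (fun q => mkS (L q) (st q) (c / 2 % 64) (c / 128 % 64)) m l (c / 2 % 64)
          (c / 2 % 64 + 1) (c / 128 % 64) (c / 128 % 64 + 1) := mk_pos hcx hcy
      refine FC.elim (cell_hull M.etapos M.lpos hcx)
        (R' := reg η a l m nc (clr (L q0) S (c / 2 % 64) (c / 128 % 64)))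
        ?_ (reg_split η a l m nc S (cutM (L q0) (c / 8192 % 2) (c / 16384 % 64)))
        (s := tt σ U z (fun q => mkS (L q) (st q) (c / 2 % 64) (c / 128 % 64)))
        (tt_nonneg M _) (fun u v => mk_time M P hok u v) ?_ ?_ ?_
      · have := reg_clr η a l m nc S (c / 2 % 64) (c / 128 % 64) hcy
        unfold clr
        rw [M.hl q0]
        exact this
      · exact ih _ _ _ _ _ _ _ PQ fun q => ⟨d1 q, hA q⟩
      · exact ih _ _ _ _ _ _ _ PQ fun q => ⟨d2 q, hB' q⟩
      · exact ih _ _ _ _ _ _ _ P fun q => ⟨d3 q, hR' q⟩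

end FK

end FreezeTag

end
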