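import Mathlib
import Pool.Agent.Work.MP_086a47_lc.Bd.B02
import Pool.Agent.Work.MP_086a47_lc.Bd.B01

/-! Bundle of small proof modules (one section per former module). -/

section

/-!
# Freeze-Tag, part B2: the certificate (one-variable tables), checked by the kernel

All numbers are in units of 1/10000; mesh 360 cells = 180 degrees.
-/

namespace FreezeTag

/-- distance bounds, mesh 360 -/
def ctab360 : ℕ := 0x4e214e204e204e1f4e1d4e1c4e1a4e174e144e114e0d4e094e054e004dfb4df64df04dea4de34ddc4dd44dcd4dc44dbc4db34daa4da04d964d8b4d814d754d6a4d5e4d524d454d384d2a4d1c4d0e4d004cf14ce14cd24cc24cb14ca04c8f4c7d4c6b4c594c464c334c204c0c4bf84be34bce4bb94ba34b8d4b774b604b494b324b1a4b024ae94ad04ab74a9d4a834a684a4e4a324a1749fb49df49c249a54988496a494c492e490f48f048d148b148914870484f482e480d47eb47c847a64783475f473c471846f346cf46aa4684465e4638461245eb45c4459d4575454d452444fb44d244a9447f4455442a440043d443a9437d4351432542f842cb429d42704241421341e441b541864156412640f640c54094406340314000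3fcd3f9b3f683f353f013ece3e9a3e653e313dfc3dc63d913d5b3d253cee3cb73c803c493c113bd93ba13b693b303af73abd3a843a4a3a0f39d5399a395f392438e838ac3870383337f737ba377c373f370136c336843646360735c835883548350934c834883447340633c533833342330032bd327b323831f531b2316f312b30e730a3305e301a2fd52f902f4a2f052ebf2e792e332dec2da62d5f2d172cd02c882c412bf92bb02b682b1f2ad62a8d2a4429fb29b12967291d28d22888283d27f227a7275c271126c52679262d25e12594254824fb24ae2461241323c62378232a22dc228e224021f121a32154210520b6206620171fc71f771f281ed71e871e371de61d961d451cf41ca31c511c001bae1b5d1b0b1ab91a671a1519c21970191d18cb1878182517d2177f172b16d81684163115dd1589153514e1148d143913e51390133c12e71292123d11e91194113f10e91094103f0fe90f940f3e0ee90e930e3d0de70d920d3c0ce70c9b0c4e0c020bb70b6b0b200ad50a8a0a4009f609ac0963091b08d3088c0845080007bb0777073506f406b40676063905ff05c70591055e052f050304da04b60497047d0468045904500514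

/-- values, bin 0 of mesh 360 -/
def vt360_0 : ℕ := 0x7478744a7421740873ca73c57385736c73447314730272bf72b1727d7254723a71fb71f271b471977171713b712d70e970d570a570787061701c700f6fd86faf6f936f4e6f406f086edd6ec36e7d6e6c6e376e076df36daf6d936d6a6d2e6d1f6ce16cb86c9d6c586c426c136bd96bc86b896b606b436afe6ae56ab86a7c6a696a2d69fe69e769a16980695b6915690068cf6893687e6842681167fb67b5678e676e6727670966df669a66826650661365fa65c1658a65716530650064e6649e64736455640c63e663c363796358632f62e562c8629b62536236620661c161a36174612e610f60e260996079605060075fe25fbd5f735f495f285edf5eb05e8e5e4b5e135df15db65d775d535d215cd95cb55c8b5c405c155bf05baa5b725b4c5b145acf5aa95a7e5a335a0459dd599b595e5936590358b7588c5863581f57e357b95786573a570d56e356a1565f5634560755ba55855559552054d554a8547a543753f653c75399534d531252e352b05262522d51fd51c451765145511450d7508c505a50294feb4f9e4f6c4f394f004eb14e7b4e484e134dc44d884d544d1f4cd64c924c5d4c274be84b994b624b2b4af44aa94a664a2e49f649b94969492f48f648bd4878482b47f247b8477d4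73646ec46b14676463b45ff45c34587454a450e44d144934452440e43c843834344430642c742884248420841c941884148410740c64085404340023fbe3f783f323eec3ea53e5f3e1b3dd83d943d503d0c3cc73c833c3e3bf93bb33b6e3b283ae23a9c3a553a0f39c8397e393338e9389e3853380a37c13779373036e7369e3655360c35c23578352e34e33499344e340333b8336d332232d6328a323e31f231a53159310c30bf307030212fd12f812f322ee42e962e482dfa2dab2d5d2d0e2cbf2c702c202bd12b812b312ae22a912a4129f129a0295028ff28ae285d280b27ba2768271726c52673262125cf257c252a24d52480242e23db2388233522e2228e223a21e2218b213420dd2085202e1fd71f801f281ed11e7a1e231dcb1d741d1d1cc51c6e1c171bc01b681b111aba1a631a0b19b4195d190618ae1857180017a8175116fa16a3164b15f4159d154614ee1497144013e91391133a12e3128b123411dd1186112e10d7108010290fd10f7a0f230ecc0e740e1d0dc60d6e0d170cc00c690c110bba0b630b0c0ab40a5d0a0609af0957090008a9085107fa07a3074c0000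

/-- cuts -/
def pt360_0 : ℕ := 0x15b015b015a015a01590158015801570157015601560155015401540153015301520151015101500150014f014f014e014d014d014c014c014b014a014a0149014901480147014701460146014501440144014301430142014101410140013f013f013e013e013d013c013c013b013a013a0139013901380137013701360135013501340134013301320132013101300130012f012e012e012d012c012c012b012b012a0129012901280127012701260125012501240123012301220121012101200120011f011e011e011d011c011c011b011a011a011901180118011701160116011501140114011301120112011101100110010f010e010d010d010c010b010b010a01090109010801070107010601050105010401030102010201010100010000ff00fe00fe00fd00fc00fb00fb00fa00f900f900f800f700f600f600f500f400f400f300f200f100f100f000ef00ef00ee00ed00ec00ec00eb00ea00e900e900e800e700e600e600e500e400e400e300e200e100e100e000df00de00de00dd00dc00db00db00da00d900d800d800d700d600d500d500d400d300d200d100d100d000cf00ce00ce00cd00cc00cb00ca00ca00c900c800c700c700c600c500c400c300c300c200c100c000bf00bf00be00bd00bc00bb00b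a00b900b800b700b600b500b400b400b300b200b100b000af00ae00ad00ac00ab00aa00a900a800a700a600a500a400a300a300a200a100a0009f009e009d009c009b009a0099009800970096009500940093009200910090008f008e008d008d008c008b008a0089008800870086008500840083008200810080007f007e007d007c007b007a0079007800770076007500740073007200710070006f006f006e006d006c006b006a0069006800670066006500640063006200610060005f005e005d005c005b005a0059005800570056005500540053005200510050004f004e004d004c004b004b004a004900480047004600450044000000000000000000000000000000000000000000000000000000000000000000000000000000000000000000000000000000000000000000000000000000000000000000000000000000000000000000000000000000000000000000000000000000000000000000000000000000000000000000000000000000000000000000000000000000000000000000000000000000000000000000000000000000000000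

theorem bin360_0 : binB ctab360 360 440 872665 17799100 10000 vt360_0 pt360_0 0 397 323 = true := by decide +kernel

/-- values, bin 1 of mesh 360 -/
def vt360_1 : ℕ := 0x74737434741c73f373c573b173707368732e730f72ed72b672ab72697254722671fb71e471a17195715e7137711b70db70d17095707470527016700c6fca6fac6f866f4c6f406efd6edd6eb86e796e6c6e2d6e076de86da26d936d5c6d2e6d166cd06cb86c896c526c426c006bd96bbb6b766b606b316af76ae56aa66a7c6a606a1b69fe69d56994698069496915690068bd689368776830681167ea67a4678e675d6720670966cf669a66826640661365f865b1658a65696522650064da649264736449640263e663b863746358632662e562c8629462536236620161c161a3616d612e610f60d860986079604260025fe25fb05f6a5f495f1c5ed25eb05e885e3e5e135df15da95d775d535d145cd95cb55c7f5c395c155be95b9e5b725b4c5b085acf5aa95a725a2b5a0459dc5990595e593658f858b5588c5860581457e357b9577c5738570d56e35696565f563455fd55b155855559551654d554a8547a542e53f653c753935346531252e352aa525d522d51fd51c051765145511450d5508c505a50294fe94f9e4f6c4f394efb4eaf4e7b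4e484e0c4dbd4d884d544d1e4ccf4c924c5d4c274be04b994b624b2b4af14aa24a664a2e49f649b34967492f48f648bd4871482b47f247b8477d473046ec46b14676463b45ed45a8456c453044f344b7447a443c43ff43c1437f433c42f642af4270423141f141b14172413140f140b0406f402e3fec3fab3f693f263ee33e9d3e563e103dc93d813d3c3cf83cb43c6f3c2b3be63ba13b5b3b163ad03a8a3a4439fd39b73970392838e138993850380537ba376f372436d93690364735fe35b5356b352134d7348c344233f733ac3361331632cb327f323331e7319b314e310230b53068301b2fcd2f802f322ee42e932e432df32da32d542d062cb72c682c192bc92b7a2b2a2ada2a8b2a3a29ea299a294928f928a82857280627b42763271126c0266e261c25ca2578252524d32480242e23d92384233122de228b223721e2218b213420dd2085202e1fd71f801f281ed11e7a1e231dcb1d741d1d1cc51c6e1c171bc01b681b111aba1a631a0b19b4195d190618ae1857180017a8175116fa16a3164b15f4159d154614ee1497144013e91391133a12e3128b123411dd1186112e10d7108010290fd10f7a0f230ecc0e740e1d0dc60d6e0d170cc00c690c110bba0b630b0c0ab40a5d0a0609af090f08f008a908510468045900000000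

/-- cuts -/
def pt360_1 : ℕ := 0x15b015b015a015a01590159015801570157015601560155015501540153015301520152015101500150014f014f014e014d014d014c014c014b014a014a01490149014801470147014601460145014401440143014301420141014101400140013f013e013e013d013c013c013b013b013a0139013901380137013701360136013501340134013301320132013101300130012f012f012e012d012d012c012b012b012a0129012901280127012701260126012501240124012301220122012101200120011f011e011e011d011c011c011b011a011a011901180118011701160116011501140114011301120112011101100110010f010e010e010d010c010c010b010a01090109010801070107010601050105010401030103010201010100010000ff00fe00fe00fd00fc00fc00fb00fa00f900f900f800f700f700f600f500f400f400f300f200f100f100f000ef00ef00ee00ed00ec00ec00eb00ea00e900e900e800e700e700e600e500e400e400e300e200e100e100e000df00de00de00dd00dc00db00db00da00d900d800d800d700d600d500d500d400d300d200d200d100d000cf00ce00ce00cd00cc00cb00cb00ca00c900c800c700c700c600c500c400c300c300c200c100c000bf00bf00be00bd00bc00bb00b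b00ba00b900b800b700b600b500b400b300b200b200b100b000af00ae00ad00ac00ab00aa00a900a800a700a600a500a400a300a200a100a100a0009f009e009d009c009b009a0099009800970096009500940093009200910090008f008e008d008c008b008a008a0089008800870086008500840083008200810080007f007e007d007c007b007a0079007800770076007500740073007200710070006f006e006d006c006b006a006a0069006800670066006500640063006200610060005f005e005d005c005b005a0059005800570056005500540053005200510050004f004e004d004c004b004a004900490048004700460045004400000000000000000000000000000000000000000000000000000000000000000000000000000000000000000000000000000000000000000000000000000000000000000000000000000000000000000000000000000000000000000000000000000000000000000000000000000000000000000000000000000000000000000000000000000000000000000000000000040003000000000002000100000000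

theorem bin360_1 : binB ctab360 360 440 872665 17799100 10000 vt360_1 pt360_1 1 395 324 = true := by decide +kernel

/-- values, bin 2 of mesh 360 -/
def vt360_2 : ℕ := 0x73d473c4738e736e73497317730372c072ba727772617230720971ea71af71a3715b714d711470f370cc70987085703d70326ff56fd66fac6f786f646f1c6f106ed26eb26e896e536e406df76de76dad6d876d636d256d176cce6cb66c846c546c396bf26be26ba36b7f6b586b1b6b0a6ac16aa56a756a406a2a69e469c8699e6962694f691168e868ca6884686c683d680467ef67ae67856767671f670566da669a6684664e6619660265c26596657c6536651164ef64a964896462641c640163d5639263776346630762eb62b7627b625f622861ed61d06199615e6141610a60cd60af6079603b601c5fe85fa75f885f575f135ef35ec55e7c5e5b5e335dea5dc45da15d585d335d0f5cc65ca15c7c5c325c0e5be85b9f5b7a5b545b0a5ae55abf5a755a475a2159e059a3597c594a58ff58d758af58695830580757d35788575d573456f256b35689565a560e55dd55b15576552f550354d754925453542653f953ac53745347531352c652935264522c51df51af517f514450f750c75096505c500e4fdd4fab4f724f244ef04ebe4e884e3a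4e014dcd4d9a4d504d0e4cd94ca54c644c194be34bae4b784b294aeb4ab44a7d4a3c49ee49b7497f494748fe48b848804847480e47bf477d4744470a46cf467f463e460345c8458d453e44f944bd4481444443fc43ab435a430942b84267421641c44175413040ea40a5405f40193fd33f8c3f463eff3eb73e703e283de13d993d523d0d3cc83c823c3d3bf73bb13b6b3b243ade3a973a4f3a0839c03979393138ea38a53860381a37d5378f3749370336bc3676362f35e735a03558351134c93480343833ef33a6335d331432cb3281323731ed31a23158310d30c23077302c2fe12f952f492efd2eb12e642e182dcb2d7e2d312ce32c962c482bfa2bac2b5e2b102ac12a732a2429d52986293628e72897284727f827a72757270726b62666261525c42573252124d0247e242d23db2389233722e52292224021ed219b214820f520a2204f1ffb1fa81f541f011ead1e591e051db11d5d1d091cb51c601c0c1bb71b621b0d1ab91a641a0f19b91964190f18b91864180e17b91763170d16b71662160c15b7156b151e14d21487143b13e91391133a12e3128b123411dd1186112e10d7108010290fd10f7a0f230ecc0e740e1d0dc60d6e0d170cc00c690c110a2f09f909c60997091e08ff08e508d004b60497047d0468000000000000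

/-- cuts -/
def pt360_2 : ℕ := 0x15b015a015a015901590158015801570156015601550155015401540153015301520151015101500150014f014f014e014d014d014c014c014b014b014a014901490148014801470147014601450145014401440143014201420141014101400140013f013e013e013d013d013c013b013b013a013a0139013901380137013701360135013501340134013301320132013101300130012f012f012e012d012d012c012b012b012a0129012901280128012701260126012501240124012301220122012101200120011f011e011e011d011c011c011b011a011a011901180118011701160116011501140114011301120112011101100110010f010e010e010d010c010c010b010a010a0109010801080107010601060105010401040103010201010101010000ff00ff00fe00fd00fd00fc00fb00fa00fa00f900f800f800f700f600f500f500f400f300f300f200f100f000f000ef00ee00ed00ed00ec00eb00ea00ea00e900e800e800e700e600e500e500e400e300e200e200e100e000df00df00de00dd00dc00dc00db00da00d900d900d800d700d600d500d500d400d300d200d200d100d000cf00ce00ce00cd00cc00cb00cb00ca00c900c800c700c700c600c500c400c300c300c200c100c000bf00bf00be00bd00b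c00bb00bb00ba00b900b800b700b700b600b500b400b300b200b100b000af00ae00ad00ac00ab00aa00a900a800a700a600a500a400a300a200a100a0009f009e009d009c009b009a0099009800970096009500940093009200910090008f008e008d008c008b008a0089008800870086008500840083008200810080007f007e007d007c007b007a0079007800770076007500740073007200710070006f006e006d006c006b006a0069006800670066006500640063006200610060005f005e005d005c005b005a0059005800570056005500540053005200510050004f004e004d004c004b004a0049004800470046004500440043004200410040003f003e003d003c003b003a0039003800370036003500340033003200310030002f002e002d002c002b002a0029002800270026002500240023002200210020001f001e001d001c001b001a0019000000000000000000000000000000000000000000000000000000000000000000000000000000000000000000000000000800070006000500080007000600050004000300020001000000000000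

theorem bin360_2 : binB ctab360 360 440 872665 17799100 10000 vt360_2 pt360_2 2 394 324 = true := by decide +kernel

/-- values, bin 3 of mesh 360 -/
def vt360_3 : ℕ := 0x72b1728b725c724a720a720071c971a9718871517147710670f270c5709870847042703770016fdb6fbf6f816f786f3c6f1c6efa6ebf6eb56e756e576e326dfa6dee6dad6d8f6d6a6d306d246ce46cc36ca16c636c556c1b6bf36bd86b946b836b506b206b0c6ac86aad6a846a496a3869fb69d369b76972695c692e68f568e368a4687c685f681a680167d4679867846749671a670466be669c66786632661b65ec65b065996560652c651564d364a8648c6446641263f963b8639a6370632b631162e162a062866252621561fa61c36188616c613460ec60c860a36069604b60125fd85fba5f815f455f265eef5eb25e925e5d5e265e055dcb5d825d395cf05ca65c745c525c125bee5bc85b8a5b675b345b055ae05aa35a7f5a545a2059fa59bf5974592958de589e58785852582c580657df57b8579157695741571856ef56c65684563855ec55a05554550854bc546f542353d6538a533d52fa52cc529f525e522f520151c151925163512550f650c65089505950294fef4fbe4f8d4f4e4f004eb24e6d4e3c4e0b4dda4da84d774d444d12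4cdf4cac4c784c454c114bdc4ba84b734b3d4b044ab54a664a1649c74977492848d84888483947e94799474a46f946a94659460845c14587454c451144d044954459441d43dd43a14364432842ec42af4273423641f841bb417d413f410040c24083404440043fbd3f7e3f403f013ec23e823e423e033dc23d823d413d003cbf3c7d3c3c3bfa3bb73b753b323aef3aac3a693a2539e1399d3958391438cf388a384437ff37b93773372d36e636a03659361135ca3582353b34f334aa3462341933d03387333e32f532ab3261321731cc3182313730ec30a13056300b2fbf2f732f272edb2e8e2e422df52da82d5b2d0d2cc02c722c242bd62b882b3a2aeb2a9d2a4e29ff29b02960291128c12871282227d12781273126e02690263f25ee259d254b24fa24a82457240523b32361230f22bc226a221721c52172211f20cc207920251fd21f7e1f2b1ed71e831e2f1ddb1d871d331cdf1c8a1c361be11b8c1b371ae31a8e1a3919e3198e192918e3188e183817e3178d172316e1168c163615e1159514ac146b142b13ed13b0137612a6127a1251122d120e11f4102f0fee0fae0f700f330ef90e290dfd0dd40db00d910d770bb20b710b310af30ab60a7c09ac098009570933091408fa052f050304da04b60497047d0000000000000000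

/-- cuts -/
def pt360_3 : ℕ := 0x15c015c015b015b015a01590159015801580157015701560155015501540154015301520152015101510150014f014f014e014e014d014c014c014b014b014a01490149014801480147014601460145014501440143014301420142014101400140013f013f013e013d013d013c013b013b013a013a0139013801380137013601360135013501340133013301320131013101300130012f012e012e012d012c012c012b012a012a012901280128012701270126012501240124012301230122012101210120011f011f011e011d011d011c011b011b011a011901190118011701170116011501150114011301130112011101110110010f010f010e010d010c010b010a010901090108010801070106010601050104010401030103010201010101010000ff00fe00fd00fc00fb00fa00f900f800f700f600f500f400f300f200f100f600f500f400f300f200f100f000ef00ee00ed00ec00eb00ea00e900e800e800e700e600e600e500e400e400e300e200e200e100e000e000df00de00de00dd00dc00db00da00d900d800d700d600d500d400d300d200d100d000cf00ce00cd00cc00cb00d000cf00ce00cd00cc00cb00ca00c900c800c700c600c500c400c300c200c100c000bf00be00bd00bc00bc00bb00ba00b900b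900b800b700b600b500b400b200b000af00ae00ad00ac00ab00aa00a900a800a700ac00ab00aa00a900a800a100a0009f009e009d009c009b009a0099009800970096009500940093009200910090008f008e008d008c008b008a0089008800870086008500840083008200810080007f007e007d007c007b007a0079007800770076007500740073007200710070006f006e006d006c006b006a0069006800670066006500640063006200610060005f005e005d005c005b005a0059005800570056005500540053005200510050004f004e004d004c004b004a0049004800470046004500440043004200410040003f003e003d003c003b003a0039003800370036003500340033003200310030002f002e002d002c002b002a0029002800270026002500300023002200210020001f002a001d001c001b001a001900240023002200210020001f001e001d001c001b001a0019001800170016001500140013001200110010000f000e000d000c000b000a000900080007000c000b000a0009000800070006000500040003000200010000000000000000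

theorem bin360_3 : binB ctab360 360 440 872665 17799100 10000 vt360_3 pt360_3 3 392 325 = true := by decide +kernel

end FreezeTag

end

section

/-!
# Freeze-Tag, flat leaf lemma: soundness of the checker for two robots
-/

namespace FreezeTag

namespace FK

variable {ι : Type} [Fintype ι] {L : ι → Lane} {σ : ι → ℝ} {κ η a z U : ℝ}
  {m l nc rep : ℕ} {far : Bool}

variable {I : Type*} [DecidableEq I] {x : I → ℂ} {n : ℕ}

theorem row_bit {L : Lane} (hrep : repOK L = true) {y c r : ℕ} (hy : y ≤ L.l) (hc : c < L.m + 1)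
    (hr : r < L.l) : (rowLt L y).testBit (c * L.l + r) = decide (r < y) := by
  have e1 := allN_sound hrep y (by omega)
  have e2 := allN_sound e1 c hc
  have e3 := allN_sound e2 r hr
  rw [beq_iff_eq] at e3
  rw [e3]
  by_cases hry : r < y
  · rw [decide_eq_true hry]; exact Nat.ble_eq_true_of_le hry
  · rw [decide_eq_false hry]
    by_contra hne
    rw [Bool.not_eq_false] at hne
    exact hry (Nat.le_of_ble_eq_true hne)

/-- description of one successful step of `top` -/
theorem top_some {L : Lane} {s : St} {pb pt : Bool} {fuel c : ℕ} {cs : List ℕ} {S C : ℕ}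
    (h : top L s pb pt fuel (c :: cs) S C = true) :
    (c % 4 = 0 ∧ ∃ c1, run L fuel s (shM L (c / 4 % 4) (c / 16 % 64) S) (c / 1024) = some c1 ∧
      top L s pb pt fuel cs S (shM L (c / 4 % 4) (c / 16 % 64) S) = true) ∨
    (c % 4 = 1 ∧ okS L s (c / 4 % 64) (c / 256 % 64) = true ∧ ∃ c1 c2,
      run L fuel (mkS L s (c / 4 % 64) (c / 256 % 64))
        ((S ^^^ (S &&& C)) &&& cutM L (c / 16384 % 2) (c / 32768 % 64)) (c / 2097152) = some c1 ∧
      run L fuel (mkS L s (c / 4 % 64) (c / 256 % 64))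
        ((S ^^^ (S &&& C)) ^^^ ((S ^^^ (S &&& C)) &&& cutM L (c / 16384 % 2) (c / 32768 % 64)))
        c1 = some c2 ∧
      top L s pb pt fuel cs (clr L S (c / 4 % 64) (c / 256 % 64)) C = true) ∨
    (c % 4 = 2 ∧ ∃ c1 c2,
      run L fuel s (S &&& cutM L (c / 4 % 2) (c / 8 % 64)) (c / 512) = some c1 ∧
      run L fuel s (S ^^^ (S &&& cutM L (c / 4 % 2) (c / 8 % 64))) c1 = some c2) ∨
    (c % 4 = 3 ∧ (Nat.beq S 0 || (!L.far && Nat.blt S (2 ^ ((L.m - 1) * L.l))) ||
        (!pt && Nat.beq (S &&& rowLt L (L.l - 1)) S) || (!pb && Nat.beq (S &&& rowLt L 1) 0)) =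
        true) := by
  have h4 : c % 4 < 4 := Nat.mod_lt _ (by norm_num)
  rw [top] at h
  rcases hc : c % 4 with _ | _ | _ | k
  · left
    rw [hc] at h
    refine ⟨rfl, ?_⟩
    cases h1 : run L fuel s (shM L (c / 4 % 4) (c / 16 % 64) S) (c / 1024) with
    | none => rw [h1] at h; exact absurd h (by simp)
    | some c1 => rw [h1] at h; exact ⟨c1, rfl, h⟩
  · right; left
    rw [hc] at h
    refine ⟨rfl, ?_⟩
    cases ho : okS L s (c / 4 % 64) (c / 256 % 64)
    · rw [ho, cond_false] at h; exact absurd h (by simp)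
    · rw [ho, cond_true] at h
      refine ⟨rfl, ?_⟩
      cases h1 : run L fuel (mkS L s (c / 4 % 64) (c / 256 % 64))
          ((S ^^^ (S &&& C)) &&& cutM L (c / 16384 % 2) (c / 32768 % 64)) (c / 2097152) with
      | none => rw [h1] at h; exact absurd h (by simp)
      | some c1 =>
        rw [h1] at h
        dsimp only at h
        cases h2 : run L fuel (mkS L s (c / 4 % 64) (c / 256 % 64))
            ((S ^^^ (S &&& C)) ^^^ ((S ^^^ (S &&& C)) &&&
              cutM L (c / 16384 % 2) (c / 32768 % 64))) c1 with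
        | none => rw [h2] at h; exact absurd h (by simp)
        | some c2 => rw [h2] at h; exact ⟨c1, c2, rfl, h2, h⟩
  · right; right; left
    rw [hc] at h
    refine ⟨rfl, ?_⟩
    cases h1 : run L fuel s (S &&& cutM L (c / 4 % 2) (c / 8 % 64)) (c / 512) with
    | none => rw [h1] at h; exact absurd h (by simp)
    | some c1 =>
      rw [h1] at h
      dsimp only at h
      cases h2 : run L fuel s (S ^^^ (S &&& cutM L (c / 4 % 2) (c / 8 % 64))) c1 with
      | none => rw [h2] at h; exact absurd h (by simp)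
      | some c2 => exact ⟨c1, c2, rfl, h2⟩
  · right; right; right
    have hk : k = 0 := by omega
    subst hk
    rw [hc] at h
    exact ⟨rfl, h⟩

theorem shM_congr {L L' : Lane} (hl : L.l = L'.l) (hr : L.rep = L'.rep) (ty pos S : ℕ) :
    shM L ty pos S = shM L' ty pos S := by
  unfold shM rowLt
  rw [hl, hr]

/-- soundness of the checker for two robots standing at a point of the left side -/
theorem top_sound (M : Mix L σ κ η a z U m l nc rep far) (hF : Flat I κ n) {st : ι → St}
    {j0 j1 : ℕ} (P : Pos st m l 0 0 j0 j1) {pb pt : Bool} {fuel : ℕ} {w : Fin 4 → ℝ}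
    (hw : Wt w) :
    ∀ (cs : List ℕ) (S C : ℕ), (∀ q, top (L q) (st q) pb pt fuel cs S C = true) →
      FC x (n + 1) (vt η l 0 0 j0 j1) (tt σ U z st) (reg η a l m nc C) →
      ∀ T : Finset I, T.card ≤ n + 1 → (∀ i ∈ T, x i ∈ reg η a l m nc S) →
        (far = false → ∃ i ∈ T, (x i).re = m * η) → (pt = false → ∃ i ∈ T, (x i).im = 1) →
        (pb = false → ∃ i ∈ T, (x i).im = 0) →
        Serve2 x T (∑ v, (w v : ℂ) * vt η l 0 0 j0 j1 v) (∑ v, w v * tt σ U z st v) := by
  classical
  obtain ⟨q0⟩ := exists_lane M.wt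
  have hl0 : (0 : ℝ) < l := by exact_mod_cast M.lpos
  intro cs
  induction cs with
  | nil => intro S C h; exact absurd (h q0) (by simp [top])
  | cons c cs ih =>
    intro S C h hC T hT hS hr ht hb
    have el : ∀ q, (L q).l = (L q0).l := fun q => by rw [M.hl, M.hl]
    have er : ∀ q, (L q).rep = (L q0).rep := fun q => by rw [M.hrep, M.hrep]
    rcases top_some (h q0) with ⟨k, _⟩ | ⟨k, _⟩ | ⟨k, _⟩ | ⟨k, k2⟩
    · -- a share of the second robot
      have key : ∀ q, ∃ c1, run (L q) fuel (st q) (shM (L q0) (c / 4 % 4) (c / 16 % 64) S)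
          (c / 1024) = some c1 ∧
          top (L q) (st q) pb pt fuel cs S (shM (L q0) (c / 4 % 4) (c / 16 % 64) S) = true := by
        intro q
        rcases top_some (h q) with ⟨_, c1, h1, h2⟩ | ⟨k', _⟩ | ⟨k', _⟩ | ⟨k', _⟩
        · rw [shM_congr (el q) (er q)] at h1 h2
          exact ⟨c1, h1, h2⟩
        · omega
        · omega
        · omega
      refine ih S _ (fun q => (key q).choose_spec.2) ?_ T hT hS hr ht hb
      exact run_sound M hF fuel st 0 0 j0 j1 _ _ P fun q => ⟨_, (key q).choose_spec.1⟩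
    · -- a cell
      have key : ∀ q, okS (L q) (st q) (c / 4 % 64) (c / 256 % 64) = true ∧ ∃ c1 c2,
          run (L q) fuel (mkS (L q) (st q) (c / 4 % 64) (c / 256 % 64))
            ((S ^^^ (S &&& C)) &&& cutM (L q0) (c / 16384 % 2) (c / 32768 % 64))
            (c / 2097152) = some c1 ∧
          run (L q) fuel (mkS (L q) (st q) (c / 4 % 64) (c / 256 % 64))
            ((S ^^^ (S &&& C)) ^^^ ((S ^^^ (S &&& C)) &&&
              cutM (L q0) (c / 16384 % 2) (c / 32768 % 64))) c1 = some c2 ∧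
          top (L q) (st q) pb pt fuel cs (clr (L q0) S (c / 4 % 64) (c / 256 % 64)) C = true := by
        intro q
        rcases top_some (h q) with ⟨k', _⟩ | ⟨_, h1, c1, c2, h2, h3, h4⟩ | ⟨k', _⟩ | ⟨k', _⟩
        · omega
        · rw [cutM_congr (el q) (er q)] at h2 h3
          rw [clr_congr (el q)] at h4
          exact ⟨h1, c1, c2, h2, h3, h4⟩
        · omega
        · omega
      choose hok d1 d2 hA hB hR using key
      have hd1 : ∀ q, d1 q = d1 q0 := fun q =>
        run_det (el q) (er q) _ _ _ _ _ _ _ (hA q) (hA q0)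
      have hcx : c / 4 % 64 < m := by have := (okS_sound (hok q0)).1; rwa [M.hm] at this
      have hcy : c / 256 % 64 < l := by have := (okS_sound (hok q0)).2.1; rwa [M.hl] at this
      have PQ : Pos (fun q => mkS (L q) (st q) (c / 4 % 64) (c / 256 % 64)) m l (c / 4 % 64)
          (c / 4 % 64 + 1) (c / 256 % 64) (c / 256 % 64 + 1) := mk_pos hcx hcy
      have fA := run_sound (x := x) M hF fuel _ _ _ _ _ _ _ PQ fun q => ⟨d1 q, hA q⟩
      have fB := run_sound (x := x) M hF fuel _ _ _ _ _ _ _ PQ fun q =>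
        ⟨d2 q, by have := hB q; rw [hd1 q] at this; exact this⟩
      by_cases hex : ∃ i ∈ T, x i ∈ cell η l m (c / 4 % 64) (c / 256 % 64)
      · obtain ⟨i, hi, hic⟩ := hex
        refine Serve2.of_filter (fun j => j = i ∨ x j ∉ reg η a l m nc C) ?_ ?_
        · refine two_of_FC (cell_hull M.etapos M.lpos hcx)
            (fun u v => mk_time M P hok u v) (tt_nonneg M _) fA fB _
            ((Finset.card_filter_le _ _).trans hT) i
            (Finset.mem_filter.2 ⟨hi, Or.inl rfl⟩) hic ?_ w hw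
          intro j hj hji
          have hj1 := Finset.mem_filter.1 hj
          have hj2 : x j ∉ reg η a l m nc C := by
            rcases hj1.2 with h1 | h1
            · exact absurd h1 hji
            · exact h1
          rcases reg_split η a l m nc S C (hS j hj1.1) with h1 | h1
          · exfalso
            apply hj2
            rw [Nat.and_comm] at h1
            exact reg_mono_and η a l m nc C S h1
          · exact reg_split η a l m nc _ _ h1
        · refine hC _ ((Finset.card_filter_le _ _).trans hT) (fun j hj => ?_) w hw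
          have hj1 := Finset.mem_filter.1 hj
          by_contra hne
          exact hj1.2 (Or.inr hne)
      · refine ih _ C (fun q => hR q) hC T hT (fun i hi => ?_) hr ht hb
        rcases reg_clr η a l m nc S _ _ hcy (hS i hi) with h1 | h1
        · exact absurd ⟨i, hi, h1⟩ hex
        · unfold clr
          rw [M.hl q0]
          exact h1
    · -- a plain cut
      have key : ∀ q, ∃ c1 c2,
          run (L q) fuel (st q) (S &&& cutM (L q0) (c / 4 % 2) (c / 8 % 64)) (c / 512) =
            some c1 ∧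
          run (L q) fuel (st q) (S ^^^ (S &&& cutM (L q0) (c / 4 % 2) (c / 8 % 64))) c1 =
            some c2 := by
        intro q
        rcases top_some (h q) with ⟨k', _⟩ | ⟨k', _⟩ | ⟨_, c1, c2, h1, h2⟩ | ⟨k', _⟩
        · omega
        · omega
        · rw [cutM_congr (el q) (er q)] at h1 h2
          exact ⟨c1, c2, h1, h2⟩
        · omega
      choose d1 d2 hA hB using key
      have hd1 : ∀ q, d1 q = d1 q0 := fun q =>
        run_det (el q) (er q) _ _ _ _ _ _ _ (hA q) (hA q0)
      have fA := run_sound (x := x) M hF fuel _ _ _ _ _ _ _ P fun q => ⟨d1 q, hA q⟩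
      have fB := run_sound (x := x) M hF fuel _ _ _ _ _ _ _ P fun q =>
        ⟨d2 q, by have := hB q; rw [hd1 q] at this; exact this⟩
      refine Serve2.of_filter (fun j => x j ∈ reg η a l m nc
        (S &&& cutM (L q0) (c / 4 % 2) (c / 8 % 64))) ?_ ?_
      · exact fA _ ((Finset.card_filter_le _ _).trans hT)
          (fun j hj => (Finset.mem_filter.1 hj).2) w hw
      · refine fB _ ((Finset.card_filter_le _ _).trans hT) (fun j hj => ?_) w hw
        have hj1 := Finset.mem_filter.1 hj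
        rcases reg_split η a l m nc S _ (hS j hj1.1) with h1 | h1
        · exact absurd h1 hj1.2
        · exact h1
    · -- the end
      simp only [Bool.or_eq_true, Bool.and_eq_true, Bool.not_eq_true'] at k2
      rcases k2 with ((k2 | ⟨k2, k3⟩) | ⟨k2, k3⟩) | ⟨k2, k3⟩
      · have hS0 := Nat.eq_of_beq_eq_true k2
        have hT0 : T = ∅ := by
          rcases T.eq_empty_or_nonempty with h1 | ⟨i, hi⟩
          · exact h1
          · have := hS i hi
            rw [hS0, reg_zero] at this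
            exact absurd this (by simp)
        rw [hT0]; exact Serve2.empty _ _
      · exfalso
        rw [M.hfar] at k2
        rw [M.hm, M.hl] at k3
        have k3 : S < 2 ^ ((m - 1) * l) := Nat.le_of_ble_eq_true k3
        obtain ⟨i, hi, hri⟩ := hr k2
        obtain ⟨_, c', r, hc', hr', hbit, hcell⟩ := hS i hi
        rw [M.nf k2] at hc'
        have e1 : c' < m - 1 := by
          by_contra hlt
          have e2 : (m - 1) * l ≤ c' * l := Nat.mul_le_mul_right _ (by omega)
          have e3 : S < 2 ^ (c' * l + r) :=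
            lt_of_lt_of_le k3 (Nat.pow_le_pow_right (by norm_num) (by omega))
          rw [Nat.testBit_lt_two_pow e3] at hbit
          exact Bool.false_ne_true hbit
        have e2 := hcell.2.1 hc'
        rw [hri] at e2
        have e3 : (m : ℝ) ≤ (c' : ℝ) + 1 := le_of_mul_le_mul_right e2 M.etapos
        have e4 : m ≤ c' + 1 := by exact_mod_cast e3
        omega
      · exfalso
        rw [M.hl] at k3
        have k3 := Nat.eq_of_beq_eq_true k3
        obtain ⟨i, hi, hri⟩ := ht k2
        obtain ⟨_, c', r, hc', hr', hbit, hcell⟩ := hS i hi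
        have e1 := row_bit (M.repok q0) (y := l - 1) (c := c') (r := r)
          (by rw [M.hl]; omega) (by rw [M.hm]; exact lt_of_lt_of_le hc' M.hnc)
          (by rw [M.hl]; exact hr')
        rw [M.hl] at e1
        have e2 : (S &&& rowLt (L q0) (l - 1)).testBit (c' * l + r) = true := by
          rw [k3]; exact hbit
        rw [Nat.testBit_and, e1, hbit, Bool.true_and, decide_eq_true_eq] at e2
        have e3 := hcell.2.2.2
        rw [hri, le_div_iff₀ hl0, one_mul] at e3
        have e4 : l ≤ r + 1 := by exact_mod_cast e3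
        omega
      · exfalso
        have k3 := Nat.eq_of_beq_eq_true k3
        obtain ⟨i, hi, hri⟩ := hb k2
        obtain ⟨_, c', r, hc', hr', hbit, hcell⟩ := hS i hi
        have hr0 : r = 0 := by
          have e3 := hcell.2.2.1
          rw [hri, div_le_iff₀ hl0, zero_mul] at e3
          have e4 : r ≤ 0 := by exact_mod_cast e3
          omega
        have e1 := row_bit (M.repok q0) (y := 1) (c := c') (r := r)
          (by rw [M.hl]; exact M.lpos) (by rw [M.hm]; exact lt_of_lt_of_le hc' M.hnc)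
          (by rw [M.hl]; exact hr')
        rw [M.hl] at e1
        have e2 : (S &&& rowLt (L q0) 1).testBit (c' * l + r) = true := by
          rw [Nat.testBit_and, e1, hbit, hr0]; rfl
        rw [k3, Nat.zero_testBit] at e2
        exact Bool.false_ne_true e2

theorem exists_k {d y : ℝ} (hd : 0 < d) (h0 : 0 ≤ y) :
    ∀ N : ℕ, 0 < N → y ≤ N * d → ∃ k, k < N ∧ (k : ℝ) * d ≤ y ∧ y ≤ ((k : ℝ) + 1) * d := by
  intro N
  induction N with
  | zero => intro h; exact absurd h (lt_irrefl _)
  | succ N ih =>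
    intro _ hy
    rcases Nat.eq_zero_or_pos N with hN | hN
    · subst hN
      refine ⟨0, by norm_num, by simpa using h0, ?_⟩
      push_cast at hy ⊢
      linarith
    · rcases le_total y (N * d) with h | h
      · obtain ⟨k, hk, h1, h2⟩ := ih hN h
        exact ⟨k, hk.trans (Nat.lt_succ_self N), h1, h2⟩
      · exact ⟨N, Nat.lt_succ_self N, h, by push_cast at hy; exact hy⟩

/-- the full mask covers the rectangle -/
theorem reg_full (hη : 0 < η) (hl : 0 < l) (hm : 0 < m)
    (hnc : nc = m + 1 ∨ (nc = m ∧ a = m * η)) {w : ℂ} (h1 : 0 ≤ w.re) (h2 : w.re ≤ a)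
    (h3 : 0 ≤ w.im) (h4 : w.im ≤ 1) : w ∈ reg η a l m nc (2 ^ (nc * l) - 1) := by
  have hl0 : (0 : ℝ) < l := by exact_mod_cast hl
  obtain ⟨r, hr, r1, r2⟩ := exists_k (d := 1 / (l : ℝ)) (by positivity) h3 l hl
    (by rw [mul_one_div_cancel hl0.ne']; exact h4)
  have r1' : (r : ℝ) / l ≤ w.im := by rw [mul_one_div] at r1; exact r1
  have r2' : w.im ≤ ((r : ℝ) + 1) / l := by rw [mul_one_div] at r2; exact r2
  have hcol : ∃ c, c < nc ∧ (c : ℝ) * η ≤ w.re ∧ (c < m → w.re ≤ ((c : ℝ) + 1) * η) := by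
    rcases le_total w.re (m * η) with h | h
    · obtain ⟨c, hc, c1, c2⟩ := exists_k hη h1 m hm h
      exact ⟨c, by rcases hnc with h5 | ⟨h5, _⟩ <;> omega, c1, fun _ => c2⟩
    · rcases hnc with h5 | ⟨h5, h6⟩
      · exact ⟨m, by omega, h, fun h7 => absurd h7 (lt_irrefl m)⟩
      · obtain ⟨c, hc, c1, c2⟩ := exists_k hη h1 m hm (by rw [← h6]; exact h2)
        exact ⟨c, by omega, c1, fun _ => c2⟩
  obtain ⟨c, hc, c1, c2⟩ := hcol
  refine ⟨h2, c, r, hc, hr, ?_, c1, c2, r1', r2'⟩
  rw [Nat.testBit_two_pow_sub_one, decide_eq_true_eq]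
  have : (c + 1) * l ≤ nc * l := Nat.mul_le_mul_right _ hc
  have e : (c + 1) * l = c * l + l := by ring
  omega

end FK

end FreezeTag

end

section

/-!
# Freeze-Tag, part B2: soundness of the certificate check
-/

namespace FreezeTag

theorem allTo_sound {f : ℕ → Bool} {n : ℕ} (h : allTo f n = true) : ∀ i, i < n → f i = true := by
  induction n with
  | zero => intro i hi; exact absurd hi (Nat.not_lt_zero i)
  | succ n ih =>
    unfold allTo at h
    rw [Bool.and_eq_true] at h
    intro i hi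
    rcases Nat.lt_succ_iff_lt_or_eq.1 hi with h' | h'
    · exact ih h.2 i h'
    · rw [h']; exact h.1

/-- distance bound in real units -/
noncomputable def cR (c N m : ℕ) : ℝ := (Cf c N m : ℝ) / 10000

/-- values in real units -/
noncomputable def vR (T k : ℕ) : ℝ := (Vf T k : ℝ) / 10000

theorem v1B_sound {c N T lo k v : ℕ} (h : v1B c N T lo k v = true) :
    ∀ a, lo ≤ a → a < k → cR c N (a + 1) + vR T (k - a) ≤ (v : ℝ) / 10000 := by
  intro a ha1 ha2
  have h1 := allTo_sound h (a - lo) (by omega)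
  have h2 := Nat.le_of_ble_eq_true h1
  have e : lo + (a - lo) = a := by omega
  rw [e] at h2
  have h3 : ((Cf c N (a + 1) + Vf T (k - a) : ℕ) : ℝ) ≤ (v : ℝ) := by exact_mod_cast h2
  push_cast at h3
  unfold cR vR
  rw [← add_div]
  exact div_le_div_of_nonneg_right h3 (by norm_num)

/-- the rational constants of a mesh: `δ ≤ st / (10000 sc)`, `1.6181 (1 - r) ≤ bs / (10000 sc)` -/
theorem condB_sound {c N st bs sc T P j k : ℕ} {r δ : ℝ} (hsc : 0 < sc)
    (hst : δ * (10000 * sc) ≤ st) (hbs : 16181 / 10000 * (1 - r) * (10000 * sc) ≤ bs)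
    (h : condB c N st bs sc T P j k = true) :
    Cond r δ (cR c N) (vR T) j k := by
  have hV0 : 0 ≤ vR T k := by unfold vR; positivity
  refine ⟨hV0, ?_⟩
  unfold condB at h
  rw [Bool.or_eq_true, Bool.or_eq_true] at h
  rcases h with (h | h) | h
  · left
    rw [Bool.and_eq_true] at h
    exact ⟨Nat.le_of_ble_eq_true h.1, Nat.le_of_ble_eq_true h.2⟩
  · right; left
    have h1 := Nat.le_of_ble_eq_true h
    have h2 : ((k * st + bs : ℕ) : ℝ) ≤ ((Vf T k * sc : ℕ) : ℝ) := by exact_mod_cast h1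
    push_cast at h2
    have hsc' : (0 : ℝ) < sc := by exact_mod_cast hsc
    have h3 : (k : ℝ) * (δ * (10000 * sc)) ≤ k * st :=
      mul_le_mul_of_nonneg_left hst (Nat.cast_nonneg k)
    unfold vR
    rw [le_div_iff₀ (by norm_num : (0:ℝ) < 10000)]
    have h4 : (((k : ℝ) * δ + 16181 / 10000 * (1 - r)) * 10000) * sc ≤ (Vf T k : ℝ) * sc := by
      calc _ = (k : ℝ) * (δ * (10000 * sc)) + 16181 / 10000 * (1 - r) * (10000 * sc) := by ring
        _ ≤ _ := by linarith
    exact le_of_mul_le_mul_right h4 hsc'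
  · right; right
    simp only [Bool.and_eq_true] at h
    obtain ⟨⟨⟨h1, h2⟩, h3⟩, h4⟩ := h
    refine ⟨Vf P k, Nat.le_of_ble_eq_true h1, ?_, v1B_sound h3, v1B_sound h4⟩
    have := Nat.le_of_ble_eq_true h2
    omega

theorem binB_sound {c N K st bs sc T P j k m : ℕ} {r δ : ℝ} (hsc : 0 < sc)
    (hst : δ * (10000 * sc) ≤ st) (hbs : 16181 / 10000 * (1 - r) * (10000 * sc) ≤ bs)
    (h : binB c N K st bs sc T P j k m = true) :
    (∀ k, 1 ≤ k → k ≤ K → Cond r δ (cR c N) (vR T) j k) ∧
      Final δ (2 * Real.sqrt 2) (cR c N) (vR T) N K j := by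
  unfold binB at h
  rw [Bool.and_eq_true] at h
  obtain ⟨h1, h2⟩ := h
  have hsc' : (0 : ℝ) < sc := by exact_mod_cast hsc
  constructor
  · intro k hk1 hk2
    have h3 := allTo_sound h1 (k - 1) (by omega)
    have e : k - 1 + 1 = k := by omega
    rw [e] at h3
    exact condB_sound hsc hst hbs h3
  · simp only [Bool.and_eq_true] at h2
    obtain ⟨⟨⟨⟨⟨⟨a1, a2⟩, a3⟩, a4⟩, a5⟩, a6⟩, a7⟩ := h2
    have hsq : (28284 : ℝ) / 10000 ≤ 2 * Real.sqrt 2 := by
      have : (14142 : ℝ) / 10000 ≤ Real.sqrt 2 := by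
        apply Real.le_sqrt_of_sq_le
        norm_num
      linarith
    refine ⟨k, m, Nat.le_of_ble_eq_true a1, Nat.le_of_ble_eq_true a2, Nat.le_of_ble_eq_true a3,
      Nat.le_of_ble_eq_true a4, Nat.eq_of_beq_eq_true a5, ?_, ?_⟩
    · have b1 := Nat.le_of_ble_eq_true a6
      have b2 : (((j + 1) * st + Vf T k * sc : ℕ) : ℝ) ≤ ((28284 * sc : ℕ) : ℝ) := by
        exact_mod_cast b1
      push_cast at b2
      have b3 : ((j : ℝ) + 1) * (δ * (10000 * sc)) ≤ ((j : ℝ) + 1) * st :=
        mul_le_mul_of_nonneg_left hst (by positivity)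
      refine le_trans ?_ hsq
      unfold vR
      rw [le_div_iff₀ (by norm_num : (0:ℝ) < 10000)]
      have h4 : (((((j + 1 : ℕ) : ℝ)) * δ + (Vf T k : ℝ) / 10000) * 10000) * sc
          ≤ (28284 : ℝ) * sc := by
        push_cast
        calc _ = ((j : ℝ) + 1) * (δ * (10000 * sc)) + (Vf T k : ℝ) * sc := by ring
          _ ≤ _ := by linarith
      exact le_of_mul_le_mul_right h4 hsc'
    · intro a ha1 ha2
      exact le_trans (v1B_sound a7 a ha1 ha2) (by push_cast; exact hsq)

/-- mesh of one degree, `r = 89/100` -/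
theorem bin180 {T P j k m : ℕ} (h : binB ctab180 180 220 174533 1779910 1000 T P j k m = true) :
    (∀ k, 1 ≤ k → k ≤ 220 → Cond (89 / 100) (Real.pi / 180) (cR ctab180 180) (vR T) j k) ∧
      Final (Real.pi / 180) (2 * Real.sqrt 2) (cR ctab180 180) (vR T) 180 220 j := by
  refine binB_sound (by norm_num) ?_ ?_ h
  · have := Real.pi_lt_d6
    push_cast
    linarith
  · norm_num

/-- mesh of half a degree, `r = 89/100` -/
theorem bin360 {T P j k m : ℕ} (h : binB ctab360 360 440 872665 17799100 10000 T P j k m = true) :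
    (∀ k, 1 ≤ k → k ≤ 440 → Cond (89 / 100) (Real.pi / 360) (cR ctab360 360) (vR T) j k) ∧
      Final (Real.pi / 360) (2 * Real.sqrt 2) (cR ctab360 360) (vR T) 360 440 j := by
  refine binB_sound (by norm_num) ?_ ?_ h
  · have := Real.pi_lt_d6
    push_cast
    linarith
  · norm_num

end FreezeTag

end

section

/-!
# Freeze-Tag, flat leaf lemma: from certificates to the flat lemma
-/

namespace FreezeTag

namespace FK

section cases

variable {ι : Type} [Fintype ι] {L : ι → Lane} {σ : ι → ℝ} {κ η a z U : ℝ}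
  {m l nc rep : ℕ} {far : Bool}

variable {I : Type*} [DecidableEq I] {x : I → ℂ} {n : ℕ}

/-- a certificate settles one range of heights `t` -/
theorem case_sound (M : Mix L σ κ η a z U m l nc rep far) (hF : Flat I κ n) (hm : 0 < m)
    (hnc : nc = m + 1 ∨ (nc = m ∧ a = m * η)) {j0 j1 : ℕ} (hj : j0 < j1) (hjl : j1 ≤ l)
    (T0 : ι → ℕ) (hval : z + ev σ U (fun q => (T0 q : ℝ)) ≤ a + κ) {pb pt : Bool} {fuel : ℕ}
    {cs : List ℕ}
    (h : ∀ q, top (L q) ⟨0, 0, j0, j1, T0 q, T0 q, T0 q, T0 q⟩ pb pt fuel cs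
      (2 ^ (nc * l) - 1) 0 = true) {T : Finset I} (hT : T.card ≤ n + 1)
    (hbox : ∀ i ∈ T, 0 ≤ (x i).re ∧ (x i).re ≤ a ∧ 0 ≤ (x i).im ∧ (x i).im ≤ 1) {t : ℝ}
    (ht0 : (j0 : ℝ) / l ≤ t) (ht1 : t ≤ (j1 : ℝ) / l)
    (hr : far = false → ∃ i ∈ T, (x i).re = m * η) (ht : pt = false → ∃ i ∈ T, (x i).im = 1)
    (hb : pb = false → ∃ i ∈ T, (x i).im = 0) : Serve2 x T ⟨0, t⟩ (a + κ) := by
  have hl0 : (0 : ℝ) < l := by exact_mod_cast M.lpos
  have hj' : (0 : ℝ) < (j1 : ℝ) - j0 := by
    have : (j0 : ℝ) < j1 := by exact_mod_cast hj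
    linarith
  set st : ι → St := fun q => ⟨0, 0, j0, j1, T0 q, T0 q, T0 q, T0 q⟩ with hst
  have P : Pos st m l 0 0 j0 j1 :=
    ⟨fun _ => rfl, fun _ => rfl, fun _ => rfl, fun _ => rfl, Nat.zero_le _, Nat.zero_le _,
      (hj.le).trans hjl, hjl⟩
  set β := (t * l - j0) / ((j1 : ℝ) - j0) with hβ
  have b0 : 0 ≤ β := by
    rw [hβ]
    refine div_nonneg ?_ hj'.le
    rw [div_le_iff₀ hl0] at ht0
    linarith
  have b1 : β ≤ 1 := by
    rw [hβ, div_le_one hj']
    rw [le_div_iff₀ hl0] at ht1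
    linarith
  have hw : Wt ![1 - β, 0, β, 0] := by
    refine ⟨?_, ?_⟩
    · intro b
      fin_cases b
      · show (0 : ℝ) ≤ 1 - β
        linarith
      · exact le_refl (0 : ℝ)
      · exact b0
      · exact le_refl (0 : ℝ)
    · rw [Fin.sum_univ_four]; simp
  have key := top_sound (x := x) M hF P hw cs _ 0 h (by rw [reg_zero]; exact FC.empty) T hT
    (fun i hi => reg_full M.etapos M.lpos hm hnc (hbox i hi).1 (hbox i hi).2.1
      (hbox i hi).2.2.1 (hbox i hi).2.2.2) hr ht hb
  have e1 : (∑ v, ((![1 - β, 0, β, 0] : Fin 4 → ℝ) v : ℂ) * vt η l 0 0 j0 j1 v) = ⟨0, t⟩ := by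
    rw [Fin.sum_univ_four]
    apply Complex.ext
    · simp [vt, gp]
    · simp [vt, gp]
      have e : β * ((j1 : ℝ) - j0) = t * l - j0 := by
        rw [hβ, div_mul_cancel₀ _ hj'.ne']
      field_simp
      linarith
  have e2 : (∑ v, (![1 - β, 0, β, 0] : Fin 4 → ℝ) v * tt σ U z st v) =
      z + ev σ U (fun q => (T0 q : ℝ)) := by
    rw [Fin.sum_univ_four]
    simp [tt, tv, hst]
    ring
  rw [e1, e2] at key
  exact key.mono hval

/-- one lane, all `a ≥ A0 / U` -/
theorem far_case (L : Lane) {κ U : ℝ} (hF : Flat I κ n) (hκ : 0 ≤ κ) (hfar : L.far = true)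
    (hl : 0 < L.l) (hm : 0 < L.m) (hh : 0 < L.h) (hU : 0 < U) (hk : (L.k : ℝ) * L.l = U)
    (hhK : κ * L.h ≤ L.hK) (hkK : κ * L.k ≤ L.kK) (htab : tabOK L = true)
    (hrep : repOK L = true) {T0 : ℕ} (hT0 : (T0 : ℝ) ≤ L.A0 + κ * U) {a : ℝ}
    (ha : (L.A0 : ℝ) / U ≤ a) {j0 j1 : ℕ} (hj : j0 < j1) (hjl : j1 ≤ L.l) {pb pt : Bool}
    {fuel : ℕ} {cs : List ℕ}
    (h : top L ⟨0, 0, j0, j1, T0, T0, T0, T0⟩ pb pt fuel cs (2 ^ ((L.m + 1) * L.l) - 1) 0 = true)
    {T : Finset I} (hT : T.card ≤ n + 1)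
    (hbox : ∀ i ∈ T, 0 ≤ (x i).re ∧ (x i).re ≤ a ∧ 0 ≤ (x i).im ∧ (x i).im ≤ 1) {t : ℝ}
    (ht0 : (j0 : ℝ) / L.l ≤ t) (ht1 : t ≤ (j1 : ℝ) / L.l)
    (ht : pt = false → ∃ i ∈ T, (x i).im = 1)
    (hb : pb = false → ∃ i ∈ T, (x i).im = 0) : Serve2 x T ⟨0, t⟩ (a + κ) := by
  have hh' : (0 : ℝ) < L.h := by exact_mod_cast hh
  have M : Mix (ι := Unit) (fun _ => L) (fun _ => 1) κ ((L.h : ℝ) / U) a (a - (L.A0 : ℝ) / U) U
      L.m L.l (L.m + 1) L.rep true :=
    { wt := ⟨fun _ => by norm_num, by simp⟩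
      hm := fun _ => rfl
      hl := fun _ => rfl
      hfar := fun _ => hfar
      hrep := fun _ => rfl
      lpos := hl
      Upos := hU
      hk := fun _ => hk
      heta := by simp [hU.ne']
      etapos := div_pos hh' hU
      hκ := hκ
      hhK := fun _ => hhK
      hkK := fun _ => hkK
      tab := fun _ => htab
      repok := fun _ => hrep
      zpos := by linarith
      hnc := le_refl _
      nf := fun h => absurd h (by simp)
      fa := fun _ => by simp; field_simp; ring }
  refine case_sound M hF hm (Or.inl rfl) hj hjl (fun _ => T0) ?_ (fun _ => h) hT hbox ht0 ht1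
    (fun h => absurd h (by simp)) ht hb
  unfold ev
  simp
  rw [← le_sub_iff_add_le', div_le_iff₀ hU]
  have e : (a + κ - (a - (L.A0 : ℝ) / U)) * U = L.A0 + κ * U := by
    field_simp; ring
  rw [e]; exact hT0

/-- two lanes, `a` between `m h1 / U` and `m h2 / U` -/
theorem two_case (L1 L2 : Lane) {κ U : ℝ} (hF : Flat I κ n) (hκ : 0 ≤ κ)
    (hfar1 : L1.far = false) (hfar2 : L2.far = false) (hle : L2.l = L1.l) (hme : L2.m = L1.m)
    (hre : L2.rep = L1.rep)
    (hl : 0 < L1.l) (hm : 0 < L1.m) (hh : 0 < L1.h) (hhh : L1.h < L2.h) (hU : 0 < U)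
    (hk1 : (L1.k : ℝ) * L1.l = U) (hk2 : (L2.k : ℝ) * L1.l = U)
    (hhK1 : κ * L1.h ≤ L1.hK) (hkK1 : κ * L1.k ≤ L1.kK) (hhK2 : κ * L2.h ≤ L2.hK)
    (hkK2 : κ * L2.k ≤ L2.kK) (htab1 : tabOK L1 = true) (htab2 : tabOK L2 = true)
    (hrep1 : repOK L1 = true) (hrep2 : repOK L2 = true) {T1 T2 : ℕ}
    (hT1 : (T1 : ℝ) ≤ L1.m * L1.h + κ * U) (hT2 : (T2 : ℝ) ≤ L1.m * L2.h + κ * U) {a : ℝ}
    (ha1 : (L1.m * L1.h : ℝ) / U ≤ a) (ha2 : a ≤ (L1.m * L2.h : ℝ) / U)
    {j0 j1 : ℕ} (hj : j0 < j1) (hjl : j1 ≤ L1.l) {pb pt : Bool}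
    {fuel : ℕ} {cs : List ℕ}
    (h1 : top L1 ⟨0, 0, j0, j1, T1, T1, T1, T1⟩ pb pt fuel cs (2 ^ (L1.m * L1.l) - 1) 0 = true)
    (h2 : top L2 ⟨0, 0, j0, j1, T2, T2, T2, T2⟩ pb pt fuel cs (2 ^ (L1.m * L1.l) - 1) 0 = true)
    {T : Finset I} (hT : T.card ≤ n + 1)
    (hbox : ∀ i ∈ T, 0 ≤ (x i).re ∧ (x i).re ≤ a ∧ 0 ≤ (x i).im ∧ (x i).im ≤ 1) {t : ℝ}
    (ht0 : (j0 : ℝ) / L1.l ≤ t) (ht1 : t ≤ (j1 : ℝ) / L1.l)
    (hr : ∃ i ∈ T, (x i).re = a)
    (ht : pt = false → ∃ i ∈ T, (x i).im = 1)
    (hb : pb = false → ∃ i ∈ T, (x i).im = 0) : Serve2 x T ⟨0, t⟩ (a + κ) := by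
  have hm' : (0 : ℝ) < L1.m := by exact_mod_cast hm
  have hh' : (0 : ℝ) < L1.h := by exact_mod_cast hh
  have hhh' : (0 : ℝ) < (L2.h : ℝ) - L1.h := by
    have : (L1.h : ℝ) < L2.h := by exact_mod_cast hhh
    linarith
  rw [div_le_iff₀ hU] at ha1
  rw [le_div_iff₀ hU] at ha2
  set s := (a * U / L1.m - L1.h) / ((L2.h : ℝ) - L1.h) with hs
  have s0 : 0 ≤ s := by
    rw [hs]
    refine div_nonneg ?_ hhh'.le
    rw [sub_nonneg, le_div_iff₀ hm']; linarith
  have s1 : s ≤ 1 := by
    rw [hs, div_le_one hhh', sub_le_sub_iff_right, div_le_iff₀ hm']; linarith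
  have es : (1 - s) * L1.h + s * L2.h = a * U / L1.m := by
    have : s * ((L2.h : ℝ) - L1.h) = a * U / L1.m - L1.h := by
      rw [hs, div_mul_cancel₀ _ hhh'.ne']
    linarith
  have ha0 : 0 < a := by
    have : 0 < a * U := lt_of_lt_of_le (mul_pos hm' hh') ha1
    exact (pos_iff_pos_of_mul_pos this).2 hU
  have M : Mix (ι := Bool) (fun b => bif b then L2 else L1) (fun b => bif b then s else 1 - s)
      κ (a / L1.m) a 0 U L1.m L1.l L1.m L1.rep false :=
    { wt := ⟨fun b => by cases b <;> simp <;> linarith, by simp⟩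
      hm := fun b => by cases b <;> simp [hme]
      hl := fun b => by cases b <;> simp [hle]
      hfar := fun b => by cases b <;> simp [hfar1, hfar2]
      hrep := fun b => by cases b <;> simp [hre]
      lpos := hl
      Upos := hU
      hk := fun b => by cases b <;> simp [hk1, hk2]
      heta := by simp; rw [div_mul_eq_mul_div, ← es]; ring
      etapos := div_pos ha0 hm'
      hκ := hκ
      hhK := fun b => by cases b <;> simpa
      hkK := fun b => by cases b <;> simpa
      tab := fun b => by cases b <;> simpa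
      repok := fun b => by cases b <;> simpa
      zpos := le_refl _
      hnc := Nat.le_succ _
      nf := fun _ => rfl
      fa := fun h => absurd h (by simp) }
  have ema : (L1.m : ℝ) * (a / L1.m) = a := by field_simp
  refine case_sound M hF hm (Or.inr ⟨rfl, ema.symm⟩) hj hjl (fun b => bif b then T2 else T1) ?_
    (fun b => by cases b <;> simpa) hT hbox ht0 ht1 (fun _ => by rw [ema]; exact hr) ht hb
  unfold ev
  rw [zero_add, div_le_iff₀ hU]
  simp
  have e1 : s * (T2 : ℝ) ≤ s * (L1.m * L2.h + κ * U) := mul_le_mul_of_nonneg_left hT2 s0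
  have e2 : (1 - s) * (T1 : ℝ) ≤ (1 - s) * (L1.m * L1.h + κ * U) :=
    mul_le_mul_of_nonneg_left hT1 (by linarith)
  have e3 : s * (L1.m * L2.h + κ * U) + (1 - s) * (L1.m * L1.h + κ * U) = (a + κ) * U := by
    have e4 : s * (L1.m * L2.h + κ * U) + (1 - s) * (L1.m * L1.h + κ * U) =
        L1.m * ((1 - s) * L1.h + s * L2.h) + κ * U := by ring
    rw [e4, es]; field_simp
  linarith

/-- thin rectangles -/
theorem small_case {κ : ℝ} (hF : Flat I κ n) (hκ : 0 ≤ κ) {a t : ℝ} (ha : κ * a ≤ κ - 1)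
    {T : Finset I} (hT : T.card ≤ n + 1)
    (hbox : ∀ i ∈ T, 0 ≤ (x i).re ∧ (x i).re ≤ a ∧ 0 ≤ (x i).im ∧ (x i).im ≤ 1)
    (ht0 : 0 ≤ t) (ht1 : t ≤ 1) : Serve2 x T ⟨0, t⟩ (a + κ) := by
  have hd : ∀ i ∈ T, dist (⟨0, t⟩ : ℂ) (x i) ≤ a + |t - (x i).im| := by
    intro i hi
    rw [dist_eq_norm]
    refine (Complex.norm_le_abs_re_add_abs_im _).trans ?_
    have e1 : ((⟨0, t⟩ : ℂ) - x i).re = -(x i).re := by simp
    have e2 : ((⟨0, t⟩ : ℂ) - x i).im = t - (x i).im := by simp
    rw [e1, e2, abs_neg, abs_of_nonneg (hbox i hi).1]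
    linarith [(hbox i hi).2.1]
  classical
  refine Serve2.of_filter (fun i => t ≤ (x i).im) ?_ ?_
  · refine leafA hF hκ x (fun i => (x i).im) (fun i => (x i).re) _
      ((Finset.card_filter_le _ _).trans hT) _ 1 0 a _ (fun i _ j _ => ?_) (fun i hi => ?_)
      (fun i hi => ?_) (fun i hi => ?_) (fun i hi => ?_)
    · rw [Complex.dist_eq_re_im, Complex.dist_eq_re_im]
      apply le_of_eq; congr 1; simp; ring
    · exact (hbox i (Finset.mem_of_mem_filter i hi)).2.2.2
    · exact (hbox i (Finset.mem_of_mem_filter i hi)).1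
    · exact (hbox i (Finset.mem_of_mem_filter i hi)).2.1
    · have h1 := Finset.mem_filter.1 hi
      have h2 := hd i h1.1
      rw [abs_of_nonpos (by linarith [h1.2])] at h2
      linarith
  · refine leafA hF hκ x (fun i => -(x i).im) (fun i => (x i).re) _
      ((Finset.card_filter_le _ _).trans hT) _ 0 0 a _ (fun i _ j _ => ?_) (fun i hi => ?_)
      (fun i hi => ?_) (fun i hi => ?_) (fun i hi => ?_)
    · rw [Complex.dist_eq_re_im, Complex.dist_eq_re_im]
      apply le_of_eq; congr 1; simp; ring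
    · have := (hbox i (Finset.mem_of_mem_filter i hi)).2.2.1
      linarith
    · exact (hbox i (Finset.mem_of_mem_filter i hi)).1
    · exact (hbox i (Finset.mem_of_mem_filter i hi)).2.1
    · have h1 := Finset.mem_filter.1 hi
      have h2 := hd i h1.1
      have h3 := h1.2
      rw [abs_of_nonneg (by linarith)] at h2
      linarith

end cases

section assembly

variable {I : Type*} [DecidableEq I]

theorem Serve2.scale {x : I → ℂ} {S : Finset I} {p : ℂ} {t : ℝ} (h : Serve2 x S p t) (c : ℝ)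
    (hc : 0 ≤ c) : Serve2 (fun i => (c : ℂ) * x i) S ((c : ℂ) * p) (c * t) := by
  obtain ⟨A, B, hd, hu, hA, hB⟩ := h
  exact ⟨A, B, hd, hu, hA.scale c hc, hB.scale c hc⟩

theorem scale_back {b' : ℝ} (hb : 0 < b') (x : I → ℂ) (S : Finset I) (B : I → ℝ) (t τ : ℝ)
    (hB : ∀ i ∈ S, ∀ j ∈ S, (B i - B j) ^ 2 = ((x i).im - (x j).im) ^ 2)
    (hτ : ∀ i ∈ S, (τ - B i) ^ 2 = (t - (x i).im) ^ 2) {c : ℝ}
    (h : Serve2 (fun i => (⟨(x i).re / b', B i / b'⟩ : ℂ)) S ⟨0, τ / b'⟩ c) :
    Serve2 x S ⟨0, t⟩ (b' * c) := by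
  have e : ∀ u v : ℝ, (b' : ℂ) * (⟨u / b', v / b'⟩ : ℂ) = ⟨u, v⟩ := by
    intro u v
    apply Complex.ext
    · simp; field_simp
    · simp; field_simp
  have h1 := Serve2.scale h b' hb.le
  have e0 : (b' : ℂ) * (⟨0, τ / b'⟩ : ℂ) = ⟨0, τ⟩ := by
    have := e 0 τ
    rwa [zero_div] at this
  rw [e0] at h1
  simp only [e] at h1
  refine h1.contract ?_ ?_
  · intro i hi j hj
    rw [Complex.dist_eq_re_im, Complex.dist_eq_re_im]
    apply le_of_eq
    congr 1
    show _ = ((x i).re - (x j).re) ^ 2 + (B i - B j) ^ 2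
    rw [hB i hi j hj]
  · intro i hi
    rw [Complex.dist_eq_re_im, Complex.dist_eq_re_im]
    apply le_of_eq
    congr 1
    show _ = (0 - (x i).re) ^ 2 + (τ - B i) ^ 2
    rw [hτ i hi]

/-- the flat lemma for a tight rectangle of height one -/
def Tight (I : Type*) [DecidableEq I] (κ : ℝ) (n : ℕ) : Prop :=
  ∀ (x : I → ℂ) (T : Finset I), T.card ≤ n → ∀ a t : ℝ, 0 ≤ t → t ≤ 1 / 2 →
    (∀ i ∈ T, 0 ≤ (x i).re ∧ (x i).re ≤ a ∧ 0 ≤ (x i).im ∧ (x i).im ≤ 1) →
    (∃ i ∈ T, (x i).re = a) → (∃ i ∈ T, (x i).im = 1) → (0 < t → ∃ i ∈ T, (x i).im = 0) →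
    Serve2 x T ⟨0, t⟩ (a + κ)

theorem flat_step {κ : ℝ} {n : ℕ} (hκ : 0 ≤ κ) (hF : Flat I κ n) (hT : Tight I κ (n + 1)) :
    Flat I κ (n + 1) := by
  intro x S hc a b t ht0 htb hbox
  rcases S.eq_empty_or_nonempty with rfl | hne
  · exact Serve2.empty _ _
  obtain ⟨iR, hiR, hR⟩ := S.exists_max_image (fun i => (x i).re) hne
  obtain ⟨iT, hiT, hTop⟩ := S.exists_max_image (fun i => (x i).im) hne
  obtain ⟨iB, hiB, hBot⟩ := S.exists_min_image (fun i => (x i).im) hne
  have hRa := (hbox iR hiR).2.1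
  have hR0 := (hbox iR hiR).1
  set y1 := max t (x iT).im with hy1
  set y0 := min t (x iB).im with hy0
  have y0t : y0 ≤ t := min_le_left _ _
  have ty1 : t ≤ y1 := le_max_left _ _
  have y0i : ∀ i ∈ S, y0 ≤ (x i).im := fun i hi => (min_le_right _ _).trans (hBot i hi)
  have y1i : ∀ i ∈ S, (x i).im ≤ y1 := fun i hi => (hTop i hi).trans (le_max_right _ _)
  have y1b : y1 ≤ b := max_le htb (hbox iT hiT).2.2.2
  have y00 : 0 ≤ y0 := le_min ht0 (hbox iB hiB).2.2.1
  rcases eq_or_lt_of_le (y0t.trans ty1) with hb | hb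
  · -- all robots on a horizontal segment
    have him : ∀ i ∈ S, (x i).im = t := fun i hi =>
      le_antisymm (by linarith [y1i i hi]) (by linarith [y0i i hi])
    have key : Serve x S ⟨0, t⟩ (x iR).re := by
      refine leafA hF hκ x (fun i => (x i).re) (fun i => (x i).im) S hc _ (x iR).re t t _
        (fun i _ j _ => le_rfl) hR (fun i hi => (him i hi).ge) (fun i hi => (him i hi).le) ?_
      intro i hi
      have e : dist (⟨0, t⟩ : ℂ) (x i) = (x i).re := by
        have h1 := dist_hor (y := t) (hbox i hi).1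
        have h2 : x i = ⟨(x i).re, t⟩ := Complex.ext rfl (him i hi)
        rw [h2]
        rw [h1]; simp
      rw [e]; linarith
    refine key.two.mono ?_
    have : 0 ≤ κ * b := mul_nonneg hκ (ht0.trans htb)
    linarith
  · have hb' : 0 < y1 - y0 := sub_pos.2 hb
    have hfin : (y1 - y0) * ((x iR).re / (y1 - y0) + κ) ≤ a + κ * b := by
      have e : (y1 - y0) * ((x iR).re / (y1 - y0) + κ) = (x iR).re + κ * (y1 - y0) := by
        field_simp
      rw [e]
      have : κ * (y1 - y0) ≤ κ * b := mul_le_mul_of_nonneg_left (by linarith) hκ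
      linarith
    rcases le_total (t - y0) ((y1 - y0) / 2) with hlow | hhigh
    · refine (scale_back hb' x S (fun i => (x i).im - y0) t (t - y0) (fun i _ j _ => by ring)
        (fun i _ => by ring) (hT _ S hc ((x iR).re / (y1 - y0)) ((t - y0) / (y1 - y0)) ?_ ?_ ?_
          ?_ ?_ ?_)).mono hfin
      · exact div_nonneg (by linarith) hb'.le
      · rw [div_le_iff₀ hb']; linarith
      · intro i hi
        refine ⟨div_nonneg (hbox i hi).1 hb'.le, div_le_div_of_nonneg_right (hR i hi) hb'.le,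
          div_nonneg (by linarith [y0i i hi]) hb'.le, ?_⟩
        show ((x i).im - y0) / (y1 - y0) ≤ 1
        rw [div_le_one hb']; linarith [y1i i hi]
      · exact ⟨iR, hiR, rfl⟩
      · refine ⟨iT, hiT, ?_⟩
        show ((x iT).im - y0) / (y1 - y0) = 1
        have : y1 = (x iT).im := by
          rcases max_choice t (x iT).im with h | h
          · exfalso
            rw [hy1, h] at hlow hb
            linarith
          · exact h
        rw [this]
        rw [this] at hb'
        exact div_self hb'.ne'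
      · intro hpos
        refine ⟨iB, hiB, ?_⟩
        show ((x iB).im - y0) / (y1 - y0) = 0
        have : y0 = (x iB).im := by
          rcases min_choice t (x iB).im with h | h
          · exfalso
            have h2 : t - y0 = 0 := by rw [hy0, h]; ring
            rw [h2, zero_div] at hpos
            exact lt_irrefl _ hpos
          · exact h
        rw [this]; simp
    · refine (scale_back hb' x S (fun i => y1 - (x i).im) t (y1 - t) (fun i _ j _ => by ring)
        (fun i _ => by ring) (hT _ S hc ((x iR).re / (y1 - y0)) ((y1 - t) / (y1 - y0)) ?_ ?_ ?_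
          ?_ ?_ ?_)).mono hfin
      · exact div_nonneg (by linarith) hb'.le
      · rw [div_le_iff₀ hb']; linarith
      · intro i hi
        refine ⟨div_nonneg (hbox i hi).1 hb'.le, div_le_div_of_nonneg_right (hR i hi) hb'.le,
          div_nonneg (by linarith [y1i i hi]) hb'.le, ?_⟩
        show (y1 - (x i).im) / (y1 - y0) ≤ 1
        rw [div_le_one hb']; linarith [y0i i hi]
      · exact ⟨iR, hiR, rfl⟩
      · refine ⟨iB, hiB, ?_⟩
        show (y1 - (x iB).im) / (y1 - y0) = 1
        have : y0 = (x iB).im := by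
          rcases min_choice t (x iB).im with h | h
          · exfalso
            rw [hy0, h] at hhigh hb
            linarith
          · exact h
        rw [this]
        rw [this] at hb'
        exact div_self hb'.ne'
      · intro hpos
        refine ⟨iT, hiT, ?_⟩
        show (y1 - (x iT).im) / (y1 - y0) = 0
        have : y1 = (x iT).im := by
          rcases max_choice t (x iT).im with h | h
          · exfalso
            have h2 : y1 - t = 0 := by rw [hy1, h]; ring
            rw [h2, zero_div] at hpos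
            exact lt_irrefl _ hpos
          · exact h
        rw [this]; simp

/-- the flat lemma for all numbers of robots -/
theorem flat_all {κ : ℝ} (hκ : 0 ≤ κ) (h : ∀ n, Flat I κ n → Tight I κ (n + 1)) :
    ∀ n, Flat I κ n := by
  intro n
  induction n with
  | zero =>
    intro x S hc a b t _ _ _
    have : S = ∅ := Finset.card_eq_zero.1 (Nat.le_zero.1 hc)
    rw [this]; exact Serve2.empty _ _
  | succ n ih => exact flat_step hκ ih (h n ih)

end assembly

theorem dist_le_of_sq {z w u v : ℂ} (h : dist z w ^ 2 ≤ (u.re - v.re) ^ 2 + (u.im - v.im) ^ 2) :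
    dist z w ≤ dist u v := by
  rw [Complex.dist_eq_re_im u v]
  exact Real.le_sqrt_of_sq_le h

/-- the form used by the polar leaves -/
theorem flatK_of {κ : ℝ} (h : ∀ (I : Type) [DecidableEq I] (n : ℕ), Flat I κ n) : FlatK κ := by
  intro I _ x A B S p A0 B0 w b1 b2 hd hp hb1 hb2 hA1 hA2 hB1 hB2
  have key := h I S.card (fun i => (⟨A i - A0, B i - b1⟩ : ℂ)) S le_rfl (w - A0) (b2 - b1)
    (B0 - b1) (by linarith) (by linarith) (fun i hi => by
      have e1 := hA1 i hi
      have e2 := hA2 i hi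
      have e3 := hB1 i hi
      have e4 := hB2 i hi
      refine ⟨?_, ?_, ?_, ?_⟩ <;> simp <;> linarith)
  refine key.contract ?_ ?_
  · intro i hi j hj
    apply dist_le_of_sq
    have := hd i hi j hj
    refine this.trans (le_of_eq ?_)
    simp
  · intro i hi
    apply dist_le_of_sq
    have := hp i hi
    refine this.trans (le_of_eq ?_)
    simp

end FK

end FreezeTag

end

section

/-!
# Freeze-Tag, part B2: the distance table is correct
-/

namespace FreezeTag

open Complex

/-- powers of the Gaussian integer `A + B i` -/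
def gp (A B : ℤ) : ℕ → ℤ × ℤ
  | 0 => (1, 0)
  | m + 1 => ((gp A B m).1 * A - (gp A B m).2 * B, (gp A B m).1 * B + (gp A B m).2 * A)

/-- check of the distance table entry `m` (`r = 89/100`), given the power `R` and
`P = 10 ^ (9 m)` -/
def cOK (R P : ℤ) (c : ℤ) : Bool :=
  decide (100000000 * (2 * P - 2 * R) + 500 * P ≤ c * c * P) &&
    decide (121000000 * P + 89 * (100000000 * (2 * P - 2 * R) + 500 * P) ≤ 100 * (c * c) * P)

/-- the whole check, with running state -/
def cAll (C N : ℕ) (A B : ℤ) : ℕ → ℕ → ℤ → ℤ → ℤ → Bool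
  | 0, _, _, _, _ => true
  | n + 1, m, R, J, P => cOK R P (Cf C N m) &&
      cAll C N A B n (m + 1) (R * A - J * B) (R * B + J * A) (P * 1000000000)

theorem cAll_ok180 : cAll ctab180 180 999847695 17452406 181 0 1 0 1 = true := by
  decide +kernel

theorem cAll_ok360 : cAll ctab360 360 999961923 8726535 361 0 1 0 1 = true := by
  decide +kernel

theorem cAll_sound (C N : ℕ) (A B : ℤ) : ∀ (n m : ℕ) (R J P : ℤ), R = (gp A B m).1 →
    J = (gp A B m).2 → P = 1000000000 ^ m → cAll C N A B n m R J P = true →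
    ∀ i, i < n → cOK (gp A B (m + i)).1 (1000000000 ^ (m + i)) (Cf C N (m + i)) = true := by
  intro n
  induction n with
  | zero => intro m R J P _ _ _ _ i hi; exact absurd hi (Nat.not_lt_zero i)
  | succ n ih =>
    intro m R J P hR hJ hP h i hi
    unfold cAll at h
    rw [Bool.and_eq_true] at h
    rcases Nat.eq_zero_or_pos i with rfl | hi0
    · rw [Nat.add_zero, ← hR, ← hP]; exact h.1
    · have h2 := ih (m + 1) _ _ _ (by rw [hR, hJ]; rfl) (by rw [hR, hJ]; rfl)
        (by rw [hP]; ring) h.2 (i - 1) (by omega)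
      have e : m + 1 + (i - 1) = m + i := by omega
      rwa [e] at h2

/-- the approximation of the unit step -/
noncomputable def qq (A B : ℤ) : ℂ := ⟨(A : ℝ) / 1000000000, (B : ℝ) / 1000000000⟩

theorem qq_pow (A B : ℤ) (m : ℕ) :
    ((qq A B) ^ m).re = ((gp A B m).1 : ℝ) / 1000000000 ^ m ∧
    ((qq A B) ^ m).im = ((gp A B m).2 : ℝ) / 1000000000 ^ m := by
  induction m with
  | zero => simp [gp]
  | succ m ih =>
    rw [pow_succ, Complex.mul_re, Complex.mul_im, ih.1, ih.2]
    have e1 : (qq A B).re = (A : ℝ) / 1000000000 := rfl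
    have e2 : (qq A B).im = (B : ℝ) / 1000000000 := rfl
    have e3 : gp A B (m + 1) = ((gp A B m).1 * A - (gp A B m).2 * B,
      (gp A B m).1 * B + (gp A B m).2 * A) := rfl
    rw [e1, e2, e3]
    push_cast
    constructor
    · rw [pow_succ]; field_simp
    · rw [pow_succ]; field_simp

theorem qq_norm {A B : ℤ} (h : (A : ℝ) ^ 2 + (B : ℝ) ^ 2 ≤ 1000000000 ^ 2) : ‖qq A B‖ ≤ 1 := by
  have h1 : ‖qq A B‖ ^ 2 ≤ 1 := by
    rw [Complex.sq_norm, Complex.normSq_apply]
    have e1 : (qq A B).re = (A : ℝ) / 1000000000 := rfl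
    have e2 : (qq A B).im = (B : ℝ) / 1000000000 := rfl
    rw [e1, e2]
    have : (A : ℝ) / 1000000000 * ((A : ℝ) / 1000000000)
        + (B : ℝ) / 1000000000 * ((B : ℝ) / 1000000000)
        = ((A : ℝ) ^ 2 + (B : ℝ) ^ 2) / 1000000000 ^ 2 := by ring
    rw [this, div_le_one (by positivity)]
    exact h
  have h0 := norm_nonneg (qq A B)
  nlinarith

theorem pow_sub_pow_norm_le {a b : ℂ} (ha : ‖a‖ ≤ 1) (hb : ‖b‖ ≤ 1) (m : ℕ) :
    ‖a ^ m - b ^ m‖ ≤ m * ‖a - b‖ := by
  induction m with
  | zero => simp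
  | succ m ih =>
    have e : a ^ (m + 1) - b ^ (m + 1) = a ^ m * (a - b) + (a ^ m - b ^ m) * b := by ring
    rw [e]
    have h1 : ‖a ^ m * (a - b)‖ ≤ ‖a - b‖ := by
      rw [norm_mul, norm_pow]
      have : ‖a‖ ^ m ≤ 1 := pow_le_one₀ (norm_nonneg a) ha
      nlinarith [norm_nonneg (a - b)]
    have h2 : ‖(a ^ m - b ^ m) * b‖ ≤ m * ‖a - b‖ := by
      rw [norm_mul]
      have h3 := norm_nonneg (a ^ m - b ^ m)
      calc _ ≤ ‖a ^ m - b ^ m‖ * 1 := mul_le_mul_of_nonneg_left hb h3
        _ ≤ _ := by rw [mul_one]; exact ih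
    calc _ ≤ ‖a ^ m * (a - b)‖ + ‖(a ^ m - b ^ m) * b‖ := norm_add_le _ _
      _ ≤ ‖a - b‖ + m * ‖a - b‖ := add_le_add h1 h2
      _ = ((m + 1 : ℕ) : ℝ) * ‖a - b‖ := by push_cast; ring

theorem one_degree : ‖Complex.exp (((Real.pi / 180 : ℝ) : ℂ) * Complex.I)
    - qq 999847695 17452406‖ ≤ 12 / 1000000000 := by
  set x : ℝ := Real.pi / 180 with hx
  have hx1 : 0.0174532925 ≤ x := by have := Real.pi_gt_d20; rw [hx]; linarith
  have hx2 : x ≤ 0.0174532926 := by have := Real.pi_lt_d20; rw [hx]; linarith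
  have hx0 : 0 ≤ x := by linarith
  have habs : |x| ≤ 1 := by rw [abs_of_nonneg hx0]; linarith
  have hc := Real.cos_bound habs
  have hs := Real.sin_bound habs
  rw [abs_of_nonneg hx0] at hc hs
  have hx4 : x ^ 4 ≤ 0.0000000928 := by
    have : x ^ 4 ≤ 0.0174532926 ^ 4 := pow_le_pow_left₀ hx0 hx2 4
    norm_num at this ⊢
    linarith
  have hx2a : 0.0174532925 ^ 2 ≤ x ^ 2 := pow_le_pow_left₀ (by norm_num) hx1 2
  have hx2b : x ^ 2 ≤ 0.0174532926 ^ 2 := pow_le_pow_left₀ hx0 hx2 2
  have hx3a : 0.0174532925 ^ 3 ≤ x ^ 3 := pow_le_pow_left₀ (by norm_num) hx1 3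
  have hx3b : x ^ 3 ≤ 0.0174532926 ^ 3 := pow_le_pow_left₀ hx0 hx2 3
  rw [abs_le] at hc hs
  have hx5 : x ^ 5 ≤ 0.0000000928 * 0.0174532926 := by
    have e : x ^ 5 = x ^ 4 * x := by ring
    rw [e]
    exact mul_le_mul hx4 hx2 hx0 (by norm_num)
  norm_num at hx2a hx2b hx3a hx3b hx1 hx2 hx4 hx5
  have hre : |Real.cos x - 999847695 / 1000000000| ≤ 9 / 1000000000 := by
    rw [abs_le]
    constructor
    · norm_num; linarith [hc.1, hc.2]
    · norm_num; linarith [hc.1, hc.2]
  have him : |Real.sin x - 17452406 / 1000000000| ≤ 2 / 1000000000 := by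
    rw [abs_le]
    constructor
    · norm_num; linarith [hs.1, hs.2]
    · norm_num; linarith [hs.1, hs.2]
  refine le_trans (Complex.norm_le_abs_re_add_abs_im _) ?_
  rw [Complex.sub_re, Complex.sub_im, Complex.exp_ofReal_mul_I_re, Complex.exp_ofReal_mul_I_im]
  have e1 : (qq 999847695 17452406).re = 999847695 / 1000000000 := by
    simp only [qq]; norm_num
  have e2 : (qq 999847695 17452406).im = 17452406 / 1000000000 := by
    simp only [qq]; norm_num
  rw [e1, e2]
  linarith

theorem half_degree : ‖Complex.exp (((Real.pi / 360 : ℝ) : ℂ) * Complex.I)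
    - qq 999961923 8726535‖ ≤ 3 / 1000000000 := by
  set x : ℝ := Real.pi / 360 with hx
  have hx1 : 0.00872664625 ≤ x := by have := Real.pi_gt_d20; rw [hx]; linarith
  have hx2 : x ≤ 0.0087266463 := by have := Real.pi_lt_d20; rw [hx]; linarith
  have hx0 : 0 ≤ x := by linarith
  have habs : |x| ≤ 1 := by rw [abs_of_nonneg hx0]; linarith
  have hc := Real.cos_bound habs
  have hs := Real.sin_bound habs
  rw [abs_of_nonneg hx0] at hc hs
  have hx4 : x ^ 4 ≤ 0.0000000058 := by
    have : x ^ 4 ≤ 0.0087266463 ^ 4 := pow_le_pow_left₀ hx0 hx2 4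
    norm_num at this ⊢
    linarith
  have hx2a : 0.00872664625 ^ 2 ≤ x ^ 2 := pow_le_pow_left₀ (by norm_num) hx1 2
  have hx2b : x ^ 2 ≤ 0.0087266463 ^ 2 := pow_le_pow_left₀ hx0 hx2 2
  have hx3a : 0.00872664625 ^ 3 ≤ x ^ 3 := pow_le_pow_left₀ (by norm_num) hx1 3
  have hx3b : x ^ 3 ≤ 0.0087266463 ^ 3 := pow_le_pow_left₀ hx0 hx2 3
  rw [abs_le] at hc hs
  have hx5 : x ^ 5 ≤ 0.0000000058 * 0.0087266463 := by
    have e : x ^ 5 = x ^ 4 * x := by ring
    rw [e]
    exact mul_le_mul hx4 hx2 hx0 (by norm_num)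
  norm_num at hx2a hx2b hx3a hx3b hx1 hx2 hx4 hx5
  have hre : |Real.cos x - 999961923 / 1000000000| ≤ 1.5 / 1000000000 := by
    rw [abs_le]
    constructor
    · norm_num; linarith [hc.1, hc.2]
    · norm_num; linarith [hc.1, hc.2]
  have him : |Real.sin x - 8726535 / 1000000000| ≤ 1.5 / 1000000000 := by
    rw [abs_le]
    constructor
    · norm_num; linarith [hs.1, hs.2]
    · norm_num; linarith [hs.1, hs.2]
  refine le_trans (Complex.norm_le_abs_re_add_abs_im _) ?_
  rw [Complex.sub_re, Complex.sub_im, Complex.exp_ofReal_mul_I_re, Complex.exp_ofReal_mul_I_im]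
  have e1 : (qq 999961923 8726535).re = 999961923 / 1000000000 := by
    simp only [qq]; norm_num
  have e2 : (qq 999961923 8726535).im = 8726535 / 1000000000 := by
    simp only [qq]; norm_num
  rw [e1, e2]
  linarith

theorem cos_step_lower {δ ε : ℝ} {A B : ℤ}
    (hε : ‖Complex.exp ((δ : ℂ) * Complex.I) - qq A B‖ ≤ ε)
    (hAB : (A : ℝ) ^ 2 + (B : ℝ) ^ 2 ≤ 1000000000 ^ 2) (m : ℕ) :
    ((gp A B m).1 : ℝ) / 1000000000 ^ m - m * ε ≤ Real.cos (m * δ) := by
  have h := pow_sub_pow_norm_le (a := Complex.exp ((δ : ℂ) * Complex.I))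
    (b := qq A B) (by rw [Complex.norm_exp_ofReal_mul_I]) (qq_norm hAB) m
  rw [← Complex.exp_nat_mul] at h
  have e : (m : ℂ) * ((δ : ℂ) * Complex.I)
      = ((m * δ : ℝ) : ℂ) * Complex.I := by push_cast; ring
  rw [e] at h
  have h1 := Complex.abs_re_le_norm
    (Complex.exp (((m * δ : ℝ) : ℂ) * Complex.I) - (qq A B) ^ m)
  rw [Complex.sub_re, Complex.exp_ofReal_mul_I_re, (qq_pow A B m).1] at h1
  have h2 : (m : ℝ) * ‖Complex.exp ((δ : ℂ) * Complex.I) - qq A B‖
      ≤ m * ε := mul_le_mul_of_nonneg_left hε (Nat.cast_nonneg m)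
  have h3 := (abs_le.1 (le_trans h1 (le_trans h h2))).1
  linarith

/-- the distance table is correct -/
theorem cBoundGen {C N : ℕ} {A B : ℤ} {δ ε : ℝ} (hN : (N : ℝ) * δ = Real.pi)
    (hε : ‖Complex.exp ((δ : ℂ) * Complex.I) - qq A B‖ ≤ ε) (hε0 : 0 ≤ ε)
    (hNε : (N : ℝ) * ε ≤ 5 / 2000000)
    (hAB : (A : ℝ) ^ 2 + (B : ℝ) ^ 2 ≤ 1000000000 ^ 2)
    (hok : cAll C N A B (N + 1) 0 1 0 1 = true) : CBound (89 / 100) δ (cR C N) := by
  intro m t ht0 htm
  have hc0 : 0 ≤ cR C N m := by unfold cR; positivity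
  refine ⟨hc0, ?_⟩
  rcases Nat.lt_or_ge N m with hm | hm
  · have h1 : Cf C N m = 20000 := by
      unfold Cf
      have : Nat.ble m N = false := by
        rw [Bool.eq_false_iff]; intro h; exact absurd (Nat.le_of_ble_eq_true h) (by omega)
      rw [this]; rfl
    have h2 : cR C N m = 2 := by unfold cR; rw [h1]; norm_num
    rw [h2]
    have := Real.neg_one_le_cos t
    constructor <;> norm_num <;> linarith
  · have h1 := cAll_sound C N A B (N + 1) 0 1 0 1 rfl rfl (by norm_num) hok m (by omega)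
    rw [Nat.zero_add] at h1
    unfold cOK at h1
    rw [Bool.and_eq_true, decide_eq_true_eq, decide_eq_true_eq] at h1
    obtain ⟨h2, h3⟩ := h1
    have hP : (0 : ℝ) < 1000000000 ^ m := by positivity
    have h2' : (100000000 : ℝ) * (2 * 1000000000 ^ m - 2 * (gp A B m).1)
        + 500 * 1000000000 ^ m
        ≤ (Cf C N m : ℝ) * (Cf C N m : ℝ) * 1000000000 ^ m := by exact_mod_cast h2
    have h3' : (121000000 : ℝ) * 1000000000 ^ m
        + 89 * (100000000 * (2 * 1000000000 ^ m - 2 * (gp A B m).1) + 500 * 1000000000 ^ m)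
        ≤ 100 * ((Cf C N m : ℝ) * (Cf C N m : ℝ)) * 1000000000 ^ m := by exact_mod_cast h3
    set R : ℝ := ((gp A B m).1 : ℝ) / 1000000000 ^ m with hR
    have eR : ((gp A B m).1 : ℝ) = R * 1000000000 ^ m := by rw [hR]; field_simp
    rw [eR] at h2' h3'
    have h2'' : (100000000 : ℝ) * (2 - 2 * R) + 500 ≤ (Cf C N m : ℝ) * (Cf C N m : ℝ) := by
      have : ((100000000 : ℝ) * (2 - 2 * R) + 500) * 1000000000 ^ m
          ≤ ((Cf C N m : ℝ) * (Cf C N m : ℝ)) * 1000000000 ^ m := by linarith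
      exact le_of_mul_le_mul_right this hP
    have h3'' : (121000000 : ℝ) + 89 * (100000000 * (2 - 2 * R) + 500)
        ≤ 100 * ((Cf C N m : ℝ) * (Cf C N m : ℝ)) := by
      have : ((121000000 : ℝ) + 89 * (100000000 * (2 - 2 * R) + 500)) * 1000000000 ^ m
          ≤ (100 * ((Cf C N m : ℝ) * (Cf C N m : ℝ))) * 1000000000 ^ m := by linarith
      exact le_of_mul_le_mul_right this hP
    have hcos1 := cos_step_lower hε hAB m
    rw [← hR] at hcos1
    have hm' : (m : ℝ) ≤ N := by exact_mod_cast hm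
    have hmε : (m : ℝ) * ε ≤ 5 / 2000000 :=
      le_trans (mul_le_mul_of_nonneg_right hm' hε0) hNε
    have hcos2 : Real.cos (m * δ) ≤ Real.cos t := by
      apply Real.cos_le_cos_of_nonneg_of_le_pi ht0 _ htm
      rw [← hN]
      have hδ : 0 ≤ δ := by
        by_contra hneg
        rw [not_le] at hneg
        have h4 : (N : ℝ) * δ ≤ 0 := mul_nonpos_of_nonneg_of_nonpos (Nat.cast_nonneg N) hneg.le
        linarith [Real.pi_pos]
      exact mul_le_mul_of_nonneg_right hm' hδ
    have hcR : cR C N m ^ 2 = (Cf C N m : ℝ) * (Cf C N m : ℝ) / 100000000 := by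
      unfold cR; ring
    rw [hcR]
    constructor
    · rw [le_div_iff₀ (by norm_num)]
      nlinarith
    · rw [le_div_iff₀ (by norm_num)]
      nlinarith

theorem cBound180 : CBound (89 / 100) (Real.pi / 180) (cR ctab180 180) :=
  cBoundGen (N := 180) (by push_cast; ring) one_degree (by norm_num) (by norm_num) (by norm_num)
    cAll_ok180

theorem cBound360 : CBound (89 / 100) (Real.pi / 360) (cR ctab360 360) :=
  cBoundGen (N := 360) (by push_cast; ring) half_degree (by norm_num) (by norm_num) (by norm_num)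
    cAll_ok360

end FreezeTag

end

section

/-!
# Freeze-Tag, part B: all robots at distance between `23/25` and `1` from the origin
-/

namespace FreezeTag

open Complex

/-- the bins of the certificate, mesh of one degree -/
theorem bins180 (j : ℕ) (hj2 : 2 ≤ j) (hj : j < 20) : ∃ V : ℕ → ℝ,
    (∀ k, 1 ≤ k → k ≤ 220 → Cond (89 / 100) (Real.pi / 180) (cR ctab180 180) V j k) ∧
      Final (Real.pi / 180) (2 * Real.sqrt 2) (cR ctab180 180) V 180 220 j := by
  interval_cases j
  · exact ⟨_, bin180 bin180_2⟩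
  · exact ⟨_, bin180 bin180_3⟩
  · exact ⟨_, bin180 bin180_4⟩
  · exact ⟨_, bin180 bin180_5⟩
  · exact ⟨_, bin180 bin180_6⟩
  · exact ⟨_, bin180 bin180_7⟩
  · exact ⟨_, bin180 bin180_8⟩
  · exact ⟨_, bin180 bin180_9⟩
  · exact ⟨_, bin180 bin180_10⟩
  · exact ⟨_, bin180 bin180_11⟩
  · exact ⟨_, bin180 bin180_12⟩
  · exact ⟨_, bin180 bin180_13⟩
  · exact ⟨_, bin180 bin180_14⟩
  · exact ⟨_, bin180 bin180_15⟩
  · exact ⟨_, bin180 bin180_16⟩
  · exact ⟨_, bin180 bin180_17⟩
  · exact ⟨_, bin180 bin180_18⟩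
  · exact ⟨_, bin180 bin180_19⟩

/-- the bins of the certificate, mesh of half a degree -/
theorem bins360 (j : ℕ) (hj : j < 4) : ∃ V : ℕ → ℝ,
    (∀ k, 1 ≤ k → k ≤ 440 → Cond (89 / 100) (Real.pi / 360) (cR ctab360 360) V j k) ∧
      Final (Real.pi / 360) (2 * Real.sqrt 2) (cR ctab360 360) V 360 440 j := by
  interval_cases j
  · exact ⟨_, bin360 bin360_0⟩
  · exact ⟨_, bin360 bin360_1⟩
  · exact ⟨_, bin360 bin360_2⟩
  · exact ⟨_, bin360 bin360_3⟩

theorem cos_sep {g t : ℝ} (hg1 : g ≤ Real.pi) (ht0 : 0 ≤ t)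
    (ht1 : t < 2 * Real.pi) (h : Real.cos t ≤ Real.cos g) : g ≤ t ∧ t ≤ 2 * Real.pi - g := by
  constructor
  · by_contra hlt
    rw [not_le] at hlt
    exact absurd h (not_le.2 (Real.cos_lt_cos_of_nonneg_of_le_pi ht0 hg1 hlt))
  · by_contra hlt
    rw [not_le] at hlt
    have h1 : Real.cos (2 * Real.pi - t) = Real.cos t := Real.cos_two_pi_sub t
    have h2 : Real.cos g < Real.cos (2 * Real.pi - t) :=
      Real.cos_lt_cos_of_nonneg_of_le_pi (by linarith) hg1 (by linarith)
    linarith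

/-- the angle in `[0, 2π)` -/
noncomputable def ang (z : ℂ) : ℝ := if 0 ≤ z.arg then z.arg else z.arg + 2 * Real.pi

theorem ang_nonneg (z : ℂ) : 0 ≤ ang z := by
  unfold ang
  split_ifs with h
  · exact h
  · have := Complex.neg_pi_lt_arg z
    linarith [Real.pi_pos]

theorem ang_lt (z : ℂ) : ang z < 2 * Real.pi := by
  unfold ang
  split_ifs with h
  · have := Complex.arg_le_pi z
    linarith [Real.pi_pos]
  · rw [not_le] at h; linarith

theorem pol_norm_arg (z : ℂ) : pol ‖z‖ z.arg = z := Complex.norm_mul_exp_arg_mul_I z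

theorem pol_norm_ang (z : ℂ) : pol ‖z‖ (ang z) = z := by
  unfold ang
  split_ifs with h
  · exact pol_norm_arg z
  · rw [pol_add_two_pi]; exact pol_norm_arg z

theorem pol_mul_conj_re (ρ ρ' α β : ℝ) :
    (pol ρ α * (starRingEnd ℂ) (pol ρ' β)).re = ρ * ρ' * Real.cos (α - β) := by
  rw [Complex.mul_re, Complex.conj_re, Complex.conj_im, pol_re, pol_re, pol_im, pol_im,
    Real.cos_sub]
  ring

theorem cos_ang_sub {z w : ℂ} : (z * (starRingEnd ℂ) w).re
    = ‖z‖ * ‖w‖ * Real.cos (ang z - ang w) := by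
  conv_lhs => rw [← pol_norm_ang z, ← pol_norm_ang w]
  exact pol_mul_conj_re _ _ _ _

theorem ang_pol {ρ θ : ℝ} (hρ : 0 < ρ) (h0 : 0 ≤ θ) (h1 : θ ≤ Real.pi) : ang (pol ρ θ) = θ := by
  have h : (pol ρ θ).arg = θ := by
    unfold pol
    rw [Complex.exp_mul_I]
    exact Complex.arg_mul_cos_add_sin_mul_I hρ ⟨by linarith [Real.pi_pos], h1⟩
  unfold ang
  rw [h, if_pos h0]

variable {I : Type*} [DecidableEq I]

/-- part B after rotation: the closest pair is `i0` (angle `0`), `j0` (angle `g`) -/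
theorem partB_norm (y : I → ℂ) (S : Finset I) (i0 j0 : I) (hi0 : i0 ∈ S) (hj0 : j0 ∈ S)
    (hij : i0 ≠ j0) (g : ℝ) (hg0 : 0 ≤ g) (hg1 : g ≤ Real.pi)
    (h1 : ∀ i ∈ S, 89 / 100 ≤ ‖y i‖) (h2 : ∀ i ∈ S, ‖y i‖ ≤ 1)
    (hyi : y i0 = pol ‖y i0‖ 0) (hyj : y j0 = pol ‖y j0‖ g) (hle : ‖y i0‖ ≤ ‖y j0‖)
    (hκ : ∀ i ∈ S, ∀ l ∈ S, i ≠ l →
      (y i * (starRingEnd ℂ) (y l)).re ≤ Real.cos g * (‖y i‖ * ‖y l‖)) :
    Serve2 y (S.erase i0) (pol ‖y i0‖ 0) (2 * Real.sqrt 2 + 1 - ‖y i0‖) := by
  set s : I → ℝ := fun i => ang (y i) with hs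
  set ρ : I → ℝ := fun i => ‖y i‖ with hρ
  have hpos : ∀ i ∈ S, 0 < ‖y i‖ := fun i hi => by have := h1 i hi; linarith
  have hx : ∀ i, y i = pol (ρ i) (s i) := fun i => (pol_norm_ang (y i)).symm
  have hs0 : ∀ i, 0 ≤ s i := fun i => ang_nonneg _
  have hs1 : ∀ i, s i < 2 * Real.pi := fun i => ang_lt _
  have hsi0 : s i0 = 0 := by
    show ang (y i0) = 0
    rw [hyi]; exact ang_pol (hpos i0 hi0) le_rfl Real.pi_pos.le
  have hsj0 : s j0 = g := by
    show ang (y j0) = g
    rw [hyj]; exact ang_pol (hpos j0 hj0) hg0 hg1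
  have hsep0 : ∀ i ∈ S, ∀ l ∈ S, i ≠ l → g ≤ |s i - s l| ∧ |s i - s l| ≤ 2 * Real.pi - g := by
    intro i hi l hl hil
    have h3 := hκ i hi l hl hil
    rw [cos_ang_sub] at h3
    have h4 : 0 < ‖y i‖ * ‖y l‖ := mul_pos (hpos i hi) (hpos l hl)
    have h5 : Real.cos (s i - s l) ≤ Real.cos g := by
      have : Real.cos (s i - s l) * (‖y i‖ * ‖y l‖) ≤ Real.cos g * (‖y i‖ * ‖y l‖) := by
        calc _ = ‖y i‖ * ‖y l‖ * Real.cos (s i - s l) := by ring
          _ ≤ _ := h3
      exact le_of_mul_le_mul_right this h4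
    rw [← Real.cos_abs] at h5
    refine cos_sep hg1 (abs_nonneg _) ?_ h5
    rw [abs_lt]
    exact ⟨by linarith [hs0 i, hs1 l], by linarith [hs0 l, hs1 i]⟩
  have hsep : ∀ i ∈ S, ∀ l ∈ S, i ≠ l → g ≤ |s i - s l| := fun i hi l hl hil =>
    (hsep0 i hi l hl hil).1
  have hrange : ∀ i ∈ S, i ≠ i0 → g ≤ s i ∧ s i ≤ 2 * Real.pi - g := by
    intro i hi hne
    have h3 := hsep0 i hi i0 hi0 hne
    rw [hsi0, sub_zero, abs_of_nonneg (hs0 i)] at h3
    exact h3
  have hρ0 : ‖y i0‖ ≤ 1 := h2 i0 hi0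
  rcases le_or_gt (Real.pi / 9) g with hbig | hsmall
  · -- elementary case
    have hπ := Real.pi_pos
    have hcos : 1 - (89 / 100 : ℝ) ≤ 2 - 2 * Real.cos (Real.pi / 9) := by
      have hx1 : (0.349 : ℝ) ≤ Real.pi / 9 := by have := Real.pi_gt_d4; linarith
      have hx2 : Real.pi / 9 ≤ 0.3491 := by have := Real.pi_lt_d4; linarith
      have hb := Real.cos_bound (x := Real.pi / 9) (by
        rw [abs_of_nonneg (by positivity)]; linarith)
      rw [abs_of_nonneg (show (0:ℝ) ≤ Real.pi / 9 by positivity)] at hb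
      have h4 : (Real.pi / 9) ^ 4 ≤ 0.3491 ^ 4 := pow_le_pow_left₀ (by positivity) hx2 4
      have h5 : (0.349 : ℝ) ^ 2 ≤ (Real.pi / 9) ^ 2 := pow_le_pow_left₀ (by norm_num) hx1 2
      norm_num at h4 h5
      have h6 := (abs_le.1 hb).2
      linarith
    have hγ : Real.pi - Real.pi / 9 ≤ 2 * Real.sqrt 2 := by
      have h3 : (1.4142 : ℝ) ≤ Real.sqrt 2 := by
        apply Real.le_sqrt_of_sq_le; norm_num
      have := Real.pi_lt_d4
      linarith
    refine Serve2.of_filter (fun i => s i ≤ Real.pi) ?_ ?_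
    · have key := side (x := y) (r := 89 / 100) (γ := Real.pi / 9) (by norm_num)
        (by positivity) hcos hγ ρ s ((S.erase i0).filter (fun i => s i ≤ Real.pi)) ‖y i0‖
        (h1 i0 hi0) hρ0 (fun i _ => hx i)
        (fun i hi => h1 i (Finset.mem_of_mem_erase (Finset.mem_of_mem_filter i hi)))
        (fun i hi => h2 i (Finset.mem_of_mem_erase (Finset.mem_of_mem_filter i hi)))
        (fun i hi => by
          have h3 := Finset.mem_of_mem_filter i hi
          exact le_trans hbig (hrange i (Finset.mem_of_mem_erase h3)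
            (Finset.ne_of_mem_erase h3)).1)
        (fun i hi => (Finset.mem_filter.1 hi).2)
        (fun i hi l hl hil => le_trans hbig
          (hsep i (Finset.mem_of_mem_erase (Finset.mem_of_mem_filter i hi)) l
            (Finset.mem_of_mem_erase (Finset.mem_of_mem_filter l hl)) hil))
      exact key.mono (by linarith)
    · have key := side (x := fun i => (starRingEnd ℂ) (y i)) (r := 89 / 100)
        (γ := Real.pi / 9) (by norm_num)
        (by positivity) hcos hγ ρ (fun i => 2 * Real.pi - s i)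
        ((S.erase i0).filter (fun i => ¬ s i ≤ Real.pi)) ‖y i0‖
        (h1 i0 hi0) hρ0 (fun i _ => by
          show (starRingEnd ℂ) (y i) = _
          conv_lhs => rw [hx i]
          rw [conj_pol, ← pol_add_two_pi]
          congr 1; ring)
        (fun i hi => h1 i (Finset.mem_of_mem_erase (Finset.mem_of_mem_filter i hi)))
        (fun i hi => h2 i (Finset.mem_of_mem_erase (Finset.mem_of_mem_filter i hi)))
        (fun i hi => by
          have h3 := Finset.mem_of_mem_filter i hi
          have h4 := (hrange i (Finset.mem_of_mem_erase h3) (Finset.ne_of_mem_erase h3)).2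
          linarith)
        (fun i hi => by
          have h3 := (Finset.mem_filter.1 hi).2
          rw [not_le] at h3
          linarith)
        (fun i hi l hl hil => by
          have h3 := hsep i (Finset.mem_of_mem_erase (Finset.mem_of_mem_filter i hi)) l
            (Finset.mem_of_mem_erase (Finset.mem_of_mem_filter l hl)) hil
          have : (2 * Real.pi - s i) - (2 * Real.pi - s l) = -(s i - s l) := by ring
          rw [this, abs_neg]; exact le_trans hbig h3)
      have key2 := key.map_isometry _ isometry_conj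
      have e1 : (starRingEnd ℂ) (pol ‖y i0‖ 0) = pol ‖y i0‖ 0 := by rw [conj_pol, neg_zero]
      rw [e1] at key2
      have e2 : (fun i => (starRingEnd ℂ) ((starRingEnd ℂ) (y i))) = y := by
        funext i; exact Complex.conj_conj (y i)
      rw [e2] at key2
      exact key2.mono (by linarith)
  · -- three robots next to each other
    have hins : insert j0 ((S.erase i0).erase j0) = S.erase i0 :=
      Finset.insert_erase (Finset.mem_erase.2 ⟨hij.symm, hj0⟩)
    have hmem : ∀ i ∈ (S.erase i0).erase j0, i ∈ S ∧ i ≠ i0 ∧ i ≠ j0 := by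
      intro i hi
      have h3 := Finset.mem_of_mem_erase hi
      exact ⟨Finset.mem_of_mem_erase h3, Finset.ne_of_mem_erase h3, Finset.ne_of_mem_erase hi⟩
    have hcell : ∀ δ : ℝ, 0 < δ → cell δ g = 0 ∨ ((cell δ g : ℕ) : ℝ) * δ < g := by
      intro δ hδ
      rcases Nat.eq_zero_or_pos (cell δ g) with h | h
      · exact Or.inl h
      · right
        have h3 : cell δ g < ⌈g / δ⌉₊ := by
          unfold cell at h ⊢; omega
        have h4 := Nat.lt_ceil.1 h3
        rwa [lt_div_iff₀ hδ] at h4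
    have hr1 : ∀ i ∈ (S.erase i0).erase j0, 2 * g ≤ s i := by
      intro i hi
      obtain ⟨a1, a2, a3⟩ := hmem i hi
      have h3 := hsep i a1 j0 hj0 a3
      have h4 := (hrange i a1 a2).1
      rw [hsj0, abs_of_nonneg (by linarith)] at h3
      linarith
    have hr2 : ∀ i ∈ (S.erase i0).erase j0, s i ≤ 2 * Real.pi - g := by
      intro i hi
      obtain ⟨a1, a2, a3⟩ := hmem i hi
      exact (hrange i a1 a2).2
    have hr3 : ∀ i ∈ (S.erase i0).erase j0, ∀ l ∈ (S.erase i0).erase j0, i ≠ l →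
        g ≤ |s i - s l| := fun i hi l hl hil => hsep i (hmem i hi).1 l (hmem l hl).1 hil
    rcases le_or_gt g (Real.pi / 90) with hg2 | hg2
    · have hδ : 0 < Real.pi / 360 := by positivity
      have hjlt : cell (Real.pi / 360) g < 4 := by
        refine cell_lt hδ (by norm_num) ?_
        push_cast
        linarith
      obtain ⟨V, hcond, hfin⟩ := bins360 (cell (Real.pi / 360) g) hjlt
      have key := three (x := y) (r := 89 / 100) (δ := Real.pi / 360) (B := 2 * Real.sqrt 2)
        (c := cR ctab360 360) (V := V) (by norm_num) hδ cBound360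
        (j := cell (Real.pi / 360) g) (N := 360)
        (K := 440) (by push_cast; ring) hcond hfin ρ s ((S.erase i0).erase j0) j0
        ‖y i0‖ ‖y j0‖ g (h1 i0 hi0) hle (h2 j0 hj0) hg0 (hcell _ hδ) (le_cell_succ hδ) hyj
        (fun i _ => hx i) (fun i hi => h1 i (hmem i hi).1) (fun i hi => h2 i (hmem i hi).1)
        hr1 hr2 hr3
      rw [hins] at key
      exact key
    · have hδ : 0 < Real.pi / 180 := by positivity
      have hjlt : cell (Real.pi / 180) g < 20 := by
        refine cell_lt hδ (by norm_num) ?_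
        push_cast
        linarith
      have hjge : 2 ≤ cell (Real.pi / 180) g := by
        refine le_cell hδ (Or.inr ?_)
        push_cast
        linarith
      obtain ⟨V, hcond, hfin⟩ := bins180 (cell (Real.pi / 180) g) hjge hjlt
      have key := three (x := y) (r := 89 / 100) (δ := Real.pi / 180) (B := 2 * Real.sqrt 2)
        (c := cR ctab180 180) (V := V) (by norm_num) hδ cBound180
        (j := cell (Real.pi / 180) g) (N := 180)
        (K := 220) (by push_cast; ring) hcond hfin ρ s ((S.erase i0).erase j0) j0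
        ‖y i0‖ ‖y j0‖ g (h1 i0 hi0) hle (h2 j0 hj0) hg0 (hcell _ hδ) (le_cell_succ hδ) hyj
        (fun i _ => hx i) (fun i hi => h1 i (hmem i hi).1) (fun i hi => h2 i (hmem i hi).1)
        hr1 hr2 hr3
      rw [hins] at key
      exact key

theorem isometry_mul' (u : ℂ) (hu : ‖u‖ = 1) : Isometry (fun z : ℂ => u * z) := by
  refine Isometry.of_dist_eq fun a b => ?_
  rw [dist_eq_norm, dist_eq_norm, ← mul_sub, norm_mul, hu, one_mul]

/-- the transport of `partB_norm` by an isometry `G` -/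
theorem partB_frame (x y : I → ℂ) (G : ℂ → ℂ) (hG : Isometry G) (hxy : ∀ i, G (y i) = x i)
    (S : Finset I) (i0 j0 : I) (hi0 : i0 ∈ S) (hj0 : j0 ∈ S) (hij : i0 ≠ j0)
    (hn : ∀ i, ‖y i‖ = ‖x i‖)
    (h1 : ∀ i ∈ S, 89 / 100 ≤ ‖x i‖) (h2 : ∀ i ∈ S, ‖x i‖ ≤ 1)
    (hyi : y i0 = pol ‖y i0‖ 0) (harg : 0 ≤ (y j0).arg) (hle : ‖x i0‖ ≤ ‖x j0‖)
    (hre : ∀ i l, (y i * (starRingEnd ℂ) (y l)).re = (x i * (starRingEnd ℂ) (x l)).re)
    (hmax : ∀ i ∈ S, ∀ l ∈ S, i ≠ l →
      (x i * (starRingEnd ℂ) (x l)).re / (‖x i‖ * ‖x l‖)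
        ≤ (x i0 * (starRingEnd ℂ) (x j0)).re / (‖x i0‖ * ‖x j0‖)) :
    Serve x S 0 (1 + 2 * Real.sqrt 2) := by
  have hpos : ∀ i ∈ S, 0 < ‖x i‖ := fun i hi => by have := h1 i hi; linarith
  have hyj : y j0 = pol ‖y j0‖ (y j0).arg := (pol_norm_arg _).symm
  have hcosg : Real.cos (y j0).arg = (x i0 * (starRingEnd ℂ) (x j0)).re / (‖x i0‖ * ‖x j0‖) := by
    rw [← hre]
    have h3 : (y i0 * (starRingEnd ℂ) (y j0)).re = ‖y i0‖ * ‖y j0‖ * Real.cos (0 - (y j0).arg) := by
      conv_lhs => rw [hyi, hyj]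
      exact pol_mul_conj_re _ _ _ _
    rw [h3, zero_sub, Real.cos_neg, hn, hn]
    have h4 : ‖x i0‖ ≠ 0 := (hpos i0 hi0).ne'
    have h5 : ‖x j0‖ ≠ 0 := (hpos j0 hj0).ne'
    field_simp
  have key := partB_norm y S i0 j0 hi0 hj0 hij (y j0).arg harg (Complex.arg_le_pi _)
    (fun i hi => by rw [hn]; exact h1 i hi) (fun i hi => by rw [hn]; exact h2 i hi) hyi hyj
    (by rw [hn, hn]; exact hle)
    (fun i hi l hl hil => by
      rw [hre, hn, hn, hcosg]
      have h3 := hmax i hi l hl hil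
      have h4 : 0 < ‖x i‖ * ‖x l‖ := mul_pos (hpos i hi) (hpos l hl)
      rwa [div_le_iff₀ h4] at h3)
  have key2 := key.map_isometry G hG
  have e1 : (fun i => G (y i)) = x := funext hxy
  rw [e1, ← hyi, hxy, hn] at key2
  refine Serve.of_step hi0 ?_ ?_
  · rw [dist_zero_left]
    have h3 := h2 i0 hi0
    have h4 := Real.sqrt_nonneg 2
    linarith
  · rw [dist_zero_left]
    exact key2.mono (by linarith)

/-- **Part B.** -/
theorem partB_main (x : I → ℂ) (S : Finset I)
    (h : ∀ i ∈ S, 89 / 100 ≤ ‖x i‖ ∧ ‖x i‖ ≤ 1) : Serve x S 0 (1 + 2 * Real.sqrt 2) := by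
  have h1 : ∀ i ∈ S, 89 / 100 ≤ ‖x i‖ := fun i hi => (h i hi).1
  have h2 : ∀ i ∈ S, ‖x i‖ ≤ 1 := fun i hi => (h i hi).2
  rcases S.eq_empty_or_nonempty with rfl | ⟨i, hi⟩
  · exact Serve.nil _ _
  have hsq : 0 ≤ Real.sqrt 2 := Real.sqrt_nonneg 2
  by_cases hone : ∃ a ∈ S, ∃ b ∈ S, a ≠ b
  swap
  · -- only one robot
    have : S.erase i = ∅ := by
      rw [Finset.eq_empty_iff_forall_notMem]
      intro l hl
      exact hone ⟨l, Finset.mem_of_mem_erase hl, i, hi, Finset.ne_of_mem_erase hl⟩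
    refine Serve.of_step hi ?_ ?_
    · rw [dist_zero_left]; have := h2 i hi; linarith
    · rw [this]; exact Serve2.empty _ _
  obtain ⟨a, ha, b, hb, hab⟩ := hone
  have hne : S.offDiag.Nonempty := ⟨(a, b), Finset.mem_offDiag.2 ⟨ha, hb, hab⟩⟩
  obtain ⟨p, hp, hpmax⟩ := S.offDiag.exists_max_image
    (fun p => (x p.1 * (starRingEnd ℂ) (x p.2)).re / (‖x p.1‖ * ‖x p.2‖)) hne
  have hp' := Finset.mem_offDiag.1 hp
  have hmax0 : ∀ i ∈ S, ∀ l ∈ S, i ≠ l → (x i * (starRingEnd ℂ) (x l)).re / (‖x i‖ * ‖x l‖)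
      ≤ (x p.1 * (starRingEnd ℂ) (x p.2)).re / (‖x p.1‖ * ‖x p.2‖) :=
    fun i hi l hl hil => hpmax (i, l) (Finset.mem_offDiag.2 ⟨hi, hl, hil⟩)
  -- the inner one of the two robots is `i0`
  obtain ⟨i0, j0, hi0, hj0, hij, hle, hmax⟩ : ∃ i0 j0, i0 ∈ S ∧ j0 ∈ S ∧ i0 ≠ j0 ∧
      ‖x i0‖ ≤ ‖x j0‖ ∧ ∀ i ∈ S, ∀ l ∈ S, i ≠ l →
        (x i * (starRingEnd ℂ) (x l)).re / (‖x i‖ * ‖x l‖)
          ≤ (x i0 * (starRingEnd ℂ) (x j0)).re / (‖x i0‖ * ‖x j0‖) := by
    rcases le_total ‖x p.1‖ ‖x p.2‖ with hle | hle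
    · exact ⟨p.1, p.2, hp'.1, hp'.2.1, hp'.2.2, hle, hmax0⟩
    · refine ⟨p.2, p.1, hp'.2.1, hp'.1, hp'.2.2.symm, hle, ?_⟩
      intro i hi l hl hil
      refine le_trans (hmax0 i hi l hl hil) (le_of_eq ?_)
      rw [mul_comm ‖x p.1‖]
      congr 1
      rw [Complex.mul_re, Complex.mul_re, Complex.conj_re, Complex.conj_re, Complex.conj_im,
        Complex.conj_im]
      ring
  have hpos : 0 < ‖x i0‖ := by have := h1 i0 hi0; linarith
  have hx0 : x i0 ≠ 0 := norm_pos_iff.1 hpos
  set u : ℂ := x i0 / ‖x i0‖ with hu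
  have hun : ‖u‖ = 1 := by
    rw [hu, norm_div]; simp [hx0]
  have hxu : x i0 = ‖x i0‖ * u := by
    rw [hu]
    have : (‖x i0‖ : ℂ) ≠ 0 := by simpa using hx0
    field_simp
  have hconj : (starRingEnd ℂ) u * u = 1 := by
    rw [mul_comm, Complex.mul_conj, Complex.normSq_eq_norm_sq, hun]; simp
  set y : I → ℂ := fun j => (starRingEnd ℂ) u * x j with hy
  have hyn : ∀ j, ‖y j‖ = ‖x j‖ := by
    intro j; simp only [hy, norm_mul, RCLike.norm_conj, hun, one_mul]
  have hback : ∀ j, u * y j = x j := by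
    intro j; simp only [hy]; rw [← mul_assoc, mul_comm u, hconj, one_mul]
  have hy0 : y i0 = (‖x i0‖ : ℂ) := by
    show (starRingEnd ℂ) u * x i0 = _
    conv_lhs => rw [hxu]
    rw [mul_comm (‖x i0‖ : ℂ) u, ← mul_assoc, hconj, one_mul]
  have hpol0 : ∀ t : ℝ, pol t 0 = (t : ℂ) := by intro t; unfold pol; simp
  have hrey : ∀ i l, (y i * (starRingEnd ℂ) (y l)).re = (x i * (starRingEnd ℂ) (x l)).re := by
    intro i l
    congr 1
    simp only [hy, map_mul, Complex.conj_conj]
    calc (starRingEnd ℂ) u * x i * (u * (starRingEnd ℂ) (x l))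
        = ((starRingEnd ℂ) u * u) * (x i * (starRingEnd ℂ) (x l)) := by ring
      _ = _ := by rw [hconj, one_mul]
  rcases le_or_gt 0 (y j0).arg with harg | harg
  · exact partB_frame x y (fun z => u * z) (isometry_mul' u hun) hback S i0 j0 hi0 hj0 hij hyn
      h1 h2 (by rw [hyn, hpol0]; exact hy0) harg hle hrey hmax
  · -- mirror image
    refine partB_frame x (fun i => (starRingEnd ℂ) (y i)) (fun z => u * (starRingEnd ℂ) z)
      ((isometry_mul' u hun).comp isometry_conj) (fun i => ?_) S i0 j0 hi0 hj0 hij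
      (fun i => ?_) h1 h2 ?_ ?_ hle (fun i l => ?_) hmax
    · show u * (starRingEnd ℂ) ((starRingEnd ℂ) (y i)) = x i
      rw [Complex.conj_conj]; exact hback i
    · rw [RCLike.norm_conj]; exact hyn i
    · rw [RCLike.norm_conj, hyn, hpol0, hy0, Complex.conj_ofReal]
    · show 0 ≤ ((starRingEnd ℂ) (y j0)).arg
      rw [Complex.arg_conj]
      split_ifs with hpi
      · rw [hpi] at harg; linarith [Real.pi_pos]
      · linarith
    · rw [← hrey]
      simp only [Complex.mul_re, Complex.conj_re, Complex.conj_im]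
      ring

end FreezeTag

end

section

/-!
# Freeze-Tag: cosine table, distance tables, trapezoids

Angles are integer numbers of half degrees, lengths are integers in a unit `1 / U`.
-/

namespace FreezeTag

/-- packed table: entry `k` (32 bits) is `2 * 10 ^ 9 + c_k` -/
def clT : ℕ :=
  0x3b9ac5e03b9b5aa23b9d18da3ba000813ba411873ba94bd93bafaf5c3bb73bf13bbff1723bc9cfb23bd4d6823be105ab3bee5cee3bfcdc0a3c0c82b63c1d50a53c2f45823c4260f43c56a29b3c6c0a123c8296ef3c9a48c13cb31f113ccd19643ce837383d0478063d21db403d4060553d6006ab3d80cda53da2b4a03dc5baf13de9dfea3e0f22d73e3582fe3e5cffa03e8597f63eaf4b373eda18933f05ff333f32fe3e3f6114d13f9042083fc084f73ff1dcac402448324057c68d408c56bc40c1f7b940f8a877413067e7416934f141a30e7b41ddf3644219e2854256dab44294dac042d3e1744313ed954354fde44397111c43da25f3441e3b1b44634f3f44a9610744f06f154538780645817a7445cb74f14616660c46624c5046af264246fcf261474baf2b479b5b1547ebf492483d7a10488fe9f948e342af49378295498ca80549e2b1564a399cda4a9168e14aea13b44b439b9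84b9dfecf4bf93b954c5550234cb23aad4d0ff9644d6e8a754dcdec064e2e1c3c4e8f19374ef0e1124f5371e74fb6c9c8501ae6c7507fc6ef50e56848514bc8d951b2e6a1521abf9f528351cb52ec9b1d5356998653c14af5542cad575498be9255057c8d5572e52755e0f640564fadb156bf0952572f06f8579fa4735810df925882b61e58f525e159682c9f59dbc81a5a4ff6115ac4b4405b3a00605bafd8285c26394d5c9d217e5d148e6b5d8c7dc05e04ed265e7dda445ef742be5f7124375feb7c4f606648a260e186cb615d346561d94f056255d44062d2c1a8635014cf63cdcb43644be28f64ca5840654929dd65c854ef6647d6fa66c7ad816747d60767c84e0d6849131168ca2290694b7a0669cd16ee6a4ef6c16ad116f76b5375066bd60e636c58e0846cdbe8da6d5f24d96de291f06e662d906ee9f5296f6de6286ff1fdfc70763a1070fa97d1717f14aa7203ae0672886150730d2bf073920b517416fcda749bfdf675210c0b75a62482762b44c276b06a337735923d77baba47783fdfb878c4fff9794a186f79cf26847a5427a07ad919297b5df88a7be2c32a7c6776747cec0fd07d708ca97df4ea6a7e79267e7efd3e517f812f508004f6e880889288810bffa0818f3b9e821243f4829516148317af71839a0d80841c2db5849e0d88851faa7085a1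01e68622116586a2d66887234e6d87a376f388234d7b88a2cf858921fa9689a0cc338a1f41e38a9d59308b1b0fa38b9862c98c1550318c91d56c8d0df00b8d899da48e04dbcd8e7fa8208efa00378f73e1af8fed4a299066374690dea6ab9156960091ce02ec9244eb1d92bb4c419331240993a67029941b2e57948f5c4d9502f7c79575fe8495e86e47965a44d396cb7ff0973c1d6b97ac1b10981b76b0988a2e2198f83f399965a7d299d265cc9a3e77079aa9d9689b148ad69b7e893f9be7d28f9c5064bb9cb83db89d1f5b7f9d85bc0f9deb5d689e503d8f9eb45a8c9f17b26d9f7a43419fdc0b1ba03d0815a09d384ba0fc99dba15b2aeaa1b8e9a0a215d42aa271e8b7a2cd257ca32788b2a3811095a3d9bb66a431876ca48872f0a4de7c40a533a1afa587e193a5db3a49a62daa30a67f2fada6cfc92aa71f7513a76e31dba7bbfdf9a808d7eaa854be2da89faf47a8e9a9c3a932ac30a97ab520a9c1c32daa07d4f4aa4ce916aa90fe3daad41313ab162649ab573697ab9742b7abd6496aac144975ac5141a3ac8d30c3acc815aaad01ef33ad3abc3cad727baaada92c68addecd63ae135d91ae46dbebae79476faeaa9f24aedae211af0a0f46af3825d9af6524e2af910b81afbbd8dbafe58c1bb00e2470b035a110b05c0136b0814422b0a5691ab0c86f6ab0ea5663b10b1d5bb12ac3b0b14948c3b166abfdb182ecc9b19e0a9cb1b804eeb1d0db3db1e88d0db1ff19e8b214815eb228c304b23bde74b24dd350b25ea13db26e47e8b27cc703b28a1e45b2964d6bb2a1543ab2ab3279b2b3e7f9b2bb748cb2c1d80eb2c7125eb2cb2363b2ce0b09b2cfc940b2d05e00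

/-- `cl k / 10 ^ 9` is a lower bound of the cosine of `k` half degrees -/
def cl (k : ℕ) : ℤ := ((clT >>> (32 * k)) % 4294967296 : ℕ) - 2000000000

/-- check of the cosine table, running powers of the Gaussian integer -/
def clAll : ℕ → ℕ → ℤ → ℤ → ℤ → Bool
  | 0, _, _, _, _ => true
  | n + 1, m, R, J, P => decide ((cl m + 3 * m) * P ≤ R * 1000000000) &&
      clAll n (m + 1) (R * 999961923 - J * 8726535) (R * 8726535 + J * 999961923)
        (P * 1000000000)

theorem clAll_ok : clAll 361 0 1 0 1 = true := by decide +kernel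

theorem clAll_sound : ∀ (n m : ℕ) (R J P : ℤ), R = (gp 999961923 8726535 m).1 →
    J = (gp 999961923 8726535 m).2 → P = 1000000000 ^ m → clAll n m R J P = true →
    ∀ i, i < n → (cl (m + i) + 3 * ((m + i : ℕ) : ℤ)) * 1000000000 ^ (m + i) ≤
      (gp 999961923 8726535 (m + i)).1 * 1000000000 := by
  intro n
  induction n with
  | zero => intro m R J P _ _ _ _ i hi; exact absurd hi (Nat.not_lt_zero i)
  | succ n ih =>
    intro m R J P hR hJ hP h i hi
    unfold clAll at h
    rw [Bool.and_eq_true] at h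
    rcases Nat.eq_zero_or_pos i with rfl | hi0
    · have h1 := of_decide_eq_true h.1
      rw [Nat.add_zero, ← hR, ← hP]
      exact_mod_cast h1
    · have h2 := ih (m + 1) _ _ _ (by rw [hR, hJ]; rfl) (by rw [hR, hJ]; rfl)
        (by rw [hP]; ring) h.2 (i - 1) (by omega)
      have e : m + 1 + (i - 1) = m + i := by omega
      rwa [e] at h2

/-- lower bound of the cosine of `k` half degrees -/
theorem cl_le {k : ℕ} (hk : k ≤ 360) :
    (cl k : ℝ) / 1000000000 ≤ Real.cos (k * (Real.pi / 360)) := by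
  have h := clAll_sound 361 0 1 0 1 rfl rfl rfl clAll_ok k (by omega)
  rw [Nat.zero_add] at h
  have hAB : ((999961923 : ℤ) : ℝ) ^ 2 + ((8726535 : ℤ) : ℝ) ^ 2 ≤ 1000000000 ^ 2 := by norm_num
  have h1 := cos_step_lower half_degree hAB k
  have hP : (0 : ℝ) < 1000000000 ^ k := by positivity
  have h2 : ((cl k : ℝ) + 3 * (k : ℝ)) * 1000000000 ^ k ≤
      ((gp 999961923 8726535 k).1 : ℝ) * 1000000000 := by exact_mod_cast h
  have h3 : ((cl k : ℝ) + 3 * (k : ℝ)) / 1000000000 ≤
      ((gp 999961923 8726535 k).1 : ℝ) / 1000000000 ^ k := by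
    rw [div_le_div_iff₀ (by norm_num) hP]
    exact h2
  have h4 : ((cl k : ℝ) + 3 * (k : ℝ)) / 1000000000 =
      (cl k : ℝ) / 1000000000 + k * (3 / 1000000000) := by ring
  linarith

/-- the distance check -/
def dOK (Ra Rb k D : ℕ) : Bool :=
  decide (((Ra : ℤ) * Ra + (Rb : ℤ) * Rb) * 1000000000 - 2 * (Ra : ℤ) * Rb * cl k ≤
    (D : ℤ) * D * 1000000000)

theorem dist_of_check {U : ℝ} (hU : 0 < U) {Ra Rb k D : ℕ} (hk : k ≤ 360)
    (h : dOK Ra Rb k D = true) {α β : ℝ} (hαβ : |α - β| = k * (Real.pi / 360)) :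
    dist (pol (Ra / U) α) (pol (Rb / U) β) ≤ D / U := by
  have h0 := of_decide_eq_true h
  have h1 : (((Ra : ℝ) * Ra + (Rb : ℝ) * Rb) * 1000000000 - 2 * (Ra : ℝ) * Rb * (cl k : ℝ) ≤
    (D : ℝ) * D * 1000000000) := by exact_mod_cast h0
  have hc := cl_le hk
  have hcos : Real.cos (α - β) = Real.cos (k * (Real.pi / 360)) := by
    rw [← hαβ, Real.cos_abs]
  refine abs_le_of_sq_le_sq' ?_ (by positivity) |>.2
  rw [dist_pol_sq, hcos]
  have hab : (0 : ℝ) ≤ (Ra : ℝ) * Rb := by positivity
  have h2 : (Ra : ℝ) * Rb * ((cl k : ℝ) / 1000000000) ≤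
      (Ra : ℝ) * Rb * Real.cos (k * (Real.pi / 360)) := mul_le_mul_of_nonneg_left hc hab
  have e1 : ((Ra : ℝ) / U - Rb / U) ^ 2 +
      (Ra : ℝ) / U * (Rb / U) * (2 - 2 * Real.cos (k * (Real.pi / 360))) =
      ((Ra : ℝ) * Ra + (Rb : ℝ) * Rb - 2 * ((Ra : ℝ) * Rb * Real.cos (k * (Real.pi / 360))))
        / U ^ 2 := by
    field_simp; ring
  have e2 : ((D : ℝ) / U) ^ 2 = (D : ℝ) * D / U ^ 2 := by ring
  rw [e1, e2]
  refine div_le_div_of_nonneg_right ?_ (by positivity)
  nlinarith

/-- entry of a packed table (20 bit entries) -/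
def ent (tb i : ℕ) : ℕ := (tb >>> (20 * i)) % 1048576

/-- check of a whole packed distance table: types `a, b < nt` with radii `ent rd a`,
column differences `k ≤ C`, a column has `g` half degrees -/
def tabOK (rd tb nt C g : ℕ) : Bool :=
  decide (C * g ≤ 360) &&
  (List.range nt).all fun a => (List.range nt).all fun b => (List.range (C + 1)).all fun k =>
    dOK (ent rd a) (ent rd b) (k * g) (ent tb ((a * nt + b) * (C + 1) + k))

theorem tabOK_sound {U : ℝ} (hU : 0 < U) {rd tb nt C g : ℕ} (h : tabOK rd tb nt C g = true)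
    {a b k : ℕ} (ha : a < nt) (hb : b < nt) (hk : k ≤ C) {α β : ℝ}
    (hαβ : |α - β| = ((k * g : ℕ) : ℝ) * (Real.pi / 360)) :
    dist (pol (ent rd a / U) α) (pol (ent rd b / U) β) ≤
      ent tb ((a * nt + b) * (C + 1) + k) / U := by
  unfold tabOK at h
  rw [Bool.and_eq_true] at h
  have h1 := of_decide_eq_true h.1
  have h2 := h.2
  rw [List.all_eq_true] at h2
  have h3 := h2 a (List.mem_range.2 ha)
  rw [List.all_eq_true] at h3
  have h4 := h3 b (List.mem_range.2 hb)
  rw [List.all_eq_true] at h4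
  have h5 := h4 k (List.mem_range.2 (by omega))
  exact dist_of_check hU (le_trans (Nat.mul_le_mul_right g hk) h1) h5 hαβ

/-- check of an upper bound for an arc length -/
theorem arc_of_check {U : ℝ} (hU : 0 < U) {R k A : ℕ}
    (h : R * k * 314159266 ≤ A * 36000000000) :
    (R : ℝ) / U * ((k : ℝ) * (Real.pi / 360)) ≤ A / U := by
  have h1 : (R : ℝ) * k * 314159266 ≤ A * 36000000000 := by exact_mod_cast h
  have hpi : Real.pi ≤ 3.14159266 := by have := Real.pi_lt_d20; linarith
  have h0 : (0 : ℝ) ≤ (R : ℝ) * k := by positivity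
  have h2 : (R : ℝ) * k * Real.pi ≤ (R : ℝ) * k * 3.14159266 :=
    mul_le_mul_of_nonneg_left hpi h0
  have e : (R : ℝ) / U * ((k : ℝ) * (Real.pi / 360)) = (R : ℝ) * k * Real.pi / 360 / U := by
    ring
  rw [e]
  refine div_le_div_of_nonneg_right ?_ hU.le
  rw [div_le_iff₀ (by norm_num)]
  norm_num at h2
  nlinarith

/-- the point `exp (i θ)` in the frame of two unit vectors -/
theorem pol_frame {ρ θ θ0 θ1 : ℝ} (hs : Real.sin (θ1 - θ0) ≠ 0) :
    pol ρ θ = ((ρ * (Real.sin (θ1 - θ) / Real.sin (θ1 - θ0)) : ℝ) : ℂ) * pol 1 θ0 +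
      ((ρ * (Real.sin (θ - θ0) / Real.sin (θ1 - θ0)) : ℝ) : ℂ) * pol 1 θ1 := by
  apply Complex.ext
  · rw [Complex.add_re, Complex.re_ofReal_mul, Complex.re_ofReal_mul, pol_re, pol_re, pol_re]
    have : Real.sin (θ1 - θ0) * Real.cos θ =
        Real.sin (θ1 - θ) * Real.cos θ0 + Real.sin (θ - θ0) * Real.cos θ1 := by
      rw [Real.sin_sub, Real.sin_sub, Real.sin_sub]; ring
    field_simp
    linear_combination ρ * this
  · rw [Complex.add_im, Complex.im_ofReal_mul, Complex.im_ofReal_mul, pol_im, pol_im, pol_im]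
    have : Real.sin (θ1 - θ0) * Real.sin θ =
        Real.sin (θ1 - θ) * Real.sin θ0 + Real.sin (θ - θ0) * Real.sin θ1 := by
      rw [Real.sin_sub, Real.sin_sub, Real.sin_sub]; ring
    field_simp
    linear_combination ρ * this

theorem pol_scale (r θ : ℝ) : pol r θ = (r : ℂ) * pol 1 θ := by
  unfold pol; push_cast; ring

/-- A polar cell lies in the trapezoid with vertices on its two rays. -/
theorem inHull_cell {r1 r2 s2 θ0 θ1 : ℝ} (hr1 : 0 ≤ r1) (h12 : r1 ≤ r2) (h01 : θ0 < θ1)
    (hπ : θ1 - θ0 < Real.pi) (hs2 : r2 ≤ s2 * Real.cos ((θ1 - θ0) / 2)) :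
    InHull (PR r1 r2 θ0 θ1) ![pol r1 θ0, pol r1 θ1, pol s2 θ0, pol s2 θ1] := by
  rintro z ⟨ρ, θ, hρ1, hρ2, hθ0, hθ1, rfl⟩
  set h : ℝ := θ1 - θ0 with hh
  have hpos : 0 < h := by rw [hh]; linarith
  have hsin : 0 < Real.sin h := Real.sin_pos_of_pos_of_lt_pi hpos hπ
  have hcosh : 0 < Real.cos (h / 2) :=
    Real.cos_pos_of_mem_Ioo ⟨by linarith [Real.pi_pos], by linarith⟩
  have hsinh : 0 < Real.sin (h / 2) :=
    Real.sin_pos_of_pos_of_lt_pi (by linarith) (by linarith [Real.pi_pos])
  set a : ℝ := Real.sin (θ1 - θ) / Real.sin h with ha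
  set b : ℝ := Real.sin (θ - θ0) / Real.sin h with hb
  have ha0 : 0 ≤ a := div_nonneg
    (Real.sin_nonneg_of_nonneg_of_le_pi (by linarith) (by linarith)) hsin.le
  have hb0 : 0 ≤ b := div_nonneg
    (Real.sin_nonneg_of_nonneg_of_le_pi (by linarith) (by linarith)) hsin.le
  -- `a + b = cos (θ - m) / cos (h / 2)`
  have hab : (a + b) * Real.cos (h / 2) = Real.cos (θ - (θ0 + θ1) / 2) := by
    have e1 : Real.sin (θ1 - θ) + Real.sin (θ - θ0) =
        2 * Real.sin (h / 2) * Real.cos (θ - (θ0 + θ1) / 2) := by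
      have x1 : θ1 - θ = h / 2 - (θ - (θ0 + θ1) / 2) := by rw [hh]; ring
      have x2 : θ - θ0 = h / 2 + (θ - (θ0 + θ1) / 2) := by rw [hh]; ring
      rw [x1, x2, Real.sin_sub, Real.sin_add]; ring
    have e2 : Real.sin h = 2 * Real.sin (h / 2) * Real.cos (h / 2) := by
      rw [← Real.sin_two_mul]; congr 1; ring
    have e3 : a + b = (Real.sin (θ1 - θ) + Real.sin (θ - θ0)) / Real.sin h := by
      rw [ha, hb]; ring
    rw [e3, e1, e2]
    field_simp
  have habs : |θ - (θ0 + θ1) / 2| ≤ h / 2 := by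
    rw [abs_le]; constructor <;> rw [hh] <;> linarith
  have hcge : Real.cos (h / 2) ≤ Real.cos (θ - (θ0 + θ1) / 2) := by
    rw [← Real.cos_abs (θ - (θ0 + θ1) / 2)]
    exact Real.cos_le_cos_of_nonneg_of_le_pi (abs_nonneg _) (by linarith [Real.pi_pos]) habs
  have hab1 : 1 ≤ a + b := by
    by_contra hlt
    push Not at hlt
    have := mul_lt_mul_of_pos_right hlt hcosh
    linarith
  have hab2 : (a + b) * Real.cos (h / 2) ≤ 1 := by rw [hab]; exact Real.cos_le_one _
  have habpos : 0 < a + b := by linarith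
  have hρ0 : 0 ≤ ρ := hr1.trans hρ1
  have hs20 : 0 ≤ s2 := by
    by_contra hneg
    push Not at hneg
    have h1 := mul_neg_of_neg_of_pos hneg hcosh
    linarith
  set K : ℝ := ρ * (a + b) with hK
  have hK1 : r1 ≤ K := by rw [hK]; nlinarith
  have hK2 : K ≤ s2 := by
    have h1 : K * Real.cos (h / 2) ≤ s2 * Real.cos (h / 2) := by
      have h2 : K * Real.cos (h / 2) = ρ * ((a + b) * Real.cos (h / 2)) := by rw [hK]; ring
      rw [h2]
      have h3 : ρ * ((a + b) * Real.cos (h / 2)) ≤ ρ * 1 := mul_le_mul_of_nonneg_left hab2 hρ0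
      linarith
    exact le_of_mul_le_mul_right h1 hcosh
  -- radial weight
  obtain ⟨μ, hμ0, hμ1, hμ⟩ : ∃ μ : ℝ, 0 ≤ μ ∧ μ ≤ 1 ∧ K = (1 - μ) * r1 + μ * s2 := by
    rcases eq_or_lt_of_le (hK1.trans hK2) with he | hlt
    · exact ⟨0, le_rfl, zero_le_one, by
        have : K = r1 := le_antisymm (by linarith) hK1
        rw [this]; ring⟩
    · have hd : 0 < s2 - r1 := sub_pos.2 hlt
      refine ⟨(K - r1) / (s2 - r1), div_nonneg (by linarith) hd.le, ?_, ?_⟩
      · rw [div_le_one hd]; linarith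
      · field_simp; ring
  set la : ℝ := a / (a + b) with hla
  set lb : ℝ := b / (a + b) with hlb
  have hla0 : 0 ≤ la := div_nonneg ha0 habpos.le
  have hlb0 : 0 ≤ lb := div_nonneg hb0 habpos.le
  have hlab : la + lb = 1 := by rw [hla, hlb]; field_simp
  refine ⟨![(1 - μ) * la, (1 - μ) * lb, μ * la, μ * lb], ⟨?_, ?_⟩, ?_⟩
  · intro i
    have h1μ : 0 ≤ 1 - μ := by linarith
    fin_cases i
    · exact mul_nonneg h1μ hla0
    · exact mul_nonneg h1μ hlb0
    · exact mul_nonneg hμ0 hla0
    · exact mul_nonneg hμ0 hlb0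
  · rw [Fin.sum_univ_four]
    show (1 - μ) * la + (1 - μ) * lb + μ * la + μ * lb = 1
    have : (1 - μ) * la + (1 - μ) * lb + μ * la + μ * lb = la + lb := by ring
    rw [this, hlab]
  · rw [Fin.sum_univ_four]
    show pol ρ θ = (((1 - μ) * la : ℝ) : ℂ) * pol r1 θ0 + (((1 - μ) * lb : ℝ) : ℂ) * pol r1 θ1 +
      ((μ * la : ℝ) : ℂ) * pol s2 θ0 + ((μ * lb : ℝ) : ℂ) * pol s2 θ1
    rw [pol_frame (θ0 := θ0) (θ1 := θ1) hsin.ne', pol_scale r1 θ0, pol_scale r1 θ1,
      pol_scale s2 θ0, pol_scale s2 θ1]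
    have e1 : ρ * a = la * K := by rw [hla, hK]; field_simp
    have e2 : ρ * b = lb * K := by rw [hlb, hK]; field_simp
    have e3 : ((ρ * (Real.sin (θ1 - θ) / Real.sin (θ1 - θ0)) : ℝ) : ℂ) = ((la * K : ℝ) : ℂ) := by
      rw [← e1]
    have e4 : ((ρ * (Real.sin (θ - θ0) / Real.sin (θ1 - θ0)) : ℝ) : ℂ) = ((lb * K : ℝ) : ℂ) := by
      rw [← e2]
    rw [e3, e4, hμ]
    push_cast
    ring

/-- integer check for the outer radius of a trapezoid of `g` half degrees -/
theorem outer_of_check {U : ℝ} (hU : 0 < U) {r2 s2 g : ℕ} (hg : g ≤ 360)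
    (h : 2 * (r2 : ℤ) * r2 * 1000000000 ≤ (s2 : ℤ) * s2 * (1000000000 + cl g)) :
    (r2 : ℝ) / U ≤ s2 / U * Real.cos ((g * (Real.pi / 360)) / 2) := by
  have h1 : 2 * (r2 : ℝ) * r2 * 1000000000 ≤ (s2 : ℝ) * s2 * (1000000000 + (cl g : ℝ)) := by
    exact_mod_cast h
  have hc := cl_le hg
  set x : ℝ := g * (Real.pi / 360) with hx
  have hg' : (g : ℝ) ≤ 360 := by exact_mod_cast hg
  have hx0 : 0 ≤ x := by rw [hx]; positivity
  have hxπ : x ≤ Real.pi := by
    rw [hx]
    have := mul_le_mul_of_nonneg_right hg' (by positivity : (0:ℝ) ≤ Real.pi / 360)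
    linarith
  have hcos0 : 0 ≤ Real.cos (x / 2) :=
    Real.cos_nonneg_of_mem_Icc ⟨by linarith [Real.pi_pos], by linarith⟩
  have hsq : Real.cos (x / 2) ^ 2 = (1 + Real.cos x) / 2 := by
    rw [Real.cos_sq]; have : 2 * (x / 2) = x := by ring
    rw [this]; ring
  have h2 : (r2 : ℝ) ^ 2 ≤ (s2 * Real.cos (x / 2)) ^ 2 := by
    rw [mul_pow, hsq]
    have h3 : (s2 : ℝ) ^ 2 * ((cl g : ℝ) / 1000000000) ≤ (s2 : ℝ) ^ 2 * Real.cos x :=
      mul_le_mul_of_nonneg_left hc (by positivity)
    nlinarith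
  have h4 : (r2 : ℝ) ≤ s2 * Real.cos (x / 2) :=
    abs_le_of_sq_le_sq' h2 (by positivity) |>.2
  have e : (s2 : ℝ) / U * Real.cos (x / 2) = s2 * Real.cos (x / 2) / U := by ring
  rw [e]
  exact div_le_div_of_nonneg_right h4 hU.le

end FreezeTag

end

section

/-!
# Freeze-Tag, part A: from block certificates to `PartA`
-/

namespace FreezeTag

/-- discrete intermediate value -/
theorem exists_step {f : ℕ → ℝ} {x : ℝ} : ∀ {n : ℕ}, 0 < n → f 0 ≤ x → x ≤ f n →
    ∃ i, i < n ∧ f i ≤ x ∧ x ≤ f (i + 1) := by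
  intro n
  induction n with
  | zero => intro h _ _; exact absurd h (lt_irrefl 0)
  | succ n ih =>
    intro _ h0 h1
    rcases Nat.eq_zero_or_pos n with rfl | hn
    · exact ⟨0, by omega, h0, by simpa using h1⟩
    · rcases le_total x (f n) with h | h
      · obtain ⟨i, hi, h2, h3⟩ := ih hn h0 h
        exact ⟨i, by omega, h2, h3⟩
      · exact ⟨n, by omega, h, h1⟩

/-- A polar rectangle is covered by the cells of a grid. -/
theorem PR_cover {ρs θs : ℕ → ℝ} {L C : ℕ} (hL : 0 < L) (hC : 0 < C) {z : ℂ}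
    (hz : z ∈ PR (ρs 0) (ρs L) (θs 0) (θs C)) :
    ∃ l c, l < L ∧ c < C ∧ z ∈ PR (ρs l) (ρs (l + 1)) (θs c) (θs (c + 1)) := by
  obtain ⟨ρ, θ, h1, h2, h3, h4, rfl⟩ := hz
  obtain ⟨l, hl, h5, h6⟩ := exists_step hL h1 h2
  obtain ⟨c, hc, h7, h8⟩ := exists_step hC h3 h4
  exact ⟨l, c, hl, hc, ρ, θ, h5, h6, h7, h8, rfl⟩

/-- points of the closed upper half annulus in polar coordinates -/
theorem mem_PR_of_half {ra : ℝ} {z : ℂ} (h1 : ra ≤ ‖z‖) (h2 : ‖z‖ ≤ 1) (h3 : 0 ≤ z.im) :
    z ∈ PR ra 1 0 Real.pi := by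
  refine ⟨‖z‖, Complex.arg z, h1, h2, Complex.arg_nonneg_iff.2 h3, Complex.arg_le_pi z, ?_⟩
  unfold pol
  exact (Complex.norm_mul_exp_arg_mul_I z).symm

theorem pol_zero_angle (r : ℝ) : pol r 0 = (r : ℂ) := by
  unfold pol; simp

/-- The statement for all starting radii of an interval. -/
def BlockA (ra rb : ℝ) : Prop := ∀ r : ℝ, ra ≤ r → r ≤ rb → ∀ (I : Type) [DecidableEq I]
  (x : I → ℂ) (S : Finset I), (∀ i ∈ S, r ≤ ‖x i‖ ∧ ‖x i‖ ≤ 1 ∧ 0 ≤ (x i).im) →
  Serve x S (r : ℂ) (1 + 2 * Real.sqrt 2 - r)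

theorem BlockA.trans {a b c : ℝ} (h1 : BlockA a b) (h2 : BlockA b c) : BlockA a c := by
  intro r hr1 hr2
  rcases le_total r b with h | h
  · exact h1 r hr1 h
  · exact h2 r h hr2

theorem PartA_of_block {r0 b : ℝ} (h : BlockA 0 b) (hb : r0 ≤ b) : PartA r0 :=
  fun r hr0 hr => h r hr0 (hr.trans hb)

theorem BlockA.mono {a b a' b' : ℝ} (h : BlockA a b) (ha : a ≤ a') (hb : b' ≤ b) :
    BlockA a' b' := fun r hr1 hr2 => h r (ha.trans hr1) (hr2.trans hb)

/-- From a certificate with two start vertices to the interval of starting radii. -/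
theorem blockA_of_claim {ra rb T : ℝ} {R : Set ℂ} (hab : ra ≤ rb)
    (hT : T ≤ 1 + 2 * Real.sqrt 2) (hR : PR ra 1 0 Real.pi ⊆ R)
    (h : Claim ![pol ra 0, pol rb 0] ![T - ra, T - rb] R) : BlockA ra rb := by
  intro r hr1 hr2 I _ x S hS
  obtain ⟨μ, hμ0, hμ1, hμ⟩ : ∃ μ : ℝ, 0 ≤ μ ∧ μ ≤ 1 ∧ r = (1 - μ) * ra + μ * rb := by
    rcases eq_or_lt_of_le hab with he | hlt
    · exact ⟨0, le_rfl, zero_le_one, by
        have : r = ra := le_antisymm (by linarith) hr1
        rw [this]; ring⟩
    · have hd : 0 < rb - ra := sub_pos.2 hlt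
      refine ⟨(r - ra) / (rb - ra), div_nonneg (by linarith) hd.le, ?_, ?_⟩
      · rw [div_le_one hd]; linarith
      · field_simp; ring
  have hw : Wt ![1 - μ, μ] := by
    refine ⟨?_, ?_⟩
    · intro i
      fin_cases i
      · show 0 ≤ 1 - μ
        linarith
      · exact hμ0
    · rw [Fin.sum_univ_two]
      show 1 - μ + μ = 1
      ring
  have h1 := h I x S (fun i hi => hR (mem_PR_of_half (hr1.trans (hS i hi).1) (hS i hi).2.1
    (hS i hi).2.2)) ![1 - μ, μ] hw
  have e1 : (∑ a, ((![1 - μ, μ] : Fin 2 → ℝ) a : ℂ) * (![pol ra 0, pol rb 0] : Fin 2 → ℂ) a) =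
      (r : ℂ) := by
    rw [Fin.sum_univ_two]
    show ((1 - μ : ℝ) : ℂ) * pol ra 0 + ((μ : ℝ) : ℂ) * pol rb 0 = (r : ℂ)
    rw [pol_zero_angle, pol_zero_angle, hμ]
    push_cast
    ring
  have e2 : (∑ a, (![1 - μ, μ] : Fin 2 → ℝ) a * (![T - ra, T - rb] : Fin 2 → ℝ) a) = T - r := by
    rw [Fin.sum_univ_two]
    show (1 - μ) * (T - ra) + μ * (T - rb) = T - r
    rw [hμ]; ring
  rw [e1, e2] at h1
  exact h1.mono (by linarith)

/-- numerical form of the target -/
theorem target_num : (3.828427 : ℝ) ≤ 1 + 2 * Real.sqrt 2 := by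
  have h : (1.4142135 : ℝ) ≤ Real.sqrt 2 := by
    apply Real.le_sqrt_of_sq_le
    norm_num
  linarith

end FreezeTag

end

section

/-!
# Freeze-Tag, part A: the checker of the elimination certificate

Units: lengths are integers in units of `1/100000`, angles are numbers of columns of `g` half
degrees.  The alive set is a natural number, bit `c * L + l` stands for the cell in column `c` and
row `l`.
-/

namespace FreezeTag

/-- evaluate the argument before going on (kernel evaluation) -/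
def force (n : ℕ) (f : ℕ → Bool) : Bool :=
  Nat.rec (motive := fun _ => Bool) (f 0) (fun m _ => f (Nat.succ m)) n

theorem force_eq (n : ℕ) (f : ℕ → Bool) : force n f = f n := by cases n <;> rfl

/-- `10 ^ 9 (2 + c)`, `c` a lower bound of the cosine of `k` half degrees -/
def ce (k : ℕ) : ℕ := Nat.mod (Nat.shiftRight clT (Nat.mul 32 k)) 4294967296

theorem cl_eq_ce (k : ℕ) : cl k = (ce k : ℤ) - 2000000000 := rfl

/-- distance test by squares -/
def dle (a b k w : ℕ) : Bool :=
  and (Nat.ble k 360)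
    (Nat.ble (Nat.mul (Nat.add (Nat.add (Nat.mul a a) (Nat.mul b b)) (Nat.mul 4 (Nat.mul a b)))
      1000000000)
    (Nat.add (Nat.mul (Nat.mul w w) 1000000000) (Nat.mul (Nat.mul 2 (Nat.mul a b)) (ce k))))

/-- angle of column `c` -/
noncomputable def th (g c : ℕ) : ℝ := ((c * g : ℕ) : ℝ) * (Real.pi / 360)

/-- angular difference of two columns, in half degrees -/
def kd (g c c' : ℕ) : ℕ := Nat.mul g (Nat.add (Nat.sub c c') (Nat.sub c' c))

theorem kd_spec (g c c' : ℕ) : |th g c - th g c'| = (kd g c c' : ℝ) * (Real.pi / 360) := by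
  have hπ : 0 ≤ Real.pi / 360 := by positivity
  unfold th
  rw [← sub_mul, abs_mul, abs_of_nonneg hπ]
  congr 1
  have e : kd g c c' = g * ((c - c') + (c' - c)) := rfl
  rw [e]
  rcases le_total c c' with h | h
  · rw [Nat.sub_eq_zero_of_le h, Nat.zero_add, abs_sub_comm, abs_of_nonneg]
    · push_cast [Nat.cast_sub h]; ring
    · rw [sub_nonneg]; exact_mod_cast Nat.mul_le_mul_right g h
  · rw [Nat.sub_eq_zero_of_le h, Nat.add_zero, abs_of_nonneg]
    · push_cast [Nat.cast_sub h]; ring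
    · rw [sub_nonneg]; exact_mod_cast Nat.mul_le_mul_right g h

theorem dle_sound {a b k w : ℕ} (h : dle a b k w = true) {α β : ℝ}
    (hαβ : |α - β| = (k : ℝ) * (Real.pi / 360)) :
    dist (pol ((a : ℝ) / 100000) α) (pol ((b : ℝ) / 100000) β) ≤ (w : ℝ) / 100000 := by
  unfold dle at h
  rw [Bool.and_eq_true] at h
  have hk : k ≤ 360 := Nat.le_of_ble_eq_true h.1
  have h2 := Nat.le_of_ble_eq_true h.2
  have h3 : (a * a + b * b + 4 * (a * b)) * 1000000000 ≤
      w * w * 1000000000 + 2 * (a * b) * ce k := h2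
  refine dist_of_check (by norm_num) hk ?_ hαβ
  unfold dOK
  refine decide_eq_true ?_
  rw [cl_eq_ce]
  have h4 : ((a : ℤ) * a + b * b + 4 * (a * b)) * 1000000000 ≤
      (w : ℤ) * w * 1000000000 + 2 * (a * b) * ce k := by exact_mod_cast h3
  nlinarith

/-- state of the awake robot: two radii, two columns, four times -/
structure St where
  Ra : ℕ
  Rb : ℕ
  c0 : ℕ
  c1 : ℕ
  t0 : ℕ
  t1 : ℕ
  t2 : ℕ
  t3 : ℕ

/-- the four vertices -/
noncomputable def vtx (g : ℕ) (s : St) : Fin 4 → ℂ :=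
  ![pol ((s.Ra : ℝ) / 100000) (th g s.c0), pol ((s.Ra : ℝ) / 100000) (th g s.c1),
    pol ((s.Rb : ℝ) / 100000) (th g s.c0), pol ((s.Rb : ℝ) / 100000) (th g s.c1)]

/-- the four times -/
noncomputable def tms (s : St) : Fin 4 → ℝ :=
  ![(s.t0 : ℝ) / 100000, (s.t1 : ℝ) / 100000, (s.t2 : ℝ) / 100000, (s.t3 : ℝ) / 100000]

/-- one move: from the vertex `(R, c)` at time `t` to the point `(R', c')` at time `u` left -/
def mv (g R c t R' c' u : ℕ) : Bool :=
  and (Nat.ble u t) (dle R R' (kd g c c') (Nat.sub t u))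

theorem mv_sound {g R c t R' c' u : ℕ} (h : mv g R c t R' c' u = true) :
    (u : ℝ) / 100000 + dist (pol ((R : ℝ) / 100000) (th g c)) (pol ((R' : ℝ) / 100000) (th g c'))
      ≤ (t : ℝ) / 100000 := by
  unfold mv at h
  rw [Bool.and_eq_true] at h
  have h1 : u ≤ t := Nat.le_of_ble_eq_true h.1
  have h2 := dle_sound h.2 (kd_spec g c c')
  have e : ((Nat.sub t u : ℕ) : ℝ) = (t : ℝ) - u := Nat.cast_sub h1
  rw [e] at h2
  have e2 : ((t : ℝ) - u) / 100000 = t / 100000 - u / 100000 := by ring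
  linarith

/-- moves from all four vertices -/
def mv4 (g : ℕ) (s : St) (R' c' u : ℕ) : Bool :=
  and (and (mv g s.Ra s.c0 s.t0 R' c' u) (mv g s.Ra s.c1 s.t1 R' c' u))
    (and (mv g s.Rb s.c0 s.t2 R' c' u) (mv g s.Rb s.c1 s.t3 R' c' u))

theorem mv4_sound {g : ℕ} {s : St} {R' c' u : ℕ} (h : mv4 g s R' c' u = true) (a : Fin 4) :
    (u : ℝ) / 100000 + dist (vtx g s a) (pol ((R' : ℝ) / 100000) (th g c')) ≤ tms s a := by
  unfold mv4 at h
  rw [Bool.and_eq_true, Bool.and_eq_true, Bool.and_eq_true] at h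
  obtain ⟨⟨h1, h2⟩, h3, h4⟩ := h
  fin_cases a
  · exact mv_sound h1
  · exact mv_sound h2
  · exact mv_sound h3
  · exact mv_sound h4

/-- entry `i` of the radius table -/
def rad (rd i : ℕ) : ℕ := Nat.mod (Nat.shiftRight rd (Nat.mul 20 i)) 1048576

/-- the region of an alive set -/
def Reg (L g rd S : ℕ) : Set ℂ :=
  {z | ∃ c l, l < L ∧ S.testBit (c * L + l) = true ∧
    z ∈ PR ((rad rd l : ℝ) / 100000) ((rad rd (l + 1) : ℝ) / 100000) (th g c) (th g (c + 1))}

/-- `1 + 2 ^ L + ... + 2 ^ (L (C - 1))` -/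
def rowsM (L : ℕ) : ℕ → ℕ
  | 0 => 0
  | C + 1 => Nat.add (Nat.mul (rowsM L C) (Nat.pow 2 L)) 1

theorem rowsM_testBit {L x : ℕ} (hx : x < 2 ^ L) : ∀ (C c l : ℕ), l < L →
    (x * rowsM L C).testBit (c * L + l) = true → x.testBit l = true := by
  intro C
  induction C with
  | zero => intro c l _ h; simp [rowsM] at h
  | succ C ih =>
    intro c l hl h
    have e : x * rowsM L (C + 1) = 2 ^ L * (x * rowsM L C) + x := by
      have e0 : rowsM L (C + 1) = rowsM L C * 2 ^ L + 1 := rfl
      rw [e0]; ring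
    rw [e, Nat.testBit_two_pow_mul_add _ hx] at h
    rcases Nat.eq_zero_or_pos c with rfl | hc
    · rw [Nat.zero_mul, Nat.zero_add, if_pos hl] at h
      exact h
    · have h1 : ¬ c * L + l < L := by
        have := Nat.mul_le_mul_right L hc
        omega
      rw [if_neg h1] at h
      have e1 : c * L + l - L = (c - 1) * L + l := by
        obtain ⟨d, rfl⟩ : ∃ d, c = d + 1 := ⟨c - 1, by omega⟩
        rw [Nat.add_sub_cancel, Nat.add_mul]; omega
      rw [e1] at h
      exact ih (c - 1) l hl h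

/-- mask of the rectangle of columns `[b0, b1)` and rows `[j0, j1)` -/
def rect (L R0 b0 b1 j0 j1 : ℕ) : ℕ :=
  Nat.land (Nat.shiftLeft (Nat.sub (Nat.pow 2 (Nat.mul L (Nat.sub b1 b0))) 1) (Nat.mul L b0))
    (Nat.mul (Nat.shiftLeft (Nat.sub (Nat.pow 2 (Nat.sub j1 j0)) 1) j0) R0)

theorem rect_testBit {L C b0 b1 j0 j1 c l : ℕ} (hb : b0 ≤ b1) (hj : j0 ≤ j1) (hjL : j1 ≤ L)
    (hl : l < L) (h : (rect L (rowsM L C) b0 b1 j0 j1).testBit (c * L + l) = true) :
    (b0 ≤ c ∧ c < b1) ∧ (j0 ≤ l ∧ l < j1) := by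
  have e : rect L (rowsM L C) b0 b1 j0 j1 =
      ((2 ^ (L * (b1 - b0)) - 1) <<< (L * b0)) &&& (((2 ^ (j1 - j0) - 1) <<< j0) * rowsM L C) := rfl
  rw [e, Nat.testBit_land, Bool.and_eq_true] at h
  obtain ⟨h1, h2⟩ := h
  constructor
  · rw [Nat.testBit_shiftLeft, Bool.and_eq_true, Nat.testBit_two_pow_sub_one] at h1
    have h3 := of_decide_eq_true h1.1
    have h4 := of_decide_eq_true h1.2
    constructor
    · by_contra hlt
      push Not at hlt
      have : (c + 1) * L ≤ L * b0 := by
        rw [Nat.mul_comm L b0]; exact Nat.mul_le_mul_right L hlt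
      rw [Nat.add_mul] at this
      omega
    · by_contra hlt
      push Not at hlt
      have h5 : b1 * L ≤ c * L := Nat.mul_le_mul_right L hlt
      have h6 : L * (b1 - b0) + L * b0 = b1 * L := by
        rw [← Nat.mul_add, Nat.sub_add_cancel hb, Nat.mul_comm]
      omega
  · have hx : (2 ^ (j1 - j0) - 1) <<< j0 < 2 ^ L := by
      rw [Nat.shiftLeft_eq]
      have h3 : (2 ^ (j1 - j0) - 1) * 2 ^ j0 < 2 ^ (j1 - j0) * 2 ^ j0 :=
        Nat.mul_lt_mul_of_pos_right (Nat.sub_lt (by positivity) (by norm_num)) (by positivity)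
      rw [← pow_add, Nat.sub_add_cancel hj] at h3
      exact h3.trans_le (Nat.pow_le_pow_right (by norm_num) hjL)
    have h3 := rowsM_testBit hx C c l hl h2
    rw [Nat.testBit_shiftLeft, Bool.and_eq_true, Nat.testBit_two_pow_sub_one] at h3
    have h4 := of_decide_eq_true h3.1
    have h5 := of_decide_eq_true h3.2
    omega

/-- the radii increase -/
def MonoR (L rd : ℕ) : Prop := ∀ l, l < L → rad rd l ≤ rad rd (l + 1)

theorem MonoR.le {L rd : ℕ} (h : MonoR L rd) : ∀ {i j : ℕ}, i ≤ j → j ≤ L →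
    rad rd i ≤ rad rd j := by
  intro i j hij
  induction hij with
  | refl => intro _; exact le_rfl
  | step hm ih => intro hj; exact (ih (by omega)).trans (h _ (by omega))

theorem th_mono (g : ℕ) {c c' : ℕ} (h : c ≤ c') : th g c ≤ th g c' := by
  unfold th
  have h1 : ((c * g : ℕ) : ℝ) ≤ ((c' * g : ℕ) : ℝ) := by exact_mod_cast Nat.mul_le_mul_right g h
  exact mul_le_mul_of_nonneg_right h1 (by positivity)

theorem PR_mono {r1 r2 α β r1' r2' α' β' : ℝ} (h1 : r1' ≤ r1) (h2 : r2 ≤ r2') (h3 : α' ≤ α)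
    (h4 : β ≤ β') : PR r1 r2 α β ⊆ PR r1' r2' α' β' := by
  rintro z ⟨ρ, θ, a1, a2, a3, a4, rfl⟩
  exact ⟨ρ, θ, h1.trans a1, a2.trans h2, h3.trans a3, a4.trans h4, rfl⟩

/-- a cell of a rectangle lies in the rectangle -/
theorem cell_in_rect {L C g rd b0 b1 j0 j1 c l : ℕ} (hR : MonoR L rd) (hb : b0 ≤ b1)
    (hj : j0 ≤ j1) (hjL : j1 ≤ L) (hl : l < L)
    (h : (rect L (rowsM L C) b0 b1 j0 j1).testBit (c * L + l) = true) :
    PR ((rad rd l : ℝ) / 100000) ((rad rd (l + 1) : ℝ) / 100000) (th g c) (th g (c + 1)) ⊆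
      PR ((rad rd j0 : ℝ) / 100000) ((rad rd j1 : ℝ) / 100000) (th g b0) (th g b1) := by
  obtain ⟨⟨h1, h2⟩, h3, h4⟩ := rect_testBit hb hj hjL hl h
  refine PR_mono ?_ ?_ (th_mono g h1) (th_mono g h2)
  · have := hR.le h3 (by omega)
    have h5 : (rad rd j0 : ℝ) ≤ rad rd l := by exact_mod_cast this
    linarith
  · have := hR.le (show l + 1 ≤ j1 by omega) hjL
    have h5 : (rad rd (l + 1) : ℝ) ≤ rad rd j1 := by exact_mod_cast this
    linarith

/-- upper bound of an arc -/
def arcA (r k : ℕ) : ℕ := Nat.succ (Nat.div (Nat.mul (Nat.mul r k) 314159266) 36000000000)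

theorem arcA_spec (r k : ℕ) : r * k * 314159266 ≤ arcA r k * 36000000000 := by
  have e : arcA r k = r * k * 314159266 / 36000000000 + 1 := rfl
  rw [e]
  omega

/-- upper bound of `kn / kd' * x` -/
def kapL (kn kd' x : ℕ) : ℕ := Nat.succ (Nat.div (Nat.mul kn x) kd')

theorem kapL_spec {kn kd' : ℕ} (hkd : 0 < kd') (x : ℕ) :
    (kn : ℝ) / kd' * x ≤ (kapL kn kd' x : ℝ) := by
  have e : kapL kn kd' x = kn * x / kd' + 1 := rfl
  have h1 : kn * x < (kn * x / kd' + 1) * kd' := by
    have h2 := Nat.div_add_mod (kn * x) kd'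
    have h3 := Nat.mod_lt (kn * x) hkd
    calc kn * x = kd' * (kn * x / kd') + kn * x % kd' := h2.symm
      _ < kd' * (kn * x / kd') + kd' := by omega
      _ = (kn * x / kd' + 1) * kd' := by ring
  have h2 : ((kn * x : ℕ) : ℝ) ≤ (((kn * x / kd' + 1) * kd' : ℕ) : ℝ) := by
    exact_mod_cast h1.le
  have h3 : (0 : ℝ) < kd' := by exact_mod_cast hkd
  have e1 : (kn : ℝ) / kd' * x = ((kn * x : ℕ) : ℝ) / kd' := by push_cast; ring
  rw [e1, div_le_iff₀ h3, e]
  rw [Nat.cast_mul (kn * x / kd' + 1)] at h2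
  exact h2

/-- the leaf test; `h` is the hint (direction, columns, rows) -/
def leafT (L g R0 rd kn kd' : ℕ) (s : St) (S h : ℕ) : Bool :=
  or (Nat.beq S 0)
    (force (Nat.mod (Nat.shiftRight h 2) 256) fun c1 =>
     force (Nat.mod (Nat.shiftRight h 10) 256) fun c2 =>
     force (Nat.mod (Nat.shiftRight h 18) 32) fun i1 =>
     force (Nat.mod (Nat.shiftRight h 23) 32) fun i2 =>
      and (and (and (Nat.ble c1 c2) (Nat.ble i1 i2)) (and (Nat.ble i2 L)
          (Nat.beq (Nat.land S (rect L R0 c1 c2 i1 i2)) S)))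
        (force (rad rd i1) fun r1 => force (rad rd i2) fun r2 =>
         force (arcA r2 (kd g c2 c1)) fun A =>
          cond (Nat.ble (Nat.mod h 4) 1)
            (force (Nat.add A (kapL kn kd' (Nat.sub r2 r1))) fun len =>
              cond (Nat.ble (Nat.mod h 4) 0)
                (and (mv4 g s r1 c1 len) (mv4 g s r2 c1 len))
                (and (mv4 g s r1 c2 len) (mv4 g s r2 c2 len)))
            (force (Nat.add (Nat.sub r2 r1) (kapL kn kd' A)) fun len =>
              cond (Nat.ble (Nat.mod h 4) 2)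
                (and (mv4 g s r1 c1 len) (mv4 g s r1 c2 len))
                (and (mv4 g s r2 c1 len) (mv4 g s r2 c2 len)))))

/-- positions of the vertices: the angle difference to a tested point is at most `π` -/
theorem mv_angle {g R c t R' c' u : ℕ} (h : mv g R c t R' c' u = true) :
    |th g c - th g c'| ≤ Real.pi := by
  unfold mv at h
  rw [Bool.and_eq_true] at h
  have h2 := h.2
  unfold dle at h2
  rw [Bool.and_eq_true] at h2
  have hk : kd g c c' ≤ 360 := Nat.le_of_ble_eq_true h2.1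
  rw [kd_spec]
  have h3 : ((kd g c c' : ℕ) : ℝ) ≤ 360 := by exact_mod_cast hk
  have hπ := Real.pi_pos
  calc ((kd g c c' : ℕ) : ℝ) * (Real.pi / 360) ≤ 360 * (Real.pi / 360) :=
        mul_le_mul_of_nonneg_right h3 (by positivity)
    _ = Real.pi := by ring

/-- distance from the vertices to the points of an arc -/
theorem arc4 {g : ℕ} {s : St} {R c1 c2 len : ℕ} (h1 : mv4 g s R c1 len = true)
    (h2 : mv4 g s R c2 len = true) (a : Fin 4) (θ : ℝ) (hθ1 : th g c1 ≤ θ) (hθ2 : θ ≤ th g c2) :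
    dist (vtx g s a) (pol ((R : ℝ) / 100000) θ) ≤ tms s a - (len : ℝ) / 100000 := by
  unfold mv4 at h1 h2
  rw [Bool.and_eq_true, Bool.and_eq_true, Bool.and_eq_true] at h1 h2
  obtain ⟨⟨a1, a2⟩, a3, a4⟩ := h1
  obtain ⟨⟨b1, b2⟩, b3, b4⟩ := h2
  have key : ∀ (R0 c t : ℕ), mv g R0 c t R c1 len = true → mv g R0 c t R c2 len = true →
      dist (pol ((R0 : ℝ) / 100000) (th g c)) (pol ((R : ℝ) / 100000) θ) ≤
        (t : ℝ) / 100000 - (len : ℝ) / 100000 := by
    intro R0 c t x1 x2
    exact dist_arc_le (by positivity) (by positivity) hθ1 hθ2 (mv_angle x1) (mv_angle x2)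
      (by linarith [mv_sound x1]) (by linarith [mv_sound x2])
  fin_cases a
  · exact key _ _ _ a1 b1
  · exact key _ _ _ a2 b2
  · exact key _ _ _ a3 b3
  · exact key _ _ _ a4 b4

theorem leafT_sound {L C g rd kn kd' : ℕ} (hκ : FlatK ((kn : ℝ) / kd')) (hkd : 0 < kd')
    (hR : MonoR L rd) {s : St} {S h : ℕ}
    (hc : leafT L g (rowsM L C) rd kn kd' s S h = true) :
    Claim (vtx g s) (tms s) (Reg L g rd S) := by
  have hκ0 : (0 : ℝ) ≤ (kn : ℝ) / kd' := by positivity
  unfold leafT at hc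
  simp only [force_eq] at hc
  rw [Bool.or_eq_true] at hc
  rcases hc with h0 | hc
  · have hS : S = 0 := Nat.eq_of_beq_eq_true h0
    have hempty : Reg L g rd S = ∅ := by
      ext z
      simp [Reg, hS]
    rw [hempty]
    exact Claim.empty
  generalize Nat.mod (Nat.shiftRight h 2) 256 = c1 at hc
  generalize Nat.mod (Nat.shiftRight h 10) 256 = c2 at hc
  generalize Nat.mod (Nat.shiftRight h 18) 32 = i1 at hc
  generalize Nat.mod (Nat.shiftRight h 23) 32 = i2 at hc
  generalize Nat.mod h 4 = dir at hc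
  rw [Bool.and_eq_true, Bool.and_eq_true, Bool.and_eq_true, Bool.and_eq_true] at hc
  obtain ⟨⟨⟨x1, x2⟩, x3, x4⟩, x5⟩ := hc
  have y1 : c1 ≤ c2 := Nat.le_of_ble_eq_true x1
  have y2 : i1 ≤ i2 := Nat.le_of_ble_eq_true x2
  have y3 : i2 ≤ L := Nat.le_of_ble_eq_true x3
  have y4 : S &&& rect L (rowsM L C) c1 c2 i1 i2 = S := Nat.eq_of_beq_eq_true x4
  have hr12 : rad rd i1 ≤ rad rd i2 := hR.le y2 y3
  -- the region is inside the polar rectangle
  have hsub : Reg L g rd S ⊆
      PR ((rad rd i1 : ℝ) / 100000) ((rad rd i2 : ℝ) / 100000) (th g c1) (th g c2) := by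
    rintro z ⟨c, l, hl, hb, hz⟩
    rw [← y4, Nat.testBit_land, Bool.and_eq_true] at hb
    exact cell_in_rect hR y1 y2 y3 hl hb.2 hz
  refine Claim.mono ?_ (fun a => le_rfl) hsub
  generalize rad rd i1 = r1 at x5 hr12 ⊢
  generalize rad rd i2 = r2 at x5 hr12 ⊢
  have hr12' : (r1 : ℝ) ≤ r2 := by exact_mod_cast hr12
  -- arc length
  have hth : th g c2 - th g c1 = ((kd g c2 c1 : ℕ) : ℝ) * (Real.pi / 360) := by
    rw [← kd_spec, abs_of_nonneg (sub_nonneg.2 (th_mono g y1))]
  have harc : (r2 : ℝ) / 100000 * (th g c2 - th g c1) ≤ (arcA r2 (kd g c2 c1) : ℝ) / 100000 := by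
    rw [hth]
    exact arc_of_check (by norm_num) (arcA_spec _ _)
  generalize arcA r2 (kd g c2 c1) = A at x5 harc
  have hdiv : ∀ x : ℕ, (kn : ℝ) / kd' * x ≤ (kapL kn kd' x : ℝ) := kapL_spec hkd
  have hsub' : ((Nat.sub r2 r1 : ℕ) : ℝ) = (r2 : ℝ) - r1 := Nat.cast_sub hr12
  have hr0 : (0 : ℝ) ≤ (r1 : ℝ) / 100000 := by positivity
  rcases Bool.eq_false_or_eq_true (Nat.ble dir 1) with hd | hd
  · rw [hd] at x5
    have hlen' : (r2 : ℝ) / 100000 * (th g c2 - th g c1) +
        (kn : ℝ) / kd' * ((r2 : ℝ) / 100000 - (r1 : ℝ) / 100000) ≤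
          ((Nat.add A (kapL kn kd' (Nat.sub r2 r1)) : ℕ) : ℝ) / 100000 := by
      have h1 := hdiv (Nat.sub r2 r1)
      have e : ((Nat.add A (kapL kn kd' (Nat.sub r2 r1)) : ℕ) : ℝ) = (A : ℝ) +
          (kapL kn kd' (Nat.sub r2 r1) : ℝ) := Nat.cast_add _ _
      generalize kapL kn kd' (Nat.sub r2 r1) = K at h1 e ⊢
      rw [hsub'] at h1
      have e2 : (kn : ℝ) / kd' * ((r2 : ℝ) / 100000 - (r1 : ℝ) / 100000) =
          (kn : ℝ) / kd' * ((r2 : ℝ) - r1) / 100000 := by ring
      rw [e, e2, add_div]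
      have h2 : (kn : ℝ) / kd' * ((r2 : ℝ) - r1) / 100000 ≤ (K : ℝ) / 100000 :=
        div_le_div_of_nonneg_right h1 (by norm_num)
      linarith
    generalize Nat.add A (kapL kn kd' (Nat.sub r2 r1)) = len at x5 hlen'
    rw [cond_true] at x5
    rcases Bool.eq_false_or_eq_true (Nat.ble dir 0) with hd2 | hd2
    · rw [hd2, cond_true, Bool.and_eq_true] at x5
      refine Claim.leafUpK hκ0 hκ hr0 (fun a => ?_) fun a => ?_
      · have := mv4_sound x5.1 a; linarith
      · have := mv4_sound x5.2 a; linarith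
    · rw [hd2, cond_false, Bool.and_eq_true] at x5
      refine Claim.leafDownK hκ0 hκ hr0 (fun a => ?_) fun a => ?_
      · have := mv4_sound x5.1 a; linarith
      · have := mv4_sound x5.2 a; linarith
  · rw [hd, cond_false] at x5
    have hlen' : ((r2 : ℝ) / 100000 - (r1 : ℝ) / 100000) +
        (kn : ℝ) / kd' * ((r2 : ℝ) / 100000 * (th g c2 - th g c1)) ≤
          ((Nat.add (Nat.sub r2 r1) (kapL kn kd' A) : ℕ) : ℝ) / 100000 := by
      have h1 := hdiv A
      have e : ((Nat.add (Nat.sub r2 r1) (kapL kn kd' A) : ℕ) : ℝ) = ((r2 : ℝ) - r1) +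
          (kapL kn kd' A : ℝ) := by
        rw [← hsub']; exact Nat.cast_add _ _
      generalize kapL kn kd' A = K at h1 e ⊢
      have h3 : (kn : ℝ) / kd' * ((r2 : ℝ) / 100000 * (th g c2 - th g c1)) ≤
          (kn : ℝ) / kd' * ((A : ℝ) / 100000) := mul_le_mul_of_nonneg_left harc hκ0
      have e2 : (kn : ℝ) / kd' * ((A : ℝ) / 100000) = (kn : ℝ) / kd' * A / 100000 := by ring
      rw [e, add_div, sub_div]
      have h2 : (kn : ℝ) / kd' * A / 100000 ≤ (K : ℝ) / 100000 :=
        div_le_div_of_nonneg_right h1 (by norm_num)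
      linarith
    generalize Nat.add (Nat.sub r2 r1) (kapL kn kd' A) = len at x5 hlen'
    rcases Bool.eq_false_or_eq_true (Nat.ble dir 2) with hd2 | hd2
    · rw [hd2, cond_true, Bool.and_eq_true] at x5
      exact Claim.leafOutK hκ0 hκ hr0 (D := fun a => tms s a - (len : ℝ) / 100000)
        (fun a θ h1 h2 => arc4 x5.1 x5.2 a θ h1 h2) fun a => by linarith
    · rw [hd2, cond_false, Bool.and_eq_true] at x5
      exact Claim.leafInK hκ0 hκ hr0 (D := fun a => tms s a - (len : ℝ) / 100000)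
        (fun a θ h1 h2 => arc4 x5.1 x5.2 a θ h1 h2) fun a => by linarith

end FreezeTag

end

section

/-!
# Freeze-Tag, part A: the stream checker and its soundness
-/

namespace FreezeTag

/-- conditions of a block step: `s'` has its vertices around the block of columns `[b0, b1)` and
rows `[j0, j1)` -/
def stepT (L g rd : ℕ) (s : St) (b0 b1 j0 j1 r1 so u0 u1 u2 u3 : ℕ) : Bool :=
  and (and (and (Nat.blt b0 b1) (Nat.ble j0 j1))
      (and (Nat.ble j1 L) (Nat.blt (Nat.mul g (Nat.sub b1 b0)) 360)))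
    (and (force (rad rd j1) fun r2 => force (Nat.mul so so) fun q =>
        Nat.ble (Nat.mul (Nat.add (Nat.mul 2 (Nat.mul r2 r2)) q) 1000000000)
          (Nat.mul q (ce (Nat.mul g (Nat.sub b1 b0)))))
      (and (and (mv4 g s r1 b0 u0) (mv4 g s r1 b1 u1)) (and (mv4 g s so b0 u2) (mv4 g s so b1 u3))))

theorem stepT_sound {L g rd : ℕ} (hg : 0 < g) (hR : MonoR L rd) {s : St}
    {b0 b1 j0 j1 so u0 u1 u2 u3 : ℕ}
    (h : stepT L g rd s b0 b1 j0 j1 (rad rd j0) so u0 u1 u2 u3 = true) :
    (b0 ≤ b1 ∧ j0 ≤ j1 ∧ j1 ≤ L) ∧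
    InHull (PR ((rad rd j0 : ℝ) / 100000) ((rad rd j1 : ℝ) / 100000) (th g b0) (th g b1))
      (vtx g ⟨rad rd j0, so, b0, b1, u0, u1, u2, u3⟩) ∧
    (∀ a b, tms ⟨rad rd j0, so, b0, b1, u0, u1, u2, u3⟩ b +
      dist (vtx g s a) (vtx g ⟨rad rd j0, so, b0, b1, u0, u1, u2, u3⟩ b) ≤ tms s a) := by
  unfold stepT at h
  simp only [force_eq] at h
  rw [Bool.and_eq_true, Bool.and_eq_true, Bool.and_eq_true, Bool.and_eq_true, Bool.and_eq_true,
    Bool.and_eq_true, Bool.and_eq_true, Bool.and_eq_true] at h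
  obtain ⟨⟨⟨x1, x2⟩, x3, x4⟩, x5, ⟨x6, x7⟩, x8, x9⟩ := h
  have y1 : b0 < b1 := by
    have := Nat.le_of_ble_eq_true x1
    omega
  have y2 : j0 ≤ j1 := Nat.le_of_ble_eq_true x2
  have y3 : j1 ≤ L := Nat.le_of_ble_eq_true x3
  have y4 : g * (b1 - b0) < 360 := by
    have := Nat.le_of_ble_eq_true x4
    exact this
  have y5 : (2 * (rad rd j1 * rad rd j1) + so * so) * 1000000000 ≤
      so * so * ce (g * (b1 - b0)) := Nat.le_of_ble_eq_true x5
  refine ⟨⟨y1.le, y2, y3⟩, ?_, ?_⟩
  · have hk : kd g b1 b0 = g * (b1 - b0) := by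
      have e : kd g b1 b0 = g * ((b1 - b0) + (b0 - b1)) := rfl
      rw [e, Nat.sub_eq_zero_of_le y1.le, Nat.add_zero]
    have hdiff : th g b1 - th g b0 = ((g * (b1 - b0) : ℕ) : ℝ) * (Real.pi / 360) := by
      rw [← hk, ← kd_spec, abs_of_nonneg (sub_nonneg.2 (th_mono g y1.le))]
    have hlt : ((g * (b1 - b0) : ℕ) : ℝ) < 360 := by exact_mod_cast y4
    have hπ := Real.pi_pos
    have hπ2 : th g b1 - th g b0 < Real.pi := by
      rw [hdiff]
      calc ((g * (b1 - b0) : ℕ) : ℝ) * (Real.pi / 360) < 360 * (Real.pi / 360) :=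
            mul_lt_mul_of_pos_right hlt (by positivity)
        _ = Real.pi := by ring
    have h01 : th g b0 < th g b1 := by
      have h1 : 0 < th g b1 - th g b0 := by
        rw [hdiff]
        have : 0 < g * (b1 - b0) := Nat.mul_pos hg (by omega)
        have h2 : (0 : ℝ) < ((g * (b1 - b0) : ℕ) : ℝ) := by exact_mod_cast this
        positivity
      linarith
    refine inHull_cell (by positivity) ?_ h01 hπ2 ?_
    · have h1 : (rad rd j0 : ℝ) ≤ rad rd j1 := by exact_mod_cast hR.le y2 y3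
      linarith
    · rw [hdiff]
      refine outer_of_check (by norm_num) (by omega) ?_
      rw [cl_eq_ce]
      have h4 : (2 * ((rad rd j1 : ℤ) * rad rd j1) + so * so) * 1000000000 ≤
        (so : ℤ) * so * ce (g * (b1 - b0)) := by exact_mod_cast y5
      nlinarith
  · intro a b
    fin_cases b
    · exact mv4_sound x6 a
    · exact mv4_sound x7 a
    · exact mv4_sound x8 a
    · exact mv4_sound x9 a

/-- a goal: serve every finite set inside the region of `S` from the state `s` -/
structure Goal where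
  s : St
  S : ℕ

/-- the meaning of a goal -/
def GoalOK (L g rd : ℕ) (G : Goal) : Prop := Claim (vtx g G.s) (tms G.s) (Reg L g rd G.S)

/-- field of an entry -/
def fld (e off m : ℕ) : ℕ := Nat.mod (Nat.shiftRight e off) m

/-- processing of a block step, all fields evaluated -/
def stepE (L g R0 rd kn kd' : ℕ) (ih : List Goal → Bool) (s : St) (S : ℕ) (gs : List Goal)
    (e b0 b1 j0 j1 so u0 u1 u2 u3 r1 : ℕ) : Bool :=
  and (stepT L g rd s b0 b1 j0 j1 r1 so u0 u1 u2 u3)
    (force (Nat.land S (cond (Nat.beq (fld e 3 2) 0)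
        (Nat.sub (Nat.pow 2 (Nat.mul L (fld e 4 256))) 1)
        (Nat.mul R0 (Nat.sub (Nat.pow 2 (fld e 4 256)) 1)))) fun A =>
     force (Nat.xor S A) fun B =>
     force (Nat.xor S (Nat.land S (rect L R0 b0 b1 j0 j1))) fun S' =>
      and (or (Nat.beq (fld e 1 2) 1)
          (leafT L g R0 rd kn kd' ⟨r1, so, b0, b1, u0, u1, u2, u3⟩ A (fld e 138 268435456)))
        (and (or (Nat.beq (fld e 2 2) 1)
            (leafT L g R0 rd kn kd' ⟨r1, so, b0, b1, u0, u1, u2, u3⟩ B (fld e 166 268435456)))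
          (ih (cond (Nat.beq (fld e 1 2) 1)
            (⟨⟨r1, so, b0, b1, u0, u1, u2, u3⟩, A⟩ ::
              cond (Nat.beq (fld e 2 2) 1)
                (⟨⟨r1, so, b0, b1, u0, u1, u2, u3⟩, B⟩ ::
                  cond (Nat.beq S' 0) gs (⟨s, S'⟩ :: gs))
                (cond (Nat.beq S' 0) gs (⟨s, S'⟩ :: gs)))
            (cond (Nat.beq (fld e 2 2) 1)
                (⟨⟨r1, so, b0, b1, u0, u1, u2, u3⟩, B⟩ ::
                  cond (Nat.beq S' 0) gs (⟨s, S'⟩ :: gs))
                (cond (Nat.beq S' 0) gs (⟨s, S'⟩ :: gs)))))))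

/-- processing of one entry -/
def entryT (L g R0 rd kn kd' e : ℕ) (ih : List Goal → Bool) : List Goal → Bool
  | [] => false
  | ⟨s, S⟩ :: gs =>
    cond (Nat.beq (Nat.mod e 2) 0)
      (and (leafT L g R0 rd kn kd' s S (Nat.shiftRight e 1)) (ih gs))
      (force (fld e 12 256) fun b0 => force (fld e 20 256) fun b1 =>
       force (fld e 28 32) fun j0 => force (fld e 33 32) fun j1 =>
       force (fld e 38 1048576) fun so =>
       force (fld e 58 1048576) fun u0 => force (fld e 78 1048576) fun u1 =>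
       force (fld e 98 1048576) fun u2 => force (fld e 118 1048576) fun u3 =>
       force (rad rd j0) fun r1 =>
        stepE L g R0 rd kn kd' ih s S gs e b0 b1 j0 j1 so u0 u1 u2 u3 r1)

/-- the stream checker -/
def run (L g R0 rd kn kd' : ℕ) (l : List ℕ) : List Goal → Bool :=
  List.rec (motive := fun _ => List Goal → Bool) (fun gs => gs.isEmpty)
    (fun e _ ih gs => entryT L g R0 rd kn kd' e ih gs) l

theorem stepE_sound {L C g rd kn kd' : ℕ} (hκ : FlatK ((kn : ℝ) / kd')) (hkd : 0 < kd')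
    (hg : 0 < g) (hR : MonoR L rd) {ih : List Goal → Bool}
    (hih : ∀ gs, ih gs = true → ∀ G ∈ gs, GoalOK L g rd G) {s : St} {S : ℕ} {gs : List Goal}
    {e b0 b1 j0 j1 so u0 u1 u2 u3 : ℕ}
    (h : stepE L g (rowsM L C) rd kn kd' ih s S gs e b0 b1 j0 j1 so u0 u1 u2 u3 (rad rd j0) = true) :
    ∀ G ∈ (⟨s, S⟩ :: gs : List Goal), GoalOK L g rd G := by
  unfold stepE at h
  simp only [force_eq] at h
  rw [Bool.and_eq_true, Bool.and_eq_true, Bool.and_eq_true] at h
  obtain ⟨h1, h2, h3, h4⟩ := h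
  obtain ⟨⟨z1, z2, z3⟩, hH, hd⟩ := stepT_sound hg hR h1
  set s' : St := ⟨rad rd j0, so, b0, b1, u0, u1, u2, u3⟩ with hs'
  generalize (cond (Nat.beq (fld e 3 2) 0)
        (Nat.sub (Nat.pow 2 (Nat.mul L (fld e 4 256))) 1)
        (Nat.mul (rowsM L C) (Nat.sub (Nat.pow 2 (fld e 4 256)) 1))) = M at h2 h3 h4
  have eA : Nat.land S M = S &&& M := rfl
  rw [eA] at h2 h3 h4
  have eB : Nat.xor S (S &&& M) = S ^^^ (S &&& M) := rfl
  rw [eB] at h3 h4
  have eS : Nat.xor S (Nat.land S (rect L (rowsM L C) b0 b1 j0 j1)) =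
      S ^^^ (S &&& rect L (rowsM L C) b0 b1 j0 j1) := rfl
  rw [eS] at h4
  set A := S &&& M with hA
  set B := S ^^^ A with hB
  set S' := S ^^^ (S &&& rect L (rowsM L C) b0 b1 j0 j1) with hS'
  -- the rest
  obtain ⟨rest0, hr0⟩ : ∃ r, r = cond (Nat.beq S' 0) gs (⟨s, S'⟩ :: gs) := ⟨_, rfl⟩
  rw [← hr0] at h4
  obtain ⟨rest1, hr1⟩ : ∃ r, r = cond (Nat.beq (fld e 2 2) 1) (⟨s', B⟩ :: rest0) rest0 := ⟨_, rfl⟩
  rw [← hr1] at h4
  have hall := hih _ h4
  -- claim of the share A
  have hrest1 : ∀ G ∈ rest1, GoalOK L g rd G := by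
    intro G hG
    refine hall G ?_
    rcases Bool.eq_false_or_eq_true (Nat.beq (fld e 1 2) 1) with hb | hb
    · rw [hb, cond_true]; exact List.mem_cons_of_mem _ hG
    · rw [hb, cond_false]; exact hG
  have hrest0 : ∀ G ∈ rest0, GoalOK L g rd G := by
    intro G hG
    refine hrest1 G ?_
    rw [hr1]
    rcases Bool.eq_false_or_eq_true (Nat.beq (fld e 2 2) 1) with hb | hb
    · rw [hb, cond_true]; exact List.mem_cons_of_mem _ hG
    · rw [hb, cond_false]; exact hG
  have cA : Claim (vtx g s') (tms s') (Reg L g rd A) := by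
    rw [Bool.or_eq_true] at h2
    rcases h2 with hb | hl
    · have : GoalOK L g rd ⟨s', A⟩ := hall _ (by
        rw [hb, cond_true]; exact List.mem_cons_self)
      exact this
    · exact leafT_sound hκ hkd hR hl
  have cB : Claim (vtx g s') (tms s') (Reg L g rd B) := by
    rw [Bool.or_eq_true] at h3
    rcases h3 with hb | hl
    · have : GoalOK L g rd ⟨s', B⟩ := hrest1 _ (by
        rw [hr1, hb, cond_true]; exact List.mem_cons_self)
      exact this
    · exact leafT_sound hκ hkd hR hl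
  have cS : Claim (vtx g s) (tms s) (Reg L g rd S') := by
    rcases Bool.eq_false_or_eq_true (Nat.beq S' 0) with hb | hb
    · have h0 : S' = 0 := Nat.eq_of_beq_eq_true hb
      have hempty : Reg L g rd S' = ∅ := by
        ext z
        simp [Reg, h0]
      rw [hempty]
      exact Claim.empty
    · have : GoalOK L g rd ⟨s, S'⟩ := hrest0 _ (by
        rw [hr0, hb, cond_false]; exact List.mem_cons_self)
      exact this
  have cgs : ∀ G ∈ gs, GoalOK L g rd G := by
    intro G hG
    refine hrest0 G ?_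
    rw [hr0]
    rcases Bool.eq_false_or_eq_true (Nat.beq S' 0) with hb | hb
    · rw [hb, cond_true]; exact hG
    · rw [hb, cond_false]; exact List.mem_cons_of_mem _ hG
  intro G hG
  rcases List.mem_cons.1 hG with rfl | hG
  · show Claim (vtx g s) (tms s) (Reg L g rd S)
    refine Claim.elim hH ?_ ?_ ?_ (fun a b => hd a b) cA cB cS
    · rintro z ⟨c, l, hl, hb, hz⟩
      by_cases hr : (rect L (rowsM L C) b0 b1 j0 j1).testBit (c * L + l) = true
      · exact Or.inl (cell_in_rect hR z1 z2 z3 hl hr hz)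
      · refine Or.inr ⟨c, l, hl, ?_, hz⟩
        rw [hS', Nat.testBit_xor, Nat.testBit_land, hb]
        simp only [Bool.not_eq_true] at hr
        rw [hr]; rfl
    · rintro z ⟨c, l, hl, hb, hz⟩
      by_cases hr : A.testBit (c * L + l) = true
      · exact Or.inl ⟨c, l, hl, hr, hz⟩
      · refine Or.inr ⟨c, l, hl, ?_, hz⟩
        rw [hB, Nat.testBit_xor, hb]
        simp only [Bool.not_eq_true] at hr
        rw [hr]; rfl
    · intro b
      fin_cases b
      · show (0 : ℝ) ≤ (u0 : ℝ) / 100000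
        positivity
      · show (0 : ℝ) ≤ (u1 : ℝ) / 100000
        positivity
      · show (0 : ℝ) ≤ (u2 : ℝ) / 100000
        positivity
      · show (0 : ℝ) ≤ (u3 : ℝ) / 100000
        positivity
  · exact cgs G hG

theorem entryT_sound {L C g rd kn kd' : ℕ} (hκ : FlatK ((kn : ℝ) / kd')) (hkd : 0 < kd')
    (hg : 0 < g) (hR : MonoR L rd) {e : ℕ} {ih : List Goal → Bool}
    (hih : ∀ gs, ih gs = true → ∀ G ∈ gs, GoalOK L g rd G) {gs : List Goal}
    (h : entryT L g (rowsM L C) rd kn kd' e ih gs = true) :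
    ∀ G ∈ gs, GoalOK L g rd G := by
  rcases gs with _ | ⟨⟨s, S⟩, gs⟩
  · intro G hG; simp at hG
  · unfold entryT at h
    rcases Bool.eq_false_or_eq_true (Nat.beq (Nat.mod e 2) 0) with hb | hb
    · simp only [hb, cond_true, Bool.and_eq_true] at h
      intro G hG
      rcases List.mem_cons.1 hG with rfl | hG
      · exact leafT_sound hκ hkd hR h.1
      · exact hih gs h.2 G hG
    · simp only [hb, cond_false, force_eq] at h
      exact stepE_sound hκ hkd hg hR hih h

theorem run_sound {L C g rd kn kd' : ℕ} (hκ : FlatK ((kn : ℝ) / kd')) (hkd : 0 < kd')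
    (hg : 0 < g) (hR : MonoR L rd) : ∀ (l : List ℕ) (gs : List Goal),
    run L g (rowsM L C) rd kn kd' l gs = true → ∀ G ∈ gs, GoalOK L g rd G := by
  intro l
  induction l with
  | nil =>
    intro gs h G hG
    have h' : gs.isEmpty = true := h
    rw [List.isEmpty_iff] at h'
    rw [h'] at hG
    simp at hG
  | cons e l ih =>
    intro gs h
    exact entryT_sound hκ hkd hg hR ih h

/-- the radii increase, Boolean form -/
def monoB (rd : ℕ) : ℕ → Bool
  | 0 => true
  | l + 1 => and (Nat.ble (rad rd l) (rad rd (Nat.succ l))) (monoB rd l)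

theorem monoB_sound {rd : ℕ} : ∀ {L : ℕ}, monoB rd L = true → MonoR L rd := by
  intro L
  induction L with
  | zero => intro _ l hl; exact absurd hl (Nat.not_lt_zero l)
  | succ L ih =>
    intro h l hl
    unfold monoB at h
    rw [Bool.and_eq_true] at h
    rcases Nat.lt_succ_iff_lt_or_eq.1 hl with h1 | rfl
    · exact ih h.2 l h1
    · exact Nat.le_of_ble_eq_true h.1

/-- the check of a whole block -/
def blockT (L C g rd rb kn kd' : ℕ) (l : List ℕ) : Bool :=
  and (and (and (Nat.beq (Nat.mul C g) 360) (Nat.ble 1 L)) (and (monoB rd L)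
      (Nat.beq (rad rd L) 100000)))
    (force (rad rd 0) fun ra => and (and (Nat.ble ra rb) (Nat.ble rb 382842))
      (force (rowsM L C) fun R0 => force (Nat.sub 382842 ra) fun ta =>
       force (Nat.sub 382842 rb) fun tb =>
       force (Nat.sub (Nat.pow 2 (Nat.mul L C)) 1) fun S =>
        run L g R0 rd kn kd' l [⟨⟨ra, rb, 0, 0, ta, ta, tb, tb⟩, S⟩]))

theorem Claim.two_of_four {v : Fin 4 → ℂ} {t : Fin 4 → ℝ} {R : Set ℂ} (h : Claim v t R) :
    Claim ![v 0, v 2] ![t 0, t 2] R := by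
  intro I _ x S hS w hw
  have h1 := h I x S hS ![w 0, 0, w 1, 0] ⟨?_, ?_⟩
  · have e1 : (∑ a, ((![w 0, 0, w 1, 0] : Fin 4 → ℝ) a : ℂ) * v a) =
        ∑ a, (w a : ℂ) * (![v 0, v 2] : Fin 2 → ℂ) a := by
      rw [Fin.sum_univ_four, Fin.sum_univ_two]
      simp
    have e2 : (∑ a, (![w 0, 0, w 1, 0] : Fin 4 → ℝ) a * t a) =
        ∑ a, w a * (![t 0, t 2] : Fin 2 → ℝ) a := by
      rw [Fin.sum_univ_four, Fin.sum_univ_two]
      simp
    rw [e1, e2] at h1
    exact h1
  · intro a
    fin_cases a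
    · exact hw.1 0
    · exact le_rfl
    · exact hw.1 1
    · exact le_rfl
  · have h2 := hw.2
    rw [Fin.sum_univ_two] at h2
    rw [Fin.sum_univ_four]
    show w 0 + 0 + w 1 + 0 = 1
    linarith

theorem blockT_sound {L C g rd rb kn kd' : ℕ} {l : List ℕ}
    (h : blockT L C g rd rb kn kd' l = true) (hκ : FlatK ((kn : ℝ) / kd')) (hkd : 0 < kd') :
    BlockA ((rad rd 0 : ℝ) / 100000) ((rb : ℝ) / 100000) := by
  unfold blockT at h
  simp only [force_eq] at h
  rw [Bool.and_eq_true, Bool.and_eq_true, Bool.and_eq_true, Bool.and_eq_true, Bool.and_eq_true,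
    Bool.and_eq_true] at h
  obtain ⟨⟨⟨x1, x2⟩, x3, x4⟩, ⟨x5, x6⟩, x7⟩ := h
  have y1 : C * g = 360 := Nat.eq_of_beq_eq_true x1
  have y2 : 1 ≤ L := Nat.le_of_ble_eq_true x2
  have y3 := monoB_sound x3
  have y4 : rad rd L = 100000 := Nat.eq_of_beq_eq_true x4
  have y5 : rad rd 0 ≤ rb := Nat.le_of_ble_eq_true x5
  have y6 : rb ≤ 382842 := Nat.le_of_ble_eq_true x6
  have hg : 0 < g := by
    rcases Nat.eq_zero_or_pos g with h0 | h0
    · rw [h0, Nat.mul_zero] at y1; omega
    · exact h0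
  have hC : 0 < C := by
    rcases Nat.eq_zero_or_pos C with h0 | h0
    · rw [h0, Nat.zero_mul] at y1; omega
    · exact h0
  have hcl := (run_sound hκ hkd hg y3 l _ x7 _ List.mem_cons_self)
  have hcl2 := Claim.two_of_four hcl
  have hth0 : th g 0 = 0 := by unfold th; simp
  have hthC : th g C = Real.pi := by
    unfold th
    rw [y1]
    push_cast
    ring
  have hT1 : (3.82842 : ℝ) ≤ 1 + 2 * Real.sqrt 2 := by
    have := target_num
    linarith
  refine blockA_of_claim (T := 3.82842) (R := Reg L g rd (Nat.sub (Nat.pow 2 (Nat.mul L C)) 1))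
    ?_ hT1 ?_ ?_
  · have : (rad rd 0 : ℝ) ≤ rb := by exact_mod_cast y5
    linarith
  · intro z hz
    have hz' : z ∈ PR ((fun i => (rad rd i : ℝ) / 100000) 0) ((fun i => (rad rd i : ℝ) / 100000) L)
        (th g 0) (th g C) := by
      have e : (fun i => (rad rd i : ℝ) / 100000) L = 1 := by
        show (rad rd L : ℝ) / 100000 = 1
        rw [y4]; norm_num
      rw [e, hth0, hthC]
      exact hz
    obtain ⟨i, c, hi, hc, hz2⟩ := PR_cover (ρs := fun i => (rad rd i : ℝ) / 100000) (θs := th g)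
      (by omega) hC hz'
    refine ⟨c, i, hi, ?_, hz2⟩
    have e : Nat.sub (Nat.pow 2 (Nat.mul L C)) 1 = 2 ^ (L * C) - 1 := rfl
    rw [e, Nat.testBit_two_pow_sub_one]
    refine decide_eq_true ?_
    calc c * L + i < c * L + L := by omega
      _ = (c + 1) * L := by ring
      _ ≤ C * L := Nat.mul_le_mul_right L hc
      _ = L * C := Nat.mul_comm _ _
  · have e1 : (![pol ((rad rd 0 : ℝ) / 100000) 0, pol ((rb : ℝ) / 100000) 0] : Fin 2 → ℂ) =
        ![pol ((rad rd 0 : ℝ) / 100000) (th g 0), pol ((rb : ℝ) / 100000) (th g 0)] := by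
      rw [hth0]
    rw [e1]
    refine Claim.mono hcl2 (fun a => ?_) (fun z hz => hz)
    have y7 : rad rd 0 ≤ 382842 := y5.trans y6
    fin_cases a
    · show ((Nat.sub 382842 (rad rd 0) : ℕ) : ℝ) / 100000 ≤ 3.82842 - (rad rd 0 : ℝ) / 100000
      have e2 : ((Nat.sub 382842 (rad rd 0) : ℕ) : ℝ) = 382842 - (rad rd 0 : ℝ) := by
        have := Nat.cast_sub (R := ℝ) y7
        push_cast at this
        exact this
      rw [e2]
      linarith
    · show ((Nat.sub 382842 rb : ℕ) : ℝ) / 100000 ≤ 3.82842 - (rb : ℝ) / 100000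
      have e2 : ((Nat.sub 382842 rb : ℕ) : ℝ) = 382842 - (rb : ℝ) := by
        have := Nat.cast_sub (R := ℝ) y6
        push_cast at this
        exact this
      rw [e2]
      linarith

end FreezeTag

end

section

/-!
# Freeze-Tag, part A: the stream checker on pieces of a stream

The streams of the big certificates are cut into pieces; the stack of goals between two pieces is
written down explicitly.
-/

namespace FreezeTag

/-- equality of two states, Boolean form -/
def eqSt (a b : St) : Bool :=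
  and (and (and (Nat.beq a.Ra b.Ra) (Nat.beq a.Rb b.Rb))
      (and (Nat.beq a.c0 b.c0) (Nat.beq a.c1 b.c1)))
    (and (and (Nat.beq a.t0 b.t0) (Nat.beq a.t1 b.t1))
      (and (Nat.beq a.t2 b.t2) (Nat.beq a.t3 b.t3)))

theorem eqSt_sound {a b : St} (h : eqSt a b = true) : a = b := by
  rcases a with ⟨a1, a2, a3, a4, a5, a6, a7, a8⟩
  rcases b with ⟨b1, b2, b3, b4, b5, b6, b7, b8⟩
  unfold eqSt at h
  simp only [Bool.and_eq_true] at h
  obtain ⟨⟨⟨h1, h2⟩, h3, h4⟩, ⟨h5, h6⟩, h7, h8⟩ := h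
  rw [Nat.eq_of_beq_eq_true h1, Nat.eq_of_beq_eq_true h2, Nat.eq_of_beq_eq_true h3,
    Nat.eq_of_beq_eq_true h4, Nat.eq_of_beq_eq_true h5, Nat.eq_of_beq_eq_true h6,
    Nat.eq_of_beq_eq_true h7, Nat.eq_of_beq_eq_true h8]

/-- equality of two stacks of goals, Boolean form -/
def eqGs : List Goal → List Goal → Bool
  | [], [] => true
  | [], _ :: _ => false
  | _ :: _, [] => false
  | a :: as, b :: bs => and (and (eqSt a.s b.s) (Nat.beq a.S b.S)) (eqGs as bs)

theorem eqGs_sound : ∀ {as bs : List Goal}, eqGs as bs = true → as = bs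
  | [], [], _ => rfl
  | [], _ :: _, h => by simp [eqGs] at h
  | _ :: _, [], h => by simp [eqGs] at h
  | ⟨s, S⟩ :: as, ⟨s', S'⟩ :: bs, h => by
    unfold eqGs at h
    rw [Bool.and_eq_true, Bool.and_eq_true] at h
    obtain ⟨⟨h1, h2⟩, h3⟩ := h
    have e1 : s = s' := eqSt_sound h1
    have e2 : S = S' := Nat.eq_of_beq_eq_true h2
    rw [eqGs_sound h3, e1, e2]

/-- the stream checker on a piece of a stream: it ends with the stack `g1` -/
def runB (L g R0 rd kn kd' : ℕ) (g1 : List Goal) (l : List ℕ) : List Goal → Bool :=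
  List.rec (motive := fun _ => List Goal → Bool) (fun gs => eqGs gs g1)
    (fun e _ ih gs => entryT L g R0 rd kn kd' e ih gs) l

theorem runB_sound {L C g rd kn kd' : ℕ} (hκ : FlatK ((kn : ℝ) / kd')) (hkd : 0 < kd')
    (hg : 0 < g) (hR : MonoR L rd) {g1 : List Goal} (h1 : ∀ G ∈ g1, GoalOK L g rd G) :
    ∀ (l : List ℕ) (gs : List Goal),
    runB L g (rowsM L C) rd kn kd' g1 l gs = true → ∀ G ∈ gs, GoalOK L g rd G := by
  intro l
  induction l with
  | nil =>
    intro gs h G hG
    have h' : eqGs gs g1 = true := h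
    rw [eqGs_sound h'] at hG
    exact h1 G hG
  | cons e l ih =>
    intro gs h
    exact entryT_sound hκ hkd hg hR ih h

/-- the check of a piece -/
def segT (L C g rd kn kd' : ℕ) (l : List ℕ) (g0 g1 : List Goal) : Bool :=
  force (rowsM L C) fun R0 => runB L g R0 rd kn kd' g1 l g0

/-- all goals of a stack are fulfilled, provided that the radii increase -/
def StackOK (L g rd : ℕ) (gs : List Goal) : Prop :=
  0 < g → MonoR L rd → ∀ G ∈ gs, GoalOK L g rd G

theorem stackOK_nil (L g rd : ℕ) : StackOK L g rd [] := by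
  intro _ _ G hG
  simp at hG

theorem segT_sound {L C g rd : ℕ} {l : List ℕ} {g0 g1 : List Goal} (hκ : FlatK (5 / 4))
    (h : segT L C g rd 5 4 l g0 g1 = true) (h1 : StackOK L g rd g1) : StackOK L g rd g0 := by
  intro hg hR
  unfold segT at h
  rw [force_eq] at h
  exact runB_sound (kn := 5) (kd' := 4) (by norm_num; exact hκ) (by norm_num) hg hR (h1 hg hR) l _ h

/-- the header of a block: all conditions except for the stream -/
def headT (L C g rd rb : ℕ) (g0 : List Goal) : Bool :=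
  and (and (and (Nat.beq (Nat.mul C g) 360) (Nat.ble 1 L)) (and (monoB rd L)
      (Nat.beq (rad rd L) 100000)))
    (and (and (Nat.ble (rad rd 0) rb) (Nat.ble rb 382842))
      (eqGs g0 [⟨⟨rad rd 0, rb, 0, 0, Nat.sub 382842 (rad rd 0), Nat.sub 382842 (rad rd 0),
        Nat.sub 382842 rb, Nat.sub 382842 rb⟩, Nat.sub (Nat.pow 2 (Nat.mul L C)) 1⟩]))

theorem headT_sound {L C g rd rb : ℕ} {g0 : List Goal}
    (h : headT L C g rd rb g0 = true) (hs : StackOK L g rd g0) :
    BlockA ((rad rd 0 : ℝ) / 100000) ((rb : ℝ) / 100000) := by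
  unfold headT at h
  rw [Bool.and_eq_true, Bool.and_eq_true, Bool.and_eq_true, Bool.and_eq_true, Bool.and_eq_true,
    Bool.and_eq_true] at h
  obtain ⟨⟨⟨x1, x2⟩, x3, x4⟩, ⟨x5, x6⟩, x7⟩ := h
  have y1 : C * g = 360 := Nat.eq_of_beq_eq_true x1
  have y2 : 1 ≤ L := Nat.le_of_ble_eq_true x2
  have y3 := monoB_sound x3
  have y4 : rad rd L = 100000 := Nat.eq_of_beq_eq_true x4
  have y5 : rad rd 0 ≤ rb := Nat.le_of_ble_eq_true x5
  have y6 : rb ≤ 382842 := Nat.le_of_ble_eq_true x6
  have hg : 0 < g := by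
    rcases Nat.eq_zero_or_pos g with h0 | h0
    · rw [h0, Nat.mul_zero] at y1; omega
    · exact h0
  have hC : 0 < C := by
    rcases Nat.eq_zero_or_pos C with h0 | h0
    · rw [h0, Nat.zero_mul] at y1; omega
    · exact h0
  have y7 := eqGs_sound x7
  rw [y7] at hs
  have hcl := hs hg y3 _ List.mem_cons_self
  have hcl2 := Claim.two_of_four hcl
  have hth0 : th g 0 = 0 := by unfold th; simp
  have hthC : th g C = Real.pi := by
    unfold th
    rw [y1]
    push_cast
    ring
  have hT1 : (3.82842 : ℝ) ≤ 1 + 2 * Real.sqrt 2 := by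
    have := target_num
    linarith
  refine blockA_of_claim (T := 3.82842) (R := Reg L g rd (Nat.sub (Nat.pow 2 (Nat.mul L C)) 1))
    ?_ hT1 ?_ ?_
  · have : (rad rd 0 : ℝ) ≤ rb := by exact_mod_cast y5
    linarith
  · intro z hz
    have hz' : z ∈ PR ((fun i => (rad rd i : ℝ) / 100000) 0) ((fun i => (rad rd i : ℝ) / 100000) L)
        (th g 0) (th g C) := by
      have e : (fun i => (rad rd i : ℝ) / 100000) L = 1 := by
        show (rad rd L : ℝ) / 100000 = 1
        rw [y4]; norm_num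
      rw [e, hth0, hthC]
      exact hz
    obtain ⟨i, c, hi, hc, hz2⟩ := PR_cover (ρs := fun i => (rad rd i : ℝ) / 100000) (θs := th g)
      (by omega) hC hz'
    refine ⟨c, i, hi, ?_, hz2⟩
    have e : Nat.sub (Nat.pow 2 (Nat.mul L C)) 1 = 2 ^ (L * C) - 1 := rfl
    rw [e, Nat.testBit_two_pow_sub_one]
    refine decide_eq_true ?_
    calc c * L + i < c * L + L := by omega
      _ = (c + 1) * L := by ring
      _ ≤ C * L := Nat.mul_le_mul_right L hc
      _ = L * C := Nat.mul_comm _ _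
  · have e1 : (![pol ((rad rd 0 : ℝ) / 100000) 0, pol ((rb : ℝ) / 100000) 0] : Fin 2 → ℂ) =
        ![pol ((rad rd 0 : ℝ) / 100000) (th g 0), pol ((rb : ℝ) / 100000) (th g 0)] := by
      rw [hth0]
    rw [e1]
    refine Claim.mono hcl2 (fun a => ?_) (fun z hz => hz)
    have y7 : rad rd 0 ≤ 382842 := y5.trans y6
    fin_cases a
    · show ((Nat.sub 382842 (rad rd 0) : ℕ) : ℝ) / 100000 ≤ 3.82842 - (rad rd 0 : ℝ) / 100000
      have e2 : ((Nat.sub 382842 (rad rd 0) : ℕ) : ℝ) = 382842 - (rad rd 0 : ℝ) := by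
        have := Nat.cast_sub (R := ℝ) y7
        push_cast at this
        exact this
      rw [e2]
      linarith
    · show ((Nat.sub 382842 rb : ℕ) : ℝ) / 100000 ≤ 3.82842 - (rb : ℝ) / 100000
      have e2 : ((Nat.sub 382842 rb : ℕ) : ℝ) = 382842 - (rb : ℝ) := by
        have := Nat.cast_sub (R := ℝ) y6
        push_cast at this
        exact this
      rw [e2]
      linarith

end FreezeTag

end
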